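import Pool.Agent.ExpMax.Defs

set_option autoImplicit false

/-!
# Targets for the large exponent theorem (see `Blueprint.lean.txt` for the proofs)
-/

noncomputable section

open MeasureTheory Set Filter
open scoped ENNReal RealInnerProductSpace Topology

namespace Pool.Agent.ExpMax

/-! ### The unit sphere of a Euclidean space -/

/-- The normalised surface measure (a probability measure) of the unit sphere of `F`. -/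
def prb (F : Type) [NormedAddCommGroup F] [InnerProductSpace ℝ F] [FiniteDimensional ℝ F]
    [MeasurableSpace F] [BorelSpace F] : Measure (Metric.sphere (0 : F) 1) :=
  ((volume : Measure F).toSphere univ)⁻¹ • (volume : Measure F).toSphere

section

variable {F : Type} [NormedAddCommGroup F] [InnerProductSpace ℝ F] [FiniteDimensional ℝ F]
    [MeasurableSpace F] [BorelSpace F]

/-- Fourier extension for the normalised measure of the unit sphere. -/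
def Ext (f : Metric.sphere (0 : F) 1 → ℂ) (y : F) : ℂ :=
  ∫ ω, f ω * Complex.exp (-(Complex.I * ((⟪(ω : F), y⟫ : ℝ) : ℂ))) ∂(prb F)

/-- The extension of the constant function `1`. -/
def u0 (y : F) : ℝ := ∫ ω, Real.cos ⟪(ω : F), y⟫ ∂(prb F)

/-- Action of a linear isometry on the sphere. -/
def rot (R : F ≃ₗᵢ[ℝ] F) (ω : Metric.sphere (0 : F) 1) : Metric.sphere (0 : F) 1 :=
  ⟨R ω, by simp⟩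

end

/-- The remainder in the pointwise inequality. -/
def Rem (p B : ℝ) (v : ℂ) : ℝ :=
  p / 2 * |B| ^ (p - 2) * ‖v‖ ^ 2 +
    p ^ 2 / 4 * (max |B| ‖(B : ℂ) + v‖) ^ (p - 4) * (2 * B * v.re + ‖v‖ ^ 2) ^ 2

/-- INV -/
def T_INV : Prop := ∀ (F : Type) [NormedAddCommGroup F] [InnerProductSpace ℝ F]
  [FiniteDimensional ℝ F] [MeasurableSpace F] [BorelSpace F], 1 ≤ Module.finrank ℝ F →
  IsProbabilityMeasure (prb F) ∧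
    ∀ R : F ≃ₗᵢ[ℝ] F, MeasurePreserving (rot R) (prb F) (prb F)

/-- BASIC (deps INV) -/
def T_BASIC : Prop := ∀ (F : Type) [NormedAddCommGroup F] [InnerProductSpace ℝ F]
  [FiniteDimensional ℝ F] [MeasurableSpace F] [BorelSpace F], 1 ≤ Module.finrank ℝ F →
  (∀ y : F, Ext (fun _ => 1) y = ((u0 y : ℝ) : ℂ)) ∧ Continuous (u0 : F → ℝ) ∧
  (∀ y y' : F, ‖y‖ = ‖y'‖ → u0 y = u0 y') ∧ (∀ y : F, |u0 y| ≤ 1) ∧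
  (∀ y : F, 1 - ‖y‖ ^ 2 / 2 ≤ u0 y) ∧
  (∀ y : F, ∫ ω, ⟪(ω : F), y⟫ ^ 2 ∂(prb F) = ‖y‖ ^ 2 / Module.finrank ℝ F) ∧
  (∀ y : F, ‖y‖ ≤ 1 → u0 y ≤ 1 - 1 / (5 * (Module.finrank ℝ F : ℝ)) * ‖y‖ ^ 2)

/-- ROTD (deps INV): integration by parts on the sphere (derivative of a rotation) -/
def T_ROTD : Prop := ∀ (F : Type) [NormedAddCommGroup F] [InnerProductSpace ℝ F]
  [FiniteDimensional ℝ F] [MeasurableSpace F] [BorelSpace F], 1 ≤ Module.finrank ℝ F →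
  ∀ e e' : F, ‖e‖ = 1 → ‖e'‖ = 1 → ⟪e, e'⟫ = 0 → ∀ r : ℝ,
    r * ∫ ω, ⟪(ω : F), e'⟫ ^ 2 * Real.cos (r * ⟪(ω : F), e⟫) ∂(prb F) =
      ∫ ω, ⟪(ω : F), e⟫ * Real.sin (r * ⟪(ω : F), e⟫) ∂(prb F)

/-- ODEAN: pure analysis of the Bessel equation. -/
def T_ODEAN : Prop := ∀ (n : ℝ) (U U1 U2 : ℝ → ℝ), 1 ≤ n →
  (∀ r, HasDerivAt U (U1 r) r) → (∀ r, HasDerivAt U1 (U2 r) r) → Continuous U2 →
  (∀ r, 0 < r → U2 r + n / r * U1 r + U r = 0) → U 0 = 1 → U1 0 = 0 →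
  (∀ c : ℝ, 0 < c → (∀ r, 0 ≤ r → r ≤ 1 → U r ≤ 1 - c * r ^ 2) →
    ∃ κ : ℝ, 0 < κ ∧ κ < 1 ∧ ∀ r, 1 ≤ r → |U r| ≤ 1 - κ) ∧
  (∃ C : ℝ, 0 < C ∧ ∀ r, 0 ≤ r → |U r| ≤ C * (1 + r) ^ (-(1 / 2) : ℝ))

/-- DECAY (deps INV BASIC ROTD ODEAN) -/
def T_DECAY : Prop := ∀ (F : Type) [NormedAddCommGroup F] [InnerProductSpace ℝ F]
  [FiniteDimensional ℝ F] [MeasurableSpace F] [BorelSpace F], 2 ≤ Module.finrank ℝ F →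
  (∃ κ : ℝ, 0 < κ ∧ κ < 1 ∧ ∀ y : F, 1 ≤ ‖y‖ → |u0 y| ≤ 1 - κ) ∧
  (∃ q : ℝ, 4 ≤ q ∧ Integrable (fun y : F => |u0 y| ^ (q / 2)))

/-- EXTC (deps INV): the extension is bounded and Lipschitz. -/
def T_EXTC : Prop := ∀ (F : Type) [NormedAddCommGroup F] [InnerProductSpace ℝ F]
  [FiniteDimensional ℝ F] [MeasurableSpace F] [BorelSpace F], 1 ≤ Module.finrank ℝ F →
  ∀ f : Metric.sphere (0 : F) 1 → ℂ, Integrable f (prb F) →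
    Continuous (Ext f) ∧ (∀ y, ‖Ext f y‖ ≤ ∫ ω, ‖f ω‖ ∂(prb F)) ∧
    (∀ y y', ‖Ext f y - Ext f y'‖ ≤ (∫ ω, ‖f ω‖ ∂(prb F)) * ‖y - y'‖)

/-- TT (deps INV BASIC EXTC): the extension inequality by `T T*` and Young's inequality. -/
def T_TT : Prop := ∀ (F : Type) [NormedAddCommGroup F] [InnerProductSpace ℝ F]
  [FiniteDimensional ℝ F] [MeasurableSpace F] [BorelSpace F], 1 ≤ Module.finrank ℝ F →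
  ∀ q : ℝ, 2 < q → Integrable (fun y : F => |u0 y| ^ (q / 2)) →
  ∀ f : Metric.sphere (0 : F) 1 → ℂ, MemLp f 2 (prb F) →
    Integrable (fun y => ‖Ext f y‖ ^ q) ∧
    ∫ y, ‖Ext f y‖ ^ q ≤ (∫ y : F, |u0 y| ^ (q / 2)) * (∫ ω, ‖f ω‖ ^ 2 ∂(prb F)) ^ (q / 2)

/-- MAXPT (deps INV EXTC) -/
def T_MAXPT : Prop := ∀ (F : Type) [NormedAddCommGroup F] [InnerProductSpace ℝ F]
  [FiniteDimensional ℝ F] [MeasurableSpace F] [BorelSpace F], 1 ≤ Module.finrank ℝ F →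
  ∀ q : ℝ, 1 ≤ q → ∀ f : Metric.sphere (0 : F) 1 → ℂ, Integrable f (prb F) →
    Integrable (fun y => ‖Ext f y‖ ^ q) → ∃ y₀, ∀ y, ‖Ext f y‖ ≤ ‖Ext f y₀‖

/-- ORTH (deps INV BASIC) -/
def T_ORTH : Prop := ∀ (F : Type) [NormedAddCommGroup F] [InnerProductSpace ℝ F]
  [FiniteDimensional ℝ F] [MeasurableSpace F] [BorelSpace F], 1 ≤ Module.finrank ℝ F →
  ∀ s : ℝ, 1 ≤ s → Integrable (fun y : F => |u0 y| ^ s) →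
  ∀ g : Metric.sphere (0 : F) 1 → ℂ, Integrable g (prb F) → ∫ ω, g ω ∂(prb F) = 0 →
    ∫ y : F, |u0 y| ^ (s - 1) * u0 y * (Ext g y).re = 0

/-- PTW -/
def T_PTW : Prop := ∀ (p B : ℝ) (v : ℂ), 4 ≤ p →
  ‖(B : ℂ) + v‖ ^ p ≤ |B| ^ p + p * (|B| ^ (p - 2) * B * v.re) + Rem p B v

/-- RNEAR -/
def T_RNEAR : Prop := ∀ c A : ℝ, 0 < c → c ≤ 1 / 2 → 0 < A →
  ∃ C c' p₀ : ℝ, 0 < C ∧ 0 < c' ∧ ∀ p, p₀ ≤ p → ∀ (m ε t U : ℝ) (v : ℂ),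
    0 ≤ m → m ≤ 1 → 0 ≤ ε → ε ^ 2 ≤ A * Real.log p / p → 0 ≤ t → t ≤ 1 →
    1 - t ^ 2 / 2 ≤ U → U ≤ 1 - c * t ^ 2 → ‖v‖ ≤ 1 → ‖v‖ ≤ t → |v.re| ≤ t ^ 2 →
    Rem p (m * U) ((ε : ℂ) * v) ≤ C * ε ^ 2 * Real.exp (-(c' * p * t ^ 2))

/-- RFAR -/
def T_RFAR : Prop := ∀ κ q p : ℝ, 0 < κ → κ < 1 → 1 ≤ q → q + 4 ≤ p →
  ∀ (m ε U : ℝ) (v : ℂ), 0 ≤ m → m ≤ 1 → 0 ≤ ε → ε ≤ κ / 2 → |U| ≤ 1 - κ → ‖v‖ ≤ 1 →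
    Rem p (m * U) ((ε : ℂ) * v) ≤
      3 * p ^ 2 * ε ^ 2 * (1 - κ / 2) ^ (p - 4 - q) * (2 ^ q * (|U| ^ q + ‖v‖ ^ q))

/-- IP: lower bound for the integral of `|U| ^ p`. -/
def T_IP : Prop := ∀ (F : Type) [NormedAddCommGroup F] [InnerProductSpace ℝ F]
  [FiniteDimensional ℝ F] [MeasurableSpace F] [BorelSpace F], 1 ≤ Module.finrank ℝ F →
  ∃ c₁ : ℝ, 0 < c₁ ∧ ∀ U : F → ℝ, Continuous U → (∀ y, 1 - ‖y‖ ^ 2 / 2 ≤ U y) →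
    ∀ p : ℝ, 1 ≤ p → Integrable (fun y => |U y| ^ p) →
      c₁ * p ^ (-((Module.finrank ℝ F : ℝ) / 2)) ≤ ∫ y, |U y| ^ p

/-- HEART (deps PTW RNEAR RFAR IP) -/
def T_HEART : Prop := ∀ (F : Type) [NormedAddCommGroup F] [InnerProductSpace ℝ F]
  [FiniteDimensional ℝ F] [MeasurableSpace F] [BorelSpace F], 1 ≤ Module.finrank ℝ F →
  ∀ c κ q K A : ℝ, 0 < c → c ≤ 1 / 2 → 0 < κ → κ < 1 → 1 ≤ q → 0 < K → 0 < A →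
  ∃ C p₀ : ℝ, 0 < C ∧ ∀ p, p₀ ≤ p → ∀ (U : F → ℝ) (v : F → ℂ) (m ε : ℝ),
    Continuous U → Continuous v → (∀ y, |U y| ≤ 1) → (∀ y, 1 - ‖y‖ ^ 2 / 2 ≤ U y) →
    (∀ y, ‖y‖ ≤ 1 → U y ≤ 1 - c * ‖y‖ ^ 2) → (∀ y, 1 ≤ ‖y‖ → |U y| ≤ 1 - κ) →
    Integrable (fun y => |U y| ^ q) → ∫ y, |U y| ^ q ≤ K →
    (∀ y, ‖v y‖ ≤ 1) → (∀ y, ‖v y‖ ≤ ‖y‖) → (∀ y, ‖y‖ ≤ 1 → |(v y).re| ≤ ‖y‖ ^ 2) →
    Integrable (fun y => ‖v y‖ ^ q) → ∫ y, ‖v y‖ ^ q ≤ K →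
    ∫ y, |U y| ^ (p - 2) * U y * (v y).re = 0 →
    0 ≤ m → m ≤ 1 → 0 ≤ ε → ε ^ 2 ≤ A * Real.log p / p →
    ∫ y, ‖((m * U y : ℝ) : ℂ) + (ε : ℂ) * v y‖ ^ p ≤ (m ^ p + C * ε ^ 2) * ∫ y, |U y| ^ p

/-- CASEA -/
def T_CASEA : Prop := ∀ D q K c₁ : ℝ, 0 < D → 1 ≤ q → 0 < K → 0 < c₁ →
  ∃ A p₀ : ℝ, 0 < A ∧ ∀ p, p₀ ≤ p → ∀ m : ℝ, 0 ≤ m → m ≤ 1 →
    A * Real.log p / p ≤ 1 - m ^ 2 → m ^ (p - q) * K < c₁ * p ^ (-(D / 2))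

/-- NUM -/
def T_NUM : Prop := ∀ C A : ℝ, 0 < C → 0 < A → ∃ p₀ : ℝ, ∀ p, p₀ ≤ p → ∀ m ε : ℝ,
  0 ≤ m → 0 < ε → m ^ 2 + ε ^ 2 = 1 → ε ^ 2 ≤ A * Real.log p / p → m ^ p + C * ε ^ 2 < 1

/-- VPROP (deps INV BASIC EXTC) -/
def T_VPROP : Prop := ∀ (F : Type) [NormedAddCommGroup F] [InnerProductSpace ℝ F]
  [FiniteDimensional ℝ F] [MeasurableSpace F] [BorelSpace F], 1 ≤ Module.finrank ℝ F →
  ∀ f : Metric.sphere (0 : F) 1 → ℂ, MemLp f 2 (prb F) → ∫ ω, ‖f ω‖ ^ 2 ∂(prb F) = 1 →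
  ∀ m : ℝ, 0 < m → Ext f 0 = (m : ℂ) → (∀ y, ‖Ext f y‖ ≤ m) →
  ∃ (ε : ℝ) (g : Metric.sphere (0 : F) 1 → ℂ), 0 ≤ ε ∧ m ≤ 1 ∧ m ^ 2 + ε ^ 2 = 1 ∧
    MemLp g 2 (prb F) ∧ ∫ ω, ‖g ω‖ ^ 2 ∂(prb F) ≤ 1 ∧ ∫ ω, g ω ∂(prb F) = 0 ∧
    (∀ᵐ ω ∂(prb F), f ω = (m : ℂ) + (ε : ℂ) * g ω) ∧
    (∀ y, Ext f y = ((m * u0 y : ℝ) : ℂ) + (ε : ℂ) * Ext g y) ∧
    (∀ y, ‖Ext g y‖ ≤ 1) ∧ (∀ y, ‖Ext g y‖ ≤ ‖y‖) ∧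
    (∀ y, ‖y‖ ≤ 1 → |(Ext g y).re| ≤ ‖y‖ ^ 2)

/-- NORMAL (deps INV EXTC): modulation and multiplication by a unimodular constant. -/
def T_NORMAL : Prop := ∀ (F : Type) [NormedAddCommGroup F] [InnerProductSpace ℝ F]
  [FiniteDimensional ℝ F] [MeasurableSpace F] [BorelSpace F], 1 ≤ Module.finrank ℝ F →
  ∀ f : Metric.sphere (0 : F) 1 → ℂ, MemLp f 2 (prb F) → ∀ y₀ : F, Ext f y₀ ≠ 0 →
  ∃ f' : Metric.sphere (0 : F) 1 → ℂ, MemLp f' 2 (prb F) ∧ (∀ ω, ‖f' ω‖ = ‖f ω‖) ∧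
    Ext f' 0 = ((‖Ext f y₀‖ : ℝ) : ℂ) ∧ ∀ y, ‖Ext f' y‖ = ‖Ext f (y + y₀)‖

/-- CORE (all the above) -/
def T_CORE : Prop := ∀ (F : Type) [NormedAddCommGroup F] [InnerProductSpace ℝ F]
  [FiniteDimensional ℝ F] [MeasurableSpace F] [BorelSpace F], 2 ≤ Module.finrank ℝ F →
  ∃ p₀ : ℝ, 4 ≤ p₀ ∧ ∀ p, p₀ ≤ p →
    Integrable (fun y : F => |u0 y| ^ p) ∧ 0 < ∫ y : F, |u0 y| ^ p ∧
    ∀ f : Metric.sphere (0 : F) 1 → ℂ, MemLp f 2 (prb F) →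
      Integrable (fun y => ‖Ext f y‖ ^ p) ∧
      ∫ y, ‖Ext f y‖ ^ p ≤ (∫ y : F, |u0 y| ^ p) * (∫ ω, ‖f ω‖ ^ 2 ∂(prb F)) ^ (p / 2) ∧
      (∫ y, ‖Ext f y‖ ^ p = (∫ y : F, |u0 y| ^ p) * (∫ ω, ‖f ω‖ ^ 2 ∂(prb F)) ^ (p / 2) →
        ∃ a : ℝ, ∀ᵐ ω ∂(prb F), ‖f ω‖ = a)

/-! ### The conic sections -/

/-- `W` in coordinates `(s, ξ)`, as a Euclidean space. -/
abbrev Fd (d : ℕ) : Type := WithLp 2 (ℝ × Ed d)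

/-- The parametrisation of an ellipsoidal section by the unit sphere. -/
def ellPt (α β γ s₀ κ R : ℝ) {d : ℕ} (ω : Metric.sphere (0 : Fd d) 1) : Pt d :=
  planePt α β γ (s₀ + κ * R * (ω : Fd d).fst) (R • (ω : Fd d).snd)

/-- SLICE -/
def T_SLICE : Prop := ∀ d : ℕ, 1 ≤ d →
  Measure.map (fun ω : Metric.sphere (0 : Fd d) 1 => ((ω : Fd d).fst, (ω : Fd d).snd))
      (volume : Measure (Fd d)).toSphere =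
    Measure.map (fun x : ℝ × Metric.sphere (0 : Ed d) 1 => (x.1, √(1 - x.1 ^ 2) • (x.2 : Ed d)))
      (((volume.restrict (Ioo (-1 : ℝ) 1)).withDensity
        (fun h => ENNReal.ofReal ((1 - h ^ 2) ^ (((d : ℝ) - 2) / 2)))).prod
        (volume : Measure (Ed d)).toSphere)

/-- ELL (deps SLICE) -/
def T_ELL : Prop := ∀ (d : ℕ) (α β γ : ℝ), 1 ≤ d → |β| < |α| → γ ≠ 0 →
  ∃ s₀ κ R τ₀ τ₁ c : ℝ, 0 < κ ∧ 0 < R ∧ 0 < c ∧ (β = 0 → τ₁ = 0) ∧ (β ≠ 0 → τ₁ ≠ 0) ∧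
    (∀ ω : Metric.sphere (0 : Fd d) 1,
      |(ellPt α β γ s₀ κ R ω).1| = τ₀ + τ₁ * (ω : Fd d).fst) ∧
    sectionMeasure α β γ d =
      ENNReal.ofReal c • Measure.map (ellPt α β γ s₀ κ R) (prb (Fd d))

/-- NORMS -/
def T_NORMS : Prop := ∀ (d : ℕ) (α β γ s₀ κ R c p : ℝ), 1 ≤ d → α ≠ 0 → 0 < κ → 0 < R → 0 < c →
  0 < p → sectionMeasure α β γ d =
      ENNReal.ofReal c • Measure.map (ellPt α β γ s₀ κ R) (prb (Fd d)) →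
  ∃ c₂ : ℝ, 0 < c₂ ∧ ∀ f : Pt d → ℂ,
    ∫⁻ y, ‖extension α β γ f y‖ₑ ^ p ∂(planeMeasure α β γ d) =
      ENNReal.ofReal c₂ * ∫⁻ z : Fd d, ‖Ext (fun ω => f (ellPt α β γ s₀ κ R ω)) z‖ₑ ^ p

/-- BLOW: for large `p` the best constant of an unbounded section is infinite. -/
def T_BLOW : Prop := ∀ (d : ℕ) (α β γ p : ℝ), 1 ≤ d → (α, β) ≠ (0, 0) →
  (γ ≠ 0 ∨ |α| < |β|) → |α| ≤ |β| → (d = 1 → |β| ≤ |α|) → 4 * (d : ℝ) + 8 ≤ p →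
  bestConst α β γ d p = ∞

/-- MAIN (deps CORE ELL NORMS BLOW) -/
def T_MAIN : Prop := ∀ d : ℕ, 1 ≤ d → ∃ p₀ : ℝ, ∀ p, p₀ ≤ p → ∀ α β γ : ℝ,
  (α, β) ≠ (0, 0) → (γ ≠ 0 ∨ |α| < |β|) → (d = 1 → |β| ≤ |α|) →
  (IsMaximizer α β γ p (expTau : Pt d → ℂ) ↔ β = 0)

end Pool.Agent.ExpMax
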