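import Mathlib
import Pool.Agent.ExpMax.Targets

set_option autoImplicit false

/-!
# Basic facts on the extension of the constant function
-/

noncomputable section

open MeasureTheory Set Filter
open scoped ENNReal RealInnerProductSpace Topology

namespace Pool.Agent.ExpMax

section

variable {F : Type} [NormedAddCommGroup F] [InnerProductSpace ℝ F] [FiniteDimensional ℝ F]
    [MeasurableSpace F] [BorelSpace F]

lemma BASIC_inv {G : Type} [NormedAddCommGroup G] [NormedSpace ℝ G]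
    {R : F ≃ₗᵢ[ℝ] F} (hR : MeasurePreserving (rot R) (prb F) (prb F))
    {g : Metric.sphere (0 : F) 1 → G} (hg : Continuous g) :
    ∫ ω, g (rot R ω) ∂(prb F) = ∫ ω, g ω ∂(prb F) := by
  conv_rhs => rw [← hR.map_eq]
  rw [integral_map hR.measurable.aemeasurable hg.aestronglyMeasurable]

lemma BASIC_int {G : Type} [NormedAddCommGroup G] [NormedSpace ℝ G]
    [IsProbabilityMeasure (prb F)] {g : Metric.sphere (0 : F) 1 → G} (hg : Continuous g) :
    Integrable g (prb F) := by
  have h := hg.integrable_of_hasCompactSupport (μ := prb F)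
    (HasCompactSupport.of_compactSpace g)
  exact h

lemma BASIC_cont (y : F) : Continuous fun ω : Metric.sphere (0 : F) 1 => ⟪(ω : F), y⟫ :=
  Continuous.inner continuous_subtype_val continuous_const

lemma BASIC_le (y : F) (ω : Metric.sphere (0 : F) 1) : |⟪(ω : F), y⟫| ≤ ‖y‖ := by
  have h := abs_real_inner_le_norm (ω : F) y
  have h2 : ‖(ω : F)‖ = 1 := by simpa using ω.2
  rwa [h2, one_mul] at h

/-- Invariance of radial type integrals. -/
lemma BASIC_radial (h : ∀ R : F ≃ₗᵢ[ℝ] F, MeasurePreserving (rot R) (prb F) (prb F))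
    {φ : ℝ → ℝ} (hφ : Continuous φ) {y y' : F} (hy : ‖y‖ = ‖y'‖) :
    ∫ ω : Metric.sphere (0 : F) 1, φ ⟪(ω : F), y⟫ ∂(prb F) =
      ∫ ω : Metric.sphere (0 : F) 1, φ ⟪(ω : F), y'⟫ ∂(prb F) := by
  set R : F ≃ₗᵢ[ℝ] F := (Submodule.span ℝ {y - y'})ᗮ.reflection with hR
  have hRy : R y = y' := Submodule.reflection_sub hy
  have h1 := BASIC_inv (h R) (g := fun ω : Metric.sphere (0 : F) 1 => φ ⟪(ω : F), y'⟫)
    (hφ.comp (BASIC_cont y'))
  rw [← h1]
  refine integral_congr_ae (Eventually.of_forall fun ω => ?_)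
  show φ ⟪(ω : F), y⟫ = φ ⟪R (ω : F), y'⟫
  rw [← hRy, R.inner_map_map]

end

/-- BASIC -/
theorem tBASIC (hI : T_INV) : T_BASIC := by
  intro F _ _ _ _ _ hF
  obtain ⟨hprob, hrot⟩ := hI F hF
  have hsq : ∀ y : F, ∫ ω : Metric.sphere (0 : F) 1, ⟪(ω : F), y⟫ ^ 2 ∂(prb F) =
      ‖y‖ ^ 2 / Module.finrank ℝ F := by
    intro y
    have hD : 0 < Module.finrank ℝ F := hF
    set b := stdOrthonormalBasis ℝ F with hb
    have hJ : ∀ z z' : F, ‖z‖ = ‖z'‖ → ∫ ω : Metric.sphere (0 : F) 1, ⟪(ω : F), z⟫ ^ 2 ∂(prb F) =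
        ∫ ω : Metric.sphere (0 : F) 1, ⟪(ω : F), z'⟫ ^ 2 ∂(prb F) := fun z z' hz =>
      BASIC_radial hrot (φ := fun x => x ^ 2) (by fun_prop) hz
    have hsum : ∑ i, ∫ ω : Metric.sphere (0 : F) 1, ⟪(ω : F), b i⟫ ^ 2 ∂(prb F) = 1 := by
      have hint : ∀ i, Integrable (fun ω : Metric.sphere (0 : F) 1 => ⟪(ω : F), b i⟫ ^ 2) (prb F) :=
        fun i => BASIC_int ((BASIC_cont (b i)).pow 2)
      rw [← integral_finset_sum _ fun i _ => hint i]
      have : ∀ ω : Metric.sphere (0 : F) 1, ∑ i, ⟪(ω : F), b i⟫ ^ 2 = 1 := by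
        intro ω
        have h1 := b.sum_sq_norm_inner_left (ω : F)
        have h2 : ‖(ω : F)‖ = 1 := by simpa using ω.2
        rw [h2] at h1
        simpa [sq_abs] using h1
      simp [this]
    set i₀ : Fin (Module.finrank ℝ F) := ⟨0, hD⟩
    have hall : ∀ i, ∫ ω : Metric.sphere (0 : F) 1, ⟪(ω : F), b i⟫ ^ 2 ∂(prb F) =
        ∫ ω : Metric.sphere (0 : F) 1, ⟪(ω : F), b i₀⟫ ^ 2 ∂(prb F) := fun i =>
      hJ _ _ (by simp)
    rw [Finset.sum_congr rfl fun i _ => hall i, Finset.sum_const, Finset.card_univ,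
      Fintype.card_fin, nsmul_eq_mul] at hsum
    have hD' : (0 : ℝ) < Module.finrank ℝ F := by exact_mod_cast hD
    have hb0 : ∫ ω : Metric.sphere (0 : F) 1, ⟪(ω : F), b i₀⟫ ^ 2 ∂(prb F) =
        1 / Module.finrank ℝ F := by
      field_simp
      linarith
    rw [hJ y (‖y‖ • b i₀) (by simp [norm_smul])]
    simp only [inner_smul_right, mul_pow]
    rw [integral_const_mul, hb0]
    ring
  refine ⟨fun y => ?_, ?_, fun y y' hy => BASIC_radial hrot Real.continuous_cos hy, fun y => ?_,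
    fun y => ?_, hsq, fun y hy => ?_⟩
  · -- (i)
    have hs : ∫ ω : Metric.sphere (0 : F) 1, Real.sin ⟪(ω : F), y⟫ ∂(prb F) = 0 := by
      have h1 := BASIC_inv (hrot (LinearIsometryEquiv.neg ℝ))
        (g := fun ω : Metric.sphere (0 : F) 1 => Real.sin ⟪(ω : F), y⟫)
        (Real.continuous_sin.comp (BASIC_cont y))
      have h2 : ∀ ω : Metric.sphere (0 : F) 1,
          Real.sin ⟪((rot (LinearIsometryEquiv.neg ℝ) ω : Metric.sphere (0 : F) 1) : F), y⟫ =
            -Real.sin ⟪(ω : F), y⟫ := by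
        intro ω
        simp [rot]
      simp only [h2, integral_neg] at h1
      linarith
    have e : ∀ ω : Metric.sphere (0 : F) 1,
        (1 : ℂ) * Complex.exp (-(Complex.I * ((⟪(ω : F), y⟫ : ℝ) : ℂ))) =
          ((Real.cos ⟪(ω : F), y⟫ : ℝ) : ℂ) - Complex.I * ((Real.sin ⟪(ω : F), y⟫ : ℝ) : ℂ) := by
      intro ω
      have : -(Complex.I * ((⟪(ω : F), y⟫ : ℝ) : ℂ)) = ((-⟪(ω : F), y⟫ : ℝ) : ℂ) * Complex.I := by
        push_cast; ring
      rw [one_mul, this, Complex.exp_mul_I, ← Complex.ofReal_cos, ← Complex.ofReal_sin,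
        Real.cos_neg, Real.sin_neg]
      push_cast
      ring
    unfold Ext u0
    simp only [e]
    have c1 : Continuous fun ω : Metric.sphere (0 : F) 1 => Real.cos ⟪(ω : F), y⟫ :=
      Real.continuous_cos.comp (BASIC_cont y)
    have c2 : Continuous fun ω : Metric.sphere (0 : F) 1 => Real.sin ⟪(ω : F), y⟫ :=
      Real.continuous_sin.comp (BASIC_cont y)
    have i1 : Integrable (fun ω : Metric.sphere (0 : F) 1 =>
        ((Real.cos ⟪(ω : F), y⟫ : ℝ) : ℂ)) (prb F) := BASIC_int (Complex.continuous_ofReal.comp c1)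
    have i2 : Integrable (fun ω : Metric.sphere (0 : F) 1 =>
        Complex.I * ((Real.sin ⟪(ω : F), y⟫ : ℝ) : ℂ)) (prb F) :=
      (BASIC_int (Complex.continuous_ofReal.comp c2)).const_mul _
    rw [integral_sub i1 i2, integral_const_mul, integral_complex_ofReal,
      integral_complex_ofReal, hs]
    simp
  · -- (ii)
    unfold u0
    refine continuous_of_dominated (bound := fun _ => 1) (fun y => ?_) (fun y => ?_)
      (integrable_const _) ?_
    · exact (Real.continuous_cos.comp (BASIC_cont y)).aestronglyMeasurable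
    · exact Eventually.of_forall fun ω => by
        rw [Real.norm_eq_abs]; exact Real.abs_cos_le_one _
    · exact Eventually.of_forall fun ω => by fun_prop
  · -- (iv)
    have h := norm_integral_le_of_norm_le_const (μ := prb F) (C := 1)
      (f := fun ω : Metric.sphere (0 : F) 1 => Real.cos ⟪(ω : F), y⟫)
      (Eventually.of_forall fun ω => by
        rw [Real.norm_eq_abs]; exact Real.abs_cos_le_one _)
    simpa [u0] using h
  · -- (v)
    have h : ∫ _ω : Metric.sphere (0 : F) 1, (1 - ‖y‖ ^ 2 / 2) ∂(prb F) ≤ u0 y := by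
      refine integral_mono (integrable_const _)
        (BASIC_int (Real.continuous_cos.comp (BASIC_cont y))) fun ω => ?_
      have h1 := Real.one_sub_sq_div_two_le_cos (x := ⟪(ω : F), y⟫)
      have h2 : ⟪(ω : F), y⟫ ^ 2 ≤ ‖y‖ ^ 2 := sq_le_sq' (by linarith [(abs_le.1 (BASIC_le y ω)).1])
        (abs_le.1 (BASIC_le y ω)).2
      show 1 - ‖y‖ ^ 2 / 2 ≤ Real.cos ⟪(ω : F), y⟫
      linarith
    simpa using h
  · -- (vii)
    have h : u0 y ≤ ∫ ω : Metric.sphere (0 : F) 1, (1 - 1 / 5 * ⟪(ω : F), y⟫ ^ 2) ∂(prb F) := by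
      refine integral_mono (BASIC_int (Real.continuous_cos.comp (BASIC_cont y)))
        (BASIC_int (continuous_const.sub (continuous_const.mul ((BASIC_cont y).pow 2))))
        fun ω => ?_
      have hx : |⟪(ω : F), y⟫| ≤ Real.pi :=
        (BASIC_le y ω).trans (hy.trans (by linarith [Real.pi_gt_three]))
      have h1 := Real.cos_le_one_sub_mul_cos_sq hx
      have h3 : 1 / 5 ≤ 2 / Real.pi ^ 2 := by
        rw [div_le_div_iff₀ (by norm_num) (by positivity)]
        have := Real.pi_lt_d2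
        nlinarith [Real.pi_pos]
      show Real.cos ⟪(ω : F), y⟫ ≤ 1 - 1 / 5 * ⟪(ω : F), y⟫ ^ 2
      nlinarith [sq_nonneg ⟪(ω : F), y⟫]
    have i3 : Integrable (fun ω : Metric.sphere (0 : F) 1 => 1 / 5 * ⟪(ω : F), y⟫ ^ 2) (prb F) :=
      (BASIC_int (g := fun ω : Metric.sphere (0 : F) 1 => ⟪(ω : F), y⟫ ^ 2)
        ((BASIC_cont y).pow 2)).const_mul _
    rw [integral_sub (integrable_const _) i3, integral_const_mul, hsq y] at h
    refine h.trans (le_of_eq ?_)
    have hD' : (Module.finrank ℝ F : ℝ) ≠ 0 := by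
      have : 0 < Module.finrank ℝ F := hF
      positivity
    simp
    field_simp

end Pool.Agent.ExpMax
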