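import Pool.Agent.ExpMax.Targets

set_option autoImplicit false

/-!
# BLOW: for large exponents the best constant of an unbounded section is infinite
-/

noncomputable section

open MeasureTheory Set Filter
open scoped ENNReal RealInnerProductSpace Topology

namespace Pool.Agent.ExpMax

/-- the coordinate `s` -/
def BLOW_S (α β : ℝ) {d : ℕ} (y : Pt d) : ℝ := (-β * y.1 + α * y.2.1) / √(α ^ 2 + β ^ 2)

/-- the constant part of the phase -/
def BLOW_T (α β γ : ℝ) {d : ℕ} (y : Pt d) : ℝ :=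
  -(γ * (α * y.1 + β * y.2.1)) / (α ^ 2 + β ^ 2)

theorem BLOW_dot (α β γ : ℝ) {d : ℕ} (s : ℝ) (ξ : Ed d) (y : Pt d) :
    dot (planePt α β γ s ξ) y = BLOW_T α β γ y + s * BLOW_S α β y + ⟪ξ, y.2.2⟫ := by
  simp only [dot, planePt, BLOW_S, BLOW_T]
  ring

theorem BLOW_pos {α β : ℝ} (h : (α, β) ≠ (0, 0)) : 0 < α ^ 2 + β ^ 2 := by
  by_contra hc
  apply h
  have h1 : α ^ 2 = 0 := by nlinarith [sq_nonneg α, sq_nonneg β]
  have h2 : β ^ 2 = 0 := by nlinarith [sq_nonneg α, sq_nonneg β]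
  rw [pow_eq_zero_iff (by norm_num)] at h1 h2
  rw [h1, h2]

theorem BLOW_Spt {α β : ℝ} (h : (α, β) ≠ (0, 0)) (γ : ℝ) {d : ℕ} (s : ℝ) (ξ : Ed d) :
    BLOW_S α β (planePt α β γ s ξ) = s := by
  have hM := BLOW_pos h
  have hN : 0 < √(α ^ 2 + β ^ 2) := Real.sqrt_pos.2 hM
  have hNN : √(α ^ 2 + β ^ 2) * √(α ^ 2 + β ^ 2) = α ^ 2 + β ^ 2 := Real.mul_self_sqrt hM.le
  simp only [planePt, BLOW_S]
  have e : -β * (-(γ * α) / (α ^ 2 + β ^ 2) - s * β / √(α ^ 2 + β ^ 2)) +
      α * (-(γ * β) / (α ^ 2 + β ^ 2) + s * α / √(α ^ 2 + β ^ 2)) =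
      s * (α ^ 2 + β ^ 2) / √(α ^ 2 + β ^ 2) := by ring
  rw [e, div_div, hNN, mul_div_assoc, div_self hM.ne', mul_one]

theorem BLOW_contS (α β : ℝ) (d : ℕ) : Continuous (fun y : Pt d => BLOW_S α β y) := by
  unfold BLOW_S
  fun_prop

/-- lower bound for an oscillating integral with phases close to a constant -/
theorem BLOW_osc {X : Type*} [MeasurableSpace X] (μ : Measure X) (A : Set X)
    (hA : MeasurableSet A) (hfin : μ A ≠ ∞) (φ : X → ℝ) (hφ : Measurable φ) (θ : ℝ)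
    (h : ∀ᵐ x ∂μ, x ∈ A → |φ x - θ| ≤ 1) :
    (μ A).toReal / 2 ≤
      ‖∫ x, A.indicator (fun _ => (1 : ℂ)) x * Complex.exp (-(Complex.I * ((φ x : ℝ) : ℂ))) ∂μ‖ := by
  have e1 : ∀ x, A.indicator (fun _ => (1 : ℂ)) x * Complex.exp (-(Complex.I * ((φ x : ℝ) : ℂ))) =
      A.indicator (fun x => Complex.exp (-(Complex.I * ((φ x : ℝ) : ℂ)))) x := by
    intro x
    by_cases hx : x ∈ A
    · simp [hx]
    · simp [hx]
  simp only [e1]
  rw [integral_indicator hA]
  have : IsFiniteMeasure (μ.restrict A) := ⟨by simpa using hfin.lt_top⟩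
  have hmeas : Measurable fun x => Complex.exp (-(Complex.I * ((φ x : ℝ) : ℂ))) := by fun_prop
  have hint : Integrable (fun x => Complex.exp (-(Complex.I * ((φ x : ℝ) : ℂ)))) (μ.restrict A) := by
    apply Integrable.of_bound hmeas.aestronglyMeasurable 1
    refine Eventually.of_forall fun x => ?_
    rw [Complex.norm_exp]
    simp
  set Z : ℂ := ∫ x in A, Complex.exp (-(Complex.I * ((φ x : ℝ) : ℂ))) ∂μ with hZ
  have e2 : Complex.exp (Complex.I * (θ : ℂ)) * Z =
      ∫ x in A, Complex.exp (-(Complex.I * ((φ x - θ : ℝ) : ℂ))) ∂μ := by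
    rw [hZ, ← integral_const_mul]
    congr 1
    ext x
    rw [← Complex.exp_add]
    congr 1
    push_cast
    ring
  have e3 : ‖Complex.exp (Complex.I * (θ : ℂ)) * Z‖ = ‖Z‖ := by
    rw [norm_mul, Complex.norm_exp]
    simp
  rw [← e3, e2]
  have hint2 : Integrable (fun x => Complex.exp (-(Complex.I * ((φ x - θ : ℝ) : ℂ))))
      (μ.restrict A) := by
    have hmeas2 : Measurable fun x => Complex.exp (-(Complex.I * ((φ x - θ : ℝ) : ℂ))) := by fun_prop
    apply Integrable.of_bound hmeas2.aestronglyMeasurable 1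
    refine Eventually.of_forall fun x => ?_
    rw [Complex.norm_exp]
    simp
  refine le_trans ?_ (Complex.re_le_norm _)
  have e4 : (∫ x in A, Complex.exp (-(Complex.I * ((φ x - θ : ℝ) : ℂ))) ∂μ).re =
      ∫ x in A, Real.cos (φ x - θ) ∂μ := by
    have := integral_re hint2
    simp only [RCLike.re_eq_complex_re] at this
    rw [← this]
    congr 1
    ext x
    have : -(Complex.I * ((φ x - θ : ℝ) : ℂ)) = ((-(φ x - θ) : ℝ) : ℂ) * Complex.I := by
      push_cast; ring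
    rw [this, Complex.exp_ofReal_mul_I_re, Real.cos_neg]
  rw [e4]
  have e5 : (μ A).toReal / 2 = ∫ _ in A, (1 / 2 : ℝ) ∂μ := by
    rw [setIntegral_const]
    simp [Measure.real]
    ring
  rw [e5]
  have hcint : Integrable (fun x => Real.cos (φ x - θ)) (μ.restrict A) := by
    have hmeas2 : Measurable fun x => Real.cos (φ x - θ) := by fun_prop
    apply Integrable.of_bound hmeas2.aestronglyMeasurable 1
    exact Eventually.of_forall fun x => Real.abs_cos_le_one _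
  apply integral_mono_ae (integrable_const _) hcint
  have h' := (ae_restrict_iff' hA).2 h
  filter_upwards [h'] with x hx
  have h1 := Real.one_sub_sq_div_two_le_cos (x := φ x - θ)
  have h2 : (φ x - θ) ^ 2 ≤ 1 := by
    rw [← sq_abs]
    have := abs_nonneg (φ x - θ)
    nlinarith
  linarith

theorem BLOW_contQ (α β γ : ℝ) : Continuous (Q α β γ) := by
  unfold Q
  fun_prop

theorem BLOW_contCone (α β γ : ℝ) (d : ℕ) :
    Continuous (fun x : ℝ × Metric.sphere (0 : Ed d) 1 => conePt α β γ x.1 x.2) := by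
  have := BLOW_contQ α β γ
  unfold conePt planePt
  fun_prop

theorem BLOW_mass {d : ℕ} {α β : ℝ} (h : (α, β) ≠ (0, 0)) (γ lo T κ : ℝ)
    (hT : 0 < T) (hκ : 0 < κ) (hQ : ∀ s ∈ Icc lo (lo + T), 0 < Q α β γ s)
    (hw : ∀ s ∈ Icc lo (lo + T), κ ≤ Q α β γ s ^ (((d : ℝ) - 2) / 2)) :
    sectionMeasure α β γ d {y : Pt d | BLOW_S α β y ∈ Icc lo (lo + T)} ≠ ∞ ∧
    1 / (2 * √(α ^ 2 + β ^ 2)) * (κ * T) * ((volume : Measure (Ed d)).toSphere univ).toReal ≤
      (sectionMeasure α β γ d {y : Pt d | BLOW_S α β y ∈ Icc lo (lo + T)}).toReal := by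
  have hN : 0 < √(α ^ 2 + β ^ 2) := Real.sqrt_pos.2 (BLOW_pos h)
  have hA : MeasurableSet {y : Pt d | BLOW_S α β y ∈ Icc lo (lo + T)} :=
    (BLOW_contS α β d).measurable measurableSet_Icc
  have hpre : (fun x : ℝ × Metric.sphere (0 : Ed d) 1 => conePt α β γ x.1 x.2) ⁻¹'
      {y : Pt d | BLOW_S α β y ∈ Icc lo (lo + T)} = Icc lo (lo + T) ×ˢ univ := by
    ext x
    simp only [mem_preimage, mem_ofPred_eq, conePt, BLOW_Spt h, mem_prod, mem_univ, and_true]
  have hinter : Icc lo (lo + T) ∩ {s : ℝ | 0 < Q α β γ s} = Icc lo (lo + T) :=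
    inter_eq_left.2 hQ
  have e : sectionMeasure α β γ d {y : Pt d | BLOW_S α β y ∈ Icc lo (lo + T)} =
      ENNReal.ofReal (1 / (2 * √(α ^ 2 + β ^ 2))) *
        ((∫⁻ s in Icc lo (lo + T), ENNReal.ofReal (Q α β γ s ^ (((d : ℝ) - 2) / 2))) *
          (volume : Measure (Ed d)).toSphere univ) := by
    rw [sectionMeasure, Measure.smul_apply, Measure.map_apply
      (BLOW_contCone α β γ d).measurable hA, hpre, Measure.prod_prod, smul_eq_mul,
      withDensity_apply _ measurableSet_Icc, Measure.restrict_restrict measurableSet_Icc, hinter]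
  have hcont : ContinuousOn (fun s => Q α β γ s ^ (((d : ℝ) - 2) / 2)) (Icc lo (lo + T)) := by
    apply ContinuousOn.rpow_const (BLOW_contQ α β γ).continuousOn
    intro s hs
    exact Or.inl (hQ s hs).ne'
  have hfin1 : ∫⁻ s in Icc lo (lo + T), ENNReal.ofReal (Q α β γ s ^ (((d : ℝ) - 2) / 2)) ≠ ∞ :=
    (Integrable.lintegral_lt_top (hcont.integrableOn_compact isCompact_Icc)).ne
  have hfin2 : (volume : Measure (Ed d)).toSphere univ ≠ ∞ := measure_ne_top _ _
  have hfin : sectionMeasure α β γ d {y : Pt d | BLOW_S α β y ∈ Icc lo (lo + T)} ≠ ∞ := by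
    rw [e]
    exact ENNReal.mul_ne_top ENNReal.ofReal_ne_top (ENNReal.mul_ne_top hfin1 hfin2)
  refine ⟨hfin, ?_⟩
  have hlow : ENNReal.ofReal (κ * T) ≤
      ∫⁻ s in Icc lo (lo + T), ENNReal.ofReal (Q α β γ s ^ (((d : ℝ) - 2) / 2)) := by
    have h1 : ENNReal.ofReal (κ * T) = ∫⁻ _ in Icc lo (lo + T), ENNReal.ofReal κ := by
      rw [setLIntegral_const, Real.volume_Icc, ENNReal.ofReal_mul hκ.le]
      congr 2
      ring
    rw [h1]
    apply setLIntegral_mono' measurableSet_Icc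
    intro s hs
    exact ENNReal.ofReal_le_ofReal (hw s hs)
  rw [e, ENNReal.toReal_mul, ENNReal.toReal_mul, ENNReal.toReal_ofReal (by positivity), mul_assoc]
  apply mul_le_mul_of_nonneg_left _ (by positivity)
  apply mul_le_mul_of_nonneg_right _ ENNReal.toReal_nonneg
  rw [← ENNReal.toReal_ofReal (show 0 ≤ κ * T by positivity)]
  exact ENNReal.toReal_mono hfin1 hlow

theorem BLOW_measB (α β ρ : ℝ) (d : ℕ) :
    MeasurableSet {y : Pt d | |BLOW_S α β y| ≤ ρ ∧ ‖y.2.2‖ ≤ ρ} := by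
  have h1 : MeasurableSet {y : Pt d | |BLOW_S α β y| ≤ ρ} :=
    measurableSet_le (BLOW_contS α β d).abs.measurable measurable_const
  have h2 : MeasurableSet {y : Pt d | ‖y.2.2‖ ≤ ρ} :=
    measurableSet_le (by fun_prop : Measurable fun y : Pt d => ‖y.2.2‖) measurable_const
  exact h1.inter h2

theorem BLOW_plane {d : ℕ} {α β : ℝ} (h : (α, β) ≠ (0, 0)) (γ ρ : ℝ) (hρ : 0 ≤ ρ) :
    planeMeasure α β γ d {y : Pt d | |BLOW_S α β y| ≤ ρ ∧ ‖y.2.2‖ ≤ ρ} =
      ENNReal.ofReal (1 / √(α ^ 2 + β ^ 2) * (2 * ρ) * ρ ^ d *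
        (volume (Metric.ball (0 : Ed d) 1)).toReal) := by
  have hN : 0 < √(α ^ 2 + β ^ 2) := Real.sqrt_pos.2 (BLOW_pos h)
  have hB := BLOW_measB α β ρ d
  have hg : Continuous (fun x : ℝ × Ed d => planePt α β γ x.1 x.2) := by
    unfold planePt
    fun_prop
  have hpre : (fun x : ℝ × Ed d => planePt α β γ x.1 x.2) ⁻¹'
      {y : Pt d | |BLOW_S α β y| ≤ ρ ∧ ‖y.2.2‖ ≤ ρ} =
      Icc (-ρ) ρ ×ˢ Metric.closedBall (0 : Ed d) ρ := by
    ext x
    simp only [mem_preimage, mem_ofPred_eq, BLOW_Spt h, mem_prod, mem_Icc, abs_le,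
      mem_closedBall_zero_iff]
    rfl
  rw [planeMeasure, Measure.smul_apply, Measure.map_apply hg.measurable hB, hpre, smul_eq_mul,
    Measure.volume_eq_prod, Measure.prod_prod, Real.volume_Icc,
    Measure.addHaar_closedBall _ _ hρ]
  have hfin : volume (Metric.ball (0 : Ed d) 1) ≠ ∞ := measure_ball_lt_top.ne
  have hfr : Module.finrank ℝ (Ed d) = d := by simp
  rw [hfr]
  rw [ENNReal.ofReal_mul (by positivity), ENNReal.ofReal_mul (by positivity),
    ENNReal.ofReal_mul (by positivity), ENNReal.ofReal_toReal hfin]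
  have : ρ - -ρ = 2 * ρ := by ring
  rw [this]
  ring

/-- lower bound for the quotient -/
theorem BLOW_quot {d : ℕ} (hd : 1 ≤ d) {α β : ℝ} (h : (α, β) ≠ (0, 0)) (γ p C c₁ : ℝ)
    (hp : 4 * (d : ℝ) + 8 ≤ p) (hC : 0 < C) (hc₁ : 0 < c₁) :
    ∃ c' : ℝ, 0 < c' ∧ ∀ T lo : ℝ, 1 ≤ T →
      (∀ s ∈ Icc lo (lo + T), |s| ≤ 2 * T ∧ 0 < Q α β γ s ∧
        c₁ * T ^ (-(1 / 2) : ℝ) ≤ Q α β γ s ^ (((d : ℝ) - 2) / 2) ∧ Q α β γ s ≤ (C * T) ^ 2) →
      ENNReal.ofReal (c' * T) ≤ bestConst α β γ d p := by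
  have hN : 0 < √(α ^ 2 + β ^ 2) := Real.sqrt_pos.2 (BLOW_pos h)
  set N := √(α ^ 2 + β ^ 2) with hNdef
  set a : ℝ := 1 / (2 + C) with ha
  have ha0 : 0 < a := by positivity
  set v : ℝ := (volume (Metric.ball (0 : Ed d) 1)).toReal with hv
  have hv0 : 0 < v := ENNReal.toReal_pos (Metric.measure_ball_pos _ _ one_pos).ne'
    measure_ball_lt_top.ne
  set cs : ℝ := ((volume : Measure (Ed d)).toSphere univ).toReal with hcs
  have hcs0 : 0 < cs := by
    apply ENNReal.toReal_pos _ (measure_ne_top _ _)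
    rw [Measure.toSphere_apply_univ]
    have hfr : Module.finrank ℝ (Ed d) = d := by simp
    rw [hfr]
    have h1 : (d : ℝ≥0∞) ≠ 0 := by
      simp; omega
    exact mul_ne_zero h1 (Metric.measure_ball_pos _ _ one_pos).ne'
  set c₀ : ℝ := 1 / (2 * N) * c₁ * cs with hc₀
  have hc₀0 : 0 < c₀ := by positivity
  have hp0 : 0 < p := by
    have : (0 : ℝ) ≤ d := Nat.cast_nonneg d
    linarith
  set c' : ℝ := (1 / 2) ^ p * (1 / N * (2 * a) * a ^ d * v) * c₀ ^ (p / 2) with hc'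
  have hc'0 : 0 < c' := by positivity
  refine ⟨c', hc'0, ?_⟩
  intro T lo hT hJ
  have hT0 : 0 < T := by linarith
  set A : Set (Pt d) := {y : Pt d | BLOW_S α β y ∈ Icc lo (lo + T)} with hAdef
  have hA : MeasurableSet A := (BLOW_contS α β d).measurable measurableSet_Icc
  obtain ⟨hfin, hlow⟩ := BLOW_mass (d := d) h γ lo T (c₁ * T ^ (-(1 / 2) : ℝ)) hT0 (by positivity)
    (fun s hs => (hJ s hs).2.1) (fun s hs => (hJ s hs).2.2.1)
  rw [← hAdef, ← hNdef, ← hcs] at hlow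
  rw [← hAdef] at hfin
  set mr : ℝ := (sectionMeasure α β γ d A).toReal with hmr
  have hmr1 : c₀ * T ^ (1 / 2 : ℝ) ≤ mr := by
    refine le_trans (le_of_eq ?_) hlow
    have : T ^ (-(1 / 2) : ℝ) * T = T ^ (1 / 2 : ℝ) := by
      nth_rewrite 2 [← Real.rpow_one T]
      rw [← Real.rpow_add hT0]
      norm_num
    rw [hc₀, ← this]
    ring
  have hmr0 : 0 < mr := lt_of_lt_of_le (by positivity) hmr1
  have hmreq : sectionMeasure α β γ d A = ENNReal.ofReal mr := (ENNReal.ofReal_toReal hfin).symm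
  set f : Pt d → ℂ := A.indicator (fun _ => (1 : ℂ)) with hf
  have hf2 : MemLp f 2 (sectionMeasure α β γ d) :=
    memLp_indicator_const 2 hA (1 : ℂ) (Or.inr hfin)
  have hf1 : Integrable f (sectionMeasure α β γ d) :=
    memLp_one_iff_integrable.1 (memLp_indicator_const 1 hA (1 : ℂ) (Or.inr hfin))
  have hf0 : ¬ f =ᵐ[sectionMeasure α β γ d] 0 := by
    intro hcon
    have h1 : sectionMeasure α β γ d A = 0 := by
      have h2 := hcon
      rw [Filter.EventuallyEq, ae_iff] at h2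
      refine measure_mono_null ?_ h2
      intro x hx
      simp [hf, hx]
    rw [hmreq, ENNReal.ofReal_eq_zero] at h1
    linarith
  refine le_trans ?_ (le_iSup₂_of_le f hf2 (le_iSup₂_of_le hf1 hf0 le_rfl))
  -- the denominator
  have hden : ∫⁻ ζ, ‖f ζ‖ₑ ^ (2 : ℝ) ∂(sectionMeasure α β γ d) = ENNReal.ofReal mr := by
    have e1 : ∀ ζ, ‖f ζ‖ₑ ^ (2 : ℝ) = A.indicator (fun _ => (1 : ℝ≥0∞)) ζ := by
      intro ζ
      by_cases hζ : ζ ∈ A
      · simp [hf, hζ]
      · simp [hf, hζ]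
    simp only [e1]
    rw [lintegral_indicator hA, setLIntegral_const, one_mul, hmreq]
  -- the numerator
  set B : Set (Pt d) := {y : Pt d | |BLOW_S α β y| ≤ a / T ∧ ‖y.2.2‖ ≤ a / T} with hBdef
  have hB : MeasurableSet B := BLOW_measB α β (a / T) d
  have hext : ∀ y ∈ B, mr / 2 ≤ ‖extension α β γ f y‖ := by
    intro y hy
    have hφ : Measurable fun ζ : Pt d => dot ζ y := by
      have : Continuous fun ζ : Pt d => dot ζ y := by
        unfold dot
        fun_prop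
      exact this.measurable
    refine BLOW_osc (sectionMeasure α β γ d) A hA hfin (fun ζ => dot ζ y) hφ (BLOW_T α β γ y) ?_
    have hP : MeasurableSet {ζ : Pt d | ζ ∈ A → |dot ζ y - BLOW_T α β γ y| ≤ 1} := by
      have h1 : {ζ : Pt d | ζ ∈ A → |dot ζ y - BLOW_T α β γ y| ≤ 1} =
          Aᶜ ∪ {ζ : Pt d | |dot ζ y - BLOW_T α β γ y| ≤ 1} := by
        ext ζ
        simp only [mem_ofPred_eq, mem_union, mem_compl_iff]
        tauto
      rw [h1]
      apply hA.compl.union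
      exact measurableSet_le (by fun_prop) measurable_const
    rw [sectionMeasure]
    apply Measure.ae_smul_measure
    rw [ae_map_iff (BLOW_contCone α β γ d).aemeasurable hP]
    refine Eventually.of_forall fun x hx => ?_
    have hx' : x.1 ∈ Icc lo (lo + T) := by
      have : BLOW_S α β (conePt α β γ x.1 x.2) ∈ Icc lo (lo + T) := hx
      rwa [conePt, BLOW_Spt h] at this
    obtain ⟨hs1, hs2, -, hs4⟩ := hJ x.1 hx'
    rw [conePt, BLOW_dot, add_assoc, add_sub_cancel_left]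
    have hy1 : |BLOW_S α β y| ≤ a / T := hy.1
    have hy2 : ‖y.2.2‖ ≤ a / T := hy.2
    have hsq : √(Q α β γ x.1) ≤ C * T := by
      rw [← Real.sqrt_sq (show 0 ≤ C * T by positivity)]
      exact Real.sqrt_le_sqrt hs4
    have hi : |⟪√(Q α β γ x.1) • (x.2 : Ed d), y.2.2⟫| ≤ C * T * (a / T) := by
      refine (abs_real_inner_le_norm _ _).trans ?_
      rw [norm_smul, norm_eq_of_mem_sphere, mul_one, Real.norm_of_nonneg (Real.sqrt_nonneg _)]
      exact mul_le_mul hsq hy2 (norm_nonneg _) (by positivity)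
    have hj : |x.1 * BLOW_S α β y| ≤ 2 * T * (a / T) := by
      rw [abs_mul]
      exact mul_le_mul hs1 hy1 (abs_nonneg _) (by positivity)
    refine (abs_add_le _ _).trans ((add_le_add hj hi).trans (le_of_eq ?_))
    rw [ha]
    field_simp
  have hnum : ENNReal.ofReal ((mr / 2) ^ p * (1 / N * (2 * (a / T)) * (a / T) ^ d * v)) ≤
      ∫⁻ y, ‖extension α β γ f y‖ₑ ^ p ∂(planeMeasure α β γ d) := by
    have h1 : ∫⁻ y, B.indicator (fun _ => ENNReal.ofReal ((mr / 2) ^ p)) y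
        ∂(planeMeasure α β γ d) ≤
        ∫⁻ y, ‖extension α β γ f y‖ₑ ^ p ∂(planeMeasure α β γ d) := by
      apply lintegral_mono
      intro y
      by_cases hy : y ∈ B
      · simp only [indicator_of_mem hy]
        rw [← ENNReal.ofReal_rpow_of_nonneg (by positivity) hp0.le]
        apply ENNReal.rpow_le_rpow _ hp0.le
        rw [← ofReal_norm]
        exact ENNReal.ofReal_le_ofReal (hext y hy)
      · simp only [indicator_of_notMem hy]
        exact bot_le
    refine le_trans (le_of_eq ?_) h1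
    rw [lintegral_indicator hB, setLIntegral_const, BLOW_plane h γ (a / T) (by positivity),
      ENNReal.ofReal_mul (by positivity)]
  rw [quotient, hden, ENNReal.ofReal_rpow_of_pos hmr0]
  rw [ENNReal.le_div_iff_mul_le (Or.inl (by positivity)) (Or.inl ENNReal.ofReal_ne_top),
    ← ENNReal.ofReal_mul (by positivity)]
  refine le_trans (ENNReal.ofReal_le_ofReal ?_) hnum
  -- real inequality
  have k1 : c₀ ^ (p / 2) * T ^ (p / 4) ≤ mr ^ (p / 2) := by
    have := Real.rpow_le_rpow (by positivity) hmr1 (show 0 ≤ p / 2 by positivity)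
    rw [Real.mul_rpow hc₀0.le (by positivity), ← Real.rpow_mul hT0.le] at this
    have e : 1 / 2 * (p / 2) = p / 4 := by ring
    rwa [e] at this
  have k2 : T * T ^ (d + 1) ≤ T ^ (p / 4) := by
    rw [← pow_succ', ← Real.rpow_natCast]
    apply Real.rpow_le_rpow_of_exponent_le hT
    push_cast
    linarith
  have k3 : (mr / 2) ^ p = (1 / 2) ^ p * (mr ^ (p / 2) * mr ^ (p / 2)) := by
    rw [← Real.rpow_add hmr0, div_eq_mul_one_div, Real.mul_rpow hmr0.le (by norm_num), mul_comm]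
    congr 2
    ring
  have k4 : 1 / N * (2 * (a / T)) * (a / T) ^ d * v =
      (1 / N * (2 * a) * a ^ d * v) / T ^ (d + 1) := by
    rw [div_pow, pow_succ]
    field_simp
  rw [k3, k4, hc']
  have k5 : c₀ ^ (p / 2) * T ≤ mr ^ (p / 2) / T ^ (d + 1) := by
    rw [le_div_iff₀ (by positivity), mul_assoc]
    exact (mul_le_mul_of_nonneg_left k2 (by positivity)).trans k1
  have k6 : 0 ≤ (1 / 2) ^ p * (1 / N * (2 * a) * a ^ d * v) * mr ^ (p / 2) := by positivity
  have k7 := mul_le_mul_of_nonneg_left k5 k6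
  calc (1 / 2) ^ p * (1 / N * (2 * a) * a ^ d * v) * c₀ ^ (p / 2) * T * mr ^ (p / 2)
      = (1 / 2) ^ p * (1 / N * (2 * a) * a ^ d * v) * mr ^ (p / 2) * (c₀ ^ (p / 2) * T) := by ring
    _ ≤ _ := k7
    _ = _ := by ring

theorem BLOW_Qeq {α β : ℝ} (h : (α, β) ≠ (0, 0)) (γ s : ℝ) :
    Q α β γ s = (β ^ 2 - α ^ 2) / (α ^ 2 + β ^ 2) * s ^ 2 +
      4 * γ * α * β / ((α ^ 2 + β ^ 2) * √(α ^ 2 + β ^ 2)) * s +
      γ ^ 2 * (α ^ 2 - β ^ 2) / (α ^ 2 + β ^ 2) ^ 2 := by
  have hM := BLOW_pos h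
  have hN : 0 < √(α ^ 2 + β ^ 2) := Real.sqrt_pos.2 hM
  have hNN : √(α ^ 2 + β ^ 2) ^ 2 = α ^ 2 + β ^ 2 := Real.sq_sqrt hM.le
  set N := √(α ^ 2 + β ^ 2) with hNdef
  rw [Q, ← hNdef, ← hNN]
  field_simp
  ring

theorem BLOW_low {d : ℕ} (hd : 1 ≤ d) {T q K : ℝ} (hT : 1 ≤ T) (hq : 1 ≤ q) (hK : 0 < K)
    (h1 : d = 1 → q ≤ K * T) :
    min 1 (K ^ (-(1 / 2) : ℝ)) * T ^ (-(1 / 2) : ℝ) ≤ q ^ (((d : ℝ) - 2) / 2) := by
  have hT0 : 0 < T := by linarith
  rcases Nat.lt_or_ge d 2 with hd2 | hd2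
  · have hd1 : d = 1 := by omega
    have e : ((d : ℝ) - 2) / 2 = -(1 / 2) := by rw [hd1]; norm_num
    rw [e]
    have h2 := Real.rpow_le_rpow_of_nonpos (by linarith) (h1 hd1)
      (by norm_num : (-(1 / 2) : ℝ) ≤ 0)
    rw [Real.mul_rpow hK.le hT0.le] at h2
    refine le_trans ?_ h2
    exact mul_le_mul_of_nonneg_right (min_le_right _ _) (by positivity)
  · have h3 : (0 : ℝ) ≤ ((d : ℝ) - 2) / 2 := by
      have : (2 : ℝ) ≤ d := by exact_mod_cast hd2
      linarith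
    have h4 := Real.one_le_rpow hq h3
    have h5 : T ^ (-(1 / 2) : ℝ) ≤ 1 := Real.rpow_le_one_of_one_le_of_nonpos hT (by norm_num)
    have h6 : 0 ≤ T ^ (-(1 / 2) : ℝ) := by positivity
    have h7 : min 1 (K ^ (-(1 / 2) : ℝ)) ≤ 1 := min_le_left _ _
    nlinarith

theorem BLOW_QB {d : ℕ} (hd : 1 ≤ d) {α β γ : ℝ} (h : (α, β) ≠ (0, 0))
    (hγ : γ ≠ 0 ∨ |α| < |β|) (hab : |α| ≤ |β|) (hd1 : d = 1 → |β| ≤ |α|) :
    ∃ c₁ C T₀ : ℝ, 0 < c₁ ∧ 0 < C ∧ 1 ≤ T₀ ∧ ∀ T, T₀ ≤ T → ∃ lo : ℝ, ∀ s ∈ Icc lo (lo + T),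
      |s| ≤ 2 * T ∧ 0 < Q α β γ s ∧
        c₁ * T ^ (-(1 / 2) : ℝ) ≤ Q α β γ s ^ (((d : ℝ) - 2) / 2) ∧ Q α β γ s ≤ (C * T) ^ 2 := by
  have hM := BLOW_pos h
  have hN : 0 < √(α ^ 2 + β ^ 2) := Real.sqrt_pos.2 hM
  have hQ := BLOW_Qeq h γ
  set A : ℝ := (β ^ 2 - α ^ 2) / (α ^ 2 + β ^ 2) with hA
  set B : ℝ := 4 * γ * α * β / ((α ^ 2 + β ^ 2) * √(α ^ 2 + β ^ 2)) with hB
  set D : ℝ := γ ^ 2 * (α ^ 2 - β ^ 2) / (α ^ 2 + β ^ 2) ^ 2 with hD
  rcases hab.lt_or_eq with hlt | heq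
  · -- hyperboloid
    have hA0 : 0 < A := by
      rw [hA]
      apply div_pos _ hM
      have := sq_lt_sq.2 hlt
      linarith
    refine ⟨min 1 ((1 : ℝ) ^ (-(1 / 2) : ℝ)), 4 * A + 2 * |B| + |D| + 1,
      (|B| + |D| + 1) / A + 1, by positivity, by positivity, ?_, ?_⟩
    · have : 0 ≤ (|B| + |D| + 1) / A := by positivity
      linarith
    intro T hT
    refine ⟨T, ?_⟩
    intro s hs
    have h1 : 0 ≤ (|B| + |D| + 1) / A := by positivity
    have hT1 : 1 ≤ T := by linarith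
    have hs1 : T ≤ s := hs.1
    have hs2 : s ≤ 2 * T := by linarith [hs.2]
    have hs0 : 1 ≤ s := by linarith
    have h2 : |B| + |D| + 1 ≤ A * s := by
      have : (|B| + |D| + 1) / A ≤ s := by linarith
      rw [div_le_iff₀ hA0] at this
      linarith
    have hB1 : -(|B| * s) ≤ B * s := by
      have := neg_abs_le B
      nlinarith
    have hB2 : B * s ≤ |B| * s := by
      have := le_abs_self B
      nlinarith
    have hD1 := neg_abs_le D
    have hD2 := le_abs_self D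
    have hBn := abs_nonneg B
    have hDn := abs_nonneg D
    have hq1 : 1 ≤ Q α β γ s := by
      rw [hQ]
      have e1 : |B| * s + |D| + 1 ≤ A * s ^ 2 := by
        have e2 := mul_le_mul_of_nonneg_left h2 (show 0 ≤ s by linarith)
        have e3 : |D| + 1 ≤ s * (|D| + 1) := le_mul_of_one_le_left (by linarith) hs0
        nlinarith
      linarith
    refine ⟨by rw [abs_of_pos (by linarith)]; exact hs2, by linarith, ?_, ?_⟩
    · apply BLOW_low hd hT1 hq1 one_pos
      intro hd'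
      exact absurd (hd1 hd') (not_le.2 hlt)
    · rw [hQ]
      have k1 : A * s ^ 2 ≤ 4 * A * T ^ 2 := by
        have : s ^ 2 ≤ (2 * T) ^ 2 := by
          apply pow_le_pow_left₀ (by linarith) hs2
        have := mul_le_mul_of_nonneg_left this hA0.le
        refine this.trans (le_of_eq ?_)
        ring
      have k2 : B * s ≤ 2 * |B| * T ^ 2 := by
        have : s ≤ 2 * T ^ 2 := by nlinarith
        have := mul_le_mul_of_nonneg_left this hBn
        linarith
      have k3 : D ≤ |D| * T ^ 2 := by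
        have : 1 ≤ T ^ 2 := by nlinarith
        nlinarith
      set E : ℝ := 4 * A + 2 * |B| + |D| + 1 with hE
      have hE1 : 1 ≤ E := by rw [hE]; nlinarith
      have k4 : (E * T) ^ 2 = E ^ 2 * T ^ 2 := by ring
      have k5 : E * T ^ 2 ≤ E ^ 2 * T ^ 2 := by
        apply mul_le_mul_of_nonneg_right _ (by positivity)
        nlinarith
      have k6 : 0 ≤ T ^ 2 := by positivity
      rw [k4]
      refine le_trans ?_ k5
      have k7 : E * T ^ 2 = 4 * A * T ^ 2 + 2 * |B| * T ^ 2 + |D| * T ^ 2 + T ^ 2 := by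
        rw [hE]; ring
      rw [k7]
      linarith
  · -- paraboloid
    have hsq : α ^ 2 = β ^ 2 := (sq_eq_sq_iff_abs_eq_abs _ _).2 heq
    have hA0 : A = 0 := by rw [hA, hsq]; simp
    have hD0 : D = 0 := by rw [hD, hsq]; simp
    have hγ0 : γ ≠ 0 := by
      rcases hγ with h1 | h1
      · exact h1
      · exact absurd heq h1.ne
    have hα0 : α ≠ 0 := by
      rintro rfl
      have : β = 0 := by simpa using hsq.symm
      rw [this] at hM
      simp at hM
    have hβ0 : β ≠ 0 := by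
      rintro rfl
      exact hα0 (by simpa using hsq)
    have hB0 : B ≠ 0 := by
      rw [hB]
      have := hM.ne'
      have := hN.ne'
      positivity
    have hBp : 0 < |B| := abs_pos.2 hB0
    have hQ' : ∀ s, Q α β γ s = B * s := by
      intro s
      rw [hQ, hA0, hD0]
      ring
    refine ⟨min 1 ((2 * |B|) ^ (-(1 / 2) : ℝ)), 2 * |B| + 1, 1 / |B| + 1, by positivity,
      by positivity, ?_, ?_⟩
    · have : 0 ≤ 1 / |B| := by positivity
      linarith
    intro T hT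
    have h0 : 0 < 1 / |B| := by positivity
    have hT1 : 1 ≤ T := by linarith
    have hBT : 1 ≤ |B| * T := by
      have : 1 / |B| ≤ T := by linarith
      rw [div_le_iff₀ hBp] at this
      linarith
    have key : ∀ s : ℝ, |s| ≤ 2 * T → |B| * T ≤ B * s → B * s ≤ 2 * |B| * T →
        |s| ≤ 2 * T ∧ 0 < Q α β γ s ∧
        min 1 ((2 * |B|) ^ (-(1 / 2) : ℝ)) * T ^ (-(1 / 2) : ℝ) ≤
          Q α β γ s ^ (((d : ℝ) - 2) / 2) ∧ Q α β γ s ≤ ((2 * |B| + 1) * T) ^ 2 := by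
      intro s h1 h2 h3
      rw [hQ']
      refine ⟨h1, by linarith, ?_, ?_⟩
      · exact BLOW_low hd hT1 (by linarith) (by positivity) (fun _ => h3)
      · refine h3.trans ?_
        have k1 : 2 * |B| * T ≤ (2 * |B| + 1) * T := by nlinarith
        have k2 : 1 ≤ (2 * |B| + 1) * T := by nlinarith
        nlinarith
    rcases lt_or_gt_of_ne hB0 with hneg | hpos
    · refine ⟨-(2 * T), ?_⟩
      intro s hs
      have hs1 : -(2 * T) ≤ s := hs.1
      have hs2 : s ≤ -T := by linarith [hs.2]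
      apply key
      · rw [abs_of_nonpos (by linarith)]; linarith
      · rw [abs_of_neg hneg]; nlinarith
      · rw [abs_of_neg hneg]; nlinarith
    · refine ⟨T, ?_⟩
      intro s hs
      have hs1 : T ≤ s := hs.1
      have hs2 : s ≤ 2 * T := by linarith [hs.2]
      apply key
      · rw [abs_of_nonneg (by linarith)]; linarith
      · rw [abs_of_pos hpos]; nlinarith
      · rw [abs_of_pos hpos]; nlinarith

theorem tBLOW : T_BLOW := by
  intro d α β γ p hd h hγ hab hd1 hp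
  obtain ⟨c₁, C, T₀, hc₁, hC, hT₀, hT⟩ := BLOW_QB hd h hγ hab hd1
  obtain ⟨c', hc', hq⟩ := BLOW_quot hd h γ p C c₁ hp hC hc₁
  by_contra hne
  set b : ℝ := (bestConst α β γ d p).toReal with hb
  have hb0 : 0 ≤ b := ENNReal.toReal_nonneg
  have hbe : bestConst α β γ d p = ENNReal.ofReal b := (ENNReal.ofReal_toReal hne).symm
  set T : ℝ := max T₀ ((b + 1) / c') with hTdef
  have h1 : T₀ ≤ T := le_max_left _ _
  have h2 : (b + 1) / c' ≤ T := le_max_right _ _
  obtain ⟨lo, hlo⟩ := hT T h1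
  have h3 := hq T lo (hT₀.trans h1) hlo
  rw [hbe, ENNReal.ofReal_le_ofReal_iff hb0] at h3
  rw [div_le_iff₀ hc'] at h2
  linarith

end Pool.Agent.ExpMax
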