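import Pool.Agent.ExpMax.Targets

set_option autoImplicit false

/-! CASEA. -/

noncomputable section

open MeasureTheory Set
open scoped ENNReal RealInnerProductSpace

namespace Pool.Agent.ExpMax

theorem tCASEA : T_CASEA := by
  intro D q K c₁ hD hq hK hc₁
  refine ⟨D + 1, max (max 2 (2 * (D + 1) * q)) ((K / c₁) ^ 4 + 1), by linarith, ?_⟩
  intro p hp m hm0 hm1 hcond
  have hp1 : 2 ≤ p := (le_max_left _ _).trans ((le_max_left _ _).trans hp)
  have hp2 : 2 * (D + 1) * q ≤ p := (le_max_right _ _).trans ((le_max_left _ _).trans hp)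
  have hp3 : (K / c₁) ^ 4 + 1 ≤ p := (le_max_right _ _).trans hp
  have hp0 : 0 < p := by linarith
  have hlog : 0 < Real.log p := Real.log_pos (by linarith)
  have hqp : q < p := by nlinarith
  -- the bound of the power
  have h1 : m ≤ Real.exp (-((1 - m ^ 2) / 2)) := by
    have h2 : m ^ 2 ≤ Real.exp (-(1 - m ^ 2)) := by
      have := Real.add_one_le_exp (-(1 - m ^ 2))
      linarith
    have h3 : Real.exp (-(1 - m ^ 2)) = Real.exp (-((1 - m ^ 2) / 2)) ^ 2 := by
      rw [← Real.exp_nat_mul]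
      congr 1
      push_cast
      ring
    rw [h3] at h2
    exact le_of_sq_le_sq h2 (Real.exp_pos _).le
  have h4 : m ^ (p - q) ≤ Real.exp (-((1 - m ^ 2) / 2)) ^ (p - q) :=
    Real.rpow_le_rpow hm0 h1 (by linarith)
  rw [← Real.exp_mul] at h4
  have h5 : -((1 - m ^ 2) / 2) * (p - q) ≤ Real.log p * (-(D / 2 + 1 / 4)) := by
    have h6 : (D + 1) * Real.log p / p * (p - q) / 2 ≤ (1 - m ^ 2) / 2 * (p - q) := by
      have : 0 ≤ p - q := by linarith
      nlinarith [mul_le_mul_of_nonneg_right hcond this]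
    have h7 : Real.log p * (D / 2 + 1 / 4) ≤ (D + 1) * Real.log p / p * (p - q) / 2 := by
      have h8 : (D + 1) * Real.log p / p * (p - q) / 2 =
          Real.log p * ((D + 1) / 2 - (D + 1) * q / (2 * p)) := by
        field_simp
      rw [h8]
      apply mul_le_mul_of_nonneg_left _ hlog.le
      have h9 : (D + 1) * q / (2 * p) ≤ 1 / 4 := by
        rw [div_le_div_iff₀ (by positivity) (by norm_num)]
        linarith
      linarith
    linarith
  have h10 : m ^ (p - q) ≤ p ^ (-(D / 2 + 1 / 4)) := by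
    rw [Real.rpow_def_of_pos hp0]
    exact h4.trans (Real.exp_le_exp.mpr h5)
  have h11 : K / c₁ < p ^ (1 / 4 : ℝ) := by
    have h12 : (K / c₁) ^ 4 < p := by linarith
    have h13 : K / c₁ = ((K / c₁) ^ 4) ^ (1 / 4 : ℝ) := by
      rw [← Real.rpow_natCast, ← Real.rpow_mul (by positivity)]
      norm_num
    rw [h13]
    exact Real.rpow_lt_rpow (by positivity) h12 (by norm_num)
  have h14 : K < c₁ * p ^ (1 / 4 : ℝ) := by
    rw [div_lt_iff₀ hc₁] at h11
    linarith
  have h15 : p ^ (-(D / 2 + 1 / 4)) * p ^ (1 / 4 : ℝ) = p ^ (-(D / 2)) := by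
    rw [← Real.rpow_add hp0]
    congr 1
    ring
  calc m ^ (p - q) * K ≤ p ^ (-(D / 2 + 1 / 4)) * K := by gcongr
    _ < p ^ (-(D / 2 + 1 / 4)) * (c₁ * p ^ (1 / 4 : ℝ)) := by
        apply mul_lt_mul_of_pos_left h14
        exact Real.rpow_pos_of_pos hp0 _
    _ = c₁ * p ^ (-(D / 2)) := by rw [← h15]; ring

end Pool.Agent.ExpMax
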