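import Pool.Agent.ExpMax.NORMAL

set_option autoImplicit false

noncomputable section

open MeasureTheory Set Filter
open scoped ENNReal RealInnerProductSpace Topology

namespace Pool.Agent.ExpMax

/-- NORMAL2: modulation and multiplication by a unimodular constant, explicit form. -/
def T_NORMAL2 : Prop := ∀ (F : Type) [NormedAddCommGroup F] [InnerProductSpace ℝ F]
  [FiniteDimensional ℝ F] [MeasurableSpace F] [BorelSpace F], 1 ≤ Module.finrank ℝ F →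
  ∀ f : Metric.sphere (0 : F) 1 → ℂ, MemLp f 2 (prb F) → ∀ y₀ : F, Ext f y₀ ≠ 0 →
  ∃ (f' : Metric.sphere (0 : F) 1 → ℂ) (c : ℂ), MemLp f' 2 (prb F) ∧ ‖c‖ = 1 ∧
    (∀ ω, f' ω = c * (f ω * Complex.exp (-(Complex.I * ((⟪(ω : F), y₀⟫ : ℝ) : ℂ))))) ∧
    (∀ ω, ‖f' ω‖ = ‖f ω‖) ∧
    Ext f' 0 = ((‖Ext f y₀‖ : ℝ) : ℂ) ∧ ∀ y, ‖Ext f' y‖ = ‖Ext f (y + y₀)‖

theorem tNORMAL2 : T_NORMAL2 := by
  intro F _ _ _ _ _ _ f hf y₀ hy₀
  set E : ℂ := Ext f y₀ with hE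
  have hE0 : (0 : ℝ) < ‖E‖ := norm_pos_iff.2 hy₀
  have hEc : ((‖E‖ : ℝ) : ℂ) ≠ 0 := by exact_mod_cast hE0.ne'
  set c : ℂ := (starRingEnd ℂ) E / ((‖E‖ : ℝ) : ℂ) with hc
  have hcn : ‖c‖ = 1 := by
    rw [hc, norm_div, RCLike.norm_conj, Complex.norm_real, Real.norm_eq_abs, abs_norm, div_self hE0.ne']
  have hcE : c * E = ((‖E‖ : ℝ) : ℂ) := by
    rw [hc, div_mul_eq_mul_div, mul_comm, Complex.mul_conj, Complex.normSq_eq_norm_sq]
    rw [div_eq_iff hEc]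
    push_cast
    ring
  have hext : ∀ y, Ext (fun ω : Metric.sphere (0 : F) 1 =>
      c * (f ω * Complex.exp (-(Complex.I * ((⟪(ω : F), y₀⟫ : ℝ) : ℂ))))) y =
      c * Ext f (y + y₀) := by
    intro y
    unfold Ext
    rw [← integral_const_mul]
    congr 1
    funext ω
    rw [inner_add_right, mul_assoc, mul_assoc]
    congr 2
    rw [← Complex.exp_add]
    congr 1
    push_cast
    ring
  have hnorm : ∀ ω : Metric.sphere (0 : F) 1,
      ‖c * (f ω * Complex.exp (-(Complex.I * ((⟪(ω : F), y₀⟫ : ℝ) : ℂ))))‖ = ‖f ω‖ := by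
    intro ω
    rw [norm_mul, norm_mul, EXTC_norm_exp, hcn, one_mul, mul_one]
  refine ⟨fun ω => c * (f ω * Complex.exp (-(Complex.I * ((⟪(ω : F), y₀⟫ : ℝ) : ℂ)))), c, ?_,
    hcn, fun _ => rfl, hnorm, ?_, ?_⟩
  · exact hf.congr_norm (aestronglyMeasurable_const.mul
      (hf.aestronglyMeasurable.mul (EXTC_cont y₀).aestronglyMeasurable))
      (ae_of_all _ (fun ω => (hnorm ω).symm))
  · rw [hext, zero_add, ← hE, hcE]
  · intro y
    rw [hext, norm_mul, hcn, one_mul]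

section

variable {F : Type} [NormedAddCommGroup F] [InnerProductSpace ℝ F] [FiniteDimensional ℝ F]
    [MeasurableSpace F] [BorelSpace F]

theorem CORE2_smul (f : Metric.sphere (0 : F) 1 → ℂ) (a : ℂ) (y : F) :
    Ext (fun ω => a * f ω) y = a * Ext f y := by
  unfold Ext
  rw [← integral_const_mul]
  congr 1
  ext ω
  ring

theorem CORE2_pow_le {a p q : ℝ} (h0 : 0 ≤ a) (h1 : a ≤ 1) (hq : 0 < q) (hpq : q ≤ p) :
    a ^ p ≤ a ^ q := by
  rcases h0.eq_or_lt with h | h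
  · rw [← h, Real.zero_rpow hq.ne', Real.zero_rpow (hq.trans_le hpq).ne']
  · exact Real.rpow_le_rpow_of_exponent_ge h h1 hpq

/-- the theorem for functions of norm one -/
theorem CORE2_one (hE : T_EXTC) (hTT : T_TT) (hMax : T_MAXPT) (hO : T_ORTH)
    (hV : T_VPROP) (hNm : T_NORMAL2) (hdim : 1 ≤ Module.finrank ℝ F)
    (hprob : IsProbabilityMeasure (prb F))
    (hext1 : ∀ y : F, Ext (fun _ => 1) y = ((u0 y : ℝ) : ℂ)) (hcont : Continuous (u0 : F → ℝ))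
    (hle1 : ∀ y : F, |u0 y| ≤ 1) (hlow : ∀ y : F, 1 - ‖y‖ ^ 2 / 2 ≤ u0 y)
    (c κ q K A c₁ C p : ℝ)
    (hc : ∀ y : F, ‖y‖ ≤ 1 → u0 y ≤ 1 - c * ‖y‖ ^ 2)
    (hκ : ∀ y : F, 1 ≤ ‖y‖ → |u0 y| ≤ 1 - κ)
    (hq4 : 4 ≤ q) (hqint : Integrable (fun y : F => |u0 y| ^ (q / 2)))
    (hK : ∫ y : F, |u0 y| ^ (q / 2) ≤ K) (hqp : q + 1 ≤ p)
    (hIP : c₁ * p ^ (-((Module.finrank ℝ F : ℝ) / 2)) ≤ ∫ y : F, |u0 y| ^ p)
    (hA : ∀ m : ℝ, 0 ≤ m → m ≤ 1 → A * Real.log p / p ≤ 1 - m ^ 2 →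
      m ^ (p - q) * K < c₁ * p ^ (-((Module.finrank ℝ F : ℝ) / 2)))
    (hH : ∀ (U : F → ℝ) (v : F → ℂ) (m ε : ℝ),
      Continuous U → Continuous v → (∀ y, |U y| ≤ 1) → (∀ y, 1 - ‖y‖ ^ 2 / 2 ≤ U y) →
      (∀ y, ‖y‖ ≤ 1 → U y ≤ 1 - c * ‖y‖ ^ 2) → (∀ y, 1 ≤ ‖y‖ → |U y| ≤ 1 - κ) →
      Integrable (fun y => |U y| ^ q) → ∫ y, |U y| ^ q ≤ K →
      (∀ y, ‖v y‖ ≤ 1) → (∀ y, ‖v y‖ ≤ ‖y‖) → (∀ y, ‖y‖ ≤ 1 → |(v y).re| ≤ ‖y‖ ^ 2) →
      Integrable (fun y => ‖v y‖ ^ q) → ∫ y, ‖v y‖ ^ q ≤ K →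
      ∫ y, |U y| ^ (p - 2) * U y * (v y).re = 0 →
      0 ≤ m → m ≤ 1 → 0 ≤ ε → ε ^ 2 ≤ A * Real.log p / p →
      ∫ y, ‖((m * U y : ℝ) : ℂ) + (ε : ℂ) * v y‖ ^ p ≤ (m ^ p + C * ε ^ 2) * ∫ y, |U y| ^ p)
    (hN : ∀ m ε : ℝ, 0 ≤ m → 0 < ε → m ^ 2 + ε ^ 2 = 1 → ε ^ 2 ≤ A * Real.log p / p →
      m ^ p + C * ε ^ 2 < 1)
    (hIpos : 0 < ∫ y : F, |u0 y| ^ p)
    (f : Metric.sphere (0 : F) 1 → ℂ) (hf : MemLp f 2 (prb F))
    (hf1 : ∫ ω, ‖f ω‖ ^ 2 ∂(prb F) = 1) :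
    ∫ y, ‖Ext f y‖ ^ p ≤ ∫ y : F, |u0 y| ^ p ∧
      (∫ y, ‖Ext f y‖ ^ p = ∫ y : F, |u0 y| ^ p → ∃ (c : ℂ) (y₀ : F), ‖c‖ = 1 ∧
        ∀ᵐ ω ∂(prb F), f ω = c * Complex.exp (Complex.I * ((⟪(ω : F), y₀⟫ : ℝ) : ℂ))) := by
  have hq0 : 0 < q := by linarith
  have hp0 : 0 < p := by linarith
  have hfi : Integrable f (prb F) := hf.integrable (by norm_num)
  -- the extension inequality with exponent q
  have hq1 : ∀ h : Metric.sphere (0 : F) 1 → ℂ, MemLp h 2 (prb F) →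
      ∫ ω, ‖h ω‖ ^ 2 ∂(prb F) ≤ 1 →
      Integrable (fun y => ‖Ext h y‖ ^ q) ∧ ∫ y, ‖Ext h y‖ ^ q ≤ K := by
    intro h hh hh1
    obtain ⟨i1, i2⟩ := hTT F hdim q (by linarith) hqint h hh
    refine ⟨i1, i2.trans ?_⟩
    have h3 : (∫ ω, ‖h ω‖ ^ 2 ∂(prb F)) ^ (q / 2) ≤ 1 :=
      Real.rpow_le_one (integral_nonneg fun _ => by positivity) hh1 (by positivity)
    have h4 : 0 ≤ ∫ y : F, |u0 y| ^ (q / 2) := integral_nonneg fun _ => by positivity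
    calc (∫ y : F, |u0 y| ^ (q / 2)) * (∫ ω, ‖h ω‖ ^ 2 ∂(prb F)) ^ (q / 2)
        ≤ (∫ y : F, |u0 y| ^ (q / 2)) * 1 := by gcongr
      _ ≤ K := by rw [mul_one]; exact hK
  have hu0q : Integrable (fun y : F => |u0 y| ^ q) ∧ ∫ y : F, |u0 y| ^ q ≤ K := by
    have := hq1 (fun _ => 1) (memLp_const 1) (by simp)
    have e : ∀ y : F, ‖Ext (fun _ => 1) y‖ = |u0 y| := fun y => by
      rw [hext1 y]; simp
    simpa [e] using this
  obtain ⟨hfq, hfK⟩ := hq1 f hf hf1.le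
  obtain ⟨y₀, hy₀⟩ := hMax F hdim q (by linarith) f hfi hfq
  by_cases hz : Ext f y₀ = 0
  · -- the extension vanishes
    have h0 : ∀ y, ‖Ext f y‖ = 0 := fun y =>
      le_antisymm ((hy₀ y).trans (by rw [hz, norm_zero])) (norm_nonneg _)
    have h1 : ∫ y, ‖Ext f y‖ ^ p = 0 := by
      simp [h0, Real.zero_rpow hp0.ne']
    rw [h1]
    exact ⟨hIpos.le, fun h => absurd h hIpos.ne⟩
  obtain ⟨f', b, hf', hb, hff'', hff', hf'0, hf'y⟩ := hNm F hdim f hf y₀ hz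
  set m : ℝ := ‖Ext f y₀‖ with hm
  have hmpos : 0 < m := norm_pos_iff.2 hz
  have hf'1 : ∫ ω, ‖f' ω‖ ^ 2 ∂(prb F) = 1 := by
    simpa only [hff'] using hf1
  have hmax' : ∀ y, ‖Ext f' y‖ ≤ m := fun y => by rw [hf'y]; exact hy₀ _
  obtain ⟨ε, g, hε0, hm1, hmε, hg, hg1, hgz, hfg, hExt, hv1, hv2, hv3⟩ :=
    hV F hdim f' hf' hf'1 m hmpos hf'0 hmax'
  have htrans : ∫ y, ‖Ext f y‖ ^ p = ∫ y, ‖Ext f' y‖ ^ p := by
    simp only [hf'y]
    exact (integral_add_right_eq_self (fun y => ‖Ext f y‖ ^ p) y₀).symm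
  by_cases hcase : A * Real.log p / p ≤ 1 - m ^ 2
  · -- case A
    have h1 : ∫ y, ‖Ext f y‖ ^ p ≤ m ^ (p - q) * K := by
      calc ∫ y, ‖Ext f y‖ ^ p ≤ ∫ y, m ^ (p - q) * ‖Ext f y‖ ^ q := by
            apply integral_mono_of_nonneg
            · exact Filter.Eventually.of_forall fun y => by positivity
            · exact hfq.const_mul _
            · refine Filter.Eventually.of_forall fun y => ?_
              show ‖Ext f y‖ ^ p ≤ m ^ (p - q) * ‖Ext f y‖ ^ q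
              rcases (norm_nonneg (Ext f y)).eq_or_lt with h | h
              · rw [← h, Real.zero_rpow hp0.ne', Real.zero_rpow hq0.ne', mul_zero]
              · have : ‖Ext f y‖ ^ p = ‖Ext f y‖ ^ (p - q) * ‖Ext f y‖ ^ q := by
                  rw [← Real.rpow_add h]; ring_nf
                rw [this]
                gcongr
                · linarith
                · exact hy₀ y
        _ = m ^ (p - q) * ∫ y, ‖Ext f y‖ ^ q := integral_const_mul _ _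
        _ ≤ m ^ (p - q) * K := by gcongr
    have h2 : ∫ y, ‖Ext f y‖ ^ p < ∫ y : F, |u0 y| ^ p :=
      h1.trans_lt ((hA m hmpos.le hm1 hcase).trans_le hIP)
    exact ⟨h2.le, fun h => absurd h h2.ne⟩
  · -- case B
    have hε2 : ε ^ 2 ≤ A * Real.log p / p := by
      have : ε ^ 2 = 1 - m ^ 2 := by linarith
      rw [this]; linarith
    have hgi : Integrable g (prb F) := hg.integrable (by norm_num)
    obtain ⟨hgq, hgK⟩ := hq1 g hg hg1
    have hup1 : Integrable (fun y : F => |u0 y| ^ (p - 1)) := by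
      refine hu0q.1.mono' ?_ (Filter.Eventually.of_forall fun y => ?_)
      · exact ((hcont.abs).rpow_const fun _ => Or.inr (by linarith)).aestronglyMeasurable
      · rw [Real.norm_of_nonneg (by positivity)]
        exact CORE2_pow_le (abs_nonneg _) (hle1 y) hq0 (by linarith)
    have horth := hO F hdim (p - 1) (by linarith) hup1 g hgi hgz
    have horth' : ∫ y : F, |u0 y| ^ (p - 2) * u0 y * (Ext g y).re = 0 := by
      have : p - 1 - 1 = p - 2 := by ring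
      rwa [this] at horth
    have key := hH u0 (Ext g) m ε hcont (hE F hdim g hgi).1 hle1 hlow hc hκ hu0q.1 hu0q.2
      hv1 hv2 hv3 hgq hgK horth' hmpos.le hm1 hε0 hε2
    have e1 : ∫ y, ‖Ext f y‖ ^ p ≤ (m ^ p + C * ε ^ 2) * ∫ y : F, |u0 y| ^ p := by
      rw [htrans]
      simp only [hExt]
      exact key
    rcases hε0.eq_or_lt with hε | hε
    · -- ε = 0
      have hm' : m = 1 := by
        have : m ^ 2 = 1 := by rw [← hmε, ← hε]; ring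
        nlinarith
      refine ⟨?_, fun _ => ?_⟩
      · rw [← hε, hm'] at e1
        simpa using e1
      · refine ⟨b⁻¹, y₀, by rw [norm_inv, hb, inv_one], ?_⟩
        filter_upwards [hfg] with ω hω
        have hb0 : b ≠ 0 := fun h => by rw [h, norm_zero] at hb; exact zero_ne_one hb
        have h1 : b * (f ω * Complex.exp (-(Complex.I * ((⟪(ω : F), y₀⟫ : ℝ) : ℂ)))) = 1 := by
          rw [← hff'' ω, hω, ← hε, hm']
          simp
        have h2 : Complex.exp (-(Complex.I * ((⟪(ω : F), y₀⟫ : ℝ) : ℂ))) *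
            Complex.exp (Complex.I * ((⟪(ω : F), y₀⟫ : ℝ) : ℂ)) = 1 := by
          rw [← Complex.exp_add, neg_add_cancel, Complex.exp_zero]
        calc f ω = b⁻¹ * (b * (f ω * (Complex.exp (-(Complex.I * ((⟪(ω : F), y₀⟫ : ℝ) : ℂ))) *
              Complex.exp (Complex.I * ((⟪(ω : F), y₀⟫ : ℝ) : ℂ))))) := by
                rw [h2, mul_one, inv_mul_cancel_left₀ hb0]
          _ = b⁻¹ * ((b * (f ω * Complex.exp (-(Complex.I * ((⟪(ω : F), y₀⟫ : ℝ) : ℂ))))) *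
              Complex.exp (Complex.I * ((⟪(ω : F), y₀⟫ : ℝ) : ℂ))) := by ring
          _ = _ := by rw [h1, one_mul]
    · have h3 := hN m ε hmpos.le hε hmε hε2
      have h2 : ∫ y, ‖Ext f y‖ ^ p < ∫ y : F, |u0 y| ^ p := by
        refine e1.trans_lt ?_
        calc (m ^ p + C * ε ^ 2) * ∫ y : F, |u0 y| ^ p < 1 * ∫ y : F, |u0 y| ^ p :=
              mul_lt_mul_of_pos_right h3 hIpos
          _ = _ := one_mul _
      exact ⟨h2.le, fun h => absurd h h2.ne⟩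

end

/-- CORE2 -/
def T_CORE2 : Prop := ∀ (F : Type) [NormedAddCommGroup F] [InnerProductSpace ℝ F]
  [FiniteDimensional ℝ F] [MeasurableSpace F] [BorelSpace F], 2 ≤ Module.finrank ℝ F →
  ∃ p₀ : ℝ, 4 ≤ p₀ ∧ ∀ p, p₀ ≤ p →
    Integrable (fun y : F => |u0 y| ^ p) ∧ 0 < ∫ y : F, |u0 y| ^ p ∧
    ∀ f : Metric.sphere (0 : F) 1 → ℂ, MemLp f 2 (prb F) →
      Integrable (fun y => ‖Ext f y‖ ^ p) ∧
      ∫ y, ‖Ext f y‖ ^ p ≤ (∫ y : F, |u0 y| ^ p) * (∫ ω, ‖f ω‖ ^ 2 ∂(prb F)) ^ (p / 2) ∧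
      (∫ y, ‖Ext f y‖ ^ p = (∫ y : F, |u0 y| ^ p) * (∫ ω, ‖f ω‖ ^ 2 ∂(prb F)) ^ (p / 2) →
        ∃ (c : ℂ) (y₀ : F), ∀ᵐ ω ∂(prb F),
          f ω = c * Complex.exp (Complex.I * ((⟪(ω : F), y₀⟫ : ℝ) : ℂ)))

theorem tCORE2 (hI : T_INV) (hB : T_BASIC) (hD : T_DECAY) (hE : T_EXTC) (hTT : T_TT)
    (hMax : T_MAXPT) (hO : T_ORTH) (hIP : T_IP) (hH : T_HEART) (hA : T_CASEA) (hN : T_NUM)
    (hV : T_VPROP) (hNm : T_NORMAL2) : T_CORE2 := by
  intro F _ _ _ _ _ hdim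
  have hdim1 : 1 ≤ Module.finrank ℝ F := by omega
  obtain ⟨hprob, -⟩ := hI F hdim1
  obtain ⟨hext1, hcont, -, hle1, hlow, -, hup⟩ := hB F hdim1
  obtain ⟨⟨κ, hκ0, hκ1, hκ⟩, q, hq4, hqint⟩ := hD F hdim
  set K : ℝ := max 1 (∫ y : F, |u0 y| ^ (q / 2)) with hKdef
  have hK0 : 0 < K := lt_of_lt_of_le one_pos (le_max_left _ _)
  have hD0 : (2 : ℝ) ≤ (Module.finrank ℝ F : ℝ) := by exact_mod_cast hdim
  obtain ⟨c₁, hc₁, hIP'⟩ := hIP F hdim1
  obtain ⟨A, pA, hA0, hA'⟩ := hA (Module.finrank ℝ F : ℝ) q K c₁ (by linarith) (by linarith) hK0 hc₁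
  have hc0 : 0 < 1 / (5 * (Module.finrank ℝ F : ℝ)) := by positivity
  have hc2 : 1 / (5 * (Module.finrank ℝ F : ℝ)) ≤ 1 / 2 := by
    rw [div_le_div_iff₀ (by positivity) (by norm_num)]; linarith
  obtain ⟨C, pC, hC0, hC'⟩ := hH F hdim1 _ κ q K A hc0 hc2 hκ0 hκ1 (by linarith) hK0 hA0
  obtain ⟨pN, hN'⟩ := hN C A hC0 hA0
  refine ⟨max 4 (max (q + 1) (max pA (max pC pN))), le_max_left _ _, fun p hp => ?_⟩
  have hp4 : 4 ≤ p := (le_max_left _ _).trans hp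
  have hp1 : max (q + 1) (max pA (max pC pN)) ≤ p := (le_max_right _ _).trans hp
  have hpq : q + 1 ≤ p := (le_max_left _ _).trans hp1
  have hp2 : max pA (max pC pN) ≤ p := (le_max_right _ _).trans hp1
  have hpA : pA ≤ p := (le_max_left _ _).trans hp2
  have hp3 : max pC pN ≤ p := (le_max_right _ _).trans hp2
  have hpC : pC ≤ p := (le_max_left _ _).trans hp3
  have hpN : pN ≤ p := (le_max_right _ _).trans hp3
  have hp0 : 0 < p := by linarith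
  have hpow : ∀ s : ℝ, q / 2 ≤ s → Integrable (fun y : F => |u0 y| ^ s) := by
    intro s hs
    refine hqint.mono' ?_ (Filter.Eventually.of_forall fun y => ?_)
    · exact ((hcont.abs).rpow_const fun _ => Or.inr (by linarith)).aestronglyMeasurable
    · rw [Real.norm_of_nonneg (by positivity)]
      exact CORE2_pow_le (abs_nonneg _) (hle1 y) (by linarith) hs
  have hIp := hIP' u0 hcont hlow p (by linarith) (hpow p (by linarith))
  have hIpos : 0 < ∫ y : F, |u0 y| ^ p := lt_of_lt_of_le (by positivity) hIp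
  refine ⟨hpow p (by linarith), hIpos, fun f hf => ?_⟩
  have hint : ∀ h : Metric.sphere (0 : F) 1 → ℂ, MemLp h 2 (prb F) →
      Integrable (fun y => ‖Ext h y‖ ^ p) := fun h hh =>
    (hTT F hdim1 p (by linarith) (hpow (p / 2) (by linarith)) h hh).1
  refine ⟨hint f hf, ?_⟩
  have hone : ∀ h : Metric.sphere (0 : F) 1 → ℂ, MemLp h 2 (prb F) →
      ∫ ω, ‖h ω‖ ^ 2 ∂(prb F) = 1 →
      ∫ y, ‖Ext h y‖ ^ p ≤ ∫ y : F, |u0 y| ^ p ∧
      (∫ y, ‖Ext h y‖ ^ p = ∫ y : F, |u0 y| ^ p → ∃ (c : ℂ) (y₀ : F), ‖c‖ = 1 ∧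
        ∀ᵐ ω ∂(prb F), h ω = c * Complex.exp (Complex.I * ((⟪(ω : F), y₀⟫ : ℝ) : ℂ))) :=
      fun h hh hh1 =>
    CORE2_one hE hTT hMax hO hV hNm hdim1 hprob hext1 hcont hle1 hlow _ κ q K A c₁ C p hup hκ hq4
      hqint (le_max_right _ _) hpq hIp (hA' p hpA) (hC' p hpC) (hN' p hpN) hIpos h hh hh1
  have hf2 : Integrable (fun ω => ‖f ω‖ ^ 2) (prb F) := hf.integrable_norm_pow (by norm_num)
  have hn0 : 0 ≤ ∫ ω, ‖f ω‖ ^ 2 ∂(prb F) := integral_nonneg fun _ => by positivity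
  rcases hn0.eq_or_lt with hn | hn
  · -- f = 0
    have hae : ∀ᵐ ω ∂(prb F), ‖f ω‖ = 0 := by
      have := (integral_eq_zero_iff_of_nonneg (fun _ => by positivity) hf2).1 hn.symm
      filter_upwards [this] with ω hω
      simpa using hω
    have hz : ∀ y, Ext f y = 0 := by
      intro y
      unfold Ext
      rw [← integral_zero (Metric.sphere (0 : F) 1) ℂ (μ := prb F)]
      refine integral_congr_ae ?_
      filter_upwards [hae] with ω hω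
      rw [norm_eq_zero.1 hω, zero_mul]
    have h1 : ∫ y, ‖Ext f y‖ ^ p = 0 := by simp [hz, Real.zero_rpow hp0.ne']
    rw [h1, ← hn, Real.zero_rpow (by positivity), mul_zero]
    exact ⟨le_refl _, fun _ => ⟨0, 0, by
      filter_upwards [hae] with ω hω
      rw [norm_eq_zero.1 hω, zero_mul]⟩⟩
  · set n2 : ℝ := ∫ ω, ‖f ω‖ ^ 2 ∂(prb F) with hn2
    set s : ℝ := √n2 with hs
    have hs0 : 0 < s := Real.sqrt_pos.2 hn
    have hs2 : s ^ 2 = n2 := Real.sq_sqrt hn.le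
    set f1 : Metric.sphere (0 : F) 1 → ℂ := fun ω => ((s⁻¹ : ℝ) : ℂ) * f ω with hf1
    have hf1m : MemLp f1 2 (prb F) := hf.const_mul _
    have hf1n : ∀ ω, ‖f1 ω‖ = s⁻¹ * ‖f ω‖ := fun ω => by
      rw [hf1]; simp [abs_of_pos hs0]
    have hf11 : ∫ ω, ‖f1 ω‖ ^ 2 ∂(prb F) = 1 := by
      simp only [hf1n, mul_pow]
      rw [integral_const_mul, ← hn2, ← hs2]
      field_simp
    have hE1 : ∀ y, ‖Ext f y‖ = s * ‖Ext f1 y‖ := fun y => by
      rw [hf1, CORE2_smul, norm_mul, Complex.norm_real, Real.norm_of_nonneg (by positivity)]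
      field_simp
    have hE2 : ∫ y, ‖Ext f y‖ ^ p = n2 ^ (p / 2) * ∫ y, ‖Ext f1 y‖ ^ p := by
      rw [← integral_const_mul]
      congr 1
      ext y
      rw [hE1 y, Real.mul_rpow hs0.le (norm_nonneg _), hs, Real.sqrt_eq_rpow, ← Real.rpow_mul hn.le]
      congr 2
      ring
    obtain ⟨o1, o2⟩ := hone f1 hf1m hf11
    have hnp : 0 < n2 ^ (p / 2) := by positivity
    rw [hE2]
    refine ⟨?_, fun h => ?_⟩
    · rw [mul_comm]
      gcongr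
    · have h' : ∫ y, ‖Ext f1 y‖ ^ p = ∫ y : F, |u0 y| ^ p := by
        rw [mul_comm] at h
        exact mul_right_cancel₀ hnp.ne' h
      obtain ⟨b, y₀, -, hb⟩ := o2 h'
      refine ⟨(s : ℂ) * b, y₀, ?_⟩
      filter_upwards [hb] with ω hω
      have hsc : (s : ℂ) ≠ 0 := by exact_mod_cast hs0.ne'
      have e9 : ((s⁻¹ : ℝ) : ℂ) * f ω =
          b * Complex.exp (Complex.I * ((⟪(ω : F), y₀⟫ : ℝ) : ℂ)) := hω
      rw [Complex.ofReal_inv] at e9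
      rw [mul_assoc, ← e9, mul_inv_cancel_left₀ hsc]

end Pool.Agent.ExpMax
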