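import Pool.Agent.ExpMax.Targets

set_option autoImplicit false

/-!
# DECAY: the extension of the constant function solves the Bessel equation
-/

noncomputable section

open MeasureTheory Set Filter
open scoped ENNReal RealInnerProductSpace Topology

namespace Pool.Agent.ExpMax

section aux

variable {Ω : Type} [MeasurableSpace Ω] {μ : Measure Ω} [IsProbabilityMeasure μ]

lemma DECAY_int {x : Ω → ℝ} (hx : Measurable x) (hx1 : ∀ ω, |x ω| ≤ 1) (k : ℕ) {g : Ω → ℝ}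
    (hg : Measurable g) (hg1 : ∀ ω, |g ω| ≤ 1) : Integrable (fun ω => x ω ^ k * g ω) μ := by
  refine Integrable.mono' (integrable_const (1 : ℝ)) ((hx.pow_const k).mul hg).aestronglyMeasurable
    (Eventually.of_forall fun ω => ?_)
  rw [Real.norm_eq_abs, abs_mul, abs_pow]
  calc |x ω| ^ k * |g ω| ≤ 1 * 1 :=
        mul_le_mul (pow_le_one₀ (abs_nonneg _) (hx1 ω)) (hg1 ω) (abs_nonneg _) zero_le_one
    _ = 1 := one_mul 1

lemma DECAY_derivCos {x : Ω → ℝ} (hx : Measurable x) (hx1 : ∀ ω, |x ω| ≤ 1) (k : ℕ) (r : ℝ) :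
    HasDerivAt (fun r : ℝ => ∫ ω, x ω ^ k * Real.cos (r * x ω) ∂μ)
      (-∫ ω, x ω ^ (k + 1) * Real.sin (r * x ω) ∂μ) r := by
  have hm : ∀ (j : ℕ) (s : ℝ), Measurable (fun ω => x ω ^ j * Real.cos (s * x ω)) := fun j s =>
    (hx.pow_const j).mul (Real.measurable_cos.comp (hx.const_mul s))
  have hm2 : ∀ (j : ℕ) (s : ℝ), Measurable (fun ω => -(x ω ^ j * Real.sin (s * x ω))) := fun j s =>
    ((hx.pow_const j).mul (Real.measurable_sin.comp (hx.const_mul s))).neg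
  have key := (hasDerivAt_integral_of_dominated_loc_of_deriv_le (μ := μ) (𝕜 := ℝ)
    (F := fun r ω => x ω ^ k * Real.cos (r * x ω))
    (F' := fun r ω => -(x ω ^ (k + 1) * Real.sin (r * x ω)))
    (bound := fun _ => (1 : ℝ)) (x₀ := r) (s := univ) univ_mem
    (Eventually.of_forall fun s => (hm k s).aestronglyMeasurable)
    (DECAY_int hx hx1 k (Real.measurable_cos.comp (hx.const_mul r)) fun ω => Real.abs_cos_le_one _)
    (hm2 (k + 1) r).aestronglyMeasurable ?_ (integrable_const _) ?_).2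
  · rw [← integral_neg]
    exact key
  · refine Eventually.of_forall fun ω s _ => ?_
    rw [norm_neg, Real.norm_eq_abs, abs_mul, abs_pow]
    calc |x ω| ^ (k + 1) * |Real.sin (s * x ω)| ≤ 1 * 1 :=
          mul_le_mul (pow_le_one₀ (abs_nonneg _) (hx1 ω)) (Real.abs_sin_le_one _) (abs_nonneg _)
            zero_le_one
      _ = 1 := one_mul 1
  · refine Eventually.of_forall fun ω s _ => ?_
    have h1 : HasDerivAt (fun s : ℝ => s * x ω) (x ω) s := by
      simpa using (hasDerivAt_id s).mul_const (x ω)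
    have h2 := (h1.cos).const_mul (x ω ^ k)
    have h3 : -(x ω ^ (k + 1) * Real.sin (s * x ω)) =
        x ω ^ k * (-Real.sin (s * x ω) * x ω) := by ring
    rw [h3]
    exact h2

lemma DECAY_derivSin {x : Ω → ℝ} (hx : Measurable x) (hx1 : ∀ ω, |x ω| ≤ 1) (k : ℕ) (r : ℝ) :
    HasDerivAt (fun r : ℝ => ∫ ω, x ω ^ k * Real.sin (r * x ω) ∂μ)
      (∫ ω, x ω ^ (k + 1) * Real.cos (r * x ω) ∂μ) r := by
  have hm : ∀ (j : ℕ) (s : ℝ), Measurable (fun ω => x ω ^ j * Real.cos (s * x ω)) := fun j s =>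
    (hx.pow_const j).mul (Real.measurable_cos.comp (hx.const_mul s))
  have hm2 : ∀ (j : ℕ) (s : ℝ), Measurable (fun ω => (x ω ^ j * Real.sin (s * x ω))) := fun j s =>
    ((hx.pow_const j).mul (Real.measurable_sin.comp (hx.const_mul s)))
  refine (hasDerivAt_integral_of_dominated_loc_of_deriv_le (μ := μ) (𝕜 := ℝ)
    (F := fun r ω => x ω ^ k * Real.sin (r * x ω))
    (F' := fun r ω => (x ω ^ (k + 1) * Real.cos (r * x ω)))
    (bound := fun _ => (1 : ℝ)) (x₀ := r) (s := univ) univ_mem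
    (Eventually.of_forall fun s => (hm2 k s).aestronglyMeasurable)
    (DECAY_int hx hx1 k (Real.measurable_sin.comp (hx.const_mul r)) fun ω => Real.abs_sin_le_one _)
    (hm (k + 1) r).aestronglyMeasurable ?_ (integrable_const _) ?_).2
  · refine Eventually.of_forall fun ω s _ => ?_
    rw [Real.norm_eq_abs, abs_mul, abs_pow]
    calc |x ω| ^ (k + 1) * |Real.cos (s * x ω)| ≤ 1 * 1 :=
          mul_le_mul (pow_le_one₀ (abs_nonneg _) (hx1 ω)) (Real.abs_cos_le_one _) (abs_nonneg _)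
            zero_le_one
      _ = 1 := one_mul 1
  · refine Eventually.of_forall fun ω s _ => ?_
    have h1 : HasDerivAt (fun s : ℝ => s * x ω) (x ω) s := by
      simpa using (hasDerivAt_id s).mul_const (x ω)
    have h2 := (h1.sin).const_mul (x ω ^ k)
    have h3 : x ω ^ (k + 1) * Real.cos (s * x ω) =
        x ω ^ k * (Real.cos (s * x ω) * x ω) := by ring
    rw [h3]
    exact h2

end aux

section

variable {F : Type} [NormedAddCommGroup F] [InnerProductSpace ℝ F] [FiniteDimensional ℝ F]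
    [MeasurableSpace F] [BorelSpace F]

omit [FiniteDimensional ℝ F] in
lemma DECAY_meas (e : F) : Measurable (fun ω : Metric.sphere (0 : F) 1 => ⟪(ω : F), e⟫) := by
  have h : Continuous (fun ω : Metric.sphere (0 : F) 1 => ⟪(ω : F), e⟫) := by fun_prop
  exact h.measurable

omit [FiniteDimensional ℝ F] [MeasurableSpace F] [BorelSpace F] in
lemma DECAY_le {e : F} (he : ‖e‖ = 1) (ω : Metric.sphere (0 : F) 1) : |⟪(ω : F), e⟫| ≤ 1 := by
  have h := abs_real_inner_le_norm (ω : F) e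
  have h2 : ‖(ω : F)‖ = 1 := by simp
  rwa [h2, he, one_mul] at h

/-- The Bessel equation. -/
lemma DECAY_ode (hI : IsProbabilityMeasure (prb F)) (hn : 2 ≤ Module.finrank ℝ F)
    (hR : ∀ e e' : F, ‖e‖ = 1 → ‖e'‖ = 1 → ⟪e, e'⟫ = 0 → ∀ r : ℝ,
      r * ∫ ω, ⟪(ω : F), e'⟫ ^ 2 * Real.cos (r * ⟪(ω : F), e⟫) ∂(prb F) =
        ∫ ω, ⟪(ω : F), e⟫ * Real.sin (r * ⟪(ω : F), e⟫) ∂(prb F))
    (i₀ : Fin (Module.finrank ℝ F)) (r : ℝ) (hr : 0 < r) :
    (-∫ ω, ⟪(ω : F), stdOrthonormalBasis ℝ F i₀⟫ ^ 2 *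
        Real.cos (r * ⟪(ω : F), stdOrthonormalBasis ℝ F i₀⟫) ∂(prb F)) +
      ((Module.finrank ℝ F : ℝ) - 1) / r *
        (-∫ ω, ⟪(ω : F), stdOrthonormalBasis ℝ F i₀⟫ ^ 1 *
          Real.sin (r * ⟪(ω : F), stdOrthonormalBasis ℝ F i₀⟫) ∂(prb F)) +
      ∫ ω, ⟪(ω : F), stdOrthonormalBasis ℝ F i₀⟫ ^ 0 *
          Real.cos (r * ⟪(ω : F), stdOrthonormalBasis ℝ F i₀⟫) ∂(prb F) = 0 := by
  set b := stdOrthonormalBasis ℝ F with hb
  have hb1 : ∀ i, ‖b i‖ = 1 := fun i => b.orthonormal.1 i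
  have hsum : ∀ ω : Metric.sphere (0 : F) 1, ∑ i, ⟪(ω : F), b i⟫ ^ 2 = 1 := by
    intro ω
    have h := b.sum_sq_norm_inner_left (ω : F)
    have h2 : ‖(ω : F)‖ = 1 := by simp
    rw [h2] at h
    simpa using h
  have hint : ∀ (k : ℕ) (i : Fin (Module.finrank ℝ F)),
      Integrable (fun ω : Metric.sphere (0 : F) 1 => ⟪(ω : F), b i⟫ ^ k *
        Real.cos (r * ⟪(ω : F), b i₀⟫)) (prb F) := fun k i =>
    DECAY_int (DECAY_meas (b i)) (DECAY_le (hb1 i)) k
      (Real.measurable_cos.comp ((DECAY_meas (b i₀)).const_mul r)) fun ω => Real.abs_cos_le_one _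
  have h1 : ∫ ω, ⟪(ω : F), b i₀⟫ ^ 0 * Real.cos (r * ⟪(ω : F), b i₀⟫) ∂(prb F) =
      ∑ i, ∫ ω, ⟪(ω : F), b i⟫ ^ 2 * Real.cos (r * ⟪(ω : F), b i₀⟫) ∂(prb F) := by
    rw [← integral_finsetSum _ (fun i _ => hint 2 i)]
    refine integral_congr_ae (Eventually.of_forall fun ω => ?_)
    simp only [pow_zero, one_mul]
    rw [← Finset.sum_mul, hsum, one_mul]
  have h2 : ∀ i, i ≠ i₀ → ∫ ω, ⟪(ω : F), b i⟫ ^ 2 * Real.cos (r * ⟪(ω : F), b i₀⟫) ∂(prb F) =
      (∫ ω, ⟪(ω : F), b i₀⟫ ^ 1 * Real.sin (r * ⟪(ω : F), b i₀⟫) ∂(prb F)) / r := by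
    intro i hi
    have h3 := hR (b i₀) (b i) (hb1 i₀) (hb1 i) (b.orthonormal.2 (Ne.symm hi)) r
    simp only [pow_one]
    rw [← h3]
    field_simp
  rw [h1, ← Finset.add_sum_erase _ _ (Finset.mem_univ i₀)]
  rw [Finset.sum_congr rfl (fun i hi => h2 i (Finset.ne_of_mem_erase hi)), Finset.sum_const,
    Finset.card_erase_of_mem (Finset.mem_univ i₀), Finset.card_univ, Fintype.card_fin, nsmul_eq_mul,
    Nat.cast_sub (by omega)]
  push_cast
  ring

end

theorem tDECAY (hI : T_INV) (hB : T_BASIC) (hR : T_ROTD) (hO : T_ODEAN) : T_DECAY := by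
  intro F _ _ _ _ _ hn
  have hn1 : 1 ≤ Module.finrank ℝ F := by omega
  have hP : IsProbabilityMeasure (prb F) := (hI F hn1).1
  obtain ⟨-, hcont, hrad, habs, -, -, hquad⟩ := hB F hn1
  set i₀ : Fin (Module.finrank ℝ F) := ⟨0, by omega⟩ with hi₀
  set e : F := stdOrthonormalBasis ℝ F i₀ with he
  have he1 : ‖e‖ = 1 := (stdOrthonormalBasis ℝ F).orthonormal.1 i₀
  set U : ℝ → ℝ := fun r => ∫ ω, ⟪(ω : F), e⟫ ^ 0 * Real.cos (r * ⟪(ω : F), e⟫) ∂(prb F) with hU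
  set U1 : ℝ → ℝ := fun r => -∫ ω, ⟪(ω : F), e⟫ ^ 1 * Real.sin (r * ⟪(ω : F), e⟫) ∂(prb F) with hU1
  set U2 : ℝ → ℝ := fun r => -∫ ω, ⟪(ω : F), e⟫ ^ 2 * Real.cos (r * ⟪(ω : F), e⟫) ∂(prb F) with hU2
  have hdU : ∀ r, HasDerivAt U (U1 r) r := fun r =>
    DECAY_derivCos (DECAY_meas e) (DECAY_le he1) 0 r
  have hdU1 : ∀ r, HasDerivAt U1 (U2 r) r := fun r =>
    (DECAY_derivSin (DECAY_meas e) (DECAY_le he1) 1 r).neg
  have hcU2 : Continuous U2 := by
    have h : ∀ r, HasDerivAt U2 (-(-∫ ω, ⟪(ω : F), e⟫ ^ (2 + 1) *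
        Real.sin (r * ⟪(ω : F), e⟫) ∂(prb F))) r := fun r =>
      (DECAY_derivCos (DECAY_meas e) (DECAY_le he1) 2 r).neg
    exact continuous_iff_continuousAt.mpr fun r => (h r).continuousAt
  have hU0 : U 0 = 1 := by simp [hU]
  have hU10 : U1 0 = 0 := by simp [hU1]
  have hUy : ∀ y : F, u0 y = U ‖y‖ := by
    intro y
    have h1 : u0 y = u0 (‖y‖ • e) := hrad _ _ (by rw [norm_smul, he1, mul_one, norm_norm])
    rw [h1]
    simp only [u0, hU, pow_zero, one_mul, real_inner_smul_right]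
  have hUr : ∀ r : ℝ, 0 ≤ r → U r = u0 (r • e) := by
    intro r hr
    rw [hUy, norm_smul, he1, mul_one, Real.norm_eq_abs, abs_of_nonneg hr]
  have hDpos : (0 : ℝ) < Module.finrank ℝ F := by
    have : 0 < Module.finrank ℝ F := by omega
    exact_mod_cast this
  obtain ⟨hk, C, hC, hdec⟩ := hO ((Module.finrank ℝ F : ℝ) - 1) U U1 U2
    (by have : (2 : ℝ) ≤ Module.finrank ℝ F := by exact_mod_cast hn
        linarith) hdU hdU1 hcU2
    (fun r hr => DECAY_ode hP hn (hR F hn1) i₀ r hr) hU0 hU10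
  refine ⟨?_, ?_⟩
  · obtain ⟨κ, hκ0, hκ1, hκ⟩ := hk (1 / (5 * (Module.finrank ℝ F : ℝ))) (by positivity) (by
      intro r hr0 hr1
      rw [hUr r hr0]
      have h := hquad (r • e) (by rw [norm_smul, he1, mul_one, Real.norm_eq_abs, abs_of_nonneg hr0]
                                  exact hr1)
      rwa [norm_smul, he1, mul_one, Real.norm_eq_abs, abs_of_nonneg hr0] at h)
    exact ⟨κ, hκ0, hκ1, fun y hy => by rw [hUy]; exact hκ _ hy⟩
  · refine ⟨4 * (Module.finrank ℝ F : ℝ) + 4, by linarith, ?_⟩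
    set D : ℝ := (Module.finrank ℝ F : ℝ) with hD
    have hint : Integrable (fun y : F => (1 + ‖y‖) ^ (-(D + 1))) :=
      integrable_one_add_norm (by rw [hD]; linarith)
    refine Integrable.mono' (hint.const_mul (C ^ ((4 * D + 4) / 2))) ?_
      (Eventually.of_forall fun y => ?_)
    · exact ((hcont.abs).rpow_const fun _ => Or.inr (by positivity)).aestronglyMeasurable
    · have hpos : (0 : ℝ) < 1 + ‖y‖ := by positivity
      rw [Real.norm_eq_abs, abs_of_nonneg (Real.rpow_nonneg (abs_nonneg _) _)]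
      have h1 : |u0 y| ≤ C * (1 + ‖y‖) ^ (-(1 / 2) : ℝ) := by
        rw [hUy]; exact hdec _ (norm_nonneg _)
      calc |u0 y| ^ ((4 * D + 4) / 2)
          ≤ (C * (1 + ‖y‖) ^ (-(1 / 2) : ℝ)) ^ ((4 * D + 4) / 2) :=
            Real.rpow_le_rpow (abs_nonneg _) h1 (by positivity)
        _ = C ^ ((4 * D + 4) / 2) * (1 + ‖y‖) ^ (-(D + 1)) := by
            rw [Real.mul_rpow hC.le (Real.rpow_nonneg hpos.le _), ← Real.rpow_mul hpos.le]
            congr 2
            ring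

end Pool.Agent.ExpMax
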