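import Mathlib

set_option autoImplicit false

/-!
# Exponential functions on conic sections: the definitions used in the statement
-/

noncomputable section

open MeasureTheory Set
open scoped ENNReal RealInnerProductSpace

namespace Pool.Agent.ExpMax

/-- The space of the last `d` coordinates. -/
abbrev Ed (d : ℕ) : Type := EuclideanSpace ℝ (Fin d)

/-- Points `(τ, ρ, ξ)` of the space of dimension `d + 2`. -/
abbrev Pt (d : ℕ) : Type := ℝ × ℝ × Ed d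

/-- The scalar product of `ζ = (τ, ρ, ξ)` and `y = (t, r, x)`. -/
def dot {d : ℕ} (ζ y : Pt d) : ℝ := ζ.1 * y.1 + ζ.2.1 * y.2.1 + ⟪ζ.2.2, y.2.2⟫

/-- The point of the hyperplane `W = {α τ + β ρ + γ = 0}` with coordinates `(s, ξ)`: the point
`-γ / (α ^ 2 + β ^ 2) • (α, β, 0) + s / √(α ^ 2 + β ^ 2) • (-β, α, 0) + (0, 0, ξ)`. The map
`(s, ξ) ↦ planePt α β γ s ξ` is an isometry onto `W`. -/
def planePt (α β γ : ℝ) {d : ℕ} (s : ℝ) (ξ : Ed d) : Pt d :=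
  (-(γ * α) / (α ^ 2 + β ^ 2) - s * β / √(α ^ 2 + β ^ 2),
    -(γ * β) / (α ^ 2 + β ^ 2) + s * α / √(α ^ 2 + β ^ 2), ξ)

/-- The measure `δ(ℓ(ζ)) dζ`, `ℓ(τ, ρ, ξ) = α τ + β ρ + γ`: it is `1 / |(α, β)|` times Lebesgue
measure of the hyperplane `W`. -/
def planeMeasure (α β γ : ℝ) (d : ℕ) : Measure (Pt d) :=
  ENNReal.ofReal (1 / √(α ^ 2 + β ^ 2)) •
    Measure.map (fun x : ℝ × Ed d => planePt α β γ x.1 x.2) volume

/-- `τ ^ 2 - ρ ^ 2` at the points of `W` with coordinates `(s, ξ)`; such a point is on the cone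
`τ ^ 2 = ρ ^ 2 + |ξ| ^ 2` if and only if `|ξ| ^ 2 = Q α β γ s`. -/
def Q (α β γ s : ℝ) : ℝ :=
  (-(γ * α) / (α ^ 2 + β ^ 2) - s * β / √(α ^ 2 + β ^ 2)) ^ 2 -
    (-(γ * β) / (α ^ 2 + β ^ 2) + s * α / √(α ^ 2 + β ^ 2)) ^ 2

/-- The point of the section `S` of the cone by `W` with parameters `(s, ω)`, `|ω| = 1`. -/
def conePt (α β γ : ℝ) {d : ℕ} (s : ℝ) (ω : Metric.sphere (0 : Ed d) 1) : Pt d :=
  planePt α β γ s (√(Q α β γ s) • (ω : Ed d))

/-- The measure `σ = δ(ℓ(ζ)) δ(q(ζ)) dζ` on the section `S` of the cone by `W`, where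
`q(τ, ρ, ξ) = τ ^ 2 - ρ ^ 2 - |ξ| ^ 2`. In the coordinates `(s, ξ)` of `W` it is
`1 / |(α, β)| * δ(Q(s) - |ξ| ^ 2) ds dξ`, and in polar coordinates `ξ = r ω` one has
`δ(Q(s) - r ^ 2) r ^ (d - 1) dr dω = 1 / 2 * Q(s) ^ ((d - 2) / 2) dω` at `r = √(Q(s))`
for `Q(s) > 0` (and `0` for `Q(s) < 0`); `dω` is the usual surface measure of the unit sphere. -/
def sectionMeasure (α β γ : ℝ) (d : ℕ) : Measure (Pt d) :=
  ENNReal.ofReal (1 / (2 * √(α ^ 2 + β ^ 2))) •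
    Measure.map (fun x : ℝ × Metric.sphere (0 : Ed d) 1 => conePt α β γ x.1 x.2)
      (((volume.restrict {s : ℝ | 0 < Q α β γ s}).withDensity
        (fun s => ENNReal.ofReal (Q α β γ s ^ (((d : ℝ) - 2) / 2)))).prod
        (volume : Measure (Ed d)).toSphere)

/-- The Fourier extension `∫ f(ζ) exp(-i ζ · y) dσ(ζ)`. -/
def extension (α β γ : ℝ) {d : ℕ} (f : Pt d → ℂ) (y : Pt d) : ℂ :=
  ∫ ζ, f ζ * Complex.exp (-(Complex.I * ((dot ζ y : ℝ) : ℂ))) ∂(sectionMeasure α β γ d)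

/-- The quotient of the `p`-th power of the `L ^ p` norm of the extension of `f` on `W` (with the
measure `δ(ℓ(y)) dy`) and of the `p`-th power of the norm of `f` in `L ^ 2 (σ)`. -/
def quotient (α β γ : ℝ) {d : ℕ} (p : ℝ) (f : Pt d → ℂ) : ℝ≥0∞ :=
  (∫⁻ y, ‖extension α β γ f y‖ₑ ^ p ∂(planeMeasure α β γ d)) /
    (∫⁻ ζ, ‖f ζ‖ₑ ^ (2 : ℝ) ∂(sectionMeasure α β γ d)) ^ (p / 2)

/-- The best constant `M`: the supremum of the quotient over the nonzero `f` in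
`L ^ 2 (σ)` for which the integral defining the extension converges absolutely (these `f` are
dense in `L ^ 2 (σ)`; they are all `f` in `L ^ 2 (σ)` if `S` is bounded). -/
def bestConst (α β γ : ℝ) (d : ℕ) (p : ℝ) : ℝ≥0∞ :=
  ⨆ (f : Pt d → ℂ) (_ : MemLp f 2 (sectionMeasure α β γ d))
    (_ : Integrable f (sectionMeasure α β γ d)) (_ : ¬ f =ᵐ[sectionMeasure α β γ d] 0),
    quotient α β γ p f

/-- `f` is a maximizer: `0 ≠ f ∈ L ^ 2 (σ)`, the best constant is finite, and it is attained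
at `f`. -/
def IsMaximizer (α β γ : ℝ) {d : ℕ} (p : ℝ) (f : Pt d → ℂ) : Prop :=
  MemLp f 2 (sectionMeasure α β γ d) ∧ ¬ f =ᵐ[sectionMeasure α β γ d] 0 ∧
    bestConst α β γ d p < ∞ ∧ quotient α β γ p f = bestConst α β γ d p

/-- The exponential function `exp(-|τ|)`. -/
def expTau {d : ℕ} (ζ : Pt d) : ℂ := ((Real.exp (-|ζ.1|) : ℝ) : ℂ)

end Pool.Agent.ExpMax
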