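import Mathlib
import Pool.Agent.ExpMax.Targets

set_option autoImplicit false

/-!
# Ellipsoidal sections
-/

noncomputable section

open MeasureTheory Set Filter
open scoped ENNReal RealInnerProductSpace Topology

namespace Pool.Agent.ExpMax

/-- change of variables for a density -/
lemma ELL_map_withDensity {A B : Type} [MeasurableSpace A] [MeasurableSpace B] (μ : Measure A)
    (f : A → B) (hf : Measurable f) (q : B → ℝ≥0∞) (hq : Measurable q) :
    (Measure.map f μ).withDensity q = Measure.map f (μ.withDensity (fun x => q (f x))) := by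
  refine Measure.ext fun s hs => ?_
  rw [withDensity_apply _ hs, Measure.map_apply hf hs, withDensity_apply _ (hf hs),
    Measure.restrict_map hf hs, lintegral_map hq hf]

/-- Lebesgue measure as an image under an affine map -/
lemma ELL_volume (s₀ a : ℝ) (ha : 0 < a) :
    (volume : Measure ℝ) = ENNReal.ofReal a • Measure.map (fun h : ℝ => s₀ + a * h) volume := by
  have h1 := Real.smul_map_volume_mul_left (a := a) ha.ne'
  rw [abs_of_pos ha] at h1
  have h2 : Measure.map (fun x : ℝ => s₀ + x) volume = (volume : Measure ℝ) :=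
    (measurePreserving_add_left volume s₀).map_eq
  have h3 : Measure.map (fun h : ℝ => s₀ + a * h) volume =
      Measure.map (fun x : ℝ => s₀ + x) (Measure.map (fun h : ℝ => a * h) volume) := by
    rw [Measure.map_map (by fun_prop) (by fun_prop)]
    rfl
  rw [h3, ← Measure.map_smul, h1, h2]

lemma ELL_Q (α β γ : ℝ) (h : |β| < |α|) (x : ℝ) :
    Q α β γ (2 * γ * α * β / (√(α ^ 2 + β ^ 2) * (α ^ 2 - β ^ 2)) +
      √(α ^ 2 + β ^ 2) / √(α ^ 2 - β ^ 2) * (|γ| / √(α ^ 2 - β ^ 2)) * x) =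
      (|γ| / √(α ^ 2 - β ^ 2)) ^ 2 * (1 - x ^ 2) := by
  have hΔ : 0 < α ^ 2 - β ^ 2 := by
    have := sq_lt_sq.mpr h
    linarith
  have hN2 : 0 < α ^ 2 + β ^ 2 := by nlinarith [sq_nonneg β]
  set N := √(α ^ 2 + β ^ 2) with hN
  have hN0 : 0 < N := Real.sqrt_pos.mpr hN2
  have hNN : α ^ 2 + β ^ 2 = N ^ 2 := (Real.sq_sqrt hN2.le).symm
  set D := √(α ^ 2 - β ^ 2) with hD
  have hD0 : 0 < D := Real.sqrt_pos.mpr hΔ
  have hDD : α ^ 2 - β ^ 2 = D ^ 2 := (Real.sq_sqrt hΔ.le).symm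
  have hg : |γ| ^ 2 = γ ^ 2 := sq_abs γ
  unfold Q
  rw [← hN, hNN, hDD]
  have e1 : N / D * (|γ| / D) = N * |γ| / D ^ 2 := by field_simp
  rw [e1]
  have hα : α ^ 2 = (N ^ 2 + D ^ 2) / 2 := by linarith
  have hβ : β ^ 2 = (N ^ 2 - D ^ 2) / 2 := by linarith
  have key : ∀ s : ℝ, (-(γ * α) / N ^ 2 - s * β / N) ^ 2 - (-(γ * β) / N ^ 2 + s * α / N) ^ 2 =
      γ ^ 2 / D ^ 2 - D ^ 2 / N ^ 2 * (s - 2 * γ * α * β / (N * D ^ 2)) ^ 2 := by
    intro s
    have h1 : (-(γ * α) / N ^ 2 - s * β / N) ^ 2 - (-(γ * β) / N ^ 2 + s * α / N) ^ 2 =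
        γ ^ 2 * (α ^ 2 - β ^ 2) / N ^ 4 + 4 * γ * α * β * s / N ^ 3 -
          s ^ 2 * (α ^ 2 - β ^ 2) / N ^ 2 := by
      field_simp
      ring
    have h2 : γ ^ 2 / D ^ 2 - D ^ 2 / N ^ 2 * (s - 2 * γ * α * β / (N * D ^ 2)) ^ 2 =
        γ ^ 2 / D ^ 2 - D ^ 2 / N ^ 2 * s ^ 2 + 4 * γ * α * β * s / N ^ 3 -
          4 * γ ^ 2 * α ^ 2 * β ^ 2 / (N ^ 4 * D ^ 2) := by
      field_simp
      ring
    have h3 : α ^ 2 * β ^ 2 = (N ^ 4 - D ^ 4) / 4 := by rw [hα, hβ]; ring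
    have h4 : 4 * γ ^ 2 * α ^ 2 * β ^ 2 / (N ^ 4 * D ^ 2) =
        γ ^ 2 * (N ^ 4 - D ^ 4) / (N ^ 4 * D ^ 2) := by
      rw [show 4 * γ ^ 2 * α ^ 2 * β ^ 2 = 4 * γ ^ 2 * (α ^ 2 * β ^ 2) by ring, h3]
      ring
    rw [h1, h2, h4, hDD]
    field_simp
    ring
  rw [key]
  rw [div_pow, hg]
  field_simp
  linear_combination (-(N ^ 4 * x ^ 2)) * hg

lemma ELL_tau (α β γ : ℝ) (h : |β| < |α|) (x : ℝ) {d : ℕ} (ξ : Ed d) :
    (planePt α β γ (2 * γ * α * β / (√(α ^ 2 + β ^ 2) * (α ^ 2 - β ^ 2)) +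
      √(α ^ 2 + β ^ 2) / √(α ^ 2 - β ^ 2) * (|γ| / √(α ^ 2 - β ^ 2)) * x) ξ).1 =
      -(γ * α + |γ| * β * x) / (α ^ 2 - β ^ 2) := by
  have hΔ : 0 < α ^ 2 - β ^ 2 := by
    have := sq_lt_sq.mpr h
    linarith
  have hN2 : 0 < α ^ 2 + β ^ 2 := by nlinarith [sq_nonneg β]
  set N := √(α ^ 2 + β ^ 2) with hN
  have hN0 : 0 < N := Real.sqrt_pos.mpr hN2
  have hNN : α ^ 2 + β ^ 2 = N ^ 2 := (Real.sq_sqrt hN2.le).symm
  set D := √(α ^ 2 - β ^ 2) with hD
  have hD0 : 0 < D := Real.sqrt_pos.mpr hΔ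
  have hDD : α ^ 2 - β ^ 2 = D ^ 2 := (Real.sq_sqrt hΔ.le).symm
  have hβ : β ^ 2 = (N ^ 2 - D ^ 2) / 2 := by linarith
  unfold planePt
  simp only
  rw [← hN, hNN, hDD]
  have h1 : -(γ * α) / N ^ 2 - (2 * γ * α * β / (N * D ^ 2) + N / D * (|γ| / D) * x) * β / N =
      -(γ * α) / N ^ 2 - 2 * γ * α * β ^ 2 / (N ^ 2 * D ^ 2) - |γ| * β * x / D ^ 2 := by
    field_simp
    ring
  rw [h1, hβ]
  field_simp
  ring

lemma ELL_contPlane (α β γ : ℝ) {d : ℕ} :
    Continuous (fun x : ℝ × Ed d => planePt α β γ x.1 x.2) := by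
  unfold planePt
  fun_prop

/-- ELL -/
theorem tELL (hS : T_SLICE) : T_ELL := by
  intro d α β γ hd h hγ
  have hΔ : 0 < α ^ 2 - β ^ 2 := by
    have := sq_lt_sq.mpr h
    linarith
  have hN2 : 0 < α ^ 2 + β ^ 2 := by nlinarith [sq_nonneg β]
  have hα : α ≠ 0 := by
    rintro rfl
    simp at h
    exact absurd h (not_lt.mpr (abs_nonneg β))
  have hN0 : 0 < √(α ^ 2 + β ^ 2) := Real.sqrt_pos.mpr hN2
  have hD0 : 0 < √(α ^ 2 - β ^ 2) := Real.sqrt_pos.mpr hΔ
  have hγ0 : 0 < |γ| := abs_pos.mpr hγ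
  set s₀ : ℝ := 2 * γ * α * β / (√(α ^ 2 + β ^ 2) * (α ^ 2 - β ^ 2)) with hs₀
  set κ : ℝ := √(α ^ 2 + β ^ 2) / √(α ^ 2 - β ^ 2) with hκ
  set R : ℝ := |γ| / √(α ^ 2 - β ^ 2) with hR
  have hκ0 : 0 < κ := div_pos hN0 hD0
  have hR0 : 0 < R := div_pos hγ0 hD0
  have hQ : ∀ x, Q α β γ (s₀ + κ * R * x) = R ^ 2 * (1 - x ^ 2) := ELL_Q α β γ h
  set ν : Measure (Metric.sphere (0 : Ed d) 1) := (volume : Measure (Ed d)).toSphere with hν
  set c₁ : ℝ := κ * R * R ^ ((d : ℝ) - 2) with hc₁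
  have hc₁0 : 0 < c₁ := by positivity
  set μ2 : Measure ℝ := (volume.restrict (Ioo (-1 : ℝ) 1)).withDensity
        (fun h => ENNReal.ofReal ((1 - h ^ 2) ^ (((d : ℝ) - 2) / 2))) with hμ2
  set A : ℝ → ℝ := fun x => s₀ + κ * R * x with hA
  have hAm : Measurable A := by rw [hA]; fun_prop
  have hQc : Continuous (Q α β γ) := by unfold Q; fun_prop
  have hSm : MeasurableSet {s : ℝ | 0 < Q α β γ s} := (isOpen_lt continuous_const hQc).measurableSet
  have hpre : A ⁻¹' {s : ℝ | 0 < Q α β γ s} = Ioo (-1 : ℝ) 1 := by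
    ext x
    simp only [mem_preimage, mem_ofPred_eq, hA, hQ, mem_Ioo]
    rw [mul_pos_iff_of_pos_left (by positivity)]
    rw [sub_pos, sq_lt_one_iff_abs_lt_one, abs_lt]
  have hq : Measurable (fun s => ENNReal.ofReal (Q α β γ s ^ (((d : ℝ) - 2) / 2))) :=
    (hQc.measurable.pow_const _).ennreal_ofReal
  -- the one dimensional measure
  have h1 : (volume.restrict {s : ℝ | 0 < Q α β γ s}).withDensity
        (fun s => ENNReal.ofReal (Q α β γ s ^ (((d : ℝ) - 2) / 2))) =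
      ENNReal.ofReal c₁ • Measure.map A μ2 := by
    conv_lhs => rw [ELL_volume s₀ (κ * R) (by positivity)]
    rw [Measure.restrict_smul, withDensity_smul_measure, Measure.restrict_map hAm hSm, hpre,
      ELL_map_withDensity _ _ hAm _ hq]
    have h2 : (volume.restrict (Ioo (-1 : ℝ) 1)).withDensity
        (fun x => ENNReal.ofReal (Q α β γ (A x) ^ (((d : ℝ) - 2) / 2))) =
        ENNReal.ofReal (R ^ ((d : ℝ) - 2)) • μ2 := by
      rw [hμ2, ← withDensity_smul _ (by fun_prop)]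
      refine withDensity_congr_ae ?_
      filter_upwards [self_mem_ae_restrict (measurableSet_Ioo : MeasurableSet (Ioo (-1 : ℝ) 1))]
        with x hx
      have hx1 : 0 ≤ 1 - x ^ 2 := by nlinarith [hx.1, hx.2]
      simp only [Pi.smul_apply, smul_eq_mul, hA, hQ]
      rw [← ENNReal.ofReal_mul (by positivity), Real.mul_rpow (by positivity) hx1]
      congr 2
      rw [← Real.rpow_natCast R 2, ← Real.rpow_mul hR0.le]
      congr 1
      push_cast
      ring
    rw [h2, Measure.map_smul, smul_smul, ← ENNReal.ofReal_mul (by positivity), hc₁]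
  -- the measure on the section
  have hconj : (fun x : ℝ × Metric.sphere (0 : Ed d) 1 => conePt α β γ x.1 x.2) ∘
      (Prod.map A id) =
      (fun y : ℝ × Ed d => planePt α β γ (s₀ + κ * R * y.1) (R • y.2)) ∘
      (fun x : ℝ × Metric.sphere (0 : Ed d) 1 => (x.1, √(1 - x.1 ^ 2) • (x.2 : Ed d))) := by
    funext x
    simp only [Function.comp, Prod.map, id, conePt, hA, hQ]
    rw [Real.sqrt_mul (by positivity), Real.sqrt_sq hR0.le, mul_smul]
  have hcone : Measurable (fun x : ℝ × Metric.sphere (0 : Ed d) 1 => conePt α β γ x.1 x.2) := by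
    apply Continuous.measurable
    unfold conePt planePt
    have := hQc
    fun_prop
  have hplane : Measurable
      (fun y : ℝ × Ed d => planePt α β γ (s₀ + κ * R * y.1) (R • y.2)) := by
    apply Continuous.measurable
    unfold planePt
    fun_prop
  have hj : Measurable (fun x : ℝ × Metric.sphere (0 : Ed d) 1 =>
      (x.1, √(1 - x.1 ^ 2) • (x.2 : Ed d))) := by
    apply Continuous.measurable
    fun_prop
  have hj2 : Measurable (fun ω : Metric.sphere (0 : Fd d) 1 => ((ω : Fd d).fst, (ω : Fd d).snd)) := by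
    apply Continuous.measurable
    fun_prop
  have : SFinite μ2 := by rw [hμ2]; infer_instance
  have h3 : Measure.map (fun x : ℝ × Metric.sphere (0 : Ed d) 1 => conePt α β γ x.1 x.2)
      ((Measure.map A μ2).prod ν) =
      Measure.map (ellPt α β γ s₀ κ R) (volume : Measure (Fd d)).toSphere := by
    have e1 : (Measure.map A μ2).prod ν = Measure.map (Prod.map A id) (μ2.prod ν) := by
      rw [← Measure.map_prod_map μ2 ν hAm measurable_id, Measure.map_id]
    rw [e1, Measure.map_map hcone (hAm.prodMap measurable_id), hconj,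
      ← Measure.map_map hplane hj, ← hS d hd, Measure.map_map hplane hj2]
    rfl
  have hfin : Nontrivial (Fd d) := ⟨⟨WithLp.toLp 2 (0, 0), WithLp.toLp 2 (1, 0), by
    intro h
    have := congrArg (fun x : Fd d => x.fst) h
    simp at this⟩⟩
  have hu0 : (volume : Measure (Fd d)).toSphere univ ≠ 0 := by
    rw [Ne, Measure.measure_univ_eq_zero]
    exact Measure.toSphere_ne_zero _
  have hu1 : (volume : Measure (Fd d)).toSphere univ ≠ ∞ := measure_ne_top _ _
  have hprb : (volume : Measure (Fd d)).toSphere =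
      (volume : Measure (Fd d)).toSphere univ • prb (Fd d) := by
    unfold prb
    rw [smul_smul, ENNReal.mul_inv_cancel hu0 hu1, one_smul]
  set m : ℝ := ((volume : Measure (Fd d)).toSphere univ).toReal with hm
  have hm0 : 0 < m := ENNReal.toReal_pos hu0 hu1
  refine ⟨s₀, κ, R, |γ| * |α| / (α ^ 2 - β ^ 2),
    (if 0 < γ * α then 1 else -1) * (|γ| * β / (α ^ 2 - β ^ 2)),
    1 / (2 * √(α ^ 2 + β ^ 2)) * (c₁ * m), hκ0, hR0, by positivity, ?_, ?_, ?_, ?_⟩
  · rintro rfl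
    simp
  · intro hβ
    have : |γ| * β / (α ^ 2 - β ^ 2) ≠ 0 := div_ne_zero (mul_ne_zero hγ0.ne' hβ) hΔ.ne'
    split_ifs
    · simpa using this
    · simpa using neg_ne_zero.mpr this
  · intro ω
    have hω : |(ω : Fd d).fst| ≤ 1 := by
      have h1 : ‖(ω : Fd d)‖ = 1 := by
        have := ω.2
        simpa using this
      have h2 := WithLp.prod_norm_sq_eq_of_L2 (ω : Fd d)
      rw [h1, Real.norm_eq_abs] at h2
      rw [abs_le_one_iff_mul_self_le_one]
      nlinarith [sq_nonneg ‖(ω : Fd d).snd‖, sq_abs (ω : Fd d).fst]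
    set x := (ω : Fd d).fst with hx
    have e1 : (ellPt α β γ s₀ κ R ω).1 = -(γ * α + |γ| * β * x) / (α ^ 2 - β ^ 2) :=
      ELL_tau α β γ h x _
    rw [e1, abs_div, abs_neg, abs_of_pos hΔ]
    have hbx : |β * x| ≤ |α| := by
      rw [abs_mul]
      calc |β| * |x| ≤ |β| * 1 := mul_le_mul_of_nonneg_left hω (abs_nonneg _)
        _ ≤ |α| := by linarith
    have hbx' := abs_le.mp hbx
    have e2 : |γ * α + |γ| * β * x| = |γ| * |α| + (if 0 < γ * α then 1 else -1) * (|γ| * β) * x := by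
      have e3 : |γ * α| = |γ| * |α| := abs_mul _ _
      split_ifs with hs
      · rw [abs_of_pos hs] at e3
        rw [e3, abs_of_nonneg]
        · ring
        · nlinarith
      · rw [abs_of_nonpos (not_lt.mp hs)] at e3
        rw [show γ * α = -(|γ| * |α|) by linarith, abs_of_nonpos]
        · ring
        · nlinarith
    rw [e2]
    ring
  · unfold sectionMeasure
    rw [← hν, h1, Measure.prod_smul_left, Measure.map_smul, h3, hprb, Measure.map_smul, smul_smul,
      smul_smul]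
    congr 1
    rw [← ENNReal.ofReal_toReal hu1, ← hm, mul_assoc, ← ENNReal.ofReal_mul hc₁0.le,
      ← ENNReal.ofReal_mul (by positivity)]

end Pool.Agent.ExpMax
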