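import Pool.Agent.ExpMax.Targets

set_option autoImplicit false

/-!
# The extension is bounded and Lipschitz (target `T_EXTC`)
-/

noncomputable section

open MeasureTheory Set Filter
open scoped ENNReal RealInnerProductSpace Topology

namespace Pool.Agent.ExpMax

section

variable {F : Type} [NormedAddCommGroup F] [InnerProductSpace ℝ F] [FiniteDimensional ℝ F]
    [MeasurableSpace F] [BorelSpace F]

theorem EXTC_norm_exp (a : ℝ) : ‖Complex.exp (-(Complex.I * (a : ℂ)))‖ = 1 := by
  have h : -(Complex.I * (a : ℂ)) = ((-a : ℝ) : ℂ) * Complex.I := by push_cast; ring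
  rw [h, Complex.norm_exp_ofReal_mul_I]

theorem EXTC_sub (a b : ℝ) :
    ‖Complex.exp (-(Complex.I * (a : ℂ))) - Complex.exp (-(Complex.I * (b : ℂ)))‖ ≤ |a - b| := by
  have h : Complex.exp (-(Complex.I * (a : ℂ))) - Complex.exp (-(Complex.I * (b : ℂ))) =
      Complex.exp (-(Complex.I * (b : ℂ))) * (Complex.exp (Complex.I * ((b - a : ℝ) : ℂ)) - 1) := by
    rw [mul_sub, ← Complex.exp_add, mul_one]
    congr 2
    push_cast
    ring
  rw [h, norm_mul, EXTC_norm_exp, one_mul]
  refine le_trans (Real.norm_exp_I_mul_ofReal_sub_one_le) (le_of_eq ?_)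
  rw [Real.norm_eq_abs, abs_sub_comm]

omit [FiniteDimensional ℝ F] [MeasurableSpace F] [BorelSpace F] in
theorem EXTC_cont (y : F) : Continuous (fun ω : Metric.sphere (0 : F) 1 =>
    Complex.exp (-(Complex.I * ((⟪(ω : F), y⟫ : ℝ) : ℂ)))) := by
  have h : Continuous (fun ω : Metric.sphere (0 : F) 1 => (⟪(ω : F), y⟫ : ℝ)) :=
    continuous_subtype_val.inner continuous_const
  exact Complex.continuous_exp.comp
    ((continuous_const.mul (Complex.continuous_ofReal.comp h)).neg)

theorem EXTC_int {f : Metric.sphere (0 : F) 1 → ℂ} (hf : Integrable f (prb F)) (y : F) :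
    Integrable (fun ω => f ω * Complex.exp (-(Complex.I * ((⟪(ω : F), y⟫ : ℝ) : ℂ)))) (prb F) := by
  refine Integrable.mono hf (hf.aestronglyMeasurable.mul
    (EXTC_cont y).aestronglyMeasurable) (ae_of_all _ (fun ω => ?_))
  rw [norm_mul, EXTC_norm_exp, mul_one]

omit [FiniteDimensional ℝ F] [MeasurableSpace F] [BorelSpace F] in
theorem EXTC_inner_le (ω : Metric.sphere (0 : F) 1) (z : F) : |⟪(ω : F), z⟫| ≤ ‖z‖ := by
  have h := abs_real_inner_le_norm (ω : F) z
  have h2 : ‖(ω : F)‖ = 1 := by simp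
  rw [h2, one_mul] at h
  exact h

theorem EXTC_lip {f : Metric.sphere (0 : F) 1 → ℂ} (hf : Integrable f (prb F)) (y y' : F) :
    ‖Ext f y - Ext f y'‖ ≤ (∫ ω, ‖f ω‖ ∂(prb F)) * ‖y - y'‖ := by
  unfold Ext
  rw [← integral_sub (EXTC_int hf y) (EXTC_int hf y'), ← integral_mul_const]
  refine norm_integral_le_of_norm_le (hf.norm.mul_const _) (ae_of_all _ (fun ω => ?_))
  rw [← mul_sub, norm_mul]
  refine mul_le_mul_of_nonneg_left (le_trans (EXTC_sub _ _) ?_) (norm_nonneg _)
  rw [← inner_sub_right]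
  exact EXTC_inner_le ω _

end

theorem tEXTC (_hINV : T_INV) : T_EXTC := by
  intro F _ _ _ _ _ _ f hf
  refine ⟨?_, ?_, EXTC_lip hf⟩
  · have hL : LipschitzWith ⟨∫ ω, ‖f ω‖ ∂(prb F), integral_nonneg (fun _ => norm_nonneg _)⟩
        (Ext f) := by
      refine LipschitzWith.of_dist_le_mul (fun y y' => ?_)
      rw [dist_eq_norm, dist_eq_norm]
      exact EXTC_lip hf y y'
    exact hL.continuous
  · intro y
    refine le_trans (norm_integral_le_integral_norm _) (le_of_eq ?_)
    congr 1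
    funext ω
    rw [norm_mul, EXTC_norm_exp, mul_one]

end Pool.Agent.ExpMax
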