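import Pool.Agent.ExpMax.Targets

set_option autoImplicit false

/-!
# HEART: the main integral estimate
-/

noncomputable section

open MeasureTheory Set Filter
open scoped ENNReal RealInnerProductSpace Topology

namespace Pool.Agent.ExpMax

lemma HEART_far (κ q K E : ℝ) (hκ : 0 < κ) (hκ1 : κ < 1) :
    ∃ p₀ : ℝ, ∀ p, p₀ ≤ p →
      3 * p ^ 2 * (1 - κ / 2) ^ (p - 4 - q) * (2 ^ q * (2 * K)) ≤ p ^ (-E) := by
  set r := 1 - κ / 2 with hr
  have hr0 : 0 < r := by rw [hr]; linarith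
  have hr1 : r < 1 := by rw [hr]; linarith
  have hb : 0 < -Real.log r := by
    have := Real.log_neg hr0 hr1
    linarith
  have h1 := tendsto_rpow_mul_exp_neg_mul_atTop_nhds_zero (2 + E) (-Real.log r) hb
  have h2 := h1.const_mul (3 * Real.exp (-(Real.log r * (4 + q))) * (2 ^ q * (2 * K)))
  rw [mul_zero] at h2
  obtain ⟨p₀, hp₀⟩ := eventually_atTop.1
    ((h2.eventually (ge_mem_nhds (zero_lt_one : (0 : ℝ) < 1))).and (eventually_gt_atTop (0 : ℝ)))
  refine ⟨p₀, fun p hp => ?_⟩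
  obtain ⟨h3, hp0⟩ := hp₀ p hp
  have e1 : r ^ (p - 4 - q) = Real.exp (-(-Real.log r) * p) *
      Real.exp (-(Real.log r * (4 + q))) := by
    rw [Real.rpow_def_of_pos hr0, ← Real.exp_add]
    congr 1
    ring
  have e2 : p ^ (2 + E) = p ^ 2 * p ^ E := by
    rw [Real.rpow_add hp0, Real.rpow_two]
  have hE : 0 < p ^ E := Real.rpow_pos_of_pos hp0 _
  rw [Real.rpow_neg hp0.le, ← one_div, le_div_iff₀ hE, e1]
  rw [e2] at h3
  calc _ = 3 * Real.exp (-(Real.log r * (4 + q))) * (2 ^ q * (2 * K)) *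
        (p ^ 2 * p ^ E * Real.exp (-(-Real.log r) * p)) := by ring
    _ ≤ 1 := h3

lemma HEART_eps (A κ : ℝ) (hκ : 0 < κ) : ∃ p₀ : ℝ, ∀ p, p₀ ≤ p → ∀ ε : ℝ, 0 ≤ ε →
    ε ^ 2 ≤ A * Real.log p / p → ε ≤ κ / 2 := by
  have h1 := Real.tendsto_pow_log_div_mul_add_atTop 1 0 1 one_ne_zero
  have h2 := h1.const_mul A
  rw [mul_zero] at h2
  have hk : 0 < (κ / 2) ^ 2 := by positivity
  obtain ⟨p₀, hp₀⟩ := eventually_atTop.1 (h2.eventually (ge_mem_nhds hk))
  refine ⟨p₀, fun p hp ε hε hεp => ?_⟩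
  have h3 := hp₀ p hp
  simp only [pow_one, one_mul, add_zero] at h3
  have h4 : ε ^ 2 ≤ (κ / 2) ^ 2 := by
    refine hεp.trans ?_
    rw [mul_div_assoc]
    exact h3
  exact (pow_le_pow_iff_left₀ hε (by positivity) two_ne_zero).1 h4

theorem tHEART (hP : T_PTW) (hN : T_RNEAR) (hF : T_RFAR) (hI : T_IP) : T_HEART := by
  intro F _ _ _ _ _ hdim c κ q K A hc hc2 hκ hκ1 hq hK hA
  obtain ⟨C0, c', pN, hC0, hc', hN'⟩ := hN c A hc hc2 hA
  obtain ⟨c₁, hc₁, hI'⟩ := hI F hdim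
  set D : ℝ := (Module.finrank ℝ F : ℝ) with hD
  obtain ⟨pF, hpF⟩ := HEART_far κ q K (D / 2) hκ hκ1
  obtain ⟨pE, hpE⟩ := HEART_eps A κ hκ
  refine ⟨(C0 * (Real.pi / c') ^ (D / 2) + 1) / c₁, max (max pN pF) (max pE (q + 4)), ?_, ?_⟩
  · have : 0 ≤ (Real.pi / c') ^ (D / 2) := Real.rpow_nonneg (by positivity) _
    positivity
  intro p hp U v m ε hUc hvc hU1 hUlow hUup hUfar hUi hUK hv1 hvy hvre hvi hvK horth hm hm1 hε hεp
  have hpN : pN ≤ p := ((le_max_left _ _).trans (le_max_left _ _)).trans hp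
  have hpF' : pF ≤ p := ((le_max_right _ _).trans (le_max_left _ _)).trans hp
  have hpE' : pE ≤ p := ((le_max_left _ _).trans (le_max_right _ _)).trans hp
  have hpq : q + 4 ≤ p := ((le_max_right _ _).trans (le_max_right _ _)).trans hp
  have hp4 : 4 ≤ p := by linarith
  have hp0 : 0 < p := by linarith
  have hεκ : ε ≤ κ / 2 := hpE p hpE' ε hε hεp
  -- the pieces
  set G1 : F → ℝ := fun y => |U y| ^ p with hG1
  set G2 : F → ℝ := fun y => |U y| ^ (p - 2) * U y * (v y).re with hG2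
  set G3 : F → ℝ := fun y => Real.exp (-(c' * p) * ‖y‖ ^ 2) with hG3
  set G4 : F → ℝ := fun y => |U y| ^ q + ‖v y‖ ^ q with hG4
  set L : ℝ := 3 * p ^ 2 * ε ^ 2 * (1 - κ / 2) ^ (p - 4 - q) * 2 ^ q with hL
  have hr0 : 0 < 1 - κ / 2 := by linarith
  have hL0 : 0 ≤ L := by
    rw [hL]
    have := Real.rpow_nonneg hr0.le (p - 4 - q)
    positivity
  have hUmeas : Continuous (fun y => |U y|) := hUc.abs
  have iG1 : Integrable G1 := by
    refine hUi.mono' ?_ ?_
    · exact (hUmeas.rpow_const (fun y => Or.inr hp0.le)).aestronglyMeasurable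
    · refine Eventually.of_forall fun y => ?_
      rw [hG1, Real.norm_of_nonneg (Real.rpow_nonneg (abs_nonneg _) _)]
      exact Real.rpow_le_rpow_of_exponent_ge' (abs_nonneg _) (hU1 y) (by linarith) (by linarith)
  have iG2 : Integrable G2 := by
    refine hUi.mono' ?_ ?_
    · exact (((hUmeas.rpow_const (fun y => Or.inr (by linarith))).mul hUc).mul
        (Complex.continuous_re.comp hvc)).aestronglyMeasurable
    · refine Eventually.of_forall fun y => ?_
      rw [hG2]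
      simp only [norm_mul, Real.norm_eq_abs]
      rw [abs_of_nonneg (Real.rpow_nonneg (abs_nonneg _) _)]
      have h1 : |(v y).re| ≤ 1 := (Complex.abs_re_le_norm _).trans (hv1 y)
      have h2 : |U y| ^ (p - 2) ≤ |U y| ^ q :=
        Real.rpow_le_rpow_of_exponent_ge' (abs_nonneg _) (hU1 y) (by linarith) (by linarith)
      have h0 : 0 ≤ |U y| ^ q := Real.rpow_nonneg (abs_nonneg _) _
      calc |U y| ^ (p - 2) * |U y| * |(v y).re| ≤ |U y| ^ q * 1 * 1 := by
            refine mul_le_mul (mul_le_mul h2 (hU1 y) (abs_nonneg _) h0) h1 (abs_nonneg _) ?_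
            linarith
        _ = |U y| ^ q := by ring
  have hcp : 0 < c' * p := by positivity
  have vG3 : ∫ y, G3 y = (Real.pi / (c' * p)) ^ (D / 2) :=
    GaussianFourier.integral_rexp_neg_mul_sq_norm hcp
  have iG3 : Integrable G3 := by
    by_contra hcon
    have h1 := integral_undef hcon
    rw [vG3] at h1
    have : 0 < (Real.pi / (c' * p)) ^ (D / 2) := Real.rpow_pos_of_pos (by positivity) _
    linarith
  have iG4 : Integrable G4 := hUi.add hvi
  have vG4 : ∫ y, G4 y ≤ 2 * K := by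
    rw [hG4, integral_add hUi hvi]
    linarith
  -- pointwise bound
  have hpt : ∀ y, ‖((m * U y : ℝ) : ℂ) + (ε : ℂ) * v y‖ ^ p ≤
      m ^ p * G1 y + p * (m ^ (p - 2) * m * ε) * G2 y + C0 * ε ^ 2 * G3 y + L * G4 y := by
    intro y
    have h1 := hP p (m * U y) ((ε : ℂ) * v y) hp4
    have e1 : |m * U y| ^ p = m ^ p * G1 y := by
      rw [abs_mul, abs_of_nonneg hm, Real.mul_rpow hm (abs_nonneg _)]
    have e2 : p * (|m * U y| ^ (p - 2) * (m * U y) * ((ε : ℂ) * v y).re) =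
        p * (m ^ (p - 2) * m * ε) * G2 y := by
      rw [abs_mul, abs_of_nonneg hm, Real.mul_rpow hm (abs_nonneg _), Complex.re_ofReal_mul, hG2]
      ring
    rw [e1, e2] at h1
    have hG3p : 0 ≤ G3 y := (Real.exp_pos _).le
    have hG4p : 0 ≤ G4 y :=
      add_nonneg (Real.rpow_nonneg (abs_nonneg _) _) (Real.rpow_nonneg (norm_nonneg _) _)
    have hrem : Rem p (m * U y) ((ε : ℂ) * v y) ≤ C0 * ε ^ 2 * G3 y + L * G4 y := by
      rcases le_total ‖y‖ 1 with hy | hy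
      · have h2 := hN' p hpN m ε ‖y‖ (U y) (v y) hm hm1 hε hεp (norm_nonneg _) hy (hUlow y)
          (hUup y hy) (hv1 y) (hvy y) (hvre y hy)
        have h3 : Real.exp (-(c' * p * ‖y‖ ^ 2)) = G3 y := by
          rw [hG3]
          simp only [neg_mul]
        rw [h3] at h2
        have := mul_nonneg hL0 hG4p
        linarith
      · have h2 := hF κ q p hκ hκ1 hq hpq m ε (U y) (v y) hm hm1 hε hεκ (hUfar y hy) (hv1 y)
        have h3 : 3 * p ^ 2 * ε ^ 2 * (1 - κ / 2) ^ (p - 4 - q) * (2 ^ q * (|U y| ^ q + ‖v y‖ ^ q))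
            = L * G4 y := by
          rw [hL, hG4]
          ring
        rw [h3] at h2
        have : 0 ≤ C0 * ε ^ 2 * G3 y := by positivity
        linarith
    linarith
  have j1 : Integrable (fun y => m ^ p * G1 y) := iG1.const_mul _
  have j2 : Integrable (fun y => p * (m ^ (p - 2) * m * ε) * G2 y) := iG2.const_mul _
  have j3 : Integrable (fun y => C0 * ε ^ 2 * G3 y) := iG3.const_mul _
  have j4 : Integrable (fun y => L * G4 y) := iG4.const_mul _
  have j12 : Integrable (fun y => m ^ p * G1 y + p * (m ^ (p - 2) * m * ε) * G2 y) := j1.add j2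
  have j123 : Integrable (fun y => m ^ p * G1 y + p * (m ^ (p - 2) * m * ε) * G2 y +
      C0 * ε ^ 2 * G3 y) := j12.add j3
  have iR : Integrable (fun y => m ^ p * G1 y + p * (m ^ (p - 2) * m * ε) * G2 y +
      C0 * ε ^ 2 * G3 y + L * G4 y) := j123.add j4
  have hint : ∫ y, ‖((m * U y : ℝ) : ℂ) + (ε : ℂ) * v y‖ ^ p ≤
      ∫ y, (m ^ p * G1 y + p * (m ^ (p - 2) * m * ε) * G2 y +
      C0 * ε ^ 2 * G3 y + L * G4 y) :=
    integral_mono_of_nonneg (Eventually.of_forall fun y => Real.rpow_nonneg (norm_nonneg _) _)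
      iR (Eventually.of_forall hpt)
  have hval : ∫ y, (m ^ p * G1 y + p * (m ^ (p - 2) * m * ε) * G2 y +
      C0 * ε ^ 2 * G3 y + L * G4 y) = m ^ p * (∫ y, G1 y) +
      C0 * ε ^ 2 * (Real.pi / (c' * p)) ^ (D / 2) + L * ∫ y, G4 y := by
    rw [integral_add j123 j4, integral_add j12 j3, integral_add j1 j2, integral_const_mul,
      integral_const_mul, integral_const_mul, integral_const_mul, vG3, horth]
    ring
  rw [hval] at hint
  refine hint.trans ?_
  have hlow : c₁ * p ^ (-(D / 2)) ≤ ∫ y, G1 y := hI' U hUc hUlow p (by linarith) iG1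
  have hsplit : (Real.pi / (c' * p)) ^ (D / 2) = (Real.pi / c') ^ (D / 2) * p ^ (-(D / 2)) := by
    rw [← div_div, Real.div_rpow (by positivity) hp0.le, Real.rpow_neg hp0.le, div_eq_mul_inv]
  have hfar : L * ∫ y, G4 y ≤ ε ^ 2 * p ^ (-(D / 2)) := by
    calc L * ∫ y, G4 y ≤ L * (2 * K) := mul_le_mul_of_nonneg_left vG4 hL0
      _ = ε ^ 2 * (3 * p ^ 2 * (1 - κ / 2) ^ (p - 4 - q) * (2 ^ q * (2 * K))) := by
          rw [hL]
          ring
      _ ≤ ε ^ 2 * p ^ (-(D / 2)) := mul_le_mul_of_nonneg_left (hpF p hpF') (by positivity)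
  rw [hsplit]
  have hS0 : 0 ≤ (Real.pi / c') ^ (D / 2) := Real.rpow_nonneg (by positivity) _
  have hfin : C0 * ε ^ 2 * ((Real.pi / c') ^ (D / 2) * p ^ (-(D / 2))) + L * ∫ y, G4 y ≤
      (C0 * (Real.pi / c') ^ (D / 2) + 1) / c₁ * ε ^ 2 * ∫ y, G1 y := by
    calc C0 * ε ^ 2 * ((Real.pi / c') ^ (D / 2) * p ^ (-(D / 2))) + L * ∫ y, G4 y
        ≤ C0 * ε ^ 2 * ((Real.pi / c') ^ (D / 2) * p ^ (-(D / 2))) +
          ε ^ 2 * p ^ (-(D / 2)) := by linarith
      _ = (C0 * (Real.pi / c') ^ (D / 2) + 1) / c₁ * ε ^ 2 * (c₁ * p ^ (-(D / 2))) := by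
          field_simp
      _ ≤ _ := mul_le_mul_of_nonneg_left hlow (by positivity)
  calc m ^ p * (∫ y, G1 y) + C0 * ε ^ 2 * ((Real.pi / c') ^ (D / 2) * p ^ (-(D / 2))) +
        L * ∫ y, G4 y = m ^ p * (∫ y, G1 y) +
        (C0 * ε ^ 2 * ((Real.pi / c') ^ (D / 2) * p ^ (-(D / 2))) + L * ∫ y, G4 y) := by ring
    _ ≤ m ^ p * (∫ y, G1 y) +
        (C0 * (Real.pi / c') ^ (D / 2) + 1) / c₁ * ε ^ 2 * ∫ y, G1 y := by linarith
    _ = _ := by rw [hG1]; ring

end Pool.Agent.ExpMax
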