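import Mathlib
import Pool.Agent.ExpMax.Targets

set_option autoImplicit false

/-!
# Rotation invariance of the sphere measure
-/

noncomputable section

open MeasureTheory Set Filter
open scoped ENNReal RealInnerProductSpace Topology Pointwise

namespace Pool.Agent.ExpMax

section

variable {F : Type} [NormedAddCommGroup F] [InnerProductSpace ℝ F] [FiniteDimensional ℝ F]
    [MeasurableSpace F] [BorelSpace F]

lemma INV_measurable (R : F ≃ₗᵢ[ℝ] F) : Measurable (rot R) := by
  apply Continuous.measurable
  unfold rot
  exact Continuous.subtype_mk (R.continuous.comp continuous_subtype_val) _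

lemma INV_toSphere (R : F ≃ₗᵢ[ℝ] F) :
    MeasurePreserving (rot R) (volume : Measure F).toSphere (volume : Measure F).toSphere := by
  refine ⟨INV_measurable R, ?_⟩
  refine Measure.ext fun s hs => ?_
  rw [Measure.map_apply (INV_measurable R) hs, Measure.toSphere_apply' _ (INV_measurable R hs),
    Measure.toSphere_apply' _ hs]
  congr 1
  have h1 : Ioo (0 : ℝ) 1 • (Subtype.val '' (rot R ⁻¹' s)) =
      R ⁻¹' (Ioo (0 : ℝ) 1 • (Subtype.val '' s)) := by
    ext x
    simp only [Set.mem_smul, mem_preimage, mem_image]
    constructor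
    · rintro ⟨a, ha, _, ⟨ω, hω, rfl⟩, rfl⟩
      refine ⟨a, ha, _, ⟨rot R ω, hω, rfl⟩, ?_⟩
      rw [R.map_smul]
      rfl
    · rintro ⟨a, ha, _, ⟨ω, hω, rfl⟩, hx⟩
      refine ⟨a, ha, _, ⟨rot R.symm ω, ?_, rfl⟩, ?_⟩
      · have : rot R (rot R.symm ω) = ω := by
          apply Subtype.ext
          simp [rot]
        rw [this]
        exact hω
      · apply R.injective
        rw [← hx, R.map_smul]
        simp [rot]
  rw [h1]
  exact R.measurePreserving.measure_preimage_emb R.toHomeomorph.measurableEmbedding _

end

/-- INV -/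
theorem tINV : T_INV := by
  intro F _ _ _ _ _ hF
  haveI : Nontrivial F := Module.nontrivial_of_finrank_pos (R := ℝ) (by omega)
  constructor
  · constructor
    unfold prb
    rw [Measure.smul_apply, smul_eq_mul]
    apply ENNReal.inv_mul_cancel
    · rw [Ne, Measure.measure_univ_eq_zero]
      exact Measure.toSphere_ne_zero _
    · exact measure_ne_top _ _
  · intro R
    unfold prb
    exact (INV_toSphere R).smul_measure _

end Pool.Agent.ExpMax
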