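import Pool.Agent.ExpMax.Targets

set_option autoImplicit false

/-! IP: lower bound for the integral of `|U| ^ p`. -/

noncomputable section

open MeasureTheory Set
open scoped ENNReal RealInnerProductSpace

namespace Pool.Agent.ExpMax

theorem tIP : T_IP := by
  intro F _ _ _ _ _ hF
  have hnt : Nontrivial F := Module.nontrivial_of_finrank_pos (R := ℝ) (by omega)
  have hball : 0 < (volume (Metric.ball (0 : F) 1)).toReal := by
    rw [ENNReal.toReal_pos_iff]
    exact ⟨Metric.measure_ball_pos volume 0 one_pos, measure_ball_lt_top⟩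
  refine ⟨1 / 2 * (volume (Metric.ball (0 : F) 1)).toReal, by positivity, ?_⟩
  intro U _ hU p hp hint
  have hp0 : 0 < p := by linarith
  set r : ℝ := p ^ (-(1 / 2 : ℝ)) with hr
  have hr0 : 0 < r := Real.rpow_pos_of_pos hp0 _
  have hr2 : r ^ 2 = 1 / p := by
    rw [hr, ← Real.rpow_natCast, ← Real.rpow_mul hp0.le]
    norm_num
    rw [Real.rpow_neg_one]
  have hvol : (volume (Metric.ball (0 : F) r)).toReal =
      p ^ (-((Module.finrank ℝ F : ℝ) / 2)) * (volume (Metric.ball (0 : F) 1)).toReal := by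
    rw [Measure.addHaar_ball volume (0 : F) hr0.le, ENNReal.toReal_mul,
      ENNReal.toReal_ofReal (by positivity)]
    congr 1
    rw [hr, ← Real.rpow_natCast, ← Real.rpow_mul hp0.le]
    congr 1
    ring
  have hlow : ∀ y ∈ Metric.ball (0 : F) r, (1 / 2 : ℝ) ≤ |U y| ^ p := by
    intro y hy
    rw [Metric.mem_ball, dist_zero_right] at hy
    have h1 : ‖y‖ ^ 2 ≤ 1 / p := by
      rw [← hr2]
      exact pow_le_pow_left₀ (norm_nonneg y) hy.le 2
    have h2 : 1 + -(1 / (2 * p)) ≤ |U y| := by
      have := hU y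
      have h3 := le_abs_self (U y)
      have h4 : 1 / (2 * p) = (1 / p) / 2 := by ring
      rw [h4]
      linarith
    have h5 : 1 / (2 * p) ≤ 1 / 2 := by
      apply one_div_le_one_div_of_le <;> linarith
    have h6 : (0 : ℝ) ≤ 1 + -(1 / (2 * p)) := by linarith
    have h7 := one_add_mul_self_le_rpow_one_add (s := -(1 / (2 * p))) (by linarith) hp
    have h8 : 1 + p * -(1 / (2 * p)) = 1 / 2 := by
      field_simp
      ring
    rw [h8] at h7
    exact h7.trans (Real.rpow_le_rpow h6 h2 hp0.le)
  have h9 : ∫ y in Metric.ball (0 : F) r, (1 / 2 : ℝ) ≤ ∫ y in Metric.ball (0 : F) r, |U y| ^ p := by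
    apply setIntegral_mono_on
    · exact integrableOn_const (hs := measure_ball_lt_top.ne)
    · exact hint.integrableOn
    · exact Metric.isOpen_ball.measurableSet
    · exact hlow
  have h10 : ∫ y in Metric.ball (0 : F) r, |U y| ^ p ≤ ∫ y, |U y| ^ p := by
    apply setIntegral_le_integral hint
    exact Filter.Eventually.of_forall fun y => Real.rpow_nonneg (abs_nonneg _) _
  rw [setIntegral_const, smul_eq_mul, Measure.real, hvol] at h9
  calc 1 / 2 * (volume (Metric.ball (0 : F) 1)).toReal * p ^ (-((Module.finrank ℝ F : ℝ) / 2))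
      = p ^ (-((Module.finrank ℝ F : ℝ) / 2)) * (volume (Metric.ball (0 : F) 1)).toReal *
        (1 / 2) := by ring
    _ ≤ _ := h9
    _ ≤ _ := h10

end Pool.Agent.ExpMax
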