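import Pool.Agent.ExpMax.Targets

set_option autoImplicit false

noncomputable section

open MeasureTheory Set Filter
open scoped ENNReal RealInnerProductSpace Topology

namespace Pool.Agent.ExpMax

theorem MAIN_finrank (d : ℕ) : Module.finrank ℝ (Fd d) = d + 1 := by
  have h : Module.finrank ℝ (Fd d) = Module.finrank ℝ (ℝ × Ed d) :=
    (WithLp.linearEquiv 2 ℝ (ℝ × Ed d)).finrank_eq
  rw [h, Module.finrank_prod, Module.finrank_self, finrank_euclideanSpace, Fintype.card_fin]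
  ring

theorem MAIN_cont_planePt (α β γ : ℝ) (d : ℕ) :
    Continuous (fun x : ℝ × Ed d => planePt α β γ x.1 x.2) := by
  unfold planePt
  fun_prop

theorem MAIN_cont_ellPt (α β γ s₀ κ R : ℝ) (d : ℕ) :
    Continuous (ellPt α β γ s₀ κ R : Metric.sphere (0 : Fd d) 1 → Pt d) := by
  unfold ellPt
  have h1 : Continuous (fun ω : Metric.sphere (0 : Fd d) 1 =>
      ((s₀ + κ * R * (ω : Fd d).fst, R • (ω : Fd d).snd) : ℝ × Ed d)) := by
    fun_prop
  exact (MAIN_cont_planePt α β γ d).comp h1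

/-- In the situation of `T_ELL` -/
theorem MAIN_ell (d : ℕ) (α β γ p : ℝ) (hp : 0 < p) (s₀ κ R τ₀ τ₁ c c₂ : ℝ)
    (hprob : IsProbabilityMeasure (prb (Fd d))) (hc : 0 < c)
    (hβ0 : β = 0 → τ₁ = 0) (hβ1 : β ≠ 0 → τ₁ ≠ 0)
    (hτ : ∀ ω : Metric.sphere (0 : Fd d) 1,
      |(ellPt α β γ s₀ κ R ω).1| = τ₀ + τ₁ * (ω : Fd d).fst)
    (hσ : sectionMeasure α β γ d =
      ENNReal.ofReal c • Measure.map (ellPt α β γ s₀ κ R) (prb (Fd d)))
    (hc₂ : 0 < c₂)
    (hnorm : ∀ f : Pt d → ℂ,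
      ∫⁻ y, ‖extension α β γ f y‖ₑ ^ p ∂(planeMeasure α β γ d) =
      ENNReal.ofReal c₂ * ∫⁻ z : Fd d, ‖Ext (fun ω => f (ellPt α β γ s₀ κ R ω)) z‖ₑ ^ p)
    (hcore1 : 0 < ∫ y : Fd d, |u0 y| ^ p)
    (hcore : ∀ f : Metric.sphere (0 : Fd d) 1 → ℂ, MemLp f 2 (prb (Fd d)) →
      Integrable (fun y => ‖Ext f y‖ ^ p) ∧
      ∫ y, ‖Ext f y‖ ^ p ≤ (∫ y : Fd d, |u0 y| ^ p) *
        (∫ ω, ‖f ω‖ ^ 2 ∂(prb (Fd d))) ^ (p / 2) ∧
      (∫ y, ‖Ext f y‖ ^ p = (∫ y : Fd d, |u0 y| ^ p) *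
        (∫ ω, ‖f ω‖ ^ 2 ∂(prb (Fd d))) ^ (p / 2) →
        ∃ a : ℝ, ∀ᵐ ω ∂(prb (Fd d)), ‖f ω‖ = a))
    (hext1 : ∀ y : Fd d, Ext (fun _ => 1) y = ((u0 y : ℝ) : ℂ)) :
    IsMaximizer α β γ p (expTau : Pt d → ℂ) ↔ β = 0 := by
  have hcE : Continuous (ellPt α β γ s₀ κ R : Metric.sphere (0 : Fd d) 1 → Pt d) :=
    MAIN_cont_ellPt α β γ s₀ κ R d
  have hmE := hcE.measurable
  have hc' : ENNReal.ofReal c ≠ 0 := by simpa using hc
  set μ := Measure.map (ellPt α β γ s₀ κ R) (prb (Fd d)) with hμ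
  have hμprob : IsProbabilityMeasure μ := Measure.isProbabilityMeasure_map hmE.aemeasurable
  have hσfin : IsFiniteMeasure (sectionMeasure α β γ d) := by
    rw [hσ]
    refine ⟨?_⟩
    rw [Measure.smul_apply, measure_univ, smul_eq_mul, mul_one]
    exact ENNReal.ofReal_lt_top
  -- membership in L²
  have hmem : ∀ f : Pt d → ℂ, MemLp f 2 (sectionMeasure α β γ d) →
      MemLp (fun ω => f (ellPt α β γ s₀ κ R ω)) 2 (prb (Fd d)) := by
    intro f hf
    have h1 : MemLp f 2 μ := by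
      have h2 : sectionMeasure α β γ d = ENNReal.ofReal c • μ := hσ
      rw [h2] at hf
      have h3 : μ ≤ (ENNReal.ofReal c)⁻¹ • (ENNReal.ofReal c • μ) := by
        rw [smul_smul, ENNReal.inv_mul_cancel hc' ENNReal.ofReal_ne_top, one_smul]
      exact (hf.smul_measure (ENNReal.inv_ne_top.2 hc')).mono_measure h3
    exact h1.comp_measurePreserving (μ := prb (Fd d)) (f := ellPt α β γ s₀ κ R) ⟨hmE, rfl⟩
  -- the norm
  have hL2 : ∀ f : Pt d → ℂ, MemLp f 2 (sectionMeasure α β γ d) →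
      ∫⁻ ζ, ‖f ζ‖ₑ ^ (2 : ℝ) ∂(sectionMeasure α β γ d) =
        ENNReal.ofReal (c * ∫ ω, ‖f (ellPt α β γ s₀ κ R ω)‖ ^ 2 ∂(prb (Fd d))) := by
    intro f hf
    have h1 := hmem f hf
    have h4 : AEStronglyMeasurable f μ := by
      have h2 : sectionMeasure α β γ d = ENNReal.ofReal c • μ := hσ
      have h3 : μ ≪ sectionMeasure α β γ d := by
        rw [h2]; exact Measure.absolutelyContinuous_smul hc'
      exact hf.1.mono_ac h3
    rw [hσ, lintegral_smul_measure, smul_eq_mul]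
    rw [lintegral_map' (h4.enorm.pow_const 2) hmE.aemeasurable]
    rw [ENNReal.ofReal_mul hc.le, ofReal_integral_eq_lintegral_ofReal
      (h1.integrable_norm_pow (by norm_num)) (Filter.Eventually.of_forall fun _ => by positivity)]
    congr 2
    ext ω
    rw [ENNReal.ofReal_pow (norm_nonneg _), ofReal_norm]
    norm_num
  have hLp : ∀ f : Pt d → ℂ, MemLp f 2 (sectionMeasure α β γ d) →
      ∫⁻ y, ‖extension α β γ f y‖ₑ ^ p ∂(planeMeasure α β γ d) =
        ENNReal.ofReal (c₂ * ∫ z : Fd d, ‖Ext (fun ω => f (ellPt α β γ s₀ κ R ω)) z‖ ^ p) := by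
    intro f hf
    rw [hnorm f, ENNReal.ofReal_mul hc₂.le, ofReal_integral_eq_lintegral_ofReal
      (hcore _ (hmem f hf)).1 (Filter.Eventually.of_forall fun _ => by positivity)]
    congr 2
    ext z
    rw [← ENNReal.ofReal_rpow_of_nonneg (norm_nonneg _) hp.le, ofReal_norm]
  -- the quotient
  set C : ℝ := c₂ * (∫ y : Fd d, |u0 y| ^ p) / c ^ (p / 2) with hC
  have hC0 : 0 < C := by positivity
  have hquot : ∀ f : Pt d → ℂ, MemLp f 2 (sectionMeasure α β γ d) →
      ¬ f =ᵐ[sectionMeasure α β γ d] 0 →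
      0 < ∫ ω, ‖f (ellPt α β γ s₀ κ R ω)‖ ^ 2 ∂(prb (Fd d)) ∧
      quotient α β γ p f = ENNReal.ofReal
        (c₂ * (∫ z : Fd d, ‖Ext (fun ω => f (ellPt α β γ s₀ κ R ω)) z‖ ^ p) /
          (c * ∫ ω, ‖f (ellPt α β γ s₀ κ R ω)‖ ^ 2 ∂(prb (Fd d))) ^ (p / 2)) := by
    intro f hf hf0
    have hn0 : 0 ≤ ∫ ω, ‖f (ellPt α β γ s₀ κ R ω)‖ ^ 2 ∂(prb (Fd d)) :=
      integral_nonneg fun _ => by positivity
    have hn : 0 < ∫ ω, ‖f (ellPt α β γ s₀ κ R ω)‖ ^ 2 ∂(prb (Fd d)) := by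
      rcases hn0.eq_or_lt with h | h
      · exfalso
        have h1 := hL2 f hf
        rw [← h, mul_zero, ENNReal.ofReal_zero, lintegral_eq_zero_iff' (hf.1.enorm.pow_const 2)] at h1
        apply hf0
        filter_upwards [h1] with ζ hζ
        simpa using hζ
      · exact h
    refine ⟨hn, ?_⟩
    unfold quotient
    rw [hL2 f hf, hLp f hf, ENNReal.ofReal_rpow_of_nonneg (by positivity) (by positivity),
      ENNReal.ofReal_div_of_pos (by positivity)]
  have hquot_le : ∀ f : Pt d → ℂ, MemLp f 2 (sectionMeasure α β γ d) →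
      ¬ f =ᵐ[sectionMeasure α β γ d] 0 → quotient α β γ p f ≤ ENNReal.ofReal C := by
    intro f hf hf0
    obtain ⟨hn, hq⟩ := hquot f hf hf0
    rw [hq]
    apply ENNReal.ofReal_le_ofReal
    have h1 := (hcore _ (hmem f hf)).2.1
    rw [hC, Real.mul_rpow hc.le hn.le, div_le_div_iff₀ (by positivity) (by positivity)]
    calc c₂ * (∫ z : Fd d, ‖Ext (fun ω => f (ellPt α β γ s₀ κ R ω)) z‖ ^ p) * c ^ (p / 2)
        ≤ c₂ * ((∫ y : Fd d, |u0 y| ^ p) *
          (∫ ω, ‖f (ellPt α β γ s₀ κ R ω)‖ ^ 2 ∂(prb (Fd d))) ^ (p / 2)) * c ^ (p / 2) := by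
          gcongr
      _ = _ := by ring
  have hquot_eq : ∀ f : Pt d → ℂ, MemLp f 2 (sectionMeasure α β γ d) →
      ¬ f =ᵐ[sectionMeasure α β γ d] 0 → quotient α β γ p f = ENNReal.ofReal C →
      ∃ a : ℝ, ∀ᵐ ω ∂(prb (Fd d)), ‖f (ellPt α β γ s₀ κ R ω)‖ = a := by
    intro f hf hf0 hfC
    obtain ⟨hn, hq⟩ := hquot f hf hf0
    apply (hcore _ (hmem f hf)).2.2
    have hI0 : 0 ≤ ∫ z : Fd d, ‖Ext (fun ω => f (ellPt α β γ s₀ κ R ω)) z‖ ^ p :=
      integral_nonneg fun _ => by positivity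
    rw [hq, ENNReal.ofReal_eq_ofReal_iff (by positivity) hC0.le, hC,
      Real.mul_rpow hc.le hn.le, div_eq_div_iff (by positivity) (by positivity)] at hfC
    have hk : 0 < c₂ * c ^ (p / 2) := by positivity
    apply mul_left_cancel₀ hk.ne'
    linarith
  -- constants
  have hone : MemLp (fun _ : Pt d => (1 : ℂ)) 2 (sectionMeasure α β γ d) := memLp_const 1
  have hσ0 : sectionMeasure α β γ d ≠ 0 := by
    rw [hσ]
    intro h
    have h1 := congrArg (fun ν : Measure (Pt d) => ν univ) h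
    simp only [Measure.smul_apply, measure_univ, smul_eq_mul, mul_one, Measure.coe_zero,
      Pi.zero_apply] at h1
    exact hc' h1
  have hone0 : ∀ b : ℂ, b ≠ 0 → ∀ f : Pt d → ℂ, (∀ᵐ ζ ∂(sectionMeasure α β γ d), f ζ ≠ 0) →
      ¬ f =ᵐ[sectionMeasure α β γ d] 0 := by
    intro b _ f hf h
    have h2 : ∀ᵐ ζ ∂(sectionMeasure α β γ d), False := by
      filter_upwards [hf, h] with ζ h1 h2 using h1 h2
    rw [ae_iff] at h2
    simp only [not_false_eq_true, Set.ofPred_true] at h2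
    exact hσ0 (Measure.measure_univ_eq_zero.1 h2)
  have hconst : quotient α β γ p (fun _ : Pt d => (1 : ℂ)) = ENNReal.ofReal C := by
    obtain ⟨hn, hq⟩ := hquot (fun _ => 1) hone
      (hone0 1 one_ne_zero _ (Filter.Eventually.of_forall fun _ => one_ne_zero))
    rw [hq]
    have e1 : ∀ z : Fd d, ‖Ext (fun _ => 1) z‖ = |u0 z| := fun z => by
      rw [hext1 z]; simp
    simp only [e1]
    simp [hC]
  have hconst0 : ¬ (fun _ : Pt d => (1 : ℂ)) =ᵐ[sectionMeasure α β γ d] 0 :=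
    hone0 1 one_ne_zero _ (Filter.Eventually.of_forall fun _ => one_ne_zero)
  have hbest : bestConst α β γ d p = ENNReal.ofReal C := by
    apply le_antisymm
    · unfold bestConst
      refine iSup_le fun f => iSup_le fun hf => iSup_le fun _ => iSup_le fun hf0 => ?_
      exact hquot_le f hf hf0
    · rw [← hconst]
      unfold bestConst
      exact le_iSup_of_le (fun _ : Pt d => (1 : ℂ)) (le_iSup_of_le hone (le_iSup_of_le
        (hone.integrable (by norm_num)) (le_iSup_of_le hconst0 le_rfl)))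
  -- the exponential function
  have hexpc : Continuous (expTau : Pt d → ℂ) := by
    unfold expTau
    fun_prop
  have hexpm : MemLp (expTau : Pt d → ℂ) 2 (sectionMeasure α β γ d) := by
    refine MemLp.of_bound hexpc.aestronglyMeasurable 1 (Filter.Eventually.of_forall fun ζ => ?_)
    unfold expTau
    rw [Complex.norm_real, Real.norm_of_nonneg (Real.exp_pos _).le, Real.exp_le_one_iff]
    have := abs_nonneg ζ.1
    linarith
  have hexp0 : ¬ (expTau : Pt d → ℂ) =ᵐ[sectionMeasure α β γ d] 0 := by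
    refine hone0 1 one_ne_zero _ (Filter.Eventually.of_forall fun ζ => ?_)
    unfold expTau
    exact_mod_cast (Real.exp_pos _).ne'
  have hexpv : ∀ ω : Metric.sphere (0 : Fd d) 1, ‖expTau (ellPt α β γ s₀ κ R ω)‖ =
      Real.exp (-(τ₀ + τ₁ * (ω : Fd d).fst)) := by
    intro ω
    unfold expTau
    rw [Complex.norm_real, Real.norm_of_nonneg (Real.exp_pos _).le, hτ ω]
  constructor
  · rintro ⟨_, _, _, h4⟩
    by_contra hβ
    have hτ1 := hβ1 hβ
    obtain ⟨a, ha⟩ := hquot_eq expTau hexpm hexp0 (h4.trans hbest)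
    simp only [hexpv] at ha
    -- full support
    have hcont : Continuous (fun ω : Metric.sphere (0 : Fd d) 1 =>
        Real.exp (-(τ₀ + τ₁ * (ω : Fd d).fst))) := by fun_prop
    have hpos : (prb (Fd d)).IsOpenPosMeasure := by
      unfold prb
      have h1 : ((volume : Measure (Fd d)).toSphere univ)⁻¹ ≠ 0 := by
        apply ENNReal.inv_ne_zero.2
        exact measure_ne_top _ _
      exact Measure.isOpenPosMeasure_smul _ h1
    have hall : (fun ω : Metric.sphere (0 : Fd d) 1 =>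
        Real.exp (-(τ₀ + τ₁ * (ω : Fd d).fst))) = fun _ => a :=
      Continuous.ae_eq_iff_eq (prb (Fd d)) hcont continuous_const |>.1 ha
    have e1 := congrFun hall ⟨WithLp.toLp 2 ((1 : ℝ), (0 : Ed d)), by simp⟩
    have e2 := congrFun hall ⟨WithLp.toLp 2 ((-1 : ℝ), (0 : Ed d)), by simp⟩
    simp only at e1 e2
    rw [← e2] at e1
    have e3 : -(τ₀ + τ₁ * 1) = -(τ₀ + τ₁ * (-1)) := Real.exp_injective e1
    apply hτ1
    linarith
  · intro hβ
    have hτ1 := hβ0 hβ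
    refine ⟨hexpm, hexp0, ?_, ?_⟩
    · rw [hbest]; exact ENNReal.ofReal_lt_top
    · rw [hbest]
      obtain ⟨hn, hq⟩ := hquot expTau hexpm hexp0
      rw [hq]
      congr 1
      have hv : ∀ ω : Metric.sphere (0 : Fd d) 1, expTau (ellPt α β γ s₀ κ R ω) =
          ((Real.exp (-τ₀) : ℝ) : ℂ) * 1 := by
        intro ω
        unfold expTau
        rw [hτ ω, hτ1]
        simp
      have hE : ∀ z : Fd d, ‖Ext (fun ω => expTau (ellPt α β γ s₀ κ R ω)) z‖ =
          Real.exp (-τ₀) * |u0 z| := by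
        intro z
        have : Ext (fun ω => expTau (ellPt α β γ s₀ κ R ω)) z =
            ((Real.exp (-τ₀) : ℝ) : ℂ) * Ext (fun _ => 1) z := by
          unfold Ext
          rw [← integral_const_mul]
          congr 1
          ext ω
          show expTau (ellPt α β γ s₀ κ R ω) * _ = ((Real.exp (-τ₀) : ℝ) : ℂ) * (1 * _)
          rw [hv ω]
          ring
        rw [this, hext1 z, norm_mul, Complex.norm_real, Complex.norm_real,
          Real.norm_of_nonneg (Real.exp_pos _).le, Real.norm_eq_abs]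
      have hN : ∫ ω, ‖expTau (ellPt α β γ s₀ κ R ω)‖ ^ 2 ∂(prb (Fd d)) =
          Real.exp (-τ₀) ^ 2 := by
        simp only [hexpv, hτ1]
        simp
      have hI : ∫ z : Fd d, ‖Ext (fun ω => expTau (ellPt α β γ s₀ κ R ω)) z‖ ^ p =
          Real.exp (-τ₀) ^ p * ∫ z : Fd d, |u0 z| ^ p := by
        rw [← integral_const_mul]
        congr 1
        ext z
        rw [hE z, Real.mul_rpow (Real.exp_pos _).le (abs_nonneg _)]
      rw [hN, hI, hC, Real.mul_rpow hc.le (by positivity)]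
      have e5 : (Real.exp (-τ₀) ^ 2) ^ (p / 2) = Real.exp (-τ₀) ^ p := by
        rw [← Real.rpow_natCast, ← Real.rpow_mul (Real.exp_pos _).le]
        congr 1
        push_cast
        ring
      rw [e5]
      have : 0 < Real.exp (-τ₀) ^ p := by positivity
      field_simp

theorem tMAIN (hI : T_INV) (hB : T_BASIC) (hCore : T_CORE) (hEll : T_ELL) (hNorms : T_NORMS)
    (hBlow : T_BLOW) : T_MAIN := by
  intro d hd
  have hfr : Module.finrank ℝ (Fd d) = d + 1 := MAIN_finrank d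
  obtain ⟨p₀, hp4, hp₀⟩ := hCore (Fd d) (by rw [hfr]; omega)
  refine ⟨max p₀ (4 * (d : ℝ) + 8), fun p hp α β γ hαβ hnd hd1 => ?_⟩
  have hpp : p₀ ≤ p := (le_max_left _ _).trans hp
  have hpd : 4 * (d : ℝ) + 8 ≤ p := (le_max_right _ _).trans hp
  rcases lt_or_ge |β| |α| with h | h
  · have hγ : γ ≠ 0 := by
      rcases hnd with h1 | h1
      · exact h1
      · exact absurd h1 (not_lt.2 h.le)
    have hα : α ≠ 0 := by
      intro h0
      rw [h0, abs_zero] at h
      exact absurd h (not_lt.2 (abs_nonneg _))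
    obtain ⟨s₀, κ, R, τ₀, τ₁, c, hκ, hR, hc, h0, h1, hτ, hσ⟩ := hEll d α β γ hd h hγ
    obtain ⟨c₂, hc₂, hnorm⟩ := hNorms d α β γ s₀ κ R c p hd hα hκ hR hc (by linarith) hσ
    obtain ⟨-, i2, i3⟩ := hp₀ p hpp
    exact MAIN_ell d α β γ p (by linarith) s₀ κ R τ₀ τ₁ c c₂ (hI (Fd d) (by rw [hfr]; omega)).1 hc
      h0 h1 hτ hσ hc₂ hnorm i2 i3 (hB (Fd d) (by rw [hfr]; omega)).1
  · have hβ : β ≠ 0 := by
      intro h0
      rw [h0, abs_zero] at h
      have h1 : α = 0 := abs_eq_zero.1 (le_antisymm h (abs_nonneg _))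
      exact hαβ (by rw [h0, h1])
    constructor
    · rintro ⟨_, _, h3, _⟩
      rw [hBlow d α β γ p hd hαβ hnd h hd1 hpd] at h3
      exact absurd h3 (lt_irrefl _)
    · intro h0
      exact absurd h0 hβ

end Pool.Agent.ExpMax
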