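import Pool.Agent.ExpMax.CORE2
import Pool.Agent.ExpMax.MAIN

set_option autoImplicit false

noncomputable section

open MeasureTheory Set Filter
open scoped ENNReal RealInnerProductSpace Topology

namespace Pool.Agent.ExpMax

/-- The characters `c exp (i ζ · y)`. -/
def charFun {d : ℕ} (c : ℂ) (y : Pt d) (ζ : Pt d) : ℂ :=
  c * Complex.exp (Complex.I * ((dot ζ y : ℝ) : ℂ))

theorem MAIN2_inj (α β γ s₀ κ R : ℝ) (d : ℕ) (hα : α ≠ 0) (hκ : 0 < κ) (hR : 0 < R) :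
    Function.Injective (ellPt α β γ s₀ κ R : Metric.sphere (0 : Fd d) 1 → Pt d) := by
  intro ω ω' h
  unfold ellPt planePt at h
  simp only [Prod.mk.injEq] at h
  obtain ⟨-, h2, h3⟩ := h
  have hN : 0 < √(α ^ 2 + β ^ 2) := Real.sqrt_pos.2 (by positivity)
  have h4 : (s₀ + κ * R * (ω : Fd d).fst) * α / √(α ^ 2 + β ^ 2) =
      (s₀ + κ * R * (ω' : Fd d).fst) * α / √(α ^ 2 + β ^ 2) := by linarith
  rw [div_left_inj' hN.ne'] at h4
  have h5 := mul_right_cancel₀ hα h4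
  have h6 : κ * R * (ω : Fd d).fst = κ * R * (ω' : Fd d).fst := by linarith
  have h7 := mul_left_cancel₀ (by positivity : κ * R ≠ 0) h6
  have h8 : (ω : Fd d).snd = (ω' : Fd d).snd := smul_right_injective _ hR.ne' h3
  apply Subtype.ext
  apply (WithLp.equiv 2 (ℝ × Ed d)).injective
  exact Prod.ext h7 h8

theorem MAIN2_emb (α β γ s₀ κ R : ℝ) (d : ℕ) (hα : α ≠ 0) (hκ : 0 < κ) (hR : 0 < R) :
    MeasurableEmbedding (ellPt α β γ s₀ κ R : Metric.sphere (0 : Fd d) 1 → Pt d) :=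
  ((MAIN_cont_ellPt α β γ s₀ κ R d).isClosedEmbedding
    (MAIN2_inj α β γ s₀ κ R d hα hκ hR)).measurableEmbedding

/-- the scalar product on the section in terms of the sphere -/
theorem MAIN2_dot (α β γ s₀ κ R : ℝ) (d : ℕ) (y : Pt d) (ω : Metric.sphere (0 : Fd d) 1) :
    dot (ellPt α β γ s₀ κ R ω) y =
      dot (planePt α β γ s₀ (0 : Ed d)) y +
      ⟪(ω : Fd d), (WithLp.toLp 2 (κ * R * (α * y.2.1 - β * y.1) / √(α ^ 2 + β ^ 2),
        R • y.2.2) : Fd d)⟫ := by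
  rw [WithLp.prod_inner_apply]
  unfold dot ellPt planePt
  have e0 : ∀ a b : ℝ, ⟪a, b⟫ = a * b := fun a b => by
    rw [RCLike.inner_apply, conj_trivial, mul_comm]
  have e1 : (ω : Fd d).ofLp.1 = (ω : Fd d).fst := rfl
  have e2 : (ω : Fd d).ofLp.2 = (ω : Fd d).snd := rfl
  simp only [inner_smul_left, inner_smul_right, inner_zero_left, e0, conj_trivial, e1, e2]
  ring

theorem MAIN2_dotzero {d : ℕ} (ζ : Pt d) : dot ζ 0 = 0 := by
  unfold dot
  simp

theorem MAIN2_char_cont {d : ℕ} (c : ℂ) (y : Pt d) : Continuous (charFun c y) := by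
  unfold charFun dot
  fun_prop

theorem MAIN2_char_norm {d : ℕ} (c : ℂ) (y ζ : Pt d) : ‖charFun c y ζ‖ = ‖c‖ := by
  unfold charFun
  rw [norm_mul, mul_comm Complex.I, Complex.norm_exp_ofReal_mul_I, mul_one]

/-- A finite measure other than zero. -/
theorem MAIN2_ne {d : ℕ} (σ : Measure (Pt d)) (hσ0 : σ ≠ 0) (f : Pt d → ℂ)
    (hf : ∀ᵐ ζ ∂σ, f ζ ≠ 0) : ¬ f =ᵐ[σ] 0 := by
  intro h
  have h2 : ∀ᵐ ζ ∂σ, False := by
    filter_upwards [hf, h] with ζ h1 h2 using h1 h2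
  rw [ae_iff] at h2
  simp only [not_false_eq_true, Set.ofPred_true] at h2
  exact hσ0 (Measure.measure_univ_eq_zero.1 h2)

/-- In the situation of `T_ELL` -/
theorem MAIN2_ell (d : ℕ) (α β γ p : ℝ) (hp : 0 < p) (s₀ κ R c c₂ : ℝ)
    (hprob : IsProbabilityMeasure (prb (Fd d))) (hα : α ≠ 0) (hκ : 0 < κ) (hR : 0 < R)
    (hc : 0 < c)
    (hσ : sectionMeasure α β γ d =
      ENNReal.ofReal c • Measure.map (ellPt α β γ s₀ κ R) (prb (Fd d)))
    (hc₂ : 0 < c₂)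
    (hnorm : ∀ f : Pt d → ℂ,
      ∫⁻ y, ‖extension α β γ f y‖ₑ ^ p ∂(planeMeasure α β γ d) =
      ENNReal.ofReal c₂ * ∫⁻ z : Fd d, ‖Ext (fun ω => f (ellPt α β γ s₀ κ R ω)) z‖ₑ ^ p)
    (hcore1 : 0 < ∫ y : Fd d, |u0 y| ^ p)
    (hcore : ∀ f : Metric.sphere (0 : Fd d) 1 → ℂ, MemLp f 2 (prb (Fd d)) →
      Integrable (fun y => ‖Ext f y‖ ^ p) ∧
      ∫ y, ‖Ext f y‖ ^ p ≤ (∫ y : Fd d, |u0 y| ^ p) *
        (∫ ω, ‖f ω‖ ^ 2 ∂(prb (Fd d))) ^ (p / 2) ∧
      (∫ y, ‖Ext f y‖ ^ p = (∫ y : Fd d, |u0 y| ^ p) *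
        (∫ ω, ‖f ω‖ ^ 2 ∂(prb (Fd d))) ^ (p / 2) →
        ∃ (c : ℂ) (y₀ : Fd d), ∀ᵐ ω ∂(prb (Fd d)),
          f ω = c * Complex.exp (Complex.I * ((⟪(ω : Fd d), y₀⟫ : ℝ) : ℂ))))
    (hext1 : ∀ y : Fd d, Ext (fun _ => 1) y = ((u0 y : ℝ) : ℂ)) :
    bestConst α β γ d p < ∞ ∧ ∀ f : Pt d → ℂ, IsMaximizer α β γ p f ↔
      ∃ (b : ℂ) (y : Pt d), b ≠ 0 ∧ f =ᵐ[sectionMeasure α β γ d] charFun b y := by
  have hcE : Continuous (ellPt α β γ s₀ κ R : Metric.sphere (0 : Fd d) 1 → Pt d) :=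
    MAIN_cont_ellPt α β γ s₀ κ R d
  have hmE := hcE.measurable
  have hemb := MAIN2_emb α β γ s₀ κ R d hα hκ hR
  have hc' : ENNReal.ofReal c ≠ 0 := by simpa using hc
  have hN : 0 < √(α ^ 2 + β ^ 2) := Real.sqrt_pos.2 (by positivity)
  set μ := Measure.map (ellPt α β γ s₀ κ R) (prb (Fd d)) with hμ
  have hμprob : IsProbabilityMeasure μ := Measure.isProbabilityMeasure_map hmE.aemeasurable
  have hσfin : IsFiniteMeasure (sectionMeasure α β γ d) := by
    rw [hσ]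
    refine ⟨?_⟩
    rw [Measure.smul_apply, measure_univ, smul_eq_mul, mul_one]
    exact ENNReal.ofReal_lt_top
  have hae : ∀ P : Pt d → Prop, (∀ᵐ ζ ∂(sectionMeasure α β γ d), P ζ) ↔
      ∀ᵐ ω ∂(prb (Fd d)), P (ellPt α β γ s₀ κ R ω) := by
    intro P
    rw [hσ, Measure.ae_ennreal_smul_measure_iff hc', hμ, hemb.ae_map_iff]
  -- membership in L²
  have hmem : ∀ f : Pt d → ℂ, MemLp f 2 (sectionMeasure α β γ d) →
      MemLp (fun ω => f (ellPt α β γ s₀ κ R ω)) 2 (prb (Fd d)) := by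
    intro f hf
    have h1 : MemLp f 2 μ := by
      have h2 : sectionMeasure α β γ d = ENNReal.ofReal c • μ := hσ
      rw [h2] at hf
      have h3 : μ ≤ (ENNReal.ofReal c)⁻¹ • (ENNReal.ofReal c • μ) := by
        rw [smul_smul, ENNReal.inv_mul_cancel hc' ENNReal.ofReal_ne_top, one_smul]
      exact (hf.smul_measure (ENNReal.inv_ne_top.2 hc')).mono_measure h3
    exact h1.comp_measurePreserving (μ := prb (Fd d)) (f := ellPt α β γ s₀ κ R) ⟨hmE, rfl⟩
  -- the norm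
  have hL2 : ∀ f : Pt d → ℂ, MemLp f 2 (sectionMeasure α β γ d) →
      ∫⁻ ζ, ‖f ζ‖ₑ ^ (2 : ℝ) ∂(sectionMeasure α β γ d) =
        ENNReal.ofReal (c * ∫ ω, ‖f (ellPt α β γ s₀ κ R ω)‖ ^ 2 ∂(prb (Fd d))) := by
    intro f hf
    have h1 := hmem f hf
    have h4 : AEStronglyMeasurable f μ := by
      have h2 : sectionMeasure α β γ d = ENNReal.ofReal c • μ := hσ
      have h3 : μ ≪ sectionMeasure α β γ d := by
        rw [h2]; exact Measure.absolutelyContinuous_smul hc'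
      exact hf.1.mono_ac h3
    rw [hσ, lintegral_smul_measure, smul_eq_mul]
    rw [lintegral_map' (h4.enorm.pow_const 2) hmE.aemeasurable]
    rw [ENNReal.ofReal_mul hc.le, ofReal_integral_eq_lintegral_ofReal
      (h1.integrable_norm_pow (by norm_num)) (Filter.Eventually.of_forall fun _ => by positivity)]
    congr 2
    ext ω
    rw [ENNReal.ofReal_pow (norm_nonneg _), ofReal_norm]
    norm_num
  have hLp : ∀ f : Pt d → ℂ, MemLp f 2 (sectionMeasure α β γ d) →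
      ∫⁻ y, ‖extension α β γ f y‖ₑ ^ p ∂(planeMeasure α β γ d) =
        ENNReal.ofReal (c₂ * ∫ z : Fd d, ‖Ext (fun ω => f (ellPt α β γ s₀ κ R ω)) z‖ ^ p) := by
    intro f hf
    rw [hnorm f, ENNReal.ofReal_mul hc₂.le, ofReal_integral_eq_lintegral_ofReal
      (hcore _ (hmem f hf)).1 (Filter.Eventually.of_forall fun _ => by positivity)]
    congr 2
    ext z
    rw [← ENNReal.ofReal_rpow_of_nonneg (norm_nonneg _) hp.le, ofReal_norm]
  -- the quotient
  set C : ℝ := c₂ * (∫ y : Fd d, |u0 y| ^ p) / c ^ (p / 2) with hC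
  have hC0 : 0 < C := by positivity
  have hquot : ∀ f : Pt d → ℂ, MemLp f 2 (sectionMeasure α β γ d) →
      ¬ f =ᵐ[sectionMeasure α β γ d] 0 →
      0 < ∫ ω, ‖f (ellPt α β γ s₀ κ R ω)‖ ^ 2 ∂(prb (Fd d)) ∧
      quotient α β γ p f = ENNReal.ofReal
        (c₂ * (∫ z : Fd d, ‖Ext (fun ω => f (ellPt α β γ s₀ κ R ω)) z‖ ^ p) /
          (c * ∫ ω, ‖f (ellPt α β γ s₀ κ R ω)‖ ^ 2 ∂(prb (Fd d))) ^ (p / 2)) := by
    intro f hf hf0
    have hn0 : 0 ≤ ∫ ω, ‖f (ellPt α β γ s₀ κ R ω)‖ ^ 2 ∂(prb (Fd d)) :=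
      integral_nonneg fun _ => by positivity
    have hn : 0 < ∫ ω, ‖f (ellPt α β γ s₀ κ R ω)‖ ^ 2 ∂(prb (Fd d)) := by
      rcases hn0.eq_or_lt with h | h
      · exfalso
        have h1 := hL2 f hf
        rw [← h, mul_zero, ENNReal.ofReal_zero, lintegral_eq_zero_iff' (hf.1.enorm.pow_const 2)] at h1
        apply hf0
        filter_upwards [h1] with ζ hζ
        simpa using hζ
      · exact h
    refine ⟨hn, ?_⟩
    unfold quotient
    rw [hL2 f hf, hLp f hf, ENNReal.ofReal_rpow_of_nonneg (by positivity) (by positivity),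
      ENNReal.ofReal_div_of_pos (by positivity)]
  have hquot_le : ∀ f : Pt d → ℂ, MemLp f 2 (sectionMeasure α β γ d) →
      ¬ f =ᵐ[sectionMeasure α β γ d] 0 → quotient α β γ p f ≤ ENNReal.ofReal C := by
    intro f hf hf0
    obtain ⟨hn, hq⟩ := hquot f hf hf0
    rw [hq]
    apply ENNReal.ofReal_le_ofReal
    have h1 := (hcore _ (hmem f hf)).2.1
    rw [hC, Real.mul_rpow hc.le hn.le, div_le_div_iff₀ (by positivity) (by positivity)]
    calc c₂ * (∫ z : Fd d, ‖Ext (fun ω => f (ellPt α β γ s₀ κ R ω)) z‖ ^ p) * c ^ (p / 2)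
        ≤ c₂ * ((∫ y : Fd d, |u0 y| ^ p) *
          (∫ ω, ‖f (ellPt α β γ s₀ κ R ω)‖ ^ 2 ∂(prb (Fd d))) ^ (p / 2)) * c ^ (p / 2) := by
          gcongr
      _ = _ := by ring
  have hquot_eq : ∀ f : Pt d → ℂ, MemLp f 2 (sectionMeasure α β γ d) →
      ¬ f =ᵐ[sectionMeasure α β γ d] 0 → quotient α β γ p f = ENNReal.ofReal C →
      ∃ (b : ℂ) (y₀ : Fd d), ∀ᵐ ω ∂(prb (Fd d)), f (ellPt α β γ s₀ κ R ω) =
        b * Complex.exp (Complex.I * ((⟪(ω : Fd d), y₀⟫ : ℝ) : ℂ)) := by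
    intro f hf hf0 hfC
    obtain ⟨hn, hq⟩ := hquot f hf hf0
    apply (hcore _ (hmem f hf)).2.2
    have hI0 : 0 ≤ ∫ z : Fd d, ‖Ext (fun ω => f (ellPt α β γ s₀ κ R ω)) z‖ ^ p :=
      integral_nonneg fun _ => by positivity
    rw [hq, ENNReal.ofReal_eq_ofReal_iff (by positivity) hC0.le, hC,
      Real.mul_rpow hc.le hn.le, div_eq_div_iff (by positivity) (by positivity)] at hfC
    have hk : 0 < c₂ * c ^ (p / 2) := by positivity
    apply mul_left_cancel₀ hk.ne'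
    linarith
  have hσ0 : sectionMeasure α β γ d ≠ 0 := by
    rw [hσ]
    intro h
    have h1 := congrArg (fun ν : Measure (Pt d) => ν univ) h
    simp only [Measure.smul_apply, measure_univ, smul_eq_mul, mul_one, Measure.coe_zero,
      Pi.zero_apply] at h1
    exact hc' h1
  -- the characters
  have hchm : ∀ (b : ℂ) (y : Pt d), MemLp (charFun b y) 2 (sectionMeasure α β γ d) := fun b y =>
    MemLp.of_bound (MAIN2_char_cont b y).aestronglyMeasurable ‖b‖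
      (Filter.Eventually.of_forall fun ζ => (MAIN2_char_norm b y ζ).le)
  have hch0 : ∀ (b : ℂ) (y : Pt d), b ≠ 0 → ¬ charFun b y =ᵐ[sectionMeasure α β γ d] 0 :=
    fun b y hb => MAIN2_ne _ hσ0 _ (Filter.Eventually.of_forall fun ζ => by
      rw [← norm_pos_iff, MAIN2_char_norm]; exact norm_pos_iff.2 hb)
  have hchE : ∀ (b : ℂ) (y : Pt d), ∃ z₀ : Fd d, ∀ z : Fd d,
      ‖Ext (fun ω => charFun b y (ellPt α β γ s₀ κ R ω)) z‖ = ‖b‖ * |u0 (z - z₀)| := by
    intro b y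
    refine ⟨(WithLp.toLp 2 (κ * R * (α * y.2.1 - β * y.1) / √(α ^ 2 + β ^ 2),
        R • y.2.2) : Fd d), fun z => ?_⟩
    set z₀ : Fd d := (WithLp.toLp 2 (κ * R * (α * y.2.1 - β * y.1) / √(α ^ 2 + β ^ 2),
        R • y.2.2) : Fd d) with hz₀
    have h1 : Ext (fun ω => charFun b y (ellPt α β γ s₀ κ R ω)) z =
        charFun b y (planePt α β γ s₀ (0 : Ed d)) * Ext (fun _ => 1) (z - z₀) := by
      unfold Ext
      rw [← integral_const_mul]
      congr 1
      ext ω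
      show charFun b y (ellPt α β γ s₀ κ R ω) * _ =
        charFun b y (planePt α β γ s₀ (0 : Ed d)) * (1 * _)
      unfold charFun
      rw [MAIN2_dot, ← hz₀, inner_sub_right, one_mul, mul_assoc, mul_assoc, ← Complex.exp_add,
        ← Complex.exp_add]
      congr 2
      push_cast
      ring
    rw [h1, norm_mul, MAIN2_char_norm, hext1, Complex.norm_real, Real.norm_eq_abs]
  have hchQ : ∀ (b : ℂ) (y : Pt d), b ≠ 0 →
      quotient α β γ p (charFun b y) = ENNReal.ofReal C := by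
    intro b y hb
    obtain ⟨hn, hq⟩ := hquot _ (hchm b y) (hch0 b y hb)
    obtain ⟨z₀, hz₀⟩ := hchE b y
    have hb0 : 0 < ‖b‖ := norm_pos_iff.2 hb
    rw [hq]
    congr 1
    have hNn : ∫ ω, ‖charFun b y (ellPt α β γ s₀ κ R ω)‖ ^ 2 ∂(prb (Fd d)) = ‖b‖ ^ 2 := by
      simp [MAIN2_char_norm]
    have hI : ∫ z : Fd d, ‖Ext (fun ω => charFun b y (ellPt α β γ s₀ κ R ω)) z‖ ^ p =
        ‖b‖ ^ p * ∫ z : Fd d, |u0 z| ^ p := by
      rw [← integral_const_mul, ← integral_sub_right_eq_self (fun z => ‖b‖ ^ p * |u0 z| ^ p) z₀]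
      congr 1
      ext z
      rw [hz₀ z, Real.mul_rpow hb0.le (abs_nonneg _)]
    rw [hNn, hI, hC, Real.mul_rpow hc.le (by positivity)]
    have e5 : (‖b‖ ^ 2) ^ (p / 2) = ‖b‖ ^ p := by
      rw [← Real.rpow_natCast, ← Real.rpow_mul hb0.le]
      congr 1
      push_cast
      ring
    rw [e5]
    have : 0 < ‖b‖ ^ p := by positivity
    field_simp
  have hbest : bestConst α β γ d p = ENNReal.ofReal C := by
    apply le_antisymm
    · unfold bestConst
      refine iSup_le fun f => iSup_le fun hf => iSup_le fun _ => iSup_le fun hf0 => ?_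
      exact hquot_le f hf hf0
    · rw [← hchQ 1 0 one_ne_zero]
      unfold bestConst
      exact le_iSup_of_le (charFun 1 0) (le_iSup_of_le (hchm 1 0) (le_iSup_of_le
        ((hchm 1 0).integrable (by norm_num)) (le_iSup_of_le (hch0 1 0 one_ne_zero) le_rfl)))
  refine ⟨by rw [hbest]; exact ENNReal.ofReal_lt_top, fun f => ⟨?_, ?_⟩⟩
  · rintro ⟨hf, hf0, -, hq⟩
    rw [hbest] at hq
    obtain ⟨b, z, hb⟩ := hquot_eq f hf hf0 hq
    set t : ℝ := z.fst / (κ * R * √(α ^ 2 + β ^ 2)) with ht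
    set y : Pt d := (-β * t, α * t, R⁻¹ • z.snd) with hy
    have hz : (WithLp.toLp 2 (κ * R * (α * y.2.1 - β * y.1) / √(α ^ 2 + β ^ 2),
        R • y.2.2) : Fd d) = z := by
      apply (WithLp.equiv 2 (ℝ × Ed d)).injective
      refine Prod.ext ?_ ?_
      · show κ * R * (α * (α * t) - β * (-β * t)) / √(α ^ 2 + β ^ 2) = z.fst
        have h1 : α * (α * t) - β * (-β * t) = (α ^ 2 + β ^ 2) * t := by ring
        have h2 : α ^ 2 + β ^ 2 = √(α ^ 2 + β ^ 2) * √(α ^ 2 + β ^ 2) :=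
          (Real.mul_self_sqrt (by positivity)).symm
        rw [h1, ht]
        nth_rewrite 1 [h2]
        field_simp
      · show R • (R⁻¹ • z.snd) = z.snd
        rw [smul_smul, mul_inv_cancel₀ hR.ne', one_smul]
    refine ⟨b * Complex.exp (-(Complex.I * ((dot (planePt α β γ s₀ (0 : Ed d)) y : ℝ) : ℂ))), y,
      ?_, ?_⟩
    · have hb0 : b ≠ 0 := by
        rintro rfl
        apply hf0
        show ∀ᵐ ζ ∂(sectionMeasure α β γ d), f ζ = 0
        rw [hae]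
        filter_upwards [hb] with ω hω
        rw [hω, zero_mul]
      exact mul_ne_zero hb0 (Complex.exp_ne_zero _)
    · show ∀ᵐ ζ ∂(sectionMeasure α β γ d), f ζ = _
      rw [hae]
      filter_upwards [hb] with ω hω
      unfold charFun
      rw [hω, MAIN2_dot, hz, mul_assoc, ← Complex.exp_add]
      congr 2
      push_cast
      ring
  · rintro ⟨b, y, hb, hf⟩
    have hfm : MemLp f 2 (sectionMeasure α β γ d) := (memLp_congr_ae hf).2 (hchm b y)
    refine ⟨hfm, fun h => hch0 b y hb (hf.symm.trans h), ?_, ?_⟩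
    · rw [hbest]; exact ENNReal.ofReal_lt_top
    · rw [hbest, ← hchQ b y hb]
      unfold quotient
      have h1 : ∀ w, extension α β γ f w = extension α β γ (charFun b y) w := by
        intro w
        unfold extension
        refine integral_congr_ae ?_
        filter_upwards [hf] with ζ hζ
        rw [hζ]
      have h2 : ∫⁻ ζ, ‖f ζ‖ₑ ^ (2 : ℝ) ∂(sectionMeasure α β γ d) =
          ∫⁻ ζ, ‖charFun b y ζ‖ₑ ^ (2 : ℝ) ∂(sectionMeasure α β γ d) := by
        refine lintegral_congr_ae ?_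
        filter_upwards [hf] with ζ hζ
        rw [hζ]
      simp only [h1, h2]

/-- MAIN2 -/
def T_MAIN2 : Prop := ∀ d : ℕ, 1 ≤ d → ∃ p₀ : ℝ, ∀ p, p₀ ≤ p → ∀ α β γ : ℝ,
  (α, β) ≠ (0, 0) → (γ ≠ 0 ∨ |α| < |β|) → (d = 1 → |β| ≤ |α|) →
  (IsMaximizer α β γ p (expTau : Pt d → ℂ) ↔ β = 0) ∧
  (|β| < |α| → bestConst α β γ d p < ∞ ∧ ∀ f : Pt d → ℂ, IsMaximizer α β γ p f ↔
    ∃ (b : ℂ) (y : Pt d), b ≠ 0 ∧ f =ᵐ[sectionMeasure α β γ d] charFun b y) ∧
  (|α| ≤ |β| → bestConst α β γ d p = ∞)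

theorem tMAIN2 (hI : T_INV) (hB : T_BASIC) (hCore : T_CORE2) (hEll : T_ELL) (hNorms : T_NORMS)
    (hBlow : T_BLOW) : T_MAIN2 := by
  intro d hd
  have hfr : Module.finrank ℝ (Fd d) = d + 1 := MAIN_finrank d
  obtain ⟨p₀, hp4, hp₀⟩ := hCore (Fd d) (by rw [hfr]; omega)
  refine ⟨max p₀ (4 * (d : ℝ) + 8), fun p hp α β γ hαβ hnd hd1 => ?_⟩
  have hpp : p₀ ≤ p := (le_max_left _ _).trans hp
  have hpd : 4 * (d : ℝ) + 8 ≤ p := (le_max_right _ _).trans hp
  rcases lt_or_ge |β| |α| with h | h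
  · have hγ : γ ≠ 0 := by
      rcases hnd with h1 | h1
      · exact h1
      · exact absurd h1 (not_lt.2 h.le)
    have hα : α ≠ 0 := by
      intro h0
      rw [h0, abs_zero] at h
      exact absurd h (not_lt.2 (abs_nonneg _))
    have hprob := (hI (Fd d) (by rw [hfr]; omega)).1
    obtain ⟨s₀, κ, R, τ₀, τ₁, c, hκ, hR, hc, h0, h1, hτ, hσ⟩ := hEll d α β γ hd h hγ
    obtain ⟨c₂, hc₂, hnorm⟩ := hNorms d α β γ s₀ κ R c p hd hα hκ hR hc (by linarith) hσ
    obtain ⟨-, i2, i3⟩ := hp₀ p hpp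
    obtain ⟨j1, j2⟩ := MAIN2_ell d α β γ p (by linarith) s₀ κ R c c₂ hprob hα
      hκ hR hc hσ hc₂ hnorm i2 i3 (hB (Fd d) (by rw [hfr]; omega)).1
    refine ⟨?_, fun _ => ⟨j1, j2⟩, fun h' => absurd h (not_lt.2 h')⟩
    have hemb := MAIN2_emb α β γ s₀ κ R d hα hκ hR
    have hc' : ENNReal.ofReal c ≠ 0 := by simpa using hc
    have hae : ∀ P : Pt d → Prop, (∀ᵐ ζ ∂(sectionMeasure α β γ d), P ζ) ↔
        ∀ᵐ ω ∂(prb (Fd d)), P (ellPt α β γ s₀ κ R ω) := by
      intro P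
      rw [hσ, Measure.ae_ennreal_smul_measure_iff hc', hemb.ae_map_iff]
    rw [j2]
    constructor
    · rintro ⟨b, y, -, hby⟩
      by_contra hβ
      have hτ1 := h1 hβ
      have hby' : ∀ᵐ ζ ∂(sectionMeasure α β γ d), expTau ζ = charFun b y ζ := hby
      rw [hae] at hby'
      have ha : (fun ω : Metric.sphere (0 : Fd d) 1 =>
          Real.exp (-(τ₀ + τ₁ * (ω : Fd d).fst))) =ᵐ[prb (Fd d)] fun _ => ‖b‖ := by
        filter_upwards [hby'] with ω hω
        have := congrArg norm hω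
        rw [MAIN2_char_norm] at this
        rw [← this]
        unfold expTau
        rw [Complex.norm_real, Real.norm_of_nonneg (Real.exp_pos _).le, hτ ω]
      have hcont : Continuous (fun ω : Metric.sphere (0 : Fd d) 1 =>
          Real.exp (-(τ₀ + τ₁ * (ω : Fd d).fst))) := by fun_prop
      have hpos : (prb (Fd d)).IsOpenPosMeasure := by
        unfold prb
        have h1 : ((volume : Measure (Fd d)).toSphere univ)⁻¹ ≠ 0 := by
          apply ENNReal.inv_ne_zero.2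
          exact measure_ne_top _ _
        exact Measure.isOpenPosMeasure_smul _ h1
      have hall : (fun ω : Metric.sphere (0 : Fd d) 1 =>
          Real.exp (-(τ₀ + τ₁ * (ω : Fd d).fst))) = fun _ => ‖b‖ :=
        Continuous.ae_eq_iff_eq (prb (Fd d)) hcont continuous_const |>.1 ha
      have e1 := congrFun hall ⟨WithLp.toLp 2 ((1 : ℝ), (0 : Ed d)), by simp⟩
      have e2 := congrFun hall ⟨WithLp.toLp 2 ((-1 : ℝ), (0 : Ed d)), by simp⟩
      simp only at e1 e2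
      rw [← e2] at e1
      have e3 : -(τ₀ + τ₁ * 1) = -(τ₀ + τ₁ * (-1)) := Real.exp_injective e1
      apply hτ1
      linarith
    · intro hβ
      have hτ1 := h0 hβ
      refine ⟨((Real.exp (-τ₀) : ℝ) : ℂ), 0, by exact_mod_cast (Real.exp_pos _).ne', ?_⟩
      show ∀ᵐ ζ ∂(sectionMeasure α β γ d), expTau ζ = charFun _ _ ζ
      rw [hae]
      refine Filter.Eventually.of_forall fun ω => ?_
      unfold expTau charFun
      rw [hτ ω, hτ1, MAIN2_dotzero]
      simp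
  · have hβ : β ≠ 0 := by
      intro h0
      rw [h0, abs_zero] at h
      have h1 : α = 0 := abs_eq_zero.1 (le_antisymm h (abs_nonneg _))
      exact hαβ (by rw [h0, h1])
    have hb := hBlow d α β γ p hd hαβ hnd h hd1 hpd
    refine ⟨?_, fun h' => absurd h' (not_lt.2 h), fun _ => hb⟩
    constructor
    · rintro ⟨_, _, h3, _⟩
      rw [hb] at h3
      exact absurd h3 (lt_irrefl _)
    · intro h0
      exact absurd h0 hβ

end Pool.Agent.ExpMax
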