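import Pool.Agent.ExpMax.Targets

set_option autoImplicit false

/-!
# The modulus of the extension attains its maximum
-/

noncomputable section

open MeasureTheory Set Filter
open scoped ENNReal RealInnerProductSpace Topology

namespace Pool.Agent.ExpMax

/-- tails of an integrable function -/
theorem MAXPT_tail {F : Type} [NormedAddCommGroup F] [InnerProductSpace ℝ F]
    [FiniteDimensional ℝ F] [MeasurableSpace F] [BorelSpace F] (g : F → ℝ) (hg : Integrable g)
    {η : ℝ} (hη : 0 < η) : ∃ N : ℕ, ∫ z in {z : F | (N : ℝ) < ‖z‖}, g z < η := by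
  have h1 := tendsto_setIntegral_of_antitone (μ := (volume : Measure F)) (f := g)
    (s := fun N : ℕ => {z : F | (N : ℝ) < ‖z‖})
    (fun N => measurableSet_lt measurable_const measurable_norm)
    (by
      intro a b hab z hz
      have hz' : (b : ℝ) < ‖z‖ := hz
      have hab' : (a : ℝ) ≤ b := by exact_mod_cast hab
      exact lt_of_le_of_lt hab' hz')
    ⟨0, hg.integrableOn⟩
  have h2 : (⋂ N : ℕ, {z : F | (N : ℝ) < ‖z‖}) = ∅ := by
    rw [eq_empty_iff_forall_notMem]
    intro z hz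
    obtain ⟨n, hn⟩ := exists_nat_gt ‖z‖
    have h3 : (n : ℝ) < ‖z‖ := mem_iInter.1 hz n
    linarith
  rw [h2, Measure.restrict_empty, integral_zero_measure] at h1
  exact (h1.eventually (gt_mem_nhds hη)).exists

/-- MAXPT -/
theorem tMAXPT (_hI : T_INV) (hE : T_EXTC) : T_MAXPT := by
  intro F _ _ _ _ _ hF q hq f hf hint
  obtain ⟨hc, hb, hL⟩ := hE F hF f hf
  by_cases h0 : ∀ y, Ext f y = 0
  · exact ⟨0, fun y => by rw [h0, h0]⟩
  push Not at h0
  obtain ⟨y₁, hy₁⟩ := h0
  set h : ℝ := ‖Ext f y₁‖ with hh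
  have hpos : 0 < h := norm_pos_iff.2 hy₁
  set L : ℝ := ∫ ω, ‖f ω‖ ∂(prb F) with hLdef
  have hLpos : 0 < L := lt_of_lt_of_le hpos (hb y₁)
  set r : ℝ := h / (2 * L) with hr
  have hrpos : 0 < r := by positivity
  set η : ℝ := (h / 2) ^ q * ((volume : Measure F) (Metric.ball (0 : F) r)).toReal with hη
  have hvol : 0 < ((volume : Measure F) (Metric.ball (0 : F) r)).toReal :=
    ENNReal.toReal_pos (Metric.measure_ball_pos _ _ hrpos).ne' measure_ball_lt_top.ne
  have hηpos : 0 < η := mul_pos (Real.rpow_pos_of_pos (by linarith) _) hvol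
  have hnear : ∀ y, h ≤ ‖Ext f y‖ → ∀ z ∈ Metric.ball y r, h / 2 ≤ ‖Ext f z‖ := by
    intro y hy z hz
    rw [Metric.mem_ball, dist_eq_norm] at hz
    have h1 := hL y z
    have h2 : ‖y - z‖ ≤ r := by rw [norm_sub_rev]; exact hz.le
    have h3 : L * ‖y - z‖ ≤ h / 2 := by
      calc L * ‖y - z‖ ≤ L * r := mul_le_mul_of_nonneg_left h2 hLpos.le
        _ = h / 2 := by rw [hr]; field_simp
    have h4 : ‖Ext f y‖ ≤ ‖Ext f z‖ + ‖Ext f y - Ext f z‖ := by
      have := norm_add_le (Ext f z) (Ext f y - Ext f z)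
      rwa [add_sub_cancel] at this
    linarith
  have hlow : ∀ y, h ≤ ‖Ext f y‖ → η ≤ ∫ z in Metric.ball y r, ‖Ext f z‖ ^ q := by
    intro y hy
    have h1 : ∫ _ in Metric.ball y r, (h / 2) ^ q = η := by
      rw [setIntegral_const, smul_eq_mul, measureReal_def, Measure.addHaar_ball_center, hη,
        mul_comm]
    rw [← h1]
    apply setIntegral_mono_on
    · exact integrableOn_const measure_ball_lt_top.ne
    · exact hint.integrableOn
    · exact measurableSet_ball
    · intro z hz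
      exact Real.rpow_le_rpow (by linarith) (hnear y hy z hz) (by linarith)
  obtain ⟨N, hN⟩ := MAXPT_tail _ hint hηpos
  have hbd : ∀ y, (N : ℝ) + r < ‖y‖ → ‖Ext f y‖ < h := by
    intro y hy
    by_contra hcon
    push Not at hcon
    have h1 := hlow y hcon
    have h2 : ∫ z in Metric.ball y r, ‖Ext f z‖ ^ q ≤
        ∫ z in {z : F | (N : ℝ) < ‖z‖}, ‖Ext f z‖ ^ q := by
      apply setIntegral_mono_set hint.integrableOn
      · exact Eventually.of_forall fun z => Real.rpow_nonneg (norm_nonneg _) _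
      · apply HasSubset.Subset.eventuallyLE
        intro z hz
        rw [Metric.mem_ball, dist_eq_norm] at hz
        show (N : ℝ) < ‖z‖
        have h3 : ‖y‖ ≤ ‖z‖ + ‖y - z‖ := by
          have := norm_add_le z (y - z)
          rwa [add_sub_cancel] at this
        rw [norm_sub_rev] at h3
        linarith
    linarith
  obtain ⟨y₀, hy₀, hmax⟩ := (isCompact_closedBall (0 : F) (max ((N : ℝ) + r) ‖y₁‖)).exists_isMaxOn
    ⟨y₁, by rw [mem_closedBall_zero_iff]; exact le_max_right _ _⟩ hc.norm.continuousOn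
  have hy₁₀ : h ≤ ‖Ext f y₀‖ := hmax (by
    rw [mem_closedBall_zero_iff]; exact le_max_right _ _ : y₁ ∈ _)
  refine ⟨y₀, fun y => ?_⟩
  by_cases hy : ‖y‖ ≤ max ((N : ℝ) + r) ‖y₁‖
  · exact hmax (by rwa [mem_closedBall_zero_iff] : y ∈ _)
  · push Not at hy
    exact (hbd y (lt_of_le_of_lt (le_max_left _ _) hy)).le.trans hy₁₀

end Pool.Agent.ExpMax
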