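import Pool.Agent.ExpMax.EXTC

set_option autoImplicit false

/-!
# Modulation (target `T_NORMAL`)
-/

noncomputable section

open MeasureTheory Set Filter
open scoped ENNReal RealInnerProductSpace Topology

namespace Pool.Agent.ExpMax

theorem tNORMAL (_hINV : T_INV) (_hEXTC : T_EXTC) : T_NORMAL := by
  intro F _ _ _ _ _ _ f hf y₀ hy₀
  set E : ℂ := Ext f y₀ with hE
  have hE0 : (0 : ℝ) < ‖E‖ := norm_pos_iff.2 hy₀
  have hEc : ((‖E‖ : ℝ) : ℂ) ≠ 0 := by exact_mod_cast hE0.ne'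
  set c : ℂ := (starRingEnd ℂ) E / ((‖E‖ : ℝ) : ℂ) with hc
  have hcn : ‖c‖ = 1 := by
    rw [hc, norm_div, RCLike.norm_conj, Complex.norm_real, Real.norm_eq_abs, abs_norm, div_self hE0.ne']
  have hcE : c * E = ((‖E‖ : ℝ) : ℂ) := by
    rw [hc, div_mul_eq_mul_div, mul_comm, Complex.mul_conj, Complex.normSq_eq_norm_sq]
    rw [div_eq_iff hEc]
    push_cast
    ring
  have hext : ∀ y, Ext (fun ω : Metric.sphere (0 : F) 1 =>
      c * (f ω * Complex.exp (-(Complex.I * ((⟪(ω : F), y₀⟫ : ℝ) : ℂ))))) y =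
      c * Ext f (y + y₀) := by
    intro y
    unfold Ext
    rw [← integral_const_mul]
    congr 1
    funext ω
    rw [inner_add_right, mul_assoc, mul_assoc]
    congr 2
    rw [← Complex.exp_add]
    congr 1
    push_cast
    ring
  have hnorm : ∀ ω : Metric.sphere (0 : F) 1,
      ‖c * (f ω * Complex.exp (-(Complex.I * ((⟪(ω : F), y₀⟫ : ℝ) : ℂ))))‖ = ‖f ω‖ := by
    intro ω
    rw [norm_mul, norm_mul, EXTC_norm_exp, hcn, one_mul, mul_one]
  refine ⟨fun ω => c * (f ω * Complex.exp (-(Complex.I * ((⟪(ω : F), y₀⟫ : ℝ) : ℂ)))), ?_,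
    hnorm, ?_, ?_⟩
  · exact hf.congr_norm (aestronglyMeasurable_const.mul
      (hf.aestronglyMeasurable.mul (EXTC_cont y₀).aestronglyMeasurable))
      (ae_of_all _ (fun ω => (hnorm ω).symm))
  · rw [hext, zero_add, ← hE, hcE]
  · intro y
    rw [hext, norm_mul, hcn, one_mul]

end Pool.Agent.ExpMax
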