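import Pool.Agent.ExpMax.Targets

set_option autoImplicit false

/-!
# Norms of the extension on an ellipsoidal section
-/

noncomputable section

open MeasureTheory Set Filter
open scoped ENNReal RealInnerProductSpace Topology

namespace Pool.Agent.ExpMax

theorem NORMS_dot (α β γ : ℝ) (hα : α ≠ 0) {d : ℕ} (s r : ℝ) (ξ x : Ed d) :
    dot (planePt α β γ s ξ) (planePt α β γ r x) =
      γ ^ 2 / (α ^ 2 + β ^ 2) + s * r + ⟪ξ, x⟫ := by
  have hN2 : 0 < α ^ 2 + β ^ 2 := by positivity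
  have hN : √(α ^ 2 + β ^ 2) ≠ 0 := (Real.sqrt_pos.2 hN2).ne'
  have hsq : √(α ^ 2 + β ^ 2) ^ 2 = α ^ 2 + β ^ 2 := Real.sq_sqrt hN2.le
  unfold dot planePt
  simp only
  set N := √(α ^ 2 + β ^ 2) with hNdef
  rw [← hsq]
  have h2 : α ^ 2 = N ^ 2 - β ^ 2 := by rw [hsq]; ring
  have key : (-(γ * α) / N ^ 2 - s * β / N) * (-(γ * α) / N ^ 2 - r * β / N) +
      (-(γ * β) / N ^ 2 + s * α / N) * (-(γ * β) / N ^ 2 + r * α / N) =
      γ ^ 2 / N ^ 2 + s * r := by
    field_simp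
    have h4 : α ^ 2 = N ^ 2 - β ^ 2 := h2
    linear_combination (γ ^ 2 + s * r * N ^ 2) * h4
  rw [key]

theorem NORMS_planePt_continuous (α β γ : ℝ) (d : ℕ) :
    Continuous (fun x : ℝ × Ed d => planePt α β γ x.1 x.2) := by
  unfold planePt
  fun_prop

theorem NORMS_planePt_injective (α β γ : ℝ) (hα : α ≠ 0) (d : ℕ) :
    Function.Injective (fun x : ℝ × Ed d => planePt α β γ x.1 x.2) := by
  have hN2 : 0 < α ^ 2 + β ^ 2 := by positivity
  have hN : √(α ^ 2 + β ^ 2) ≠ 0 := (Real.sqrt_pos.2 hN2).ne'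
  rintro ⟨s, ξ⟩ ⟨s', ξ'⟩ h
  unfold planePt at h
  simp only [Prod.mk.injEq] at h
  obtain ⟨_, h2, h3⟩ := h
  have h4 : s * α / √(α ^ 2 + β ^ 2) = s' * α / √(α ^ 2 + β ^ 2) := by linarith
  have h6 : s = s' := by
    field_simp at h4
    exact h4
  rw [h6, h3]

theorem NORMS_planePt_emb (α β γ : ℝ) (hα : α ≠ 0) (d : ℕ) :
    MeasurableEmbedding (fun x : ℝ × Ed d => planePt α β γ x.1 x.2) :=
  (NORMS_planePt_continuous α β γ d).measurable.measurableEmbedding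
    (NORMS_planePt_injective α β γ hα d)

theorem NORMS_ellPt_emb (α β γ s₀ κ R : ℝ) (hα : α ≠ 0) (hκ : 0 < κ) (hR : 0 < R) (d : ℕ) :
    MeasurableEmbedding (fun ω : Metric.sphere (0 : Fd d) 1 => ellPt α β γ s₀ κ R ω) := by
  have hc : Continuous (fun ω : Metric.sphere (0 : Fd d) 1 => ellPt α β γ s₀ κ R ω) := by
    unfold ellPt
    have h1 : Continuous (fun ω : Metric.sphere (0 : Fd d) 1 => (s₀ + κ * R * (ω : Fd d).fst,
        R • (ω : Fd d).snd)) := by fun_prop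
    exact (NORMS_planePt_continuous α β γ d).comp h1
  have hi : Function.Injective
      (fun ω : Metric.sphere (0 : Fd d) 1 => ellPt α β γ s₀ κ R ω) := by
    intro ω ω' h
    have h' : (fun x : ℝ × Ed d => planePt α β γ x.1 x.2)
        (s₀ + κ * R * (ω : Fd d).fst, R • (ω : Fd d).snd) =
        (fun x : ℝ × Ed d => planePt α β γ x.1 x.2)
        (s₀ + κ * R * (ω' : Fd d).fst, R • (ω' : Fd d).snd) := h
    have h2 := NORMS_planePt_injective α β γ hα d h'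
    simp only [Prod.mk.injEq] at h2
    obtain ⟨h3, h4⟩ := h2
    have h5 : (ω : Fd d).fst = (ω' : Fd d).fst := by
      have h6 : κ * R * (ω : Fd d).fst = κ * R * (ω' : Fd d).fst := by linarith
      exact mul_left_cancel₀ (mul_pos hκ hR).ne' h6
    have h6 : (ω : Fd d).snd = (ω' : Fd d).snd := smul_right_injective _ hR.ne' h4
    apply Subtype.ext
    apply (WithLp.ofLp_injective 2)
    exact Prod.ext h5 h6
  exact (hc.isClosedEmbedding hi).measurableEmbedding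

theorem NORMS_ext (α β γ s₀ κ R c : ℝ) (hα : α ≠ 0) (hκ : 0 < κ) (hR : 0 < R) (hc : 0 < c)
    (d : ℕ) (hσ : sectionMeasure α β γ d =
      ENNReal.ofReal c • Measure.map (ellPt α β γ s₀ κ R) (prb (Fd d)))
    (f : Pt d → ℂ) (r : ℝ) (x : Ed d) :
    extension α β γ f (planePt α β γ r x) =
      (c : ℂ) * (Complex.exp (-(Complex.I * ((γ ^ 2 / (α ^ 2 + β ^ 2) + s₀ * r : ℝ) : ℂ))) *
        Ext (fun ω => f (ellPt α β γ s₀ κ R ω)) (WithLp.toLp 2 (κ * R * r, R • x))) := by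
  unfold extension Ext
  rw [hσ, integral_smul_measure, ENNReal.toReal_ofReal hc.le,
    (NORMS_ellPt_emb α β γ s₀ κ R hα hκ hR d).integral_map, ← integral_const_mul]
  rw [Complex.real_smul]
  congr 1
  apply integral_congr_ae
  refine Eventually.of_forall fun ω => ?_
  simp only
  have h1 : dot (ellPt α β γ s₀ κ R ω) (planePt α β γ r x) =
      (γ ^ 2 / (α ^ 2 + β ^ 2) + s₀ * r) +
        ⟪(ω : Fd d), (WithLp.toLp 2 (κ * R * r, R • x) : Fd d)⟫ := by
    unfold ellPt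
    rw [NORMS_dot α β γ hα, WithLp.prod_inner_apply]
    simp only [real_inner_smul_left, real_inner_smul_right]
    have h2 : ⟪((ω : Fd d).fst : ℝ), κ * R * r⟫ = (ω : Fd d).fst * (κ * R * r) := by
      rw [real_inner_comm]
      simp
    have h3 : ⟪((ω : Fd d).ofLp.1 : ℝ), κ * R * r⟫ = (ω : Fd d).fst * (κ * R * r) := h2
    rw [h3]
    have h4 : ⟪(ω : Fd d).ofLp.2, x⟫ = ⟪(ω : Fd d).snd, x⟫ := rfl
    rw [h4]
    ring
  rw [h1]
  have h2 : Complex.exp (-(Complex.I * (((γ ^ 2 / (α ^ 2 + β ^ 2) + s₀ * r) +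
        ⟪(ω : Fd d), (WithLp.toLp 2 (κ * R * r, R • x) : Fd d)⟫ : ℝ) : ℂ))) =
      Complex.exp (-(Complex.I * ((γ ^ 2 / (α ^ 2 + β ^ 2) + s₀ * r : ℝ) : ℂ))) *
      Complex.exp (-(Complex.I *
        ((⟪(ω : Fd d), (WithLp.toLp 2 (κ * R * r, R • x) : Fd d)⟫ : ℝ) : ℂ))) := by
    rw [← Complex.exp_add]
    congr 1
    push_cast
    ring
  rw [h2]
  ring

theorem NORMS_ext_norm (α β γ s₀ κ R c : ℝ) (hα : α ≠ 0) (hκ : 0 < κ) (hR : 0 < R) (hc : 0 < c)
    (d : ℕ) (hσ : sectionMeasure α β γ d =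
      ENNReal.ofReal c • Measure.map (ellPt α β γ s₀ κ R) (prb (Fd d)))
    (f : Pt d → ℂ) (r : ℝ) (x : Ed d) :
    ‖extension α β γ f (planePt α β γ r x)‖ₑ =
      ENNReal.ofReal c *
        ‖Ext (fun ω => f (ellPt α β γ s₀ κ R ω)) (WithLp.toLp 2 (κ * R * r, R • x))‖ₑ := by
  rw [NORMS_ext α β γ s₀ κ R c hα hκ hR hc d hσ f r x, enorm_mul, enorm_mul]
  have h1 : ‖(c : ℂ)‖ₑ = ENNReal.ofReal c := by
    rw [← ofReal_norm, Complex.norm_real, Real.norm_of_nonneg hc.le]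
  have h2 : ‖Complex.exp (-(Complex.I * ((γ ^ 2 / (α ^ 2 + β ^ 2) + s₀ * r : ℝ) : ℂ)))‖ₑ = 1 := by
    rw [← ofReal_norm, Complex.norm_exp]
    have h3 : (-(Complex.I * ((γ ^ 2 / (α ^ 2 + β ^ 2) + s₀ * r : ℝ) : ℂ))).re = 0 := by
      rw [Complex.neg_re, Complex.I_mul_re, Complex.ofReal_im]
      simp
    rw [h3]
    simp
  rw [h1, h2, one_mul]

/-- The change of variables. -/
theorem NORMS_change (d : ℕ) (a R : ℝ) (ha : 0 < a) (hR : 0 < R) (g : Fd d → ℝ≥0∞) :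
    ∫⁻ x : ℝ × Ed d, g (WithLp.toLp 2 (a * x.1, R • x.2)) =
      ENNReal.ofReal (a⁻¹ * (R ^ d)⁻¹) * ∫⁻ z : Fd d, g z := by
  have hmp : MeasurePreserving (@WithLp.toLp 2 (ℝ × Ed d)) volume volume :=
    WithLp.volume_preserving_toLp ℝ (Ed d)
  have hemb : MeasurableEmbedding (@WithLp.toLp 2 (ℝ × Ed d)) := by
    have h := (MeasurableEquiv.toLp 2 (ℝ × Ed d)).measurableEmbedding
    exact h
  have h1 : ∫⁻ z : Fd d, g z = ∫⁻ x : ℝ × Ed d, g (WithLp.toLp 2 x) :=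
    (hmp.lintegral_comp_emb hemb g).symm
  rw [h1]
  have hmap1 : Measure.map (fun t : ℝ => a * t) volume = ENNReal.ofReal a⁻¹ • volume := by
    have := Real.map_volume_mul_left ha.ne'
    rw [this, abs_of_pos (inv_pos.2 ha)]
  have hmap2 : Measure.map (fun x : Ed d => R • x) volume =
      ENNReal.ofReal (R ^ d)⁻¹ • volume := by
    have := Measure.map_addHaar_smul (volume : Measure (Ed d)) hR.ne'
    rw [this]
    simp only [finrank_euclideanSpace, Fintype.card_fin]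
    rw [abs_of_pos (inv_pos.2 (pow_pos hR d))]
  have hemb2 : MeasurableEmbedding (fun x : ℝ × Ed d => (a * x.1, R • x.2)) := by
    have hc : Continuous (fun x : ℝ × Ed d => (a * x.1, R • x.2)) := by fun_prop
    apply hc.measurable.measurableEmbedding
    rintro ⟨r, x⟩ ⟨r', x'⟩ h
    simp only [Prod.mk.injEq] at h
    obtain ⟨h1, h2⟩ := h
    rw [mul_left_cancel₀ ha.ne' h1, smul_right_injective _ hR.ne' h2]
  have hmap : Measure.map (fun x : ℝ × Ed d => (a * x.1, R • x.2)) volume =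
      ENNReal.ofReal (a⁻¹ * (R ^ d)⁻¹) • volume := by
    have h1 : Measure.map (Prod.map (fun t : ℝ => a * t) (fun x : Ed d => R • x))
        ((volume : Measure ℝ).prod (volume : Measure (Ed d))) =
        (Measure.map (fun t : ℝ => a * t) volume).prod
          (Measure.map (fun x : Ed d => R • x) volume) :=
      (Measure.map_prod_map _ _ (measurable_const_mul a) (measurable_const_smul R)).symm
    have h2 : Measure.map (fun x : ℝ × Ed d => (a * x.1, R • x.2)) volume =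
        Measure.map (Prod.map (fun t : ℝ => a * t) (fun x : Ed d => R • x))
        ((volume : Measure ℝ).prod (volume : Measure (Ed d))) := rfl
    rw [h2, h1, hmap1, hmap2, Measure.prod_smul_left, Measure.prod_smul_right, smul_smul,
      ← ENNReal.ofReal_mul (inv_pos.2 ha).le]
    rfl
  calc ∫⁻ x : ℝ × Ed d, g (WithLp.toLp 2 (a * x.1, R • x.2))
      = ∫⁻ y, g (WithLp.toLp 2 y) ∂(Measure.map (fun x : ℝ × Ed d => (a * x.1, R • x.2)) volume) :=
        (hemb2.lintegral_map (fun y => g (WithLp.toLp 2 y))).symm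
    _ = _ := by rw [hmap, lintegral_smul_measure]; rfl

theorem tNORMS : T_NORMS := by
  intro d α β γ s₀ κ R c p hd hα hκ hR hc hp hσ
  have hN2 : 0 < α ^ 2 + β ^ 2 := by positivity
  have hN : 0 < √(α ^ 2 + β ^ 2) := Real.sqrt_pos.2 hN2
  have hκR : 0 < κ * R := mul_pos hκ hR
  refine ⟨1 / √(α ^ 2 + β ^ 2) * (c ^ p * ((κ * R)⁻¹ * (R ^ d)⁻¹)), by positivity, fun f => ?_⟩
  unfold planeMeasure
  rw [lintegral_smul_measure, (NORMS_planePt_emb α β γ hα d).lintegral_map]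
  have h1 : ∀ x : ℝ × Ed d, ‖extension α β γ f (planePt α β γ x.1 x.2)‖ₑ ^ p =
      ENNReal.ofReal (c ^ p) *
        (fun z : Fd d => ‖Ext (fun ω => f (ellPt α β γ s₀ κ R ω)) z‖ₑ ^ p)
          (WithLp.toLp 2 (κ * R * x.1, R • x.2)) := by
    intro x
    rw [NORMS_ext_norm α β γ s₀ κ R c hα hκ hR hc d hσ f x.1 x.2, ENNReal.mul_rpow_of_nonneg _ _ hp.le,
      ENNReal.ofReal_rpow_of_pos hc]
  have h3 : ∫⁻ x : ℝ × Ed d, ‖extension α β γ f (planePt α β γ x.1 x.2)‖ₑ ^ p =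
      ENNReal.ofReal (c ^ p) * (ENNReal.ofReal ((κ * R)⁻¹ * (R ^ d)⁻¹) *
        ∫⁻ z : Fd d, ‖Ext (fun ω => f (ellPt α β γ s₀ κ R ω)) z‖ₑ ^ p) := by
    rw [lintegral_congr h1, lintegral_const_mul' _ _ ENNReal.ofReal_ne_top]
    congr 1
    exact NORMS_change d (κ * R) R hκR hR
      (fun z : Fd d => ‖Ext (fun ω => f (ellPt α β γ s₀ κ R ω)) z‖ₑ ^ p)
  rw [h3]
  rw [smul_eq_mul, ENNReal.ofReal_mul (p := 1 / √(α ^ 2 + β ^ 2)) (by positivity),
    ENNReal.ofReal_mul (p := c ^ p) (by positivity)]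
  simp only [mul_assoc]

end Pool.Agent.ExpMax
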