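import Pool.Agent.ExpMax.Targets

set_option autoImplicit false

/-! NUM. -/

noncomputable section

open MeasureTheory Set
open scoped ENNReal RealInnerProductSpace

namespace Pool.Agent.ExpMax

theorem tNUM : T_NUM := by
  intro C A hC hA
  have hlim : ∀ᶠ p : ℝ in Filter.atTop, C * (A * Real.log p / p) < 1 / 2 := by
    have h1 : Filter.Tendsto (fun p : ℝ => Real.log p / p) Filter.atTop (nhds 0) := by
      have := Real.isLittleO_log_id_atTop.tendsto_div_nhds_zero
      simpa using this
    have h2 : Filter.Tendsto (fun p : ℝ => C * (A * Real.log p / p)) Filter.atTop (nhds 0) := by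
      have h3 := h1.const_mul (C * A)
      rw [mul_zero] at h3
      refine h3.congr fun p => ?_
      ring
    exact h2.eventually (gt_mem_nhds (by norm_num))
  obtain ⟨p₁, hp₁⟩ := Filter.eventually_atTop.mp hlim
  refine ⟨max (max 2 p₁) (4 * C + 1), ?_⟩
  intro p hp m ε hm hε hme hle
  have hp2 : 2 ≤ p := (le_max_left _ _).trans ((le_max_left _ _).trans hp)
  have hp3 : p₁ ≤ p := (le_max_right _ _).trans ((le_max_left _ _).trans hp)
  have hp4 : 4 * C + 1 ≤ p := (le_max_right _ _).trans hp
  have hp0 : 0 < p := by linarith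
  have hsmall := hp₁ p hp3
  set x : ℝ := p * ε ^ 2 / 2 with hx
  have hx0 : 0 < x := by positivity
  have h1 : m ≤ Real.exp (-(ε ^ 2 / 2)) := by
    have h2 : m ^ 2 ≤ Real.exp (-(ε ^ 2)) := by
      have := Real.add_one_le_exp (-(ε ^ 2))
      linarith
    have h3 : Real.exp (-(ε ^ 2)) = Real.exp (-(ε ^ 2 / 2)) ^ 2 := by
      rw [← Real.exp_nat_mul]
      congr 1
      push_cast
      ring
    rw [h3] at h2
    exact le_of_sq_le_sq h2 (Real.exp_pos _).le
  have h4 : m ^ p ≤ Real.exp (-x) := by
    have h5 := Real.rpow_le_rpow hm h1 hp0.le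
    rw [← Real.exp_mul] at h5
    have h6 : -(ε ^ 2 / 2) * p = -x := by rw [hx]; ring
    rwa [h6] at h5
  have h7 : Real.exp (-x) ≤ 1 / (1 + x) := by
    rw [Real.exp_neg, ← one_div]
    apply one_div_le_one_div_of_le (by linarith)
    have := Real.add_one_le_exp x
    linarith
  by_cases hx1 : x ≤ 1
  · have h8 : 1 / (1 + x) ≤ 1 - x / 2 := by
      rw [div_le_iff₀ (by linarith)]
      nlinarith
    have h9 : C * ε ^ 2 < x / 2 := by
      rw [hx]
      have : 0 < ε ^ 2 := by positivity
      nlinarith
    linarith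
  · push Not at hx1
    have h8 : 1 / (1 + x) < 1 / 2 := by
      apply one_div_lt_one_div_of_lt (by norm_num)
      linarith
    have h9 : C * ε ^ 2 ≤ C * (A * Real.log p / p) := by
      apply mul_le_mul_of_nonneg_left hle hC.le
    linarith

end Pool.Agent.ExpMax
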