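import Pool.Agent.ExpMax.Targets

set_option autoImplicit false

/-!
# Energy and decay for the Bessel equation (target `T_ODEAN`)
-/

noncomputable section

open MeasureTheory Set Filter
open scoped ENNReal RealInnerProductSpace Topology

namespace Pool.Agent.ExpMax

theorem ODEAN_deriv {U U1 U2 : ℝ → ℝ} (hU : ∀ r, HasDerivAt U (U1 r) r)
    (hU1 : ∀ r, HasDerivAt U1 (U2 r) r) (r : ℝ) :
    HasDerivAt (fun x => U1 x ^ 2 + U x ^ 2) (2 * U1 r * U2 r + 2 * U r * U1 r) r := by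
  have h := ((hU1 r).pow 2).add ((hU r).pow 2)
  refine h.congr_deriv ?_
  simp

theorem ODEAN_nonpos {n : ℝ} {U U1 U2 : ℝ → ℝ} (hn : 1 ≤ n)
    (hode : ∀ r, 0 < r → U2 r + n / r * U1 r + U r = 0) (r : ℝ) (hr : 0 < r) :
    2 * U1 r * U2 r + 2 * U r * U1 r = -(2 * (n / r) * U1 r ^ 2) ∧
      2 * U1 r * U2 r + 2 * U r * U1 r ≤ 0 := by
  have h := hode r hr
  have h2 : U2 r = -(n / r * U1 r) - U r := by linarith
  have h3 : 2 * U1 r * U2 r + 2 * U r * U1 r = -(2 * (n / r) * U1 r ^ 2) := by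
    rw [h2]; ring
  refine ⟨h3, ?_⟩
  rw [h3]
  have : 0 ≤ 2 * (n / r) * U1 r ^ 2 := by positivity
  linarith

theorem ODEAN_anti {n : ℝ} {U U1 U2 : ℝ → ℝ} (hn : 1 ≤ n) (hU : ∀ r, HasDerivAt U (U1 r) r)
    (hU1 : ∀ r, HasDerivAt U1 (U2 r) r)
    (hode : ∀ r, 0 < r → U2 r + n / r * U1 r + U r = 0) :
    AntitoneOn (fun x => U1 x ^ 2 + U x ^ 2) (Set.Ici 0) := by
  apply antitoneOn_of_deriv_nonpos (convex_Ici 0)
  · exact fun x _ => (ODEAN_deriv hU hU1 x).continuousAt.continuousWithinAt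
  · exact fun x _ => (ODEAN_deriv hU hU1 x).differentiableAt.differentiableWithinAt
  · intro x hx
    rw [interior_Ici] at hx
    rw [(ODEAN_deriv hU hU1 x).deriv]
    exact (ODEAN_nonpos hn hode x hx).2

/-- the energy at `1` is less than `1` -/
theorem ODEAN_lt {n : ℝ} {U U1 U2 : ℝ → ℝ} (hn : 1 ≤ n) (hU : ∀ r, HasDerivAt U (U1 r) r)
    (hU1 : ∀ r, HasDerivAt U1 (U2 r) r)
    (hode : ∀ r, 0 < r → U2 r + n / r * U1 r + U r = 0) (hU0 : U 0 = 1) (hU10 : U1 0 = 0)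
    (hE1 : ∀ r, 0 ≤ r → U1 r ^ 2 + U r ^ 2 ≤ 1) (c : ℝ) (hc : 0 < c)
    (hUc : ∀ r, 0 ≤ r → r ≤ 1 → U r ≤ 1 - c * r ^ 2) : U1 1 ^ 2 + U 1 ^ 2 < 1 := by
  by_contra hge
  rw [not_lt] at hge
  have hanti := ODEAN_anti hn hU hU1 hode
  have hconst : ∀ r, 0 ≤ r → r ≤ 1 → U1 r ^ 2 + U r ^ 2 = 1 := fun r h0 h1 =>
    le_antisymm (hE1 r h0) (le_trans hge (hanti (Set.mem_Ici.2 h0)
      (Set.mem_Ici.2 zero_le_one) h1))
  have hz : ∀ r, 0 < r → r < 1 → U1 r = 0 := by
    intro r hr hr1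
    have heq : (fun _ : ℝ => (1 : ℝ)) =ᶠ[𝓝 r] (fun x => U1 x ^ 2 + U x ^ 2) := by
      filter_upwards [Ioo_mem_nhds hr hr1] with x hx
      exact (hconst x hx.1.le hx.2.le).symm
    have hd := (ODEAN_deriv hU hU1 r).congr_of_eventuallyEq heq
    have h0 := hd.unique (hasDerivAt_const r (1 : ℝ))
    rw [(ODEAN_nonpos hn hode r hr).1] at h0
    have h1 : 0 < n / r := div_pos (by linarith) hr
    have h2 : U1 r ^ 2 = 0 := by
      by_contra h3
      have : 0 < U1 r ^ 2 := lt_of_le_of_ne (sq_nonneg _) (Ne.symm h3)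
      nlinarith [mul_pos h1 this]
    exact pow_eq_zero_iff (two_ne_zero) |>.1 h2
  have hcst := constant_of_has_deriv_right_zero (f := U) (a := 0) (b := 1 / 2)
    (fun x _ => (hU x).continuousAt.continuousWithinAt) (fun x hx => by
      have h0 : U1 x = 0 := by
        rcases eq_or_lt_of_le hx.1 with h | h
        · rw [← h]; exact hU10
        · exact hz x h (by linarith [hx.2])
      have := hU x
      rw [h0] at this
      exact this.hasDerivWithinAt) (1 / 2) ⟨by norm_num, le_rfl⟩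
  rw [hU0] at hcst
  have h5 := hUc (1 / 2) (by norm_num) (by norm_num)
  rw [hcst] at h5
  nlinarith

/-- the derivative of the second quantity -/
theorem ODEAN_G {U U1 U2 : ℝ → ℝ} (n : ℝ) (hU : ∀ r, HasDerivAt U (U1 r) r)
    (hU1 : ∀ r, HasDerivAt U1 (U2 r) r) (r : ℝ) (hr : r ≠ 0) :
    HasDerivAt (fun x => (x * (U1 x ^ 2 + U x ^ 2) + U x * U1 x) * Real.exp (n / x))
      (((U1 r ^ 2 + U r ^ 2) + r * (2 * U1 r * U2 r + 2 * U r * U1 r) +
        (U1 r * U1 r + U r * U2 r)) * Real.exp (n / r) +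
        (r * (U1 r ^ 2 + U r ^ 2) + U r * U1 r) * (Real.exp (n / r) * (-(n / r ^ 2)))) r := by
  have h1 := (hasDerivAt_id r).mul (ODEAN_deriv hU hU1 r)
  have h2 := (hU r).mul (hU1 r)
  have h3 : HasDerivAt (fun x : ℝ => n / x) (-(n / r ^ 2)) r := by
    have := (hasDerivAt_inv hr).const_mul n
    refine (this.congr_deriv ?_).congr_of_eventuallyEq ?_
    · ring
    · exact Eventually.of_forall (fun x => by simp [div_eq_mul_inv])
  have h4 := (h1.add h2).mul h3.exp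
  refine h4.congr_deriv ?_
  simp

theorem ODEAN_decay {n : ℝ} {U U1 U2 : ℝ → ℝ} (hn : 1 ≤ n) (hU : ∀ r, HasDerivAt U (U1 r) r)
    (hU1 : ∀ r, HasDerivAt U1 (U2 r) r)
    (hode : ∀ r, 0 < r → U2 r + n / r * U1 r + U r = 0)
    (hE1 : ∀ r, 0 ≤ r → U1 r ^ 2 + U r ^ 2 ≤ 1) (r : ℝ) (hr : 1 ≤ r) :
    U r ^ 2 ≤ 4 * Real.exp n / r := by
  have hanti : AntitoneOn
      (fun x => (x * (U1 x ^ 2 + U x ^ 2) + U x * U1 x) * Real.exp (n / x)) (Set.Ici 1) := by
    apply antitoneOn_of_deriv_nonpos (convex_Ici 1)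
    · intro x hx
      have hx0 : x ≠ 0 := by have := Set.mem_Ici.1 hx; linarith
      exact (ODEAN_G n hU hU1 x hx0).continuousAt.continuousWithinAt
    · intro x hx
      rw [interior_Ici] at hx
      have hx0 : x ≠ 0 := by have := Set.mem_Ioi.1 hx; linarith
      exact (ODEAN_G n hU hU1 x hx0).differentiableAt.differentiableWithinAt
    · intro x hx
      rw [interior_Ici] at hx
      have hx1 : 1 < x := hx
      have hx0 : x ≠ 0 := by linarith
      have hxp : 0 < x := by linarith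
      rw [(ODEAN_G n hU hU1 x hx0).deriv]
      have h := hode x hxp
      have h2 : U2 x = -(n / x * U1 x) - U x := by linarith
      rw [h2]
      set a := U x
      set b := U1 x
      set e := Real.exp (n / x) with he
      have he0 : 0 < e := Real.exp_pos _
      have key : (b ^ 2 + a ^ 2 + x * (2 * b * (-(n / x * b) - a) + 2 * a * b) +
          (b * b + a * (-(n / x * b) - a))) + (x * (b ^ 2 + a ^ 2) + a * b) * (-(n / x ^ 2)) ≤ 0 := by
        have e1 : b ^ 2 + a ^ 2 + x * (2 * b * (-(n / x * b) - a) + 2 * a * b) +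
          (b * b + a * (-(n / x * b) - a)) = (2 - 2 * n) * b ^ 2 - n / x * (a * b) := by
          field_simp
          ring
        have e2 : (x * (b ^ 2 + a ^ 2) + a * b) * (-(n / x ^ 2)) =
            -(n / x * (b ^ 2 + a ^ 2)) - n / x ^ 2 * (a * b) := by
          field_simp
          ring
        rw [e1, e2]
        have f1 : (2 - 2 * n) * b ^ 2 ≤ 0 :=
          mul_nonpos_of_nonpos_of_nonneg (by linarith) (sq_nonneg b)
        have f2 : -(a * b) ≤ (b ^ 2 + a ^ 2) / 2 := by nlinarith [sq_nonneg (a + b)]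
        have f3 : 0 < n / x := div_pos (by linarith) hxp
        have f4 : n / x ^ 2 ≤ n / x := by
          apply div_le_div_of_nonneg_left (by linarith) hxp
          nlinarith
        have f5 : 0 < n / x ^ 2 := div_pos (by linarith) (by positivity)
        have f6 : n / x * (-(a * b)) ≤ n / x * ((b ^ 2 + a ^ 2) / 2) :=
          mul_le_mul_of_nonneg_left f2 f3.le
        have f7 : n / x ^ 2 * (-(a * b)) ≤ n / x ^ 2 * ((b ^ 2 + a ^ 2) / 2) :=
          mul_le_mul_of_nonneg_left f2 f5.le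
        have f8 : n / x ^ 2 * ((b ^ 2 + a ^ 2) / 2) ≤ n / x * ((b ^ 2 + a ^ 2) / 2) :=
          mul_le_mul_of_nonneg_right f4 (by positivity)
        nlinarith
      have := mul_nonpos_of_nonneg_of_nonpos he0.le key
      nlinarith
  have h := hanti (Set.mem_Ici.2 le_rfl) (Set.mem_Ici.2 hr) hr
  simp only [one_mul, div_one] at h
  have hr0 : 0 < r := by linarith
  have e1 := hE1 1 zero_le_one
  have e2 : U 1 * U1 1 ≤ 1 := by nlinarith [sq_nonneg (U 1 - U1 1)]
  have e3 : (U1 1 ^ 2 + U 1 ^ 2 + U 1 * U1 1) * Real.exp n ≤ 2 * Real.exp n :=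
    mul_le_mul_of_nonneg_right (by linarith) (Real.exp_pos _).le
  have e4 : 1 ≤ Real.exp (n / r) := Real.one_le_exp (div_nonneg (by linarith) hr0.le)
  have e5 : r / 2 * U r ^ 2 ≤ r * (U1 r ^ 2 + U r ^ 2) + U r * U1 r := by
    nlinarith [sq_nonneg (U r + U1 r), sq_nonneg (U r), sq_nonneg (U1 r),
      mul_nonneg (by linarith : 0 ≤ r - 1) (sq_nonneg (U r)),
      mul_nonneg (by linarith : 0 ≤ r - 1) (sq_nonneg (U1 r))]
  have e6 : 0 ≤ r * (U1 r ^ 2 + U r ^ 2) + U r * U1 r :=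
    le_trans (by positivity) e5
  have e7 : r * (U1 r ^ 2 + U r ^ 2) + U r * U1 r ≤
      (r * (U1 r ^ 2 + U r ^ 2) + U r * U1 r) * Real.exp (n / r) := le_mul_of_one_le_right e6 e4
  rw [le_div_iff₀ hr0]
  nlinarith

theorem tODEAN : T_ODEAN := by
  intro n U U1 U2 hn hU hU1 _ hode hU0 hU10
  have hanti := ODEAN_anti hn hU hU1 hode
  have hE1 : ∀ r, 0 ≤ r → U1 r ^ 2 + U r ^ 2 ≤ 1 := by
    intro r hr
    have := hanti (Set.mem_Ici.2 le_rfl) (Set.mem_Ici.2 hr) hr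
    simp only at this
    rw [hU0, hU10] at this
    linarith
  refine ⟨?_, ?_⟩
  · intro c hc hUc
    have hlt := ODEAN_lt hn hU hU1 hode hU0 hU10 hE1 c hc hUc
    have hs0 : 0 ≤ U1 1 ^ 2 + U 1 ^ 2 := by positivity
    have hsq : √(U1 1 ^ 2 + U 1 ^ 2) < 1 := by
      rw [Real.sqrt_lt' one_pos]
      linarith
    refine ⟨min (1 / 2) (1 - √(U1 1 ^ 2 + U 1 ^ 2)), lt_min (by norm_num) (by linarith),
      lt_of_le_of_lt (min_le_left _ _) (by norm_num), ?_⟩
    intro r hr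
    have h1 := hanti (Set.mem_Ici.2 zero_le_one) (Set.mem_Ici.2 (le_trans zero_le_one hr)) hr
    simp only at h1
    have h2 : |U r| ≤ √(U1 1 ^ 2 + U 1 ^ 2) := by
      rw [← Real.sqrt_sq_eq_abs]
      apply Real.sqrt_le_sqrt
      nlinarith [sq_nonneg (U1 r)]
    have h3 := min_le_right (1 / 2) (1 - √(U1 1 ^ 2 + U 1 ^ 2))
    linarith
  · have hC : 0 < 8 * Real.exp n := by positivity
    refine ⟨√(8 * Real.exp n), Real.sqrt_pos.2 hC, ?_⟩
    intro r hr
    have h1r : 0 < 1 + r := by linarith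
    have hsq : (1 + r) ^ (-(1 / 2) : ℝ) = (√(1 + r))⁻¹ := by
      rw [Real.rpow_neg h1r.le, Real.sqrt_eq_rpow]
    rw [hsq, ← div_eq_mul_inv, ← Real.sqrt_div hC.le, ← Real.sqrt_sq_eq_abs]
    apply Real.sqrt_le_sqrt
    rw [le_div_iff₀ h1r]
    rcases le_total 1 r with h | h
    · have h2 := ODEAN_decay hn hU hU1 hode hE1 r h
      rw [le_div_iff₀ (by linarith : (0 : ℝ) < r)] at h2
      nlinarith [sq_nonneg (U r), mul_nonneg (sq_nonneg (U r)) (by linarith : 0 ≤ r - 1)]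
    · have h2 : U r ^ 2 ≤ 1 := by nlinarith [hE1 r hr, sq_nonneg (U1 r)]
      have h3 : 1 ≤ Real.exp n := Real.one_le_exp (by linarith)
      nlinarith [sq_nonneg (U r)]

end Pool.Agent.ExpMax
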