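import Mathlib
import Pool.Agent.ExpMax.Targets

set_option autoImplicit false

/-!
# Orthogonality for a radial weight
-/

noncomputable section

open MeasureTheory Set Filter
open scoped ENNReal RealInnerProductSpace Topology Pointwise

namespace Pool.Agent.ExpMax

section

variable {F : Type} [NormedAddCommGroup F] [InnerProductSpace ℝ F] [FiniteDimensional ℝ F]
    [MeasurableSpace F] [BorelSpace F]

/-- The kernel of the extension. -/
def ORTH_ker (ω y : F) : ℂ := Complex.exp (-(Complex.I * ((⟪ω, y⟫ : ℝ) : ℂ)))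

omit [FiniteDimensional ℝ F] [MeasurableSpace F] [BorelSpace F] in
lemma ORTH_norm_ker (ω y : F) : ‖ORTH_ker ω y‖ = 1 := by
  unfold ORTH_ker
  rw [Complex.norm_exp]
  simp

omit [FiniteDimensional ℝ F] [MeasurableSpace F] [BorelSpace F] in
lemma ORTH_continuous_ker : Continuous (fun z : F × F => ORTH_ker z.1 z.2) := by
  unfold ORTH_ker
  fun_prop

/-- The Fourier transform of an even radial weight has the same value at all unit vectors. -/
lemma ORTH_const (w : F → ℝ) (hrad : ∀ y y' : F, ‖y‖ = ‖y'‖ → w y = w y') (a b : F)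
    (hab : ‖a‖ = ‖b‖) :
    ∫ y : F, (w y : ℂ) * ORTH_ker a y = ∫ y : F, (w y : ℂ) * ORTH_ker b y := by
  set R : F ≃ₗᵢ[ℝ] F := (ℝ ∙ (a - b))ᗮ.reflection with hR
  have hRa : R a = b := Submodule.reflection_sub hab
  rw [← (R.measurePreserving).integral_comp R.toHomeomorph.measurableEmbedding
    (fun y : F => (w y : ℂ) * ORTH_ker b y)]
  refine integral_congr_ae (ae_of_all _ fun y => ?_)
  dsimp only
  rw [hrad (R y) y (R.norm_map y), ← hRa]
  unfold ORTH_ker
  rw [R.inner_map_map]

end

/-- ORTH (deps INV BASIC) -/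
theorem tORTH (hI : T_INV) (hB : T_BASIC) : T_ORTH := by
  intro F _ _ _ _ _ hF s hs hint g hg hg0
  obtain ⟨hP, -⟩ := hI F hF
  obtain ⟨-, hcont, hrad, -, -, -, -⟩ := hB F hF
  set w : F → ℝ := fun y => |u0 y| ^ (s - 1) * u0 y with hw
  have hwrad : ∀ y y' : F, ‖y‖ = ‖y'‖ → w y = w y' := by
    intro y y' hyy
    simp only [hw]
    rw [hrad y y' hyy]
  have hwm : Measurable w := by
    simp only [hw]
    exact (hcont.measurable.abs.pow_const _).mul hcont.measurable
  have hwnorm : ∀ y, ‖w y‖ = |u0 y| ^ s := by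
    intro y
    simp only [hw]
    rw [norm_mul, Real.norm_eq_abs, Real.norm_eq_abs, Real.abs_rpow_of_nonneg (abs_nonneg _),
      abs_abs]
    by_cases h0 : u0 y = 0
    · rw [h0, abs_zero, mul_zero, Real.zero_rpow (by linarith)]
    · have hpos : 0 < |u0 y| := abs_pos.mpr h0
      nth_rewrite 2 [← Real.rpow_one |u0 y|]
      rw [← Real.rpow_add hpos]
      congr 1
      ring
  have hwint : Integrable w := by
    refine (integrable_norm_iff hwm.aestronglyMeasurable).mp ?_
    refine hint.congr (ae_of_all _ fun y => ?_)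
    exact (hwnorm y).symm
  -- integrability on the product
  have hprod : Integrable (fun z : F × Metric.sphere (0 : F) 1 =>
      ((w z.1 : ℂ) * g z.2) * ORTH_ker (z.2 : F) z.1) ((volume : Measure F).prod (prb F)) := by
    refine (hwint.ofReal.mul_prod hg).mul_bdd (c := 1) ?_ (ae_of_all _ fun z => ?_)
    · refine Continuous.aestronglyMeasurable ?_
      exact ORTH_continuous_ker.comp
        ((continuous_subtype_val.comp continuous_snd).prodMk continuous_fst)
    · exact (ORTH_norm_ker _ _).le
  have hswap := integral_integral_swap (f := fun (y : F) (ω : Metric.sphere (0 : F) 1) =>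
      ((w y : ℂ) * g ω) * ORTH_ker (ω : F) y) (μ := (volume : Measure F)) (ν := prb F) hprod
  have hleft : ∀ y : F, ∫ ω, ((w y : ℂ) * g ω) * ORTH_ker (ω : F) y ∂(prb F) =
      (w y : ℂ) * Ext g y := by
    intro y
    unfold Ext
    rw [← integral_const_mul]
    refine integral_congr_ae (ae_of_all _ fun ω => ?_)
    simp only [ORTH_ker]
    ring
  have : Nontrivial F := Module.nontrivial_of_finrank_pos (R := ℝ) (by omega)
  obtain ⟨e, he⟩ : ∃ e : F, ‖e‖ = 1 := exists_norm_eq F zero_le_one
  have hright : ∀ ω : Metric.sphere (0 : F) 1,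
      ∫ y : F, ((w y : ℂ) * g ω) * ORTH_ker (ω : F) y =
        (∫ y : F, (w y : ℂ) * ORTH_ker e y) * g ω := by
    intro ω
    rw [ORTH_const w hwrad e (ω : F) (by rw [he, norm_eq_of_mem_sphere ω]), ← integral_mul_const]
    refine integral_congr_ae (ae_of_all _ fun y => ?_)
    dsimp only
    ring
  simp only [hleft, hright] at hswap
  rw [integral_const_mul, hg0, mul_zero] at hswap
  have hint2 : Integrable (fun y : F => (w y : ℂ) * Ext g y) := by
    refine (hprod.integral_prod_left).congr (ae_of_all _ fun y => ?_)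
    exact hleft y
  have hre := integral_re hint2
  rw [hswap] at hre
  have hgoal : ∀ y : F, |u0 y| ^ (s - 1) * u0 y * (Ext g y).re =
      RCLike.re ((w y : ℂ) * Ext g y) := by
    intro y
    simp [hw]
  simp only [hgoal]
  rw [hre]
  simp

end Pool.Agent.ExpMax
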