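import Pool.Agent.ExpMax.Targets

set_option autoImplicit false

noncomputable section

open MeasureTheory Set Filter
open scoped ENNReal RealInnerProductSpace Topology

namespace Pool.Agent.ExpMax

/-- tangent line inequality for the power function -/
theorem PTW_tangent {a b s : ℝ} (ha : 0 ≤ a) (hb : 0 ≤ b) (hs : 1 ≤ s) :
    a ^ s - b ^ s ≤ s * a ^ (s - 1) * (a - b) := by
  rcases ha.eq_or_lt with h | h
  · rw [← h]
    rcases hs.eq_or_lt with h1 | h1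
    · rw [← h1]; simp
    · rw [Real.zero_rpow (by linarith), Real.zero_rpow (by linarith)]
      have := Real.rpow_nonneg hb s
      linarith
  · have h1 := one_add_mul_self_le_rpow_one_add (s := (b - a) / a)
      (by rw [le_div_iff₀ h]; linarith) hs
    have h2 : 1 + (b - a) / a = b / a := by field_simp; ring
    rw [h2, Real.div_rpow hb h.le] at h1
    have h3 : 0 < a ^ s := Real.rpow_pos_of_pos h s
    rw [le_div_iff₀ h3] at h1
    have h4 : a ^ s = a ^ (s - 1) * a := by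
      rw [← Real.rpow_add_one h.ne']; ring_nf
    have h5 : (1 + s * ((b - a) / a)) * a ^ s = a ^ s + s * a ^ (s - 1) * (b - a) := by
      rw [h4]; field_simp
    rw [h5] at h1
    linarith

theorem PTW_diff {x y s : ℝ} (hx : 0 ≤ x) (hy : 0 ≤ y) (hs : 1 ≤ s) :
    (x ^ s - y ^ s) * (x - y) ≤ s * (max x y) ^ (s - 1) * (x - y) ^ 2 := by
  rcases le_total x y with h | h
  · rw [max_eq_right h]
    have h1 := PTW_tangent hy hx hs
    nlinarith
  · rw [max_eq_left h]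
    have h1 := PTW_tangent hx hy hs
    nlinarith

theorem PTW_real {x y r : ℝ} (hx : 0 ≤ x) (hy : 0 ≤ y) (hr : 2 ≤ r) :
    x ^ r ≤ y ^ r + r * y ^ (r - 1) * (x - y) +
      r * (r - 1) * (max x y) ^ (r - 2) * (x - y) ^ 2 := by
  have h1 := PTW_tangent hx hy (by linarith : (1 : ℝ) ≤ r)
  have h2 := PTW_diff hx hy (by linarith : (1 : ℝ) ≤ r - 1)
  have h3 : r - 1 - 1 = r - 2 := by ring
  rw [h3] at h2
  have h4 : r * ((x ^ (r - 1) - y ^ (r - 1)) * (x - y)) ≤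
      r * ((r - 1) * (max x y) ^ (r - 2) * (x - y) ^ 2) := by gcongr
  nlinarith

theorem tPTW : T_PTW := by
  intro p B v hp
  have hx : (0 : ℝ) ≤ ‖(B : ℂ) + v‖ ^ 2 := by positivity
  have hy : (0 : ℝ) ≤ |B| ^ 2 := by positivity
  have key := PTW_real hx hy (by linarith : (2 : ℝ) ≤ p / 2)
  have hsq : ∀ (a s : ℝ), 0 ≤ a → (a ^ 2) ^ s = a ^ (2 * s) := by
    intro a s ha
    rw [← Real.rpow_natCast a 2, ← Real.rpow_mul ha]
    norm_num
  have e1 : (‖(B : ℂ) + v‖ ^ 2) ^ (p / 2) = ‖(B : ℂ) + v‖ ^ p := by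
    rw [hsq _ _ (norm_nonneg _)]; ring_nf
  have e2 : (|B| ^ 2) ^ (p / 2) = |B| ^ p := by
    rw [hsq _ _ (abs_nonneg _)]; ring_nf
  have e3 : (|B| ^ 2) ^ (p / 2 - 1) = |B| ^ (p - 2) := by
    rw [hsq _ _ (abs_nonneg _)]; ring_nf
  have e4 : (max (‖(B : ℂ) + v‖ ^ 2) (|B| ^ 2)) ^ (p / 2 - 2) =
      (max |B| ‖(B : ℂ) + v‖) ^ (p - 4) := by
    have : max (‖(B : ℂ) + v‖ ^ 2) (|B| ^ 2) = (max |B| ‖(B : ℂ) + v‖) ^ 2 := by
      rcases le_total |B| ‖(B : ℂ) + v‖ with h | h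
      · rw [max_eq_right h, max_eq_left (by gcongr)]
      · rw [max_eq_left h, max_eq_right (by gcongr)]
    rw [this, hsq _ _ (le_max_of_le_left (abs_nonneg _))]
    ring_nf
  have e5 : ‖(B : ℂ) + v‖ ^ 2 - |B| ^ 2 = 2 * B * v.re + ‖v‖ ^ 2 := by
    rw [sq_abs, ← Complex.normSq_eq_norm_sq, ← Complex.normSq_eq_norm_sq, Complex.normSq_apply,
      Complex.normSq_apply]
    simp
    ring
  rw [e1, e2, e3, e4, e5] at key
  have hM : 0 ≤ (max |B| ‖(B : ℂ) + v‖) ^ (p - 4) := by positivity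
  have h6 : p / 2 * (p / 2 - 1) * (max |B| ‖(B : ℂ) + v‖) ^ (p - 4) *
      (2 * B * v.re + ‖v‖ ^ 2) ^ 2 ≤
      p ^ 2 / 4 * (max |B| ‖(B : ℂ) + v‖) ^ (p - 4) * (2 * B * v.re + ‖v‖ ^ 2) ^ 2 := by
    gcongr
    nlinarith
  unfold Rem
  nlinarith

end Pool.Agent.ExpMax
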