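import Pool.Agent.ExpMax.Targets

set_option autoImplicit false

noncomputable section

open MeasureTheory Set Filter
open scoped ENNReal RealInnerProductSpace Topology

namespace Pool.Agent.ExpMax

/-- common bound for the remainder -/
theorem RFAR_rem {p B M e : ℝ} {V : ℂ} (hp : 4 ≤ p) (hB : |B| ≤ 1) (hM : |B| ≤ M)
    (hM' : ‖(B : ℂ) + V‖ ≤ M) (he : 0 ≤ e) (he1 : e ≤ 1) (hV : ‖V‖ ≤ e) :
    Rem p B V ≤ 3 * p ^ 2 * e ^ 2 * M ^ (p - 4) := by
  have hB0 := abs_nonneg B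
  have hV0 := norm_nonneg V
  have hM0 : 0 ≤ M := hB0.trans hM
  have h1 : |B| ^ (p - 2) ≤ M ^ (p - 4) := by
    calc |B| ^ (p - 2) ≤ |B| ^ (p - 4) := by
          rcases hB0.eq_or_lt with h | h
          · rw [← h, Real.zero_rpow (by linarith)]
            positivity
          · exact Real.rpow_le_rpow_of_exponent_ge h hB (by linarith)
      _ ≤ M ^ (p - 4) := Real.rpow_le_rpow hB0 hM (by linarith)
  have h2 : (max |B| ‖(B : ℂ) + V‖) ^ (p - 4) ≤ M ^ (p - 4) :=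
    Real.rpow_le_rpow (by positivity) (max_le hM hM') (by linarith)
  have h3 : |2 * B * V.re + ‖V‖ ^ 2| ≤ 3 * e := by
    calc |2 * B * V.re + ‖V‖ ^ 2| ≤ |2 * B * V.re| + |‖V‖ ^ 2| := abs_add_le _ _
      _ = 2 * |B| * |V.re| + ‖V‖ ^ 2 := by
          rw [abs_mul, abs_mul, abs_two, abs_of_nonneg (by positivity : 0 ≤ ‖V‖ ^ 2)]
      _ ≤ 2 * 1 * e + e * 1 := by
          have := Complex.abs_re_le_norm V
          have h5 : |V.re| ≤ e := this.trans hV
          have h6 : ‖V‖ ^ 2 ≤ e * 1 := by nlinarith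
          have h7 : 2 * |B| * |V.re| ≤ 2 * 1 * e := by gcongr
          linarith
      _ = 3 * e := by ring
  have h4 : (2 * B * V.re + ‖V‖ ^ 2) ^ 2 ≤ 9 * e ^ 2 := by
    rw [← sq_abs]
    calc |2 * B * V.re + ‖V‖ ^ 2| ^ 2 ≤ (3 * e) ^ 2 := by gcongr
      _ = 9 * e ^ 2 := by ring
  have h5 : 0 ≤ M ^ (p - 4) := by positivity
  unfold Rem
  calc p / 2 * |B| ^ (p - 2) * ‖V‖ ^ 2 +
        p ^ 2 / 4 * (max |B| ‖(B : ℂ) + V‖) ^ (p - 4) * (2 * B * V.re + ‖V‖ ^ 2) ^ 2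
      ≤ p / 2 * M ^ (p - 4) * e ^ 2 + p ^ 2 / 4 * M ^ (p - 4) * (9 * e ^ 2) := by gcongr
    _ = (p / 2 + 9 / 4 * p ^ 2) * (e ^ 2 * M ^ (p - 4)) := by ring
    _ ≤ (3 * p ^ 2) * (e ^ 2 * M ^ (p - 4)) := by
        gcongr
        nlinarith
    _ = 3 * p ^ 2 * e ^ 2 * M ^ (p - 4) := by ring

theorem RFAR_two (a b q : ℝ) (ha : 0 ≤ a) (hb : 0 ≤ b) (hq : 0 ≤ q) :
    (a + b) ^ q ≤ 2 ^ q * (a ^ q + b ^ q) := by
  have h1 : a + b ≤ 2 * max a b := by
    have := le_max_left a b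
    have := le_max_right a b
    linarith
  calc (a + b) ^ q ≤ (2 * max a b) ^ q := Real.rpow_le_rpow (by positivity) h1 hq
    _ = 2 ^ q * (max a b) ^ q := Real.mul_rpow (by norm_num) (by positivity)
    _ ≤ 2 ^ q * (a ^ q + b ^ q) := by
        gcongr
        rcases le_total a b with h | h
        · rw [max_eq_right h]
          have : 0 ≤ a ^ q := by positivity
          linarith
        · rw [max_eq_left h]
          have : 0 ≤ b ^ q := by positivity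
          linarith

theorem tRFAR : T_RFAR := by
  intro κ q p hκ0 hκ1 hq hp m ε U v hm0 hm1 hε0 hε hU hv
  have hU0 := abs_nonneg U
  have hv0 := norm_nonneg v
  have hB : |m * U| ≤ |U| := by
    rw [abs_mul, abs_of_nonneg hm0]
    exact mul_le_of_le_one_left hU0 hm1
  have hV : ‖(ε : ℂ) * v‖ ≤ ε * ‖v‖ := by
    rw [norm_mul, Complex.norm_real, Real.norm_of_nonneg hε0]
  have hV1 : ε * ‖v‖ ≤ ε := mul_le_of_le_one_right hε0 hv
  have hV2 : ε * ‖v‖ ≤ ‖v‖ := mul_le_of_le_one_left hv0 (by linarith)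
  have hBV : ‖((m * U : ℝ) : ℂ) + (ε : ℂ) * v‖ ≤ |U| + ε * ‖v‖ := by
    refine (norm_add_le _ _).trans ?_
    rw [Complex.norm_real, Real.norm_eq_abs]
    linarith
  set M : ℝ := min (1 - κ / 2) (|U| + ‖v‖) with hM
  have hM0 : 0 ≤ M := le_min (by linarith) (by positivity)
  have h1 : |m * U| ≤ M := by
    apply le_min
    · linarith
    · linarith
  have h2 : ‖((m * U : ℝ) : ℂ) + (ε : ℂ) * v‖ ≤ M := by
    apply le_min
    · linarith
    · linarith
  have h3 := RFAR_rem (p := p) (B := m * U) (M := M) (e := ε) (V := (ε : ℂ) * v) (by linarith)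
    (by linarith) h1 h2 hε0 (by linarith) (hV.trans hV1)
  refine h3.trans ?_
  have h4 : M ^ (p - 4) ≤ (1 - κ / 2) ^ (p - 4 - q) * (2 ^ q * (|U| ^ q + ‖v‖ ^ q)) := by
    rcases hM0.eq_or_lt with h | h
    · rw [← h, Real.zero_rpow (by linarith)]
      have : 0 ≤ 1 - κ / 2 := by linarith
      positivity
    · have e : M ^ (p - 4) = M ^ (p - 4 - q) * M ^ q := by
        rw [← Real.rpow_add h]; ring_nf
      rw [e]
      have a1 : M ^ (p - 4 - q) ≤ (1 - κ / 2) ^ (p - 4 - q) :=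
        Real.rpow_le_rpow hM0 (min_le_left _ _) (by linarith)
      have a2 : M ^ q ≤ 2 ^ q * (|U| ^ q + ‖v‖ ^ q) :=
        (Real.rpow_le_rpow hM0 (min_le_right _ _) (by linarith)).trans
          (RFAR_two _ _ q hU0 hv0 (by linarith))
      have : 0 ≤ 1 - κ / 2 := by linarith
      gcongr
  calc 3 * p ^ 2 * ε ^ 2 * M ^ (p - 4)
      ≤ 3 * p ^ 2 * ε ^ 2 * ((1 - κ / 2) ^ (p - 4 - q) * (2 ^ q * (|U| ^ q + ‖v‖ ^ q))) := by
        gcongr
    _ = _ := by ring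

end Pool.Agent.ExpMax
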