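import Pool.Agent.ExpMax.Targets

set_option autoImplicit false

noncomputable section

open MeasureTheory Set Filter
open scoped ENNReal RealInnerProductSpace Topology

namespace Pool.Agent.ExpMax

theorem RNEAR_rem {p B M ε t : ℝ} {V : ℂ} (hp : 4 ≤ p) (hB : |B| ≤ 1) (hM : |B| ≤ M)
    (hM' : ‖(B : ℂ) + V‖ ≤ M) (hV : ‖V‖ ≤ ε * t)
    (hq : |2 * B * V.re + ‖V‖ ^ 2| ≤ 3 * ε * t ^ 2) :
    Rem p B V ≤ ε ^ 2 * M ^ (p - 4) * (p * t ^ 2 / 2 + 9 / 4 * (p * t ^ 2) ^ 2) := by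
  have hB0 := abs_nonneg B
  have hV0 := norm_nonneg V
  have hM0 : 0 ≤ M := hB0.trans hM
  have h1 : |B| ^ (p - 2) ≤ M ^ (p - 4) := by
    calc |B| ^ (p - 2) ≤ |B| ^ (p - 4) := by
          rcases hB0.eq_or_lt with h | h
          · rw [← h, Real.zero_rpow (by linarith)]
            positivity
          · exact Real.rpow_le_rpow_of_exponent_ge h hB (by linarith)
      _ ≤ M ^ (p - 4) := Real.rpow_le_rpow hB0 hM (by linarith)
  have h2 : (max |B| ‖(B : ℂ) + V‖) ^ (p - 4) ≤ M ^ (p - 4) :=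
    Real.rpow_le_rpow (by positivity) (max_le hM hM') (by linarith)
  have h4 : (2 * B * V.re + ‖V‖ ^ 2) ^ 2 ≤ (3 * ε * t ^ 2) ^ 2 := by
    rw [← sq_abs]
    gcongr
  have h5 : 0 ≤ M ^ (p - 4) := by positivity
  unfold Rem
  calc p / 2 * |B| ^ (p - 2) * ‖V‖ ^ 2 +
        p ^ 2 / 4 * (max |B| ‖(B : ℂ) + V‖) ^ (p - 4) * (2 * B * V.re + ‖V‖ ^ 2) ^ 2
      ≤ p / 2 * M ^ (p - 4) * (ε * t) ^ 2 +
        p ^ 2 / 4 * M ^ (p - 4) * (3 * ε * t ^ 2) ^ 2 := by gcongr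
    _ = ε ^ 2 * M ^ (p - 4) * (p * t ^ 2 / 2 + 9 / 4 * (p * t ^ 2) ^ 2) := by ring

theorem RNEAR_poly {c x : ℝ} (hc : 0 < c) (hx : 0 ≤ x) :
    x / 2 + 9 / 4 * x ^ 2 ≤ (2 / c + 72 / c ^ 2) * Real.exp (c / 4 * x) := by
  have hy : 0 ≤ c / 4 * x := by positivity
  have h1 : c / 4 * x ≤ Real.exp (c / 4 * x) := by
    have := Real.add_one_le_exp (c / 4 * x); linarith
  have h2 : (c / 4 * x) ^ 2 / 2 ≤ Real.exp (c / 4 * x) := by
    have := Real.quadratic_le_exp_of_nonneg hy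
    linarith
  have e : (2 / c + 72 / c ^ 2) * Real.exp (c / 4 * x) =
      2 / c * Real.exp (c / 4 * x) + 72 / c ^ 2 * Real.exp (c / 4 * x) := by ring
  rw [e]
  have h3 : x / 2 ≤ 2 / c * Real.exp (c / 4 * x) := by
    calc x / 2 = 2 / c * (c / 4 * x) := by field_simp; ring
      _ ≤ _ := by gcongr
  have h4 : 9 / 4 * x ^ 2 ≤ 72 / c ^ 2 * Real.exp (c / 4 * x) := by
    calc 9 / 4 * x ^ 2 = 72 / c ^ 2 * ((c / 4 * x) ^ 2 / 2) := by field_simp; ring
      _ ≤ _ := by gcongr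
  linarith

theorem RNEAR_ev (a b : ℝ) (k : ℕ) (hb : 0 < b) :
    ∀ᶠ p : ℝ in atTop, a * (Real.log p) ^ k / p ≤ b := by
  have h := (Real.isLittleO_pow_log_id_atTop (n := k)).tendsto_div_nhds_zero
  have h2 := h.const_mul a
  rw [mul_zero] at h2
  filter_upwards [h2.eventually (gt_mem_nhds hb)] with p hp
  rw [mul_div_assoc]
  exact hp.le

theorem RNEAR_alg {p : ℝ} (hp : p ≠ 0) (A B L : ℝ) :
    p ^ 2 * (A * L / p) * (B * L / p) ^ 2 = A * B ^ 2 * L ^ 3 / p := by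
  field_simp

theorem tRNEAR : T_RNEAR := by
  intro c A hc0 hc1 hA
  set A1 : ℝ := 4 * A / c ^ 2 with hA1
  have hA1p : 0 < A1 := by positivity
  clear_value A1
  obtain ⟨p₀, hp₀⟩ := ((RNEAR_ev A 1 1 one_pos).and
    ((RNEAR_ev (A * A1 ^ 2) 1 3 one_pos).and (eventually_ge_atTop (4 : ℝ)))).exists_forall_of_atTop
  refine ⟨Real.exp 8 * (2 / c + 72 / c ^ 2), c / 4, p₀, by positivity, by positivity, ?_⟩
  intro p hp m ε t U v hm0 hm1 hε0 hε ht0 ht1 hU1 hU2 hv1 hvt hvr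
  obtain ⟨g1, g2, g3⟩ := hp₀ p hp
  have hp0 : 0 < p := by linarith
  rw [pow_one] at g1
  have hlog : 0 ≤ Real.log p := Real.log_nonneg (by linarith)
  have hε1 : ε ≤ 1 := by
    have : ε ^ 2 ≤ 1 := hε.trans g1
    nlinarith
  have hU0 : 1 / 2 ≤ U := by nlinarith
  have hUle : U ≤ 1 := by nlinarith [mul_nonneg hc0.le (sq_nonneg t)]
  have hB : |m * U| ≤ U := by
    rw [abs_mul, abs_of_nonneg hm0, abs_of_nonneg (by linarith)]
    exact mul_le_of_le_one_left (by linarith) hm1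
  have hv0 := norm_nonneg v
  have hV : ‖(ε : ℂ) * v‖ = ε * ‖v‖ := by
    rw [norm_mul, Complex.norm_real, Real.norm_of_nonneg hε0]
  have hVt : ‖(ε : ℂ) * v‖ ≤ ε * t := by rw [hV]; gcongr
  have hVre : ((ε : ℂ) * v).re = ε * v.re := by simp
  have hVsq : ‖(ε : ℂ) * v‖ ^ 2 ≤ ε * t ^ 2 := by
    calc ‖(ε : ℂ) * v‖ ^ 2 ≤ (ε * t) ^ 2 := by gcongr
      _ = ε * ε * t ^ 2 := by ring
      _ ≤ 1 * ε * t ^ 2 := by gcongr
      _ = _ := by ring
  have hq : |2 * (m * U) * ((ε : ℂ) * v).re + ‖(ε : ℂ) * v‖ ^ 2| ≤ 3 * ε * t ^ 2 := by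
    calc |2 * (m * U) * ((ε : ℂ) * v).re + ‖(ε : ℂ) * v‖ ^ 2|
        ≤ |2 * (m * U) * ((ε : ℂ) * v).re| + |‖(ε : ℂ) * v‖ ^ 2| := abs_add_le _ _
      _ = 2 * |m * U| * (ε * |v.re|) + ‖(ε : ℂ) * v‖ ^ 2 := by
          rw [abs_mul (2 * (m * U)) _, abs_mul 2 (m * U), abs_two, hVre, abs_mul ε v.re,
            abs_of_nonneg hε0, abs_of_nonneg (by positivity : 0 ≤ ‖(ε : ℂ) * v‖ ^ 2)]
      _ ≤ 2 * 1 * (ε * t ^ 2) + ε * t ^ 2 := by
          have := hB.trans hUle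
          gcongr
      _ = 3 * ε * t ^ 2 := by ring
  -- the main bound on M
  obtain ⟨M, hM1, hM2, hM3⟩ : ∃ M : ℝ, |m * U| ≤ M ∧ ‖((m * U : ℝ) : ℂ) + (ε : ℂ) * v‖ ≤ M ∧
      M ^ (p - 4) ≤ Real.exp 8 * Real.exp (-(c / 2 * (p * t ^ 2))) := by
    by_cases hcase : t ^ 2 ≤ A1 * Real.log p / p
    · refine ⟨U * Real.exp (6 * (ε * t ^ 2)), ?_, ?_, ?_⟩
      · refine hB.trans ?_
        have : 1 ≤ Real.exp (6 * (ε * t ^ 2)) := Real.one_le_exp (by positivity)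
        nlinarith
      · apply abs_le_of_sq_le_sq' _ (by positivity) |>.2
        have e5 : ‖((m * U : ℝ) : ℂ) + (ε : ℂ) * v‖ ^ 2 =
            (m * U) ^ 2 + (2 * (m * U) * ((ε : ℂ) * v).re + ‖(ε : ℂ) * v‖ ^ 2) := by
          rw [← Complex.normSq_eq_norm_sq, ← Complex.normSq_eq_norm_sq, Complex.normSq_apply,
            Complex.normSq_apply]
          simp
          ring
        rw [e5]
        have h6 : (m * U) ^ 2 ≤ U ^ 2 := by
          rw [← sq_abs (m * U)]; gcongr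
        have h7 := (le_abs_self _).trans hq
        have h8 : 1 + 12 * (ε * t ^ 2) ≤ Real.exp (6 * (ε * t ^ 2)) ^ 2 := by
          rw [← Real.exp_nat_mul]
          have := Real.add_one_le_exp (((2 : ℕ) : ℝ) * (6 * (ε * t ^ 2)))
          push_cast at this ⊢
          linarith
        have h9 : 0 ≤ ε * t ^ 2 := by positivity
        calc (m * U) ^ 2 + (2 * (m * U) * ((ε : ℂ) * v).re + ‖(ε : ℂ) * v‖ ^ 2)
            ≤ U ^ 2 + 3 * ε * t ^ 2 := by linarith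
          _ ≤ U ^ 2 * (1 + 12 * (ε * t ^ 2)) := by
              have : 1 / 4 ≤ U ^ 2 := by nlinarith
              nlinarith
          _ ≤ U ^ 2 * Real.exp (6 * (ε * t ^ 2)) ^ 2 := by gcongr
          _ = (U * Real.exp (6 * (ε * t ^ 2))) ^ 2 := by ring
      · have h10 : U ≤ Real.exp (-(c * t ^ 2)) := by
          have := Real.add_one_le_exp (-(c * t ^ 2)); linarith
        have h11 : U * Real.exp (6 * (ε * t ^ 2)) ≤ Real.exp (-(c * t ^ 2) + 6 * (ε * t ^ 2)) := by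
          rw [Real.exp_add]; gcongr
        have h12 : p * ε * t ^ 2 ≤ 1 := by
          have h13 : (p * ε * t ^ 2) ^ 2 ≤ 1 := by
            calc (p * ε * t ^ 2) ^ 2 = p ^ 2 * ε ^ 2 * (t ^ 2) ^ 2 := by ring
              _ ≤ p ^ 2 * (A * Real.log p / p) * (A1 * Real.log p / p) ^ 2 := by gcongr
              _ = A * A1 ^ 2 * Real.log p ^ 3 / p := RNEAR_alg hp0.ne' A A1 (Real.log p)
              _ ≤ 1 := g2
          nlinarith
        calc (U * Real.exp (6 * (ε * t ^ 2))) ^ (p - 4)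
            ≤ Real.exp (-(c * t ^ 2) + 6 * (ε * t ^ 2)) ^ (p - 4) :=
              Real.rpow_le_rpow (by positivity) h11 (by linarith)
          _ = Real.exp ((-(c * t ^ 2) + 6 * (ε * t ^ 2)) * (p - 4)) := by rw [Real.exp_mul]
          _ ≤ Real.exp (8 + -(c / 2 * (p * t ^ 2))) := by
              apply Real.exp_le_exp.2
              have h14 : 0 ≤ ε * t ^ 2 := by positivity
              have h15 : c * t ^ 2 ≤ 1 / 2 := by nlinarith
              have h16 : 0 ≤ c * t ^ 2 * p := by positivity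
              nlinarith
          _ = _ := Real.exp_add _ _
    · push Not at hcase
      have hεt : ε ≤ c / 2 * t := by
        have h1 : ε ^ 2 ≤ (c / 2 * t) ^ 2 := by
          calc ε ^ 2 ≤ A * Real.log p / p := hε
            _ = c ^ 2 / 4 * (A1 * Real.log p / p) := by rw [hA1]; field_simp
            _ ≤ c ^ 2 / 4 * t ^ 2 := by gcongr
            _ = (c / 2 * t) ^ 2 := by ring
        exact abs_le_of_sq_le_sq' h1 (by positivity) |>.2
      have hct : c * t ^ 2 ≤ 1 / 2 := by nlinarith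
      refine ⟨1 - c / 2 * t ^ 2, ?_, ?_, ?_⟩
      · have : 0 ≤ c * t ^ 2 := by positivity
        linarith
      · calc ‖((m * U : ℝ) : ℂ) + (ε : ℂ) * v‖ ≤ |m * U| + ε * t := by
              refine (norm_add_le _ _).trans ?_
              rw [Complex.norm_real, Real.norm_eq_abs]
              linarith
          _ ≤ (1 - c * t ^ 2) + c / 2 * t * t := by
              have := hB.trans hU2
              gcongr
          _ = 1 - c / 2 * t ^ 2 := by ring
      · have h10 : 1 - c / 2 * t ^ 2 ≤ Real.exp (-(c / 2 * t ^ 2)) := by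
          have := Real.add_one_le_exp (-(c / 2 * t ^ 2)); linarith
        calc (1 - c / 2 * t ^ 2) ^ (p - 4) ≤ Real.exp (-(c / 2 * t ^ 2)) ^ (p - 4) :=
              Real.rpow_le_rpow (by linarith) h10 (by linarith)
          _ = Real.exp (-(c / 2 * t ^ 2) * (p - 4)) := by rw [Real.exp_mul]
          _ ≤ Real.exp (8 + -(c / 2 * (p * t ^ 2))) := by
              apply Real.exp_le_exp.2
              nlinarith
          _ = _ := Real.exp_add _ _
  have h20 := RNEAR_rem (p := p) (B := m * U) (M := M) (ε := ε) (t := t) (V := (ε : ℂ) * v) g3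
    (hB.trans hUle) hM1 hM2 hVt hq
  have hx : 0 ≤ p * t ^ 2 := by positivity
  have h21 := RNEAR_poly hc0 hx
  have h22 : 0 ≤ p * t ^ 2 / 2 + 9 / 4 * (p * t ^ 2) ^ 2 := by positivity
  calc Rem p (m * U) ((ε : ℂ) * v)
      ≤ ε ^ 2 * M ^ (p - 4) * (p * t ^ 2 / 2 + 9 / 4 * (p * t ^ 2) ^ 2) := h20
    _ ≤ ε ^ 2 * (Real.exp 8 * Real.exp (-(c / 2 * (p * t ^ 2)))) *
        ((2 / c + 72 / c ^ 2) * Real.exp (c / 4 * (p * t ^ 2))) := by gcongr
    _ = Real.exp 8 * (2 / c + 72 / c ^ 2) * ε ^ 2 *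
        (Real.exp (-(c / 2 * (p * t ^ 2))) * Real.exp (c / 4 * (p * t ^ 2))) := by ring
    _ = Real.exp 8 * (2 / c + 72 / c ^ 2) * ε ^ 2 * Real.exp (-(c / 4 * p * t ^ 2)) := by
        rw [← Real.exp_add]
        congr 2
        ring

end Pool.Agent.ExpMax
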