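import Mathlib
import Pool.Agent.ExpMax.Targets

set_option autoImplicit false

/-!
# Derivative of a rotation
-/

noncomputable section

open MeasureTheory Set Filter
open scoped ENNReal RealInnerProductSpace Topology Pointwise

namespace Pool.Agent.ExpMax

section

variable {F : Type} [NormedAddCommGroup F] [InnerProductSpace ℝ F] [FiniteDimensional ℝ F]
    [MeasurableSpace F] [BorelSpace F]

lemma ROTD_zero (hI : ∀ R : F ≃ₗᵢ[ℝ] F, MeasurePreserving (rot R) (prb F) (prb F))
    (u v : F) (huv : ⟪u, v⟫ = 0) (r : ℝ) :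
    ∫ ω, ⟪(ω : F), v⟫ * Real.sin (r * ⟪(ω : F), u⟫) ∂(prb F) = 0 := by
  set R : F ≃ₗᵢ[ℝ] F := Submodule.reflection (ℝ ∙ v)ᗮ with hR
  have h1 : R v = -v := Submodule.reflection_orthogonalComplement_singleton_eq_neg v
  have h2 : R u = u := by
    apply Submodule.reflection_mem_subspace_eq_self
    rw [Submodule.mem_orthogonal_singleton_iff_inner_left]
    exact huv
  have h3 : ∀ x : F, ⟪R x, v⟫ = -⟪x, v⟫ := by
    intro x
    have h4 : ⟪R x, R (-v)⟫ = ⟪x, -v⟫ := R.inner_map_map x (-v)
    rw [map_neg, h1, neg_neg] at h4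
    rw [h4, inner_neg_right]
  have h5 : ∀ x : F, ⟪R x, u⟫ = ⟪x, u⟫ := by
    intro x
    have h4 : ⟪R x, R u⟫ = ⟪x, u⟫ := R.inner_map_map x u
    rwa [h2] at h4
  have hmeas : AEStronglyMeasurable (fun ω : Metric.sphere (0 : F) 1 =>
      ⟪(ω : F), v⟫ * Real.sin (r * ⟪(ω : F), u⟫)) (prb F) := by
    apply Continuous.aestronglyMeasurable
    fun_prop
  have h6 : ∫ ω, ⟪((rot R ω : Metric.sphere (0 : F) 1) : F), v⟫ *
      Real.sin (r * ⟪((rot R ω : Metric.sphere (0 : F) 1) : F), u⟫) ∂(prb F) =
      ∫ ω, ⟪(ω : F), v⟫ * Real.sin (r * ⟪(ω : F), u⟫) ∂(prb F) := by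
    have h7 := integral_map (hI R).measurable.aemeasurable
      (f := fun ω : Metric.sphere (0 : F) 1 => ⟪(ω : F), v⟫ * Real.sin (r * ⟪(ω : F), u⟫))
      (by rw [(hI R).map_eq]; exact hmeas)
    rw [(hI R).map_eq] at h7
    exact h7.symm
  have h8 : ∀ ω : Metric.sphere (0 : F) 1, ⟪((rot R ω : Metric.sphere (0 : F) 1) : F), v⟫ *
      Real.sin (r * ⟪((rot R ω : Metric.sphere (0 : F) 1) : F), u⟫) =
      -(⟪(ω : F), v⟫ * Real.sin (r * ⟪(ω : F), u⟫)) := by
    intro ω
    have e1 : ((rot R ω : Metric.sphere (0 : F) 1) : F) = R ω := rfl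
    rw [e1, h3, h5]
    ring
  simp only [h8, integral_neg] at h6
  linarith

end

/-- ROTD -/
theorem tROTD (hINV : T_INV) : T_ROTD := by
  intro F _ _ _ _ _ hF e e' he he' hee r
  obtain ⟨hprob, hI⟩ := hINV F hF
  set a : Metric.sphere (0 : F) 1 → ℝ := fun ω => ⟪(ω : F), e⟫ with ha
  set b : Metric.sphere (0 : F) 1 → ℝ := fun ω => ⟪(ω : F), e'⟫ with hb
  have hac : Continuous a := by rw [ha]; fun_prop
  have hbc : Continuous b := by rw [hb]; fun_prop
  have ha1 : ∀ ω, |a ω| ≤ 1 := by
    intro ω
    refine (abs_real_inner_le_norm _ _).trans ?_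
    rw [he]; simp
  have hb1 : ∀ ω, |b ω| ≤ 1 := by
    intro ω
    refine (abs_real_inner_le_norm _ _).trans ?_
    rw [he']; simp
  have hH : ∀ t : ℝ, ∫ ω, (Real.cos t * b ω - Real.sin t * a ω) *
      Real.sin (r * (Real.cos t * a ω + Real.sin t * b ω)) ∂(prb F) = 0 := by
    intro t
    have h := ROTD_zero hI (Real.cos t • e + Real.sin t • e') (Real.cos t • e' - Real.sin t • e)
      (by
        have hee' : ⟪e', e⟫ = 0 := by rw [real_inner_comm]; exact hee
        simp only [inner_add_left, inner_sub_right, inner_smul_left, inner_smul_right, hee, hee',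
          real_inner_self_eq_norm_sq, he, he']
        simp
        ring) r
    simp only [inner_add_right, inner_sub_right, inner_smul_right] at h
    exact h
  have hder : Integrable (fun ω => -(a ω * Real.sin (r * a ω)) +
      r * (b ω ^ 2 * Real.cos (r * a ω))) (prb F) ∧
      HasDerivAt (fun t : ℝ => ∫ ω, (Real.cos t * b ω - Real.sin t * a ω) *
      Real.sin (r * (Real.cos t * a ω + Real.sin t * b ω)) ∂(prb F))
      (∫ ω, (-(a ω * Real.sin (r * a ω)) + r * (b ω ^ 2 * Real.cos (r * a ω))) ∂(prb F)) 0 := by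
    have key := hasDerivAt_integral_of_dominated_loc_of_deriv_le (𝕜 := ℝ) (μ := prb F)
      (F := fun (t : ℝ) ω => (Real.cos t * b ω - Real.sin t * a ω) *
        Real.sin (r * (Real.cos t * a ω + Real.sin t * b ω)))
      (F' := fun (t : ℝ) ω => (-Real.sin t * b ω - Real.cos t * a ω) *
        Real.sin (r * (Real.cos t * a ω + Real.sin t * b ω)) +
        (Real.cos t * b ω - Real.sin t * a ω) *
        (Real.cos (r * (Real.cos t * a ω + Real.sin t * b ω)) *
          (r * (-Real.sin t * a ω + Real.cos t * b ω))))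
      (x₀ := 0) (s := univ) (bound := fun _ => 2 + 4 * |r|) univ_mem ?_ ?_ ?_ ?_ ?_ ?_
    · simpa using (by
        have h0 : (fun ω => (-Real.sin 0 * b ω - Real.cos 0 * a ω) *
            Real.sin (r * (Real.cos 0 * a ω + Real.sin 0 * b ω)) +
            (Real.cos 0 * b ω - Real.sin 0 * a ω) *
            (Real.cos (r * (Real.cos 0 * a ω + Real.sin 0 * b ω)) *
              (r * (-Real.sin 0 * a ω + Real.cos 0 * b ω)))) =
            (fun ω => -(a ω * Real.sin (r * a ω)) + r * (b ω ^ 2 * Real.cos (r * a ω))) := by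
          funext ω
          simp only [Real.sin_zero, Real.cos_zero]
          ring_nf
        rw [h0] at key
        exact key)
    · refine Eventually.of_forall (fun t => Continuous.aestronglyMeasurable ?_)
      fun_prop
    · refine Integrable.of_bound (C := 1) (Continuous.aestronglyMeasurable ?_)
        (Eventually.of_forall (fun ω => ?_))
      · fun_prop
      · simp only [Real.sin_zero, Real.cos_zero, one_mul, zero_mul, sub_zero, add_zero,
          Real.norm_eq_abs, abs_mul]
        calc |b ω| * |Real.sin (r * a ω)| ≤ 1 * 1 :=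
              mul_le_mul (hb1 ω) (Real.abs_sin_le_one _) (abs_nonneg _) zero_le_one
          _ = 1 := by ring
    · apply Continuous.aestronglyMeasurable
      fun_prop
    · refine Eventually.of_forall (fun ω t _ => ?_)
      have hA : ∀ (c s x y : ℝ), |c| ≤ 1 → |s| ≤ 1 → |x| ≤ 1 → |y| ≤ 1 → |c * x + s * y| ≤ 2 := by
        intro c s x y hc hs hx hy
        calc |c * x + s * y| ≤ |c * x| + |s * y| := abs_add_le _ _
          _ = |c| * |x| + |s| * |y| := by rw [abs_mul, abs_mul]
          _ ≤ 1 * 1 + 1 * 1 := add_le_add (mul_le_mul hc hx (abs_nonneg _) zero_le_one)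
              (mul_le_mul hs hy (abs_nonneg _) zero_le_one)
          _ = 2 := by norm_num
      have hc := Real.abs_cos_le_one t
      have hs := Real.abs_sin_le_one t
      have e1 : |(-Real.sin t * b ω - Real.cos t * a ω)| ≤ 2 := by
        have := hA (-Real.sin t) (-Real.cos t) (b ω) (a ω) (by rw [abs_neg]; exact hs)
          (by rw [abs_neg]; exact hc) (hb1 ω) (ha1 ω)
        have e : -Real.sin t * b ω - Real.cos t * a ω = -Real.sin t * b ω + -Real.cos t * a ω := by
          ring
        rw [e]; exact this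
      have e2 : |(Real.cos t * b ω - Real.sin t * a ω)| ≤ 2 := by
        have := hA (Real.cos t) (-Real.sin t) (b ω) (a ω) hc
          (by rw [abs_neg]; exact hs) (hb1 ω) (ha1 ω)
        have e : Real.cos t * b ω - Real.sin t * a ω = Real.cos t * b ω + -Real.sin t * a ω := by
          ring
        rw [e]; exact this
      have e3 : |(-Real.sin t * a ω + Real.cos t * b ω)| ≤ 2 :=
        hA (-Real.sin t) (Real.cos t) (a ω) (b ω) (by rw [abs_neg]; exact hs) hc (ha1 ω) (hb1 ω)
      rw [Real.norm_eq_abs]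
      refine (abs_add_le _ _).trans ?_
      rw [abs_mul, abs_mul, abs_mul, abs_mul]
      have f1 : |(-Real.sin t * b ω - Real.cos t * a ω)| *
          |Real.sin (r * (Real.cos t * a ω + Real.sin t * b ω))| ≤ 2 * 1 :=
        mul_le_mul e1 (Real.abs_sin_le_one _) (abs_nonneg _) (by norm_num)
      have f2 : |r| * |(-Real.sin t * a ω + Real.cos t * b ω)| ≤ |r| * 2 :=
        mul_le_mul_of_nonneg_left e3 (abs_nonneg _)
      have f3 : |Real.cos (r * (Real.cos t * a ω + Real.sin t * b ω))| *
          (|r| * |(-Real.sin t * a ω + Real.cos t * b ω)|) ≤ 1 * (|r| * 2) :=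
        mul_le_mul (Real.abs_cos_le_one _) f2 (by positivity) zero_le_one
      have f4 : |(Real.cos t * b ω - Real.sin t * a ω)| *
          (|Real.cos (r * (Real.cos t * a ω + Real.sin t * b ω))| *
          (|r| * |(-Real.sin t * a ω + Real.cos t * b ω)|)) ≤ 2 * (1 * (|r| * 2)) :=
        mul_le_mul e2 f3 (by positivity) (by norm_num)
      linarith
    · exact integrable_const _
    · refine Eventually.of_forall (fun ω t _ => ?_)
      have d1 : HasDerivAt (fun t : ℝ => Real.cos t * b ω - Real.sin t * a ω)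
          (-Real.sin t * b ω - Real.cos t * a ω) t :=
        ((Real.hasDerivAt_cos t).mul_const _).sub ((Real.hasDerivAt_sin t).mul_const _)
      have d2 : HasDerivAt (fun t : ℝ => r * (Real.cos t * a ω + Real.sin t * b ω))
          (r * (-Real.sin t * a ω + Real.cos t * b ω)) t :=
        (((Real.hasDerivAt_cos t).mul_const _).add ((Real.hasDerivAt_sin t).mul_const _)).const_mul r
      exact d1.mul d2.sin
  have hz : (fun t : ℝ => ∫ ω, (Real.cos t * b ω - Real.sin t * a ω) *
      Real.sin (r * (Real.cos t * a ω + Real.sin t * b ω)) ∂(prb F)) = fun _ => 0 := by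
    funext t; exact hH t
  have hd := hder.2
  rw [hz] at hd
  have h0 := hd.unique (hasDerivAt_const (0 : ℝ) (0 : ℝ))
  have i1 : Integrable (fun ω => a ω * Real.sin (r * a ω)) (prb F) := by
    refine Integrable.of_bound (C := 1) (Continuous.aestronglyMeasurable ?_)
        (Eventually.of_forall (fun ω => ?_))
    · fun_prop
    · rw [Real.norm_eq_abs, abs_mul]
      calc |a ω| * |Real.sin (r * a ω)| ≤ 1 * 1 :=
            mul_le_mul (ha1 ω) (Real.abs_sin_le_one _) (abs_nonneg _) zero_le_one
        _ = 1 := by ring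
  have i2 : Integrable (fun ω => b ω ^ 2 * Real.cos (r * a ω)) (prb F) := by
    refine Integrable.of_bound (C := 1) (Continuous.aestronglyMeasurable ?_)
        (Eventually.of_forall (fun ω => ?_))
    · fun_prop
    · rw [Real.norm_eq_abs, abs_mul, abs_pow]
      calc |b ω| ^ 2 * |Real.cos (r * a ω)| ≤ 1 * 1 :=
            mul_le_mul (pow_le_one₀ (abs_nonneg _) (hb1 ω)) (Real.abs_cos_le_one _)
              (abs_nonneg _) zero_le_one
        _ = 1 := by ring
  have i1' : Integrable (fun ω => -(a ω * Real.sin (r * a ω))) (prb F) := i1.neg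
  rw [integral_add i1' (i2.const_mul r), integral_const_mul, integral_neg] at h0
  linarith

end Pool.Agent.ExpMax
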