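import Pool.Agent.ExpMax.Targets

set_option autoImplicit false

/-!
# The slice formula for the surface measure of the sphere
-/

noncomputable section

open MeasureTheory Set Filter Metric
open scoped ENNReal RealInnerProductSpace Topology

namespace Pool.Agent.ExpMax

/-! ### Polar coordinates -/

section

variable {F : Type} [NormedAddCommGroup F] [InnerProductSpace ℝ F] [FiniteDimensional ℝ F]
    [MeasurableSpace F] [BorelSpace F]

omit [FiniteDimensional ℝ F] [MeasurableSpace F] [BorelSpace F] in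
lemma SLICE_polar_aux (x : ({0}ᶜ : Set F)) :
    ((homeomorphUnitSphereProd F x).2 : ℝ) • ((homeomorphUnitSphereProd F x).1 : F)
      = (x : F) := by
  have h1 := (homeomorphUnitSphereProd F).symm_apply_apply x
  have h2 := homeomorphUnitSphereProd_symm_apply_coe F (homeomorphUnitSphereProd F x)
  rw [h1] at h2
  exact h2.symm

lemma SLICE_polar (hd : 1 ≤ Module.finrank ℝ F) {G : F → ℝ≥0∞} (hG : Measurable G) :
    ∫⁻ x, G x = ∫⁻ r in Ioi (0 : ℝ), ENNReal.ofReal (r ^ (Module.finrank ℝ F - 1)) *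
      ∫⁻ ω, G (r • (ω : F)) ∂((volume : Measure F).toSphere) := by
  have : Nontrivial F := Module.nontrivial_of_finrank_pos (R := ℝ) hd
  have hmp := (volume : Measure F).measurePreserving_homeomorphUnitSphereProd
  have h1 : ∫⁻ x, G x = ∫⁻ x : ({0}ᶜ : Set F), G (x : F)
      ∂((volume : Measure F).comap Subtype.val) := by
    rw [lintegral_subtype_comap (measurableSet_singleton _).compl G, restrict_compl_singleton]
  have hsm : Measurable (fun p : sphere (0 : F) 1 × Ioi (0 : ℝ) => (p.2 : ℝ) • (p.1 : F)) := by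
    fun_prop
  have hG' : Measurable (fun p : sphere (0 : F) 1 × Ioi (0 : ℝ) => G ((p.2 : ℝ) • (p.1 : F))) :=
    hG.comp hsm
  have h2 : ∫⁻ x : ({0}ᶜ : Set F), G (x : F) ∂((volume : Measure F).comap Subtype.val)
      = ∫⁻ p, G ((p.2 : ℝ) • (p.1 : F)) ∂(((volume : Measure F).toSphere).prod
        (Measure.volumeIoiPow (Module.finrank ℝ F - 1))) := by
    rw [← hmp.lintegral_comp hG']
    refine lintegral_congr fun x => ?_
    rw [SLICE_polar_aux]
  have hsm2 : Measurable (fun p : ℝ × sphere (0 : F) 1 => (p.1 : ℝ) • (p.2 : F)) := by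
    fun_prop
  have hin : Measurable (fun r : ℝ => ∫⁻ ω, G (r • (ω : F)) ∂((volume : Measure F).toSphere)) :=
    (hG.comp hsm2).lintegral_prod_right'
  have hdens : Measurable (fun r : Ioi (0 : ℝ) =>
      ENNReal.ofReal ((r : ℝ) ^ (Module.finrank ℝ F - 1))) := by
    fun_prop
  have hin2 : Measurable (fun r : Ioi (0 : ℝ) =>
      ∫⁻ ω, G ((r : ℝ) • (ω : F)) ∂((volume : Measure F).toSphere)) :=
    hin.comp measurable_subtype_coe
  rw [h1, h2, lintegral_prod_symm' _ hG', Measure.volumeIoiPow,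
    lintegral_withDensity_eq_lintegral_mul _ hdens hin2]
  exact lintegral_subtype_comap measurableSet_Ioi
    (fun r : ℝ => ENNReal.ofReal (r ^ (Module.finrank ℝ F - 1)) *
      ∫⁻ ω, G (r • (ω : F)) ∂((volume : Measure F).toSphere))

end

/-! ### The half plane -/

lemma SLICE_pos {h : ℝ} (hh : h ∈ Ioo (-1 : ℝ) 1) : 0 < 1 - h ^ 2 := by
  nlinarith [hh.1, hh.2]

lemma SLICE_deriv (r : ℝ) {h : ℝ} (hh : h ∈ Ioo (-1 : ℝ) 1) :
    HasDerivAt (fun h : ℝ => r * h / √(1 - h ^ 2)) (r * ((√(1 - h ^ 2)) ^ 3)⁻¹) h := by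
  have hp := SLICE_pos hh
  have hs : 0 < √(1 - h ^ 2) := Real.sqrt_pos.mpr hp
  have h1 : HasDerivAt (fun h : ℝ => 1 - h ^ 2) (-(2 * h)) h := by
    simpa using (hasDerivAt_pow 2 h).const_sub 1
  have h2 := h1.sqrt hp.ne'
  have h3 : HasDerivAt (fun h : ℝ => r * h) r h := by
    simpa using (hasDerivAt_id h).const_mul r
  have h4 := h3.div h2 hs.ne'
  refine h4.congr_deriv ?_
  have hsq : √(1 - h ^ 2) ^ 2 = 1 - h ^ 2 := Real.sq_sqrt hp.le
  generalize √(1 - h ^ 2) = s at hs hsq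
  field_simp
  rw [hsq]
  ring

lemma SLICE_inj {r : ℝ} (hr : 0 < r) :
    InjOn (fun h : ℝ => r * h / √(1 - h ^ 2)) (Ioo (-1 : ℝ) 1) := by
  have hmono : StrictMonoOn (fun h : ℝ => r * h / √(1 - h ^ 2)) (Ioo (-1 : ℝ) 1) := by
    refine strictMonoOn_of_deriv_pos (convex_Ioo _ _) ?_ ?_
    · intro h hh
      exact (SLICE_deriv r hh).continuousAt.continuousWithinAt
    · intro h hh
      rw [interior_Ioo] at hh
      rw [(SLICE_deriv r hh).deriv]
      have hs : 0 < √(1 - h ^ 2) := Real.sqrt_pos.mpr (SLICE_pos hh)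
      positivity
  exact hmono.injOn

lemma SLICE_image {r : ℝ} (hr : 0 < r) :
    (fun h : ℝ => r * h / √(1 - h ^ 2)) '' (Ioo (-1 : ℝ) 1) = univ := by
  refine eq_univ_of_forall fun x => ?_
  have hN : 0 < r ^ 2 + x ^ 2 := by positivity
  have hs : 0 < √(r ^ 2 + x ^ 2) := Real.sqrt_pos.mpr hN
  have hsq : √(r ^ 2 + x ^ 2) ^ 2 = r ^ 2 + x ^ 2 := Real.sq_sqrt hN.le
  have hlt : |x| < √(r ^ 2 + x ^ 2) := by
    rw [← Real.sqrt_sq_eq_abs]
    exact Real.sqrt_lt_sqrt (sq_nonneg _) (by nlinarith)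
  refine ⟨x / √(r ^ 2 + x ^ 2), ⟨?_, ?_⟩, ?_⟩
  · rw [lt_div_iff₀ hs]
    linarith [neg_abs_le x]
  · rw [div_lt_one hs]
    linarith [le_abs_self x]
  · have h1 : 1 - (x / √(r ^ 2 + x ^ 2)) ^ 2 = (r / √(r ^ 2 + x ^ 2)) ^ 2 := by
      field_simp
      rw [hsq]
      ring
    show r * (x / √(r ^ 2 + x ^ 2)) / √(1 - (x / √(r ^ 2 + x ^ 2)) ^ 2) = x
    rw [h1, Real.sqrt_sq (by positivity)]
    field_simp

lemma SLICE_step1 {r : ℝ} (hr : 0 < r) (g : ℝ → ℝ≥0∞) :
    ∫⁻ x, g x = ∫⁻ h in Ioo (-1 : ℝ) 1,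
      ENNReal.ofReal (r * ((√(1 - h ^ 2)) ^ 3)⁻¹) * g (r * h / √(1 - h ^ 2)) := by
  have h1 := lintegral_image_eq_lintegral_abs_deriv_mul measurableSet_Ioo
    (fun h hh => (SLICE_deriv r hh).hasDerivWithinAt) (SLICE_inj hr) g
  rw [SLICE_image hr, Measure.restrict_univ] at h1
  rw [h1]
  refine setLIntegral_congr_fun measurableSet_Ioo fun h hh => ?_
  have hs : 0 < √(1 - h ^ 2) := Real.sqrt_pos.mpr (SLICE_pos hh)
  rw [abs_of_pos (by positivity)]

lemma SLICE_step3 {c : ℝ} (hc : 0 < c) (φ : ℝ → ℝ≥0∞) :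
    ∫⁻ r in Ioi (0 : ℝ), φ r = ∫⁻ R in Ioi (0 : ℝ), ENNReal.ofReal c * φ (c * R) := by
  have himg : (fun R : ℝ => c * R) '' Ioi (0 : ℝ) = Ioi 0 := by
    ext x
    constructor
    · rintro ⟨y, hy, rfl⟩
      exact mul_pos hc hy
    · intro hx
      exact ⟨x / c, div_pos hx hc, mul_div_cancel₀ _ hc.ne'⟩
  have h1 := lintegral_image_eq_lintegral_abs_deriv_mul (s := Ioi (0 : ℝ))
    (f := fun R : ℝ => c * R) (f' := fun _ => c) measurableSet_Ioi
    (fun h _ => by simpa using ((hasDerivAt_id h).const_mul c).hasDerivWithinAt)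
    (fun a _ b _ hab => mul_left_cancel₀ hc.ne' hab) φ
  rw [himg, abs_of_pos hc] at h1
  exact h1

lemma SLICE_pow {d : ℕ} (hd : 1 ≤ d) {h R : ℝ} (hh : h ∈ Ioo (-1 : ℝ) 1) :
    √(1 - h ^ 2) * ((√(1 - h ^ 2) * R) ^ (d - 1) *
      (√(1 - h ^ 2) * R * ((√(1 - h ^ 2)) ^ 3)⁻¹)) =
      R ^ d * (1 - h ^ 2) ^ (((d : ℝ) - 2) / 2) := by
  have hp := SLICE_pos hh
  have hs : 0 < √(1 - h ^ 2) := Real.sqrt_pos.mpr hp
  obtain ⟨k, rfl⟩ : ∃ k, d = k + 1 := ⟨d - 1, by omega⟩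
  have h2 : (1 - h ^ 2) ^ ((((k + 1 : ℕ) : ℝ) - 2) / 2) =
      √(1 - h ^ 2) ^ (k + 1) * (√(1 - h ^ 2) ^ 2)⁻¹ := by
    have h3 : 1 - h ^ 2 = √(1 - h ^ 2) ^ 2 := (Real.sq_sqrt hp.le).symm
    conv_lhs => rw [h3]
    generalize √(1 - h ^ 2) = s at hs
    rw [← Real.rpow_natCast s 2, ← Real.rpow_mul hs.le,
      show ((2 : ℕ) : ℝ) * ((((k + 1 : ℕ) : ℝ) - 2) / 2) = ((k + 1 : ℕ) : ℝ) - (2 : ℕ) by
        push_cast; ring, Real.rpow_sub hs, Real.rpow_natCast, div_eq_mul_inv]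
  rw [h2, Nat.add_sub_cancel]
  generalize √(1 - h ^ 2) = s at hs
  field_simp
  ring

lemma SLICE_plane {d : ℕ} (hd : 1 ≤ d) {g : ℝ × ℝ → ℝ≥0∞} (hg : Measurable g) :
    ∫⁻ r in Ioi (0 : ℝ), ENNReal.ofReal (r ^ (d - 1)) * ∫⁻ x, g (x, r) =
      ∫⁻ h in Ioo (-1 : ℝ) 1, ∫⁻ R in Ioi (0 : ℝ),
        ENNReal.ofReal (R ^ d) * ENNReal.ofReal ((1 - h ^ 2) ^ (((d : ℝ) - 2) / 2)) *
          g (R * h, R * √(1 - h ^ 2)) := by
  have e1 : ∫⁻ r in Ioi (0 : ℝ), ENNReal.ofReal (r ^ (d - 1)) * ∫⁻ x, g (x, r) =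
      ∫⁻ r in Ioi (0 : ℝ), ∫⁻ h in Ioo (-1 : ℝ) 1, ENNReal.ofReal (r ^ (d - 1)) *
        (ENNReal.ofReal (r * ((√(1 - h ^ 2)) ^ 3)⁻¹) * g (r * h / √(1 - h ^ 2), r)) := by
    refine setLIntegral_congr_fun measurableSet_Ioi fun r hr => ?_
    rw [SLICE_step1 hr (fun x => g (x, r)), lintegral_const_mul]
    refine Measurable.mul (by fun_prop) (hg.comp ?_)
    fun_prop
  rw [e1, lintegral_lintegral_swap]
  · refine setLIntegral_congr_fun measurableSet_Ioo fun h hh => ?_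
    have hs : 0 < √(1 - h ^ 2) := Real.sqrt_pos.mpr (SLICE_pos hh)
    rw [SLICE_step3 hs]
    refine setLIntegral_congr_fun measurableSet_Ioi fun R hR => ?_
    have hR' : 0 < R := hR
    have e2 : √(1 - h ^ 2) * R * h / √(1 - h ^ 2) = R * h := by
      field_simp
    rw [e2, ← mul_assoc, ← mul_assoc, ← ENNReal.ofReal_mul hs.le,
      ← ENNReal.ofReal_mul (by positivity), ← ENNReal.ofReal_mul (by positivity),
      mul_assoc (√(1 - h ^ 2)), SLICE_pow hd hh, mul_comm (√(1 - h ^ 2)) R]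
  · refine Measurable.aemeasurable ?_
    refine Measurable.mul (by fun_prop) (Measurable.mul (by fun_prop) (hg.comp ?_))
    fun_prop

/-! ### The main computation -/

lemma SLICE_finrank (d : ℕ) : Module.finrank ℝ (Fd d) = d + 1 := by
  rw [(WithLp.linearEquiv 2 ℝ (ℝ × Ed d)).finrank_eq]
  simp [Module.finrank_prod]
  ring

lemma SLICE_norm {d : ℕ} (h R : ℝ) (hh : h ∈ Ioo (-1 : ℝ) 1) (hR : 0 < R)
    (w : sphere (0 : Ed d) 1) :
    ‖(WithLp.toLp 2 (R * h, (R * √(1 - h ^ 2)) • (w : Ed d)) : Fd d)‖ = R := by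
  have hp := SLICE_pos hh
  have hw : ‖(w : Ed d)‖ = 1 := by simp
  rw [WithLp.prod_norm_eq_of_L2]
  change √(‖R * h‖ ^ 2 + ‖(R * √(1 - h ^ 2)) • (w : Ed d)‖ ^ 2) = R
  simp only [norm_smul, hw, Real.norm_eq_abs, mul_one, sq_abs]
  rw [mul_pow, mul_pow, Real.sq_sqrt hp.le, ← mul_add]
  rw [show h ^ 2 + (1 - h ^ 2) = 1 by ring, mul_one, Real.sqrt_sq hR.le]

/-- The function used for the comparison. -/
def SLICE_G {d : ℕ} (B : Set (ℝ × Ed d)) (x : Fd d) : ℝ≥0∞ :=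
  (ball (0 : Fd d) 1).indicator 1 x *
    B.indicator 1 ((‖x‖⁻¹ • x).fst, (‖x‖⁻¹ • x).snd)

lemma SLICE_G_meas {d : ℕ} {B : Set (ℝ × Ed d)} (hB : MeasurableSet B) :
    Measurable (SLICE_G B) := by
  unfold SLICE_G
  refine Measurable.mul (measurable_one.indicator measurableSet_ball) ?_
  refine (measurable_one.indicator hB).comp ?_
  have h1 : Measurable (fun x : Fd d => ‖x‖⁻¹ • x) := by fun_prop
  exact (WithLp.measurable_ofLp 2 (ℝ × Ed d)).comp h1

lemma SLICE_G_polar {d : ℕ} (B : Set (ℝ × Ed d)) {R : ℝ} (hR : 0 < R)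
    (w : sphere (0 : Fd d) 1) :
    SLICE_G B (R • (w : Fd d)) = (Iio (1 : ℝ)).indicator 1 R *
      B.indicator 1 ((w : Fd d).fst, (w : Fd d).snd) := by
  have hw : ‖(w : Fd d)‖ = 1 := by simp
  have h1 : ‖R • (w : Fd d)‖ = R := by
    rw [norm_smul, hw, Real.norm_eq_abs, abs_of_pos hR, mul_one]
  unfold SLICE_G
  rw [h1, smul_smul, inv_mul_cancel₀ hR.ne', one_smul]
  congr 1
  by_cases h : R < 1
  · rw [indicator_of_mem (by simpa [h1] using h), indicator_of_mem (show R ∈ Iio (1 : ℝ) from h)]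
    rfl
  · rw [indicator_of_notMem (by simpa [h1] using h),
      indicator_of_notMem (show R ∉ Iio (1 : ℝ) from h)]

lemma SLICE_G_cyl {d : ℕ} (B : Set (ℝ × Ed d)) {h R : ℝ} (hh : h ∈ Ioo (-1 : ℝ) 1) (hR : 0 < R)
    (w : sphere (0 : Ed d) 1) :
    SLICE_G B (WithLp.toLp 2 (R * h, (R * √(1 - h ^ 2)) • (w : Ed d)) : Fd d) =
      (Iio (1 : ℝ)).indicator 1 R * B.indicator 1 (h, √(1 - h ^ 2) • (w : Ed d)) := by
  have h1 := SLICE_norm h R hh hR w
  unfold SLICE_G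
  rw [h1]
  congr 1
  · by_cases h' : R < 1
    · rw [indicator_of_mem (by simpa [h1] using h'),
        indicator_of_mem (show R ∈ Iio (1 : ℝ) from h')]
      rfl
    · rw [indicator_of_notMem (by simpa [h1] using h'),
        indicator_of_notMem (show R ∉ Iio (1 : ℝ) from h')]
  · congr 1
    refine Prod.ext ?_ ?_
    · change R⁻¹ * (R * h) = h
      field_simp
    · change R⁻¹ • ((R * √(1 - h ^ 2)) • (w : Ed d)) = √(1 - h ^ 2) • (w : Ed d)
      rw [smul_smul]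
      congr 1
      field_simp

/-- The constant. -/
def SLICE_c (d : ℕ) : ℝ≥0∞ :=
  ∫⁻ R in Ioi (0 : ℝ), ENNReal.ofReal (R ^ d) * (Iio (1 : ℝ)).indicator 1 R

lemma SLICE_c_meas (d : ℕ) :
    Measurable (fun R : ℝ => ENNReal.ofReal (R ^ d) * (Iio (1 : ℝ)).indicator (1 : ℝ → ℝ≥0∞) R) :=
  Measurable.mul (by fun_prop) (measurable_one.indicator measurableSet_Iio)

lemma SLICE_c_ne_zero (d : ℕ) : SLICE_c d ≠ 0 := by
  intro h
  unfold SLICE_c at h
  rw [lintegral_eq_zero_iff (SLICE_c_meas d)] at h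
  have h1 : ∀ᵐ R : ℝ ∂(volume.restrict (Ioo (0 : ℝ) 1)), False := by
    have h2 : volume.restrict (Ioo (0 : ℝ) 1) ≤ volume.restrict (Ioi (0 : ℝ)) :=
      Measure.restrict_mono Ioo_subset_Ioi_self le_rfl
    filter_upwards [h2.absolutelyContinuous.ae_le h, ae_restrict_mem measurableSet_Ioo]
      with R hR hR'
    simp only [Pi.zero_apply, mul_eq_zero, ENNReal.ofReal_eq_zero] at hR
    rcases hR with hR | hR
    · exact absurd hR (not_le.mpr (pow_pos hR'.1 _))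
    · rw [indicator_of_mem (show R ∈ Iio (1 : ℝ) from hR'.2)] at hR
      exact one_ne_zero hR
  rw [ae_iff] at h1
  simp at h1

lemma SLICE_c_ne_top (d : ℕ) : SLICE_c d ≠ ∞ := by
  have h1 : SLICE_c d ≤ ∫⁻ R in Ioi (0 : ℝ), (Ioo (0 : ℝ) 1).indicator 1 R := by
    unfold SLICE_c
    refine setLIntegral_mono (measurable_one.indicator measurableSet_Ioo) fun R hR => ?_
    have hR' : 0 < R := hR
    by_cases h : R < 1
    · rw [indicator_of_mem (show R ∈ Iio (1 : ℝ) from h),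
        indicator_of_mem (show R ∈ Ioo (0 : ℝ) 1 from ⟨hR', h⟩)]
      simp only [Pi.one_apply, mul_one, ENNReal.ofReal_le_one]
      exact pow_le_one₀ hR'.le h.le
    · rw [indicator_of_notMem (show R ∉ Iio (1 : ℝ) from h)]
      simp
  refine ne_top_of_le_ne_top ?_ h1
  rw [lintegral_indicator_one measurableSet_Ioo]
  refine ne_top_of_le_ne_top ?_ (Measure.restrict_apply_le _ _)
  simp

lemma SLICE_lhs {d : ℕ} {B : Set (ℝ × Ed d)} (hB : MeasurableSet B) :
    ∫⁻ x : Fd d, SLICE_G B x = SLICE_c d *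
      ∫⁻ w : sphere (0 : Fd d) 1, B.indicator 1 ((w : Fd d).fst, (w : Fd d).snd)
        ∂((volume : Measure (Fd d)).toSphere) := by
  have hfin := SLICE_finrank d
  rw [SLICE_polar (by omega) (SLICE_G_meas hB), SLICE_c, ← lintegral_mul_const'' _
    (SLICE_c_meas d).aemeasurable, hfin, Nat.add_sub_cancel]
  refine setLIntegral_congr_fun measurableSet_Ioi fun R hR => ?_
  have hR' : 0 < R := hR
  simp only [SLICE_G_polar B hR']
  rw [lintegral_const_mul, mul_assoc]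
  refine (measurable_one.indicator hB).comp ?_
  exact (WithLp.measurable_ofLp 2 (ℝ × Ed d)).comp measurable_subtype_coe

lemma SLICE_rhs {d : ℕ} (hd : 1 ≤ d) {B : Set (ℝ × Ed d)} (hB : MeasurableSet B) :
    ∫⁻ x : Fd d, SLICE_G B x = SLICE_c d *
      ∫⁻ h in Ioo (-1 : ℝ) 1, ENNReal.ofReal ((1 - h ^ 2) ^ (((d : ℝ) - 2) / 2)) *
        ∫⁻ w : sphere (0 : Ed d) 1, B.indicator 1 (h, √(1 - h ^ 2) • (w : Ed d))
          ∂((volume : Measure (Ed d)).toSphere) := by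
  have hG := SLICE_G_meas hB
  have hto : Measurable (fun p : ℝ × Ed d => (WithLp.toLp 2 p : Fd d)) :=
    WithLp.measurable_toLp 2 (ℝ × Ed d)
  have hG2 : Measurable (fun p : ℝ × Ed d => SLICE_G B (WithLp.toLp 2 p : Fd d)) := hG.comp hto
  have e1 : ∫⁻ x : Fd d, SLICE_G B x = ∫⁻ p : ℝ × Ed d, SLICE_G B (WithLp.toLp 2 p : Fd d) :=
    ((WithLp.volume_preserving_toLp ℝ (Ed d)).lintegral_comp hG).symm
  have hfr : Module.finrank ℝ (Ed d) = d := finrank_euclideanSpace_fin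
  have hsm : Measurable (fun q : (ℝ × ℝ) × sphere (0 : Ed d) 1 =>
      (q.1.1, q.1.2 • (q.2 : Ed d))) := by
    fun_prop
  have hg : Measurable (fun q : ℝ × ℝ => ∫⁻ w : sphere (0 : Ed d) 1,
      SLICE_G B (WithLp.toLp 2 (q.1, q.2 • (w : Ed d)) : Fd d)
        ∂((volume : Measure (Ed d)).toSphere)) :=
    (hG2.comp hsm).lintegral_prod_right'
  have e2 : ∫⁻ p : ℝ × Ed d, SLICE_G B (WithLp.toLp 2 p : Fd d) =
      ∫⁻ t : ℝ, ∫⁻ r in Ioi (0 : ℝ), ENNReal.ofReal (r ^ (d - 1)) *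
        ∫⁻ w : sphere (0 : Ed d) 1, SLICE_G B (WithLp.toLp 2 (t, r • (w : Ed d)) : Fd d)
          ∂((volume : Measure (Ed d)).toSphere) := by
    rw [Measure.volume_eq_prod, lintegral_prod _ hG2.aemeasurable]
    refine lintegral_congr fun t => ?_
    have h1 := SLICE_polar (F := Ed d) (by omega)
      (G := fun ξ : Ed d => SLICE_G B (WithLp.toLp 2 (t, ξ) : Fd d))
      (hG2.comp measurable_prodMk_left)
    rw [hfr] at h1
    exact h1
  rw [e1, e2, lintegral_lintegral_swap]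
  · have e3 : ∀ r : ℝ, ∫⁻ t : ℝ, ENNReal.ofReal (r ^ (d - 1)) *
        ∫⁻ w : sphere (0 : Ed d) 1, SLICE_G B (WithLp.toLp 2 (t, r • (w : Ed d)) : Fd d)
          ∂((volume : Measure (Ed d)).toSphere) =
        ENNReal.ofReal (r ^ (d - 1)) * ∫⁻ t : ℝ,
        ∫⁻ w : sphere (0 : Ed d) 1, SLICE_G B (WithLp.toLp 2 (t, r • (w : Ed d)) : Fd d)
          ∂((volume : Measure (Ed d)).toSphere) := by
      intro r
      have hr : Measurable (fun t : ℝ => ((t, r) : ℝ × ℝ)) := by fun_prop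
      have hgr := hg.comp hr
      exact lintegral_const_mul _ hgr
    have hm : Measurable (fun h : ℝ => ENNReal.ofReal ((1 - h ^ 2) ^ (((d : ℝ) - 2) / 2)) *
        ∫⁻ w : sphere (0 : Ed d) 1, B.indicator 1 (h, √(1 - h ^ 2) • (w : Ed d))
          ∂((volume : Measure (Ed d)).toSphere)) := by
      refine Measurable.mul (by fun_prop) ?_
      have h2 : Measurable (fun q : ℝ × sphere (0 : Ed d) 1 =>
          B.indicator (1 : ℝ × Ed d → ℝ≥0∞) (q.1, √(1 - q.1 ^ 2) • (q.2 : Ed d))) := by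
        refine (measurable_one.indicator hB).comp ?_
        fun_prop
      exact h2.lintegral_prod_right'
    refine (lintegral_congr e3).trans ?_
    refine (SLICE_plane hd hg).trans ?_
    refine Eq.trans ?_ (lintegral_const_mul (SLICE_c d) hm)
    refine setLIntegral_congr_fun measurableSet_Ioo fun h hh => ?_
    have e5 : ∀ R ∈ Ioi (0 : ℝ), ENNReal.ofReal (R ^ d) *
        ENNReal.ofReal ((1 - h ^ 2) ^ (((d : ℝ) - 2) / 2)) *
        ∫⁻ w : sphere (0 : Ed d) 1,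
          SLICE_G B (WithLp.toLp 2 (R * h, (R * √(1 - h ^ 2)) • (w : Ed d)) : Fd d)
          ∂((volume : Measure (Ed d)).toSphere) =
        ENNReal.ofReal (R ^ d) * (Iio (1 : ℝ)).indicator 1 R *
          (ENNReal.ofReal ((1 - h ^ 2) ^ (((d : ℝ) - 2) / 2)) *
          ∫⁻ w : sphere (0 : Ed d) 1, B.indicator 1 (h, √(1 - h ^ 2) • (w : Ed d))
          ∂((volume : Measure (Ed d)).toSphere)) := by
      intro R hR
      have hR' : 0 < R := hR
      have e6 : ∫⁻ w : sphere (0 : Ed d) 1,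
          SLICE_G B (WithLp.toLp 2 (R * h, (R * √(1 - h ^ 2)) • (w : Ed d)) : Fd d)
          ∂((volume : Measure (Ed d)).toSphere) = (Iio (1 : ℝ)).indicator 1 R *
          ∫⁻ w : sphere (0 : Ed d) 1, B.indicator 1 (h, √(1 - h ^ 2) • (w : Ed d))
          ∂((volume : Measure (Ed d)).toSphere) := by
        refine (lintegral_congr fun w => SLICE_G_cyl B hh hR' w).trans ?_
        refine lintegral_const_mul _ ?_
        refine (measurable_one.indicator hB).comp ?_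
        fun_prop
      rw [e6]
      ring
    refine (setLIntegral_congr_fun measurableSet_Ioi e5).trans ?_
    exact lintegral_mul_const _ (SLICE_c_meas d)
  · refine Measurable.aemeasurable ?_
    exact Measurable.mul (by fun_prop) hg

theorem tSLICE : T_SLICE := by
  intro d hd
  refine Measure.ext fun B hB => ?_
  have hm1 : Measurable (fun ω : sphere (0 : Fd d) 1 => ((ω : Fd d).fst, (ω : Fd d).snd)) :=
    (WithLp.measurable_ofLp 2 (ℝ × Ed d)).comp measurable_subtype_coe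
  have hm2 : Measurable (fun x : ℝ × sphere (0 : Ed d) 1 =>
      (x.1, √(1 - x.1 ^ 2) • (x.2 : Ed d))) := by
    fun_prop
  have h0 := (SLICE_lhs hB).symm.trans (SLICE_rhs hd hB)
  rw [ENNReal.mul_right_inj (SLICE_c_ne_zero d) (SLICE_c_ne_top d)] at h0
  have h1 : Measure.map (fun ω : sphere (0 : Fd d) 1 => ((ω : Fd d).fst, (ω : Fd d).snd))
      (volume : Measure (Fd d)).toSphere B =
      ∫⁻ w : sphere (0 : Fd d) 1, B.indicator 1 ((w : Fd d).fst, (w : Fd d).snd)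
        ∂((volume : Measure (Fd d)).toSphere) := by
    rw [← lintegral_indicator_one hB, lintegral_map (measurable_one.indicator hB) hm1]
  have hw : Measurable (fun h : ℝ => ENNReal.ofReal ((1 - h ^ 2) ^ (((d : ℝ) - 2) / 2))) := by
    fun_prop
  have h2 : Measurable (fun q : ℝ × sphere (0 : Ed d) 1 =>
      B.indicator (1 : ℝ × Ed d → ℝ≥0∞) (q.1, √(1 - q.1 ^ 2) • (q.2 : Ed d))) :=
    (measurable_one.indicator hB).comp hm2
  rw [h1, h0, ← lintegral_indicator_one hB, lintegral_map (measurable_one.indicator hB) hm2,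
    lintegral_prod _ h2.aemeasurable, lintegral_withDensity_eq_lintegral_mul _ hw
      h2.lintegral_prod_right']
  rfl

end Pool.Agent.ExpMax
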