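import Pool.Agent.ExpMax.Targets

set_option autoImplicit false

/-!
# TT: the extension inequality by `T T*` and the Hölder inequality
-/

noncomputable section

open MeasureTheory Set Filter
open scoped ENNReal RealInnerProductSpace Topology ComplexConjugate

namespace Pool.Agent.ExpMax

section

variable {F : Type} [NormedAddCommGroup F] [InnerProductSpace ℝ F] [FiniteDimensional ℝ F]
    [MeasurableSpace F] [BorelSpace F]

/-- The kernel of the extension. -/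
def TT_e (ω : Metric.sphere (0 : F) 1) (y : F) : ℂ :=
  Complex.exp (-(Complex.I * ((⟪(ω : F), y⟫ : ℝ) : ℂ)))

omit [FiniteDimensional ℝ F] [MeasurableSpace F] [BorelSpace F] in
lemma TT_norm_e (ω : Metric.sphere (0 : F) 1) (y : F) : ‖TT_e ω y‖ = 1 := by
  unfold TT_e
  rw [show -(Complex.I * ((⟪(ω : F), y⟫ : ℝ) : ℂ)) =
    (((-⟪(ω : F), y⟫ : ℝ)) : ℂ) * Complex.I by push_cast; ring]
  exact Complex.norm_exp_ofReal_mul_I _

omit [FiniteDimensional ℝ F] [MeasurableSpace F] [BorelSpace F] in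
lemma TT_e_cont : Continuous (fun p : F × Metric.sphere (0 : F) 1 => TT_e p.2 p.1) := by
  unfold TT_e
  fun_prop

omit [FiniteDimensional ℝ F] [MeasurableSpace F] [BorelSpace F] in
lemma TT_e_mul_conj (ω : Metric.sphere (0 : F) 1) (y y' : F) :
    TT_e ω y * conj (TT_e ω y') = TT_e ω (y - y') := by
  unfold TT_e
  rw [← Complex.exp_conj, ← Complex.exp_add]
  congr 1
  rw [map_neg, map_mul, Complex.conj_I, Complex.conj_ofReal, inner_sub_right]
  push_cast
  ring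

/-- The dual function. -/
def TT_h (μ : Measure F) (G : F → ℂ) (ω : Metric.sphere (0 : F) 1) : ℂ :=
  ∫ y, G y * TT_e ω y ∂μ

lemma TT_swap (μ : Measure F) [IsFiniteMeasure μ] (P : Measure (Metric.sphere (0 : F) 1))
    [IsFiniteMeasure P] (G : F → ℂ) (hG : Integrable G μ)
    (f : Metric.sphere (0 : F) 1 → ℂ) (hf : Integrable f P) :
    ∫ y, G y * (∫ ω, f ω * TT_e ω y ∂P) ∂μ = ∫ ω, f ω * TT_h μ G ω ∂P := by
  have h1 : Integrable (fun z : F × Metric.sphere (0 : F) 1 => (G z.1 * f z.2) * TT_e z.2 z.1)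
      (μ.prod P) := by
    refine (hG.mul_prod hf).mul_bdd (c := 1) TT_e_cont.aestronglyMeasurable ?_
    exact Eventually.of_forall fun z => (TT_norm_e _ _).le
  calc ∫ y, G y * (∫ ω, f ω * TT_e ω y ∂P) ∂μ
      = ∫ y, ∫ ω, (G y * f ω) * TT_e ω y ∂P ∂μ := by
        refine integral_congr_ae (Eventually.of_forall fun y => ?_)
        simp only [mul_assoc]
        rw [integral_const_mul]
    _ = ∫ ω, ∫ y, (G y * f ω) * TT_e ω y ∂μ ∂P := integral_integral_swap h1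
    _ = ∫ ω, f ω * TT_h μ G ω ∂P := by
        refine integral_congr_ae (Eventually.of_forall fun ω => ?_)
        simp only [TT_h]
        rw [← integral_const_mul]
        refine integral_congr_ae (Eventually.of_forall fun y => ?_)
        simp only
        ring

lemma TT_h_meas (μ : Measure F) [IsFiniteMeasure μ] (P : Measure (Metric.sphere (0 : F) 1))
    [IsFiniteMeasure P] (G : F → ℂ) (hG : Integrable G μ) :
    AEStronglyMeasurable (TT_h μ G) P := by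
  have h1 : Integrable (fun z : F × Metric.sphere (0 : F) 1 => G z.1 * TT_e z.2 z.1)
      (μ.prod P) := by
    have := (hG.mul_prod (integrable_const (μ := P) (1 : ℂ)))
    simp only [mul_one] at this
    refine this.mul_bdd (c := 1) TT_e_cont.aestronglyMeasurable ?_
    exact Eventually.of_forall fun z => (TT_norm_e _ _).le
  exact h1.integral_prod_right.aestronglyMeasurable

omit [FiniteDimensional ℝ F] [BorelSpace F] in
lemma TT_h_bdd (μ : Measure F) (G : F → ℂ) (ω : Metric.sphere (0 : F) 1) :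
    ‖TT_h μ G ω‖ ≤ ∫ y, ‖G y‖ ∂μ := by
  refine (norm_integral_le_integral_norm _).trans (le_of_eq ?_)
  refine integral_congr_ae (Eventually.of_forall fun y => ?_)
  simp only [norm_mul, TT_norm_e, mul_one]

/-- `∫ |h| ^ 2` is bounded by the double integral with the kernel. -/
lemma TT_hsq (μ : Measure F) [IsFiniteMeasure μ] (P : Measure (Metric.sphere (0 : F) 1))
    [IsFiniteMeasure P] (G : F → ℂ) (hG : Integrable G μ) (k : F → ℝ)
    (hk : ∀ y, ∫ ω, TT_e ω y ∂P = ((k y : ℝ) : ℂ)) :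
    ∫⁻ ω, ‖TT_h μ G ω‖ₑ ^ (2 : ℝ) ∂P ≤
      ∫⁻ z : F × F, ‖G z.1‖ₑ * ‖G z.2‖ₑ * ‖k (z.1 - z.2)‖ₑ ∂(μ.prod μ) := by
  have hm := TT_h_meas μ P G hG
  set C : ℝ := ∫ y, ‖G y‖ ∂μ with hC
  have hint : Integrable (fun ω => ‖TT_h μ G ω‖ ^ 2) P := by
    refine Integrable.of_bound (hm.norm.pow 2) (C ^ 2) (Eventually.of_forall fun ω => ?_)
    rw [norm_pow, norm_norm]
    exact pow_le_pow_left₀ (norm_nonneg _) (TT_h_bdd μ G ω) 2
  -- the complex computation
  have key : ((∫ ω, ‖TT_h μ G ω‖ ^ 2 ∂P : ℝ) : ℂ) =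
      ∫ z : F × F, (G z.1 * conj (G z.2)) * ((k (z.1 - z.2) : ℝ) : ℂ) ∂(μ.prod μ) := by
    have hGG : Integrable (fun z : F × F => G z.1 * conj (G z.2)) (μ.prod μ) :=
      hG.mul_prod (f := G) (g := fun y => conj (G y)) (by
        simpa using (Complex.conjLIE.toContinuousLinearEquiv.toContinuousLinearMap.integrable_comp hG))
    have h3 : Integrable (fun w : (F × F) × Metric.sphere (0 : F) 1 =>
        (G w.1.1 * conj (G w.1.2)) * TT_e w.2 (w.1.1 - w.1.2)) ((μ.prod μ).prod P) := by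
      have h0 := (hGG.mul_prod (integrable_const (μ := P) (1 : ℂ)))
      simp only [mul_one] at h0
      refine h0.mul_bdd (c := 1) ?_ ?_
      · have : Continuous (fun w : (F × F) × Metric.sphere (0 : F) 1 =>
            TT_e w.2 (w.1.1 - w.1.2)) :=
          TT_e_cont.comp (f := fun w : (F × F) × Metric.sphere (0 : F) 1 =>
            ((w.1.1 - w.1.2, w.2) : F × Metric.sphere (0 : F) 1)) (by fun_prop)
        exact this.aestronglyMeasurable
      · exact Eventually.of_forall fun z => (TT_norm_e _ _).le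
    calc ((∫ ω, ‖TT_h μ G ω‖ ^ 2 ∂P : ℝ) : ℂ)
        = ∫ ω, TT_h μ G ω * conj (TT_h μ G ω) ∂P := by
          rw [← integral_complex_ofReal]
          refine integral_congr_ae (Eventually.of_forall fun ω => ?_)
          simp only
          rw [Complex.mul_conj, Complex.normSq_eq_norm_sq]
      _ = ∫ ω, ∫ z : F × F, (G z.1 * conj (G z.2)) * TT_e ω (z.1 - z.2) ∂(μ.prod μ) ∂P := by
          refine integral_congr_ae (Eventually.of_forall fun ω => ?_)
          simp only [TT_h]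
          rw [← integral_conj, ← integral_prod_mul]
          refine integral_congr_ae (Eventually.of_forall fun z => ?_)
          simp only
          rw [← TT_e_mul_conj, map_mul]
          ring
      _ = ∫ z : F × F, ∫ ω, (G z.1 * conj (G z.2)) * TT_e ω (z.1 - z.2) ∂P ∂(μ.prod μ) :=
          (integral_integral_swap h3).symm
      _ = ∫ z : F × F, (G z.1 * conj (G z.2)) * ((k (z.1 - z.2) : ℝ) : ℂ) ∂(μ.prod μ) := by
          refine integral_congr_ae (Eventually.of_forall fun z => ?_)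
          simp only
          rw [integral_const_mul, hk]
  have h1 : ∫⁻ ω, ‖TT_h μ G ω‖ₑ ^ (2 : ℝ) ∂P =
      ‖((∫ ω, ‖TT_h μ G ω‖ ^ 2 ∂P : ℝ) : ℂ)‖ₑ := by
    have h2 : ∫⁻ ω, ‖TT_h μ G ω‖ₑ ^ (2 : ℝ) ∂P =
        ∫⁻ ω, ENNReal.ofReal (‖TT_h μ G ω‖ ^ 2) ∂P := by
      refine lintegral_congr fun ω => ?_
      rw [ENNReal.ofReal_pow (norm_nonneg _), ofReal_norm]
      norm_cast
    rw [h2, ← ofReal_integral_eq_lintegral_ofReal hint
      (Eventually.of_forall fun ω => by positivity)]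
    have h0 : 0 ≤ ∫ ω, ‖TT_h μ G ω‖ ^ 2 ∂P := integral_nonneg fun ω => by positivity
    rw [← ofReal_norm, Complex.norm_real, Real.norm_of_nonneg h0]
  rw [h1, key]
  refine (enorm_integral_le_lintegral_enorm _).trans (le_of_eq ?_)
  refine lintegral_congr fun z => ?_
  rw [enorm_mul, enorm_mul]
  congr 1
  · congr 1
    rw [← ofReal_norm, ← ofReal_norm, RCLike.norm_conj]
  · rw [← ofReal_norm, ← ofReal_norm, Complex.norm_real]

/-- The duality bound. -/
lemma TT_dual (μ : Measure F) [IsFiniteMeasure μ] (P : Measure (Metric.sphere (0 : F) 1))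
    [IsFiniteMeasure P] (G : F → ℂ) (hG : Integrable G μ) (k : F → ℝ)
    (hk : ∀ y, ∫ ω, TT_e ω y ∂P = ((k y : ℝ) : ℂ))
    (f : Metric.sphere (0 : F) 1 → ℂ) (hf : Integrable f P) :
    ‖∫ y, G y * (∫ ω, f ω * TT_e ω y ∂P) ∂μ‖ₑ ^ (2 : ℝ) ≤
      (∫⁻ ω, ‖f ω‖ₑ ^ (2 : ℝ) ∂P) *
      ∫⁻ z : F × F, ‖G z.1‖ₑ * ‖G z.2‖ₑ * ‖k (z.1 - z.2)‖ₑ ∂(μ.prod μ) := by
  rw [TT_swap μ P G hG f hf]
  have h1 : ‖∫ ω, f ω * TT_h μ G ω ∂P‖ₑ ≤
      (∫⁻ ω, ‖f ω‖ₑ ^ (2 : ℝ) ∂P) ^ (1 / 2 : ℝ) *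
      (∫⁻ ω, ‖TT_h μ G ω‖ₑ ^ (2 : ℝ) ∂P) ^ (1 / 2 : ℝ) := by
    refine (enorm_integral_le_lintegral_enorm _).trans ?_
    have h2 := ENNReal.lintegral_mul_le_Lp_mul_Lq P (p := 2) (q := 2)
      (Real.HolderConjugate.two_two) (f := fun ω => ‖f ω‖ₑ) (g := fun ω => ‖TT_h μ G ω‖ₑ)
      hf.aestronglyMeasurable.enorm (TT_h_meas μ P G hG).enorm
    refine le_trans (le_of_eq ?_) h2
    refine lintegral_congr fun ω => ?_
    simp only [Pi.mul_apply, enorm_mul]
  have h3 := ENNReal.rpow_le_rpow h1 (by norm_num : (0 : ℝ) ≤ 2)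
  refine h3.trans ?_
  rw [ENNReal.mul_rpow_of_nonneg _ _ (by norm_num : (0 : ℝ) ≤ 2), ← ENNReal.rpow_mul,
    ← ENNReal.rpow_mul]
  norm_num
  gcongr
  have := TT_hsq μ P G hG k hk
  norm_num at this
  exact this

/-- The Hölder step. -/
lemma TT_holder (μ : Measure F) [IsFiniteMeasure μ] (hμ : μ ≤ volume) (a κ : F → ℝ≥0∞)
    (ha : Measurable a) (hκ : Measurable κ) (q : ℝ) (hq : 2 < q) :
    ∫⁻ z : F × F, a z.1 ^ (q - 1) * a z.2 ^ (q - 1) * κ (z.1 - z.2) ∂(μ.prod μ) ≤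
      ((∫⁻ y, a y ^ q ∂μ) * (∫⁻ y, κ y ^ (q / 2))) ^ (1 / q) *
      ((∫⁻ y, a y ^ q ∂μ) * (∫⁻ y, κ y ^ (q / 2))) ^ (1 / q) *
      ((∫⁻ y, a y ^ q ∂μ) * (∫⁻ y, a y ^ q ∂μ)) ^ (1 - 2 / q) := by
  have hq0 : 0 < q := by linarith
  have h2q : 2 / q < 1 := by rw [div_lt_one hq0]; exact hq
  have hinv : (0 : ℝ) ≤ 1 / q := by positivity
  have h12 : (0 : ℝ) ≤ 1 - 2 / q := by linarith
  let f : Fin 3 → F × F → ℝ≥0∞ := ![fun z => a z.1 ^ q * κ (z.1 - z.2) ^ (q / 2),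
    fun z => a z.2 ^ q * κ (z.1 - z.2) ^ (q / 2), fun z => a z.1 ^ q * a z.2 ^ q]
  let p : Fin 3 → ℝ := ![1 / q, 1 / q, 1 - 2 / q]
  have hsub : Measurable (fun z : F × F => κ (z.1 - z.2)) :=
    hκ.comp (measurable_fst.sub measurable_snd)
  have hm0 : Measurable (fun z : F × F => a z.1 ^ q * κ (z.1 - z.2) ^ (q / 2)) :=
    ((ha.comp measurable_fst).pow_const q).mul (hsub.pow_const _)
  have hm1 : Measurable (fun z : F × F => a z.2 ^ q * κ (z.1 - z.2) ^ (q / 2)) :=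
    ((ha.comp measurable_snd).pow_const q).mul (hsub.pow_const _)
  have hm2 : Measurable (fun z : F × F => a z.1 ^ q * a z.2 ^ q) :=
    ((ha.comp measurable_fst).pow_const q).mul ((ha.comp measurable_snd).pow_const q)
  have key := ENNReal.lintegral_prod_norm_pow_le (μ := μ.prod μ) (Finset.univ : Finset (Fin 3))
    (f := f) (p := p) (by
      intro i _
      fin_cases i
      · exact hm0.aemeasurable
      · exact hm1.aemeasurable
      · exact hm2.aemeasurable) (by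
      rw [Fin.sum_univ_three]
      show 1 / q + 1 / q + (1 - 2 / q) = 1
      ring) (by
      intro i _
      fin_cases i
      · exact hinv
      · exact hinv
      · exact h12)
  have hL : (fun z : F × F => a z.1 ^ (q - 1) * a z.2 ^ (q - 1) * κ (z.1 - z.2)) =
      fun z => ∏ i ∈ (Finset.univ : Finset (Fin 3)), f i z ^ p i := by
    funext z
    rw [Fin.prod_univ_three]
    show a z.1 ^ (q - 1) * a z.2 ^ (q - 1) * κ (z.1 - z.2) =
      (a z.1 ^ q * κ (z.1 - z.2) ^ (q / 2)) ^ (1 / q) *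
      (a z.2 ^ q * κ (z.1 - z.2) ^ (q / 2)) ^ (1 / q) * (a z.1 ^ q * a z.2 ^ q) ^ (1 - 2 / q)
    rw [ENNReal.mul_rpow_of_nonneg _ _ hinv, ENNReal.mul_rpow_of_nonneg _ _ hinv,
      ENNReal.mul_rpow_of_nonneg _ _ h12]
    simp only [← ENNReal.rpow_mul]
    have e1 : q * (1 / q) = 1 := by field_simp
    have e2 : q / 2 * (1 / q) = 1 / 2 := by field_simp
    have e3 : q * (1 - 2 / q) = q - 2 := by field_simp
    rw [e1, e2, e3]
    have e4 : ∀ x : ℝ≥0∞, x ^ (q - 1) = x ^ (1 : ℝ) * x ^ (q - 2) := fun x => by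
      rw [← ENNReal.rpow_add_of_nonneg _ _ (by norm_num) (by linarith)]
      congr 1
      ring
    have e5 : κ (z.1 - z.2) = κ (z.1 - z.2) ^ (1 / 2 : ℝ) * κ (z.1 - z.2) ^ (1 / 2 : ℝ) := by
      rw [← ENNReal.rpow_add_of_nonneg _ _ (by norm_num) (by norm_num)]
      norm_num
    rw [e4, e4]
    nth_rewrite 1 [e5]
    ring
  rw [hL]
  refine key.trans ?_
  rw [Fin.prod_univ_three]
  show (∫⁻ z : F × F, a z.1 ^ q * κ (z.1 - z.2) ^ (q / 2) ∂(μ.prod μ)) ^ (1 / q) *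
    (∫⁻ z : F × F, a z.2 ^ q * κ (z.1 - z.2) ^ (q / 2) ∂(μ.prod μ)) ^ (1 / q) *
    (∫⁻ z : F × F, a z.1 ^ q * a z.2 ^ q ∂(μ.prod μ)) ^ (1 - 2 / q) ≤ _
  have i0 : ∫⁻ z : F × F, a z.1 ^ q * κ (z.1 - z.2) ^ (q / 2) ∂(μ.prod μ) ≤
      (∫⁻ y, a y ^ q ∂μ) * (∫⁻ y, κ y ^ (q / 2)) := by
    rw [lintegral_prod _ hm0.aemeasurable, ← lintegral_mul_const _ (ha.pow_const q)]
    refine lintegral_mono fun y => ?_
    simp only
    have hm : Measurable (fun y' : F => κ (y - y')) := hκ.comp (measurable_const.sub measurable_id')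
    rw [lintegral_const_mul _ (hm.pow_const _)]
    refine mul_le_mul' le_rfl ?_
    calc ∫⁻ y', κ (y - y') ^ (q / 2) ∂μ ≤ ∫⁻ y', κ (y - y') ^ (q / 2) :=
          lintegral_mono' hμ le_rfl
      _ = ∫⁻ y, κ y ^ (q / 2) := lintegral_sub_left_eq_self (fun y => κ y ^ (q / 2)) y
  have i1 : ∫⁻ z : F × F, a z.2 ^ q * κ (z.1 - z.2) ^ (q / 2) ∂(μ.prod μ) ≤
      (∫⁻ y, a y ^ q ∂μ) * (∫⁻ y, κ y ^ (q / 2)) := by
    rw [lintegral_prod_symm _ hm1.aemeasurable, ← lintegral_mul_const _ (ha.pow_const q)]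
    refine lintegral_mono fun y => ?_
    simp only
    have hm : Measurable (fun y' : F => κ (y' - y)) := hκ.comp (measurable_id'.sub measurable_const)
    rw [lintegral_const_mul _ (hm.pow_const _)]
    refine mul_le_mul' le_rfl ?_
    calc ∫⁻ y', κ (y' - y) ^ (q / 2) ∂μ ≤ ∫⁻ y', κ (y' - y) ^ (q / 2) :=
          lintegral_mono' hμ le_rfl
      _ = ∫⁻ y, κ y ^ (q / 2) := lintegral_sub_right_eq_self (fun y => κ y ^ (q / 2)) y
  have i2 : ∫⁻ z : F × F, a z.1 ^ q * a z.2 ^ q ∂(μ.prod μ) ≤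
      (∫⁻ y, a y ^ q ∂μ) * (∫⁻ y, a y ^ q ∂μ) := by
    rw [lintegral_prod_mul (ha.pow_const q).aemeasurable (ha.pow_const q).aemeasurable]
  gcongr

/-- Solving the inequality. -/
lemma TT_solve (A K N : ℝ≥0∞) (q : ℝ) (hq : 2 < q) (hA : A ≠ ∞)
    (h : A ^ (2 : ℝ) ≤ N * ((A * K) ^ (1 / q) * (A * K) ^ (1 / q) * (A * A) ^ (1 - 2 / q))) :
    A ≤ K * N ^ (q / 2) := by
  have hq0 : 0 < q := by linarith
  have h2q : 2 / q < 1 := by rw [div_lt_one hq0]; exact hq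
  have hinv : (0 : ℝ) ≤ 1 / q := by positivity
  have h12 : (0 : ℝ) ≤ 1 - 2 / q := by linarith
  by_cases hA0 : A = 0
  · rw [hA0]; exact zero_le
  have e : (A * K) ^ (1 / q) * (A * K) ^ (1 / q) * (A * A) ^ (1 - 2 / q) =
      A ^ (2 - 2 / q) * K ^ (2 / q) := by
    rw [ENNReal.mul_rpow_of_nonneg _ _ hinv, ENNReal.mul_rpow_of_nonneg _ _ h12]
    have e1 : A ^ (2 - 2 / q) = A ^ (1 / q) * A ^ (1 / q) * (A ^ (1 - 2 / q) * A ^ (1 - 2 / q)) := by
      rw [← ENNReal.rpow_add_of_nonneg _ _ hinv hinv, ← ENNReal.rpow_add_of_nonneg _ _ h12 h12,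
        ← ENNReal.rpow_add_of_nonneg _ _ (by linarith) (by linarith)]
      congr 1
      ring
    have e2 : K ^ (2 / q) = K ^ (1 / q) * K ^ (1 / q) := by
      rw [← ENNReal.rpow_add_of_nonneg _ _ hinv hinv]
      congr 1
      ring
    rw [e1, e2]
    ring
  rw [e] at h
  have e3 : A ^ (2 : ℝ) = A ^ (2 - 2 / q) * A ^ (2 / q) := by
    rw [← ENNReal.rpow_add_of_nonneg _ _ (by linarith) (by positivity)]
    congr 1
    ring
  rw [e3, ← mul_assoc, mul_comm N, mul_assoc] at h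
  have h4 : A ^ (2 / q) ≤ N * K ^ (2 / q) := by
    refine (ENNReal.mul_le_mul_iff_right ?_ ?_).1 h
    · exact (ENNReal.rpow_pos (pos_iff_ne_zero.2 hA0) hA).ne'
    · exact ENNReal.rpow_ne_top_of_nonneg (by linarith) hA
  have h5 := ENNReal.rpow_le_rpow h4 (by linarith : (0 : ℝ) ≤ q / 2)
  rw [ENNReal.mul_rpow_of_nonneg _ _ (by linarith : (0 : ℝ) ≤ q / 2), ← ENNReal.rpow_mul,
    ← ENNReal.rpow_mul] at h5
  have e6 : 2 / q * (q / 2) = 1 := by field_simp
  rw [e6, ENNReal.rpow_one, ENNReal.rpow_one] at h5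
  rw [mul_comm]
  exact h5

/-- The bound over a ball. -/
lemma TT_ball (P : Measure (Metric.sphere (0 : F) 1)) [IsFiniteMeasure P] (k : F → ℝ)
    (hk : ∀ y, ∫ ω, TT_e ω y ∂P = ((k y : ℝ) : ℂ)) (hkc : Continuous k)
    (f : Metric.sphere (0 : F) 1 → ℂ) (hf : Integrable f P) (u : F → ℂ)
    (hu : ∀ y, u y = ∫ ω, f ω * TT_e ω y ∂P) (huc : Continuous u) (M : ℝ)
    (hM : ∀ y, ‖u y‖ ≤ M) (q : ℝ) (hq : 2 < q) (R : ℝ) :
    ∫⁻ y in Metric.ball (0 : F) R, ‖u y‖ₑ ^ q ≤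
      (∫⁻ y, ‖k y‖ₑ ^ (q / 2)) * (∫⁻ ω, ‖f ω‖ₑ ^ (2 : ℝ) ∂P) ^ (q / 2) := by
  have hq0 : 0 < q := by linarith
  set μ : Measure F := volume.restrict (Metric.ball (0 : F) R) with hμdef
  have : IsFiniteMeasure μ :=
    ⟨by rw [hμdef, Measure.restrict_apply_univ]; exact measure_ball_lt_top⟩
  have hM0 : 0 ≤ M := (norm_nonneg _).trans (hM 0)
  set G : F → ℂ := fun y => ((‖u y‖ ^ (q - 2) : ℝ) : ℂ) * conj (u y) with hGdef
  have hGc : Continuous G := by
    refine Continuous.mul ?_ (Complex.continuous_conj.comp huc)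
    exact Complex.continuous_ofReal.comp
      (huc.norm.rpow_const fun y => Or.inr (by linarith))
  have hnorm : ∀ y, ‖G y‖ = ‖u y‖ ^ (q - 1) := fun y => by
    rw [hGdef]
    simp only [norm_mul, Complex.norm_real, RCLike.norm_conj]
    rw [Real.norm_of_nonneg (by positivity)]
    have : q - 1 = (q - 2) + 1 := by ring
    rw [this]
    rcases eq_or_ne (‖u y‖) 0 with h0 | h0
    · rw [h0, Real.zero_rpow (by linarith : q - 2 + 1 ≠ 0), mul_zero]
    · rw [Real.rpow_add_one h0]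
  have henorm : ∀ y, ‖G y‖ₑ = ‖u y‖ₑ ^ (q - 1) := fun y => by
    rw [← ofReal_norm, hnorm, ← ENNReal.ofReal_rpow_of_nonneg (norm_nonneg _) (by linarith),
      ofReal_norm]
  have hG : Integrable G μ := by
    refine Integrable.of_bound hGc.aestronglyMeasurable (M ^ (q - 1))
      (Eventually.of_forall fun y => ?_)
    rw [hnorm]
    exact Real.rpow_le_rpow (norm_nonneg _) (hM y) (by linarith)
  have hpow : ∀ y, ‖u y‖ₑ ^ q = ENNReal.ofReal (‖u y‖ ^ q) := fun y => by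
    rw [← ENNReal.ofReal_rpow_of_nonneg (norm_nonneg _) hq0.le, ofReal_norm]
  have hint : Integrable (fun y => ‖u y‖ ^ q) μ := by
    refine Integrable.of_bound
      (huc.norm.rpow_const fun y => Or.inr hq0.le).aestronglyMeasurable (M ^ q)
      (Eventually.of_forall fun y => ?_)
    rw [Real.norm_of_nonneg (by positivity)]
    exact Real.rpow_le_rpow (norm_nonneg _) (hM y) hq0.le
  have hAeq : ∫⁻ y, ‖u y‖ₑ ^ q ∂μ = ENNReal.ofReal (∫ y, ‖u y‖ ^ q ∂μ) := by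
    rw [ofReal_integral_eq_lintegral_ofReal hint (Eventually.of_forall fun y => by positivity)]
    exact lintegral_congr hpow
  have hA : ∫⁻ y, ‖u y‖ₑ ^ q ∂μ ≠ ∞ := by
    rw [hAeq]
    exact ENNReal.ofReal_ne_top
  have hd := TT_dual μ P G hG k hk f hf
  have hL : ∫ y, G y * (∫ ω, f ω * TT_e ω y ∂P) ∂μ = ((∫ y, ‖u y‖ ^ q ∂μ : ℝ) : ℂ) := by
    rw [← integral_complex_ofReal]
    refine integral_congr_ae (Eventually.of_forall fun y => ?_)
    simp only
    rw [← hu y, hGdef]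
    simp only
    rw [mul_assoc, mul_comm (conj (u y)), Complex.mul_conj, Complex.normSq_eq_norm_sq,
      ← Complex.ofReal_mul]
    congr 1
    have : q = (q - 2) + 2 := by ring
    rcases eq_or_ne (‖u y‖) 0 with h0 | h0
    · rw [h0, Real.zero_rpow hq0.ne']
      norm_num
    · conv_rhs => rw [this]
      rw [Real.rpow_add (lt_of_le_of_ne (norm_nonneg _) (Ne.symm h0))]
      norm_num
  rw [hL] at hd
  have hL2 : ‖((∫ y, ‖u y‖ ^ q ∂μ : ℝ) : ℂ)‖ₑ = ∫⁻ y, ‖u y‖ₑ ^ q ∂μ := by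
    rw [hAeq, ← ofReal_norm, Complex.norm_real, Real.norm_of_nonneg
      (integral_nonneg fun y => by positivity)]
  rw [hL2] at hd
  have hH := TT_holder μ Measure.restrict_le_self (fun y => ‖u y‖ₑ) (fun y => ‖k y‖ₑ)
    huc.measurable.enorm hkc.measurable.enorm q hq
  refine TT_solve _ _ _ q hq hA (hd.trans ?_)
  refine mul_le_mul' le_rfl (le_trans (le_of_eq ?_) hH)
  refine lintegral_congr fun z => ?_
  simp only [henorm]

end

/-- TT -/
theorem tTT (hI : T_INV) (hB : T_BASIC) (hE : T_EXTC) : T_TT := by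
  intro F _ _ _ _ _ hF q hq hint f hf
  obtain ⟨hP, -⟩ := hI F hF
  obtain ⟨hB1, hB2, -⟩ := hB F hF
  have hf1 : Integrable f (prb F) := hf.integrable (by norm_num)
  obtain ⟨hc, hbd, -⟩ := hE F hF f hf1
  have hq0 : 0 < q := by linarith
  have hk : ∀ y : F, ∫ ω, TT_e ω y ∂(prb F) = ((u0 y : ℝ) : ℂ) := fun y => by
    rw [← hB1 y]
    simp only [Ext, TT_e, one_mul]
  have hball := fun R : ℝ => TT_ball (F := F) (prb F) (u0 (F := F)) hk hB2 f hf1 (Ext f)
    (fun y => rfl) hc _ hbd q hq R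
  have hmeas : Measurable (fun y => ‖Ext f y‖ₑ ^ q) := hc.measurable.enorm.pow_const q
  have hlim := (aecover_ball (μ := (volume : Measure F)) (x := (0 : F))
    (tendsto_id : Tendsto (fun r : ℝ => r) atTop atTop)).lintegral_tendsto_of_countably_generated
    hmeas.aemeasurable
  have hle : ∫⁻ y, ‖Ext f y‖ₑ ^ q ≤
      (∫⁻ y : F, ‖(u0 y : ℝ)‖ₑ ^ (q / 2)) * (∫⁻ ω, ‖f ω‖ₑ ^ (2 : ℝ) ∂(prb F)) ^ (q / 2) :=
    le_of_tendsto hlim (Eventually.of_forall hball)
  have hK : ∫⁻ y : F, ‖(u0 y : ℝ)‖ₑ ^ (q / 2) = ENNReal.ofReal (∫ y : F, |u0 y| ^ (q / 2)) := by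
    rw [ofReal_integral_eq_lintegral_ofReal hint (Eventually.of_forall fun y => by positivity)]
    refine lintegral_congr fun y => ?_
    rw [← ENNReal.ofReal_rpow_of_nonneg (abs_nonneg _) (by linarith), ← Real.norm_eq_abs,
      ofReal_norm]
  have hf2 : Integrable (fun ω => ‖f ω‖ ^ 2) (prb F) := by
    have := hf.integrable_norm_rpow (by norm_num) (by norm_num)
    simpa using this
  have hN : ∫⁻ ω, ‖f ω‖ₑ ^ (2 : ℝ) ∂(prb F) = ENNReal.ofReal (∫ ω, ‖f ω‖ ^ 2 ∂(prb F)) := by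
    rw [ofReal_integral_eq_lintegral_ofReal hf2 (Eventually.of_forall fun y => by positivity)]
    refine lintegral_congr fun ω => ?_
    rw [ENNReal.ofReal_pow (norm_nonneg _), ofReal_norm]
    norm_cast
  have hN0 : 0 ≤ ∫ ω, ‖f ω‖ ^ 2 ∂(prb F) := integral_nonneg fun ω => by positivity
  have hK0 : 0 ≤ ∫ y : F, |u0 y| ^ (q / 2) := integral_nonneg fun y => by positivity
  rw [hK, hN, ENNReal.ofReal_rpow_of_nonneg hN0 (by linarith), ← ENNReal.ofReal_mul hK0] at hle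
  have hpow : ∀ y, ‖Ext f y‖ₑ ^ q = ENNReal.ofReal (‖Ext f y‖ ^ q) := fun y => by
    rw [← ENNReal.ofReal_rpow_of_nonneg (norm_nonneg _) hq0.le, ofReal_norm]
  have hle' : ∫⁻ y, ENNReal.ofReal (‖Ext f y‖ ^ q) ≤
      ENNReal.ofReal ((∫ y : F, |u0 y| ^ (q / 2)) * (∫ ω, ‖f ω‖ ^ 2 ∂(prb F)) ^ (q / 2)) := by
    refine le_trans (le_of_eq ?_) hle
    exact lintegral_congr fun y => (hpow y).symm
  have hI2 : Integrable (fun y => ‖Ext f y‖ ^ q) := by
    refine ⟨(hc.norm.rpow_const fun y => Or.inr hq0.le).aestronglyMeasurable, ?_⟩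
    rw [hasFiniteIntegral_iff_ofReal (Eventually.of_forall fun y => by positivity)]
    exact hle'.trans_lt ENNReal.ofReal_lt_top
  refine ⟨hI2, ?_⟩
  rw [← ofReal_integral_eq_lintegral_ofReal hI2
    (Eventually.of_forall fun y => by positivity)] at hle'
  exact (ENNReal.ofReal_le_ofReal_iff (by positivity)).1 hle'

end Pool.Agent.ExpMax
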