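import Mathlib
import Pool.Agent.ExpMax.Targets

set_option autoImplicit false

/-!
# Properties of a function whose extension is maximal at the origin
-/

noncomputable section

open MeasureTheory Set Filter
open scoped ENNReal RealInnerProductSpace Topology

namespace Pool.Agent.ExpMax

section


variable {F : Type} [NormedAddCommGroup F] [InnerProductSpace ℝ F] [FiniteDimensional ℝ F]
    [MeasurableSpace F] [BorelSpace F]

lemma VPROP_norm (ω : Metric.sphere (0 : F) 1) : ‖(ω : F)‖ = 1 :=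
  mem_sphere_zero_iff_norm.1 ω.2

lemma VPROP_inner (ω : Metric.sphere (0 : F) 1) (y : F) : |⟪(ω : F), y⟫| ≤ ‖y‖ := by
  have := abs_real_inner_le_norm (ω : F) y
  rwa [VPROP_norm, one_mul] at this

lemma VPROP_cont_inner (y : F) : Continuous fun ω : Metric.sphere (0 : F) 1 => ⟪(ω : F), y⟫ :=
  continuous_subtype_val.inner continuous_const

/-- the exponential factor -/
def VPROP_e (y : F) (ω : Metric.sphere (0 : F) 1) : ℂ :=
  Complex.exp (-(Complex.I * ((⟪(ω : F), y⟫ : ℝ) : ℂ)))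

lemma VPROP_e_cont (y : F) : Continuous (VPROP_e y) := by
  have := VPROP_cont_inner y
  unfold VPROP_e
  fun_prop

lemma VPROP_e_norm (y : F) (ω : Metric.sphere (0 : F) 1) : ‖VPROP_e y ω‖ = 1 := by
  unfold VPROP_e
  rw [Complex.norm_exp]
  simp

lemma VPROP_int (μ : Measure (Metric.sphere (0 : F) 1)) {f : Metric.sphere (0 : F) 1 → ℂ}
    (hf : Integrable f μ) (y : F) : Integrable (fun ω => f ω * VPROP_e y ω) μ :=
  hf.mul_bdd (c := 1) (VPROP_e_cont y).aestronglyMeasurable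
    (Eventually.of_forall fun ω => (VPROP_e_norm y ω).le)

lemma VPROP_int_inner (μ : Measure (Metric.sphere (0 : F) 1)) {f : Metric.sphere (0 : F) 1 → ℂ}
    (hf : Integrable f μ) (y : F) :
    Integrable (fun ω => f ω * (Complex.I * ((⟪(ω : F), y⟫ : ℝ) : ℂ))) μ := by
  have h := VPROP_cont_inner y
  refine hf.mul_bdd (c := ‖y‖) (by fun_prop) (Eventually.of_forall fun ω => ?_)
  rw [norm_mul, Complex.norm_I, one_mul, Complex.norm_real, Real.norm_eq_abs]
  exact VPROP_inner ω y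

/-- expansion of the extension at the origin -/
lemma VPROP_expand (μ : Measure (Metric.sphere (0 : F) 1)) {f : Metric.sphere (0 : F) 1 → ℂ}
    (hf : Integrable f μ) {y : F} (hy : ‖y‖ ≤ 1) :
    ‖(∫ ω, f ω * VPROP_e y ω ∂μ) - ∫ ω, f ω ∂μ +
      ∫ ω, f ω * (Complex.I * ((⟪(ω : F), y⟫ : ℝ) : ℂ)) ∂μ‖ ≤ (∫ ω, ‖f ω‖ ∂μ) * ‖y‖ ^ 2 := by
  have hsub : Integrable (fun ω => f ω * VPROP_e y ω - f ω) μ := (VPROP_int μ hf y).sub hf
  rw [← integral_sub (VPROP_int μ hf y) hf,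
    ← integral_add hsub (VPROP_int_inner μ hf y), ← integral_mul_const]
  refine norm_integral_le_of_norm_le (hf.norm.mul_const _) (Eventually.of_forall fun ω => ?_)
  have e : f ω * VPROP_e y ω - f ω + f ω * (Complex.I * ((⟪(ω : F), y⟫ : ℝ) : ℂ)) =
      f ω * (Complex.exp (-(Complex.I * ((⟪(ω : F), y⟫ : ℝ) : ℂ))) - 1 -
        (-(Complex.I * ((⟪(ω : F), y⟫ : ℝ) : ℂ)))) := by
    unfold VPROP_e
    ring
  rw [e, norm_mul]
  apply mul_le_mul_of_nonneg_left _ (norm_nonneg _)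
  have hn : ‖-(Complex.I * ((⟪(ω : F), y⟫ : ℝ) : ℂ))‖ ≤ ‖y‖ := by
    rw [norm_neg, norm_mul, Complex.norm_I, one_mul, Complex.norm_real, Real.norm_eq_abs]
    exact VPROP_inner ω y
  refine (Complex.norm_exp_sub_one_sub_id_le (hn.trans hy)).trans ?_
  exact pow_le_pow_left₀ (norm_nonneg _) hn 2

lemma VPROP_ext (f : Metric.sphere (0 : F) 1 → ℂ) (y : F) :
    Ext f y = ∫ ω, f ω * VPROP_e y ω ∂(prb F) := rfl

lemma VPROP_ext_zero (f : Metric.sphere (0 : F) 1 → ℂ) : Ext f 0 = ∫ ω, f ω ∂(prb F) := by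
  unfold Ext
  simp

/-- the first moment of `f` is real if the extension is maximal at the origin -/
lemma VPROP_im {f : Metric.sphere (0 : F) 1 → ℂ} (hf : Integrable f (prb F)) {m : ℝ}
    (h0 : Ext f 0 = (m : ℂ)) (hmax : ∀ y, ‖Ext f y‖ ≤ m) (y : F) :
    (∫ ω, f ω * (Complex.I * ((⟪(ω : F), y⟫ : ℝ) : ℂ)) ∂(prb F)).re = 0 := by
  set a : ℝ := (∫ ω, f ω * (Complex.I * ((⟪(ω : F), y⟫ : ℝ) : ℂ)) ∂(prb F)).re with ha
  set K : ℝ := (∫ ω, ‖f ω‖ ∂(prb F)) * ‖y‖ ^ 2 with hK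
  have hK0 : 0 ≤ K := mul_nonneg (integral_nonneg fun _ => norm_nonneg _) (by positivity)
  -- for small `t`
  have key : ∀ t : ℝ, |t| * ‖y‖ ≤ 1 → -(t * a) ≤ K * t ^ 2 := by
    intro t ht
    have hty : ‖t • y‖ ≤ 1 := by rw [norm_smul, Real.norm_eq_abs]; exact ht
    have h1 := VPROP_expand (prb F) hf hty
    rw [← VPROP_ext, ← VPROP_ext_zero, h0] at h1
    have e1 : ∫ ω, f ω * (Complex.I * ((⟪(ω : F), t • y⟫ : ℝ) : ℂ)) ∂(prb F) =
        (t : ℂ) * ∫ ω, f ω * (Complex.I * ((⟪(ω : F), y⟫ : ℝ) : ℂ)) ∂(prb F) := by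
      rw [← integral_const_mul]
      congr 1
      funext ω
      rw [real_inner_smul_right]
      push_cast
      ring
    rw [e1] at h1
    have h2 := (abs_le.1 (Complex.abs_re_le_norm (Ext f (t • y) - (m : ℂ) +
      (t : ℂ) * ∫ ω, f ω * (Complex.I * ((⟪(ω : F), y⟫ : ℝ) : ℂ)) ∂(prb F)))).1
    rw [Complex.add_re, Complex.sub_re, Complex.ofReal_re, Complex.re_ofReal_mul, ← ha] at h2
    have h3 : (Ext f (t • y)).re ≤ m := (Complex.re_le_norm _).trans (hmax _)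
    have h4 : (∫ ω, ‖f ω‖ ∂(prb F)) * ‖t • y‖ ^ 2 = K * t ^ 2 := by
      rw [norm_smul, mul_pow, Real.norm_eq_abs, sq_abs, hK]
      ring
    rw [h4] at h1
    linarith
  by_contra hne
  have ha2 : 0 < a ^ 2 := by positivity
  -- choose `t = - δ a`
  set δ : ℝ := 1 / (1 + K + |a| * ‖y‖) with hδ
  have hD : 0 < 1 + K + |a| * ‖y‖ := by positivity
  have hδ0 : 0 < δ := by positivity
  have h5 := key (-(δ * a)) (by
    rw [abs_neg, abs_mul, abs_of_pos hδ0, hδ, one_div, inv_mul_eq_div, div_mul_eq_mul_div,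
      div_le_one hD]
    linarith)
  have h6 : δ * a ^ 2 ≤ K * (δ ^ 2 * a ^ 2) := by
    have e1 : -(-(δ * a) * a) = δ * a ^ 2 := by ring
    have e2 : K * (-(δ * a)) ^ 2 = K * (δ ^ 2 * a ^ 2) := by ring
    rw [e1, e2] at h5
    exact h5
  have h7 : δ * a ^ 2 * (1 - K * δ) ≤ 0 := by
    have : δ * a ^ 2 * (1 - K * δ) = δ * a ^ 2 - K * (δ ^ 2 * a ^ 2) := by ring
    rw [this]
    linarith
  have h8 : 0 < 1 - K * δ := by
    rw [hδ, mul_one_div, sub_pos, div_lt_one hD]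
    have : 0 ≤ |a| * ‖y‖ := by positivity
    linarith
  have h9 : 0 < δ * a ^ 2 * (1 - K * δ) := by positivity
  linarith

end

/-- VPROP -/
theorem tVPROP (hI : T_INV) (hB : T_BASIC) (hE : T_EXTC) : T_VPROP := by
  intro F _ _ _ _ _ hF f hf hf1 m hm h0 hmax
  obtain ⟨hP, -⟩ := hI F hF
  obtain ⟨hB1, -⟩ := hB F hF
  have hfi : Integrable f (prb F) := hf.integrable (by norm_num)
  have hf2 : Integrable (fun ω => ‖f ω‖ ^ 2) (prb F) := hf.integrable_norm_pow (by norm_num)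
  have hfm : ∫ ω, f ω ∂(prb F) = (m : ℂ) := by rw [← VPROP_ext_zero, h0]
  have hre : ∫ ω, (f ω).re ∂(prb F) = m := by
    have h := integral_re hfi
    simp only [RCLike.re_to_complex] at h
    rw [h, hfm, Complex.ofReal_re]
  -- the variance
  have hvar : ∫ ω, ‖f ω - (m : ℂ)‖ ^ 2 ∂(prb F) = 1 - m ^ 2 := by
    have e : ∀ ω, ‖f ω - (m : ℂ)‖ ^ 2 = ‖f ω‖ ^ 2 - (2 * m) * (f ω).re + m ^ 2 := by
      intro ω
      rw [← Complex.normSq_eq_norm_sq, ← Complex.normSq_eq_norm_sq, Complex.normSq_apply,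
        Complex.normSq_apply, Complex.sub_re, Complex.sub_im, Complex.ofReal_re, Complex.ofReal_im]
      ring
    simp_rw [e]
    have i1 : Integrable (fun ω => (2 * m) * (f ω).re) (prb F) := hfi.re.const_mul _
    have i2 : Integrable (fun ω => ‖f ω‖ ^ 2 - (2 * m) * (f ω).re) (prb F) := hf2.sub i1
    rw [integral_add i2 (integrable_const _),
      integral_sub hf2 i1, integral_const_mul, hf1, hre, integral_const]
    simp
    ring
  have hm1 : m ^ 2 ≤ 1 := by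
    have : 0 ≤ ∫ ω, ‖f ω - (m : ℂ)‖ ^ 2 ∂(prb F) := integral_nonneg fun _ => by positivity
    linarith
  have hmle : m ≤ 1 := by nlinarith
  set ε : ℝ := √(1 - m ^ 2) with hε
  have hε0 : 0 ≤ ε := Real.sqrt_nonneg _
  have hε2 : ε ^ 2 = 1 - m ^ 2 := Real.sq_sqrt (by linarith)
  -- the function `g`
  obtain ⟨g, hg2, hgn, hg0, hfg, hgre⟩ : ∃ g : Metric.sphere (0 : F) 1 → ℂ,
      MemLp g 2 (prb F) ∧ ∫ ω, ‖g ω‖ ^ 2 ∂(prb F) ≤ 1 ∧ ∫ ω, g ω ∂(prb F) = 0 ∧
      (∀ᵐ ω ∂(prb F), f ω = (m : ℂ) + (ε : ℂ) * g ω) ∧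
      ∀ y : F, (∫ ω, g ω * (Complex.I * ((⟪(ω : F), y⟫ : ℝ) : ℂ)) ∂(prb F)).re = 0 := by
    rcases hε0.eq_or_lt with h | h
    · refine ⟨fun _ => 0, MemLp.zero, by simp, by simp, ?_, by simp⟩
      have h1 : ∫ ω, ‖f ω - (m : ℂ)‖ ^ 2 ∂(prb F) = 0 := by
        rw [hvar, ← hε2, ← h]
        norm_num
      have hint : Integrable (fun ω => ‖f ω - (m : ℂ)‖ ^ 2) (prb F) :=
        (hf.sub (memLp_const _)).integrable_norm_pow (by norm_num)
      have h2 := (integral_eq_zero_iff_of_nonneg (fun ω => by positivity) hint).1 h1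
      filter_upwards [h2] with ω hω
      have h3 : ‖f ω - (m : ℂ)‖ ^ 2 = 0 := hω
      have h4 : f ω - (m : ℂ) = 0 := norm_eq_zero.1 (pow_eq_zero_iff (by norm_num) |>.1 h3)
      rw [mul_zero, add_zero]
      exact sub_eq_zero.1 h4
    · have hεc : (ε : ℂ) ≠ 0 := by exact_mod_cast h.ne'
      refine ⟨fun ω => (ε : ℂ)⁻¹ * (f ω - (m : ℂ)), ?_, ?_, ?_, ?_, ?_⟩
      · exact (hf.sub (memLp_const _)).const_mul _
      · have e : ∀ ω, ‖(ε : ℂ)⁻¹ * (f ω - (m : ℂ))‖ ^ 2 =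
            (ε ^ 2)⁻¹ * ‖f ω - (m : ℂ)‖ ^ 2 := by
          intro ω
          rw [norm_mul, mul_pow, norm_inv, Complex.norm_real, Real.norm_eq_abs, abs_of_pos h,
            inv_pow]
        simp_rw [e]
        rw [integral_const_mul, hvar, ← hε2, inv_mul_cancel₀ (by positivity)]
      · rw [integral_const_mul, integral_sub hfi (integrable_const _), hfm, integral_const]
        simp
      · refine Eventually.of_forall fun ω => ?_
        field_simp
        ring
      · intro y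
        have hi1 := VPROP_int_inner (prb F) hfi y
        have hi2 := VPROP_int_inner (prb F)
          (integrable_const (μ := prb F) (c := (m : ℂ))) y
        have e : ∀ ω : Metric.sphere (0 : F) 1,
            (ε : ℂ)⁻¹ * (f ω - (m : ℂ)) * (Complex.I * ((⟪(ω : F), y⟫ : ℝ) : ℂ)) =
            ((ε⁻¹ : ℝ) : ℂ) * (f ω * (Complex.I * ((⟪(ω : F), y⟫ : ℝ) : ℂ)) -
              (m : ℂ) * (Complex.I * ((⟪(ω : F), y⟫ : ℝ) : ℂ))) := by
          intro ω
          push_cast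
          ring
        simp_rw [e]
        rw [integral_const_mul, integral_sub hi1 hi2, Complex.re_ofReal_mul, Complex.sub_re,
          VPROP_im hfi h0 hmax y]
        have e2 : ∫ ω : Metric.sphere (0 : F) 1,
            (m : ℂ) * (Complex.I * ((⟪(ω : F), y⟫ : ℝ) : ℂ)) ∂(prb F) =
            (m : ℂ) * (Complex.I * ((∫ ω : Metric.sphere (0 : F) 1, ⟪(ω : F), y⟫ ∂(prb F) : ℝ) : ℂ)) := by
          rw [integral_const_mul, integral_const_mul, integral_complex_ofReal]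
        rw [e2]
        simp
  have hgi : Integrable g (prb F) := hg2.integrable (by norm_num)
  have hgn1 : ∫ ω, ‖g ω‖ ∂(prb F) ≤ 1 := by
    have hgi2 : Integrable (fun ω => ‖g ω‖ ^ 2) (prb F) := hg2.integrable_norm_pow (by norm_num)
    have i1 : Integrable (fun ω => (1 / 2 : ℝ) + 1 / 2 * ‖g ω‖ ^ 2) (prb F) :=
      (integrable_const _).add (hgi2.const_mul _)
    have h1 : ∫ ω, ‖g ω‖ ∂(prb F) ≤ ∫ ω, ((1 / 2 : ℝ) + 1 / 2 * ‖g ω‖ ^ 2) ∂(prb F) := by
      apply integral_mono hgi.norm i1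
      intro ω
      have := sq_nonneg (‖g ω‖ - 1)
      simp only
      nlinarith
    rw [integral_add (integrable_const _) (hgi2.const_mul _), integral_const_mul,
      integral_const] at h1
    simp at h1
    linarith
  obtain ⟨-, hE2, hE3⟩ := hE F hF g hgi
  have hExt0 : Ext g 0 = 0 := by rw [VPROP_ext_zero, hg0]
  refine ⟨ε, g, hε0, hmle, by rw [hε2]; ring, hg2, hgn, hg0, hfg, ?_, ?_, ?_, ?_⟩
  · intro y
    have e1 : Ext f y = ∫ ω, ((m : ℂ) * (1 * VPROP_e y ω) +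
        (ε : ℂ) * (g ω * VPROP_e y ω)) ∂(prb F) := by
      rw [VPROP_ext]
      apply integral_congr_ae
      filter_upwards [hfg] with ω hω
      rw [hω]
      ring
    rw [e1, integral_add ((VPROP_int (prb F) (integrable_const 1) y).const_mul _)
      ((VPROP_int (prb F) hgi y).const_mul _), integral_const_mul (m : ℂ),
      integral_const_mul (ε : ℂ),
      ← VPROP_ext g y]
    have e2 : ∫ ω, 1 * VPROP_e y ω ∂(prb F) = ((u0 y : ℝ) : ℂ) := by
      rw [← hB1 y]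
      rfl
    rw [e2]
    push_cast
    ring
  · intro y
    exact (hE2 y).trans hgn1
  · intro y
    have h1 := hE3 y 0
    rw [hExt0, sub_zero, sub_zero] at h1
    refine h1.trans ?_
    have := mul_le_mul_of_nonneg_right hgn1 (norm_nonneg y)
    linarith
  · intro y hy
    have h1 := VPROP_expand (prb F) hgi hy
    rw [hg0, sub_zero, ← VPROP_ext] at h1
    have h2 := Complex.abs_re_le_norm (Ext g y +
      ∫ ω, g ω * (Complex.I * ((⟪(ω : F), y⟫ : ℝ) : ℂ)) ∂(prb F))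
    rw [Complex.add_re, hgre y, add_zero] at h2
    refine h2.trans (h1.trans ?_)
    have := mul_le_mul_of_nonneg_right hgn1 (sq_nonneg ‖y‖)
    linarith

end Pool.Agent.ExpMax
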